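import Pool.Agent.TPX.Asm2

/-!
# TPX, assembly, part 3: the statement of full T6 (all monadically NIP theories in countable languages)
-/

set_option autoImplicit false

namespace Pool.Agent.TPX

open FirstOrder.Language Set
open scoped FirstOrder
open Pool.Agent.WOM (CtT PerfT)

/-- THE THEOREM: Vaught's conjecture for monadically NIP theories -/
def St_T6F : Prop :=
  ∀ (L : FirstOrder.Language.{0, 0}), Countable L.Symbols → ∀ T : L.Theory,
    (∀ S : L.Structure ℕ, @FirstOrder.Language.Theory.Model L ℕ S T → @NipO L ℕ S) →
    CtT L T ∨ PerfT L T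

end Pool.Agent.TPX
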