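import Pool.Agent.TPX.Brg1

/-!
# TPX, bridge, part 2: linear pieces and free unions of clusters restrict to the countable saturated model `U`
-/

set_option autoImplicit false
set_option linter.unusedVariables false

namespace Pool.Agent.TPX

open FirstOrder.Language Set
open scoped FirstOrder
open Pool.Agent.MNO
open Pool.Agent.WOM (tp Mon IsEl IsoM CtU Fx Orb Isd)

section

variable {L : FirstOrder.Language.{0, 0}} {U V : Type} [L.Structure U] [L.Structure V] {i : U → V}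

theorem tq_fx {A : Set U} {g : U ≃[L] U} (hg : Fx L A g) {α : Type} (x : α → U) :
    Tq L A x (fun j => g (x j)) := fun P hP h => (dp_fx hP hg x).2 h

/-- orthogonality for all finite index types -/
theorem lin_ort {A E : Set V} {lt : V → V → Prop} (h : LinV L A E lt) {α β : Type} [Finite α] [Finite β]
    {u u' : α → V} {w w' : β → V} (hu : ∀ i, u i ∈ E) (hw : ∀ j, w j ∈ E) (h1 : Sq L A u u')
    (h2 : Sq L A w w') (h3 : ∀ i j, lt (u i) (w j)) (h4 : ∀ i j, lt (u' i) (w' j)) :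
    Sq L A (Sum.elim u w) (Sum.elim u' w') := by
  obtain ⟨m, ⟨e⟩⟩ := Finite.exists_equiv_fin α
  obtain ⟨n, ⟨f⟩⟩ := Finite.exists_equiv_fin β
  have h5 := h.ort m n (fun i => u (e.symm i)) (fun i => u' (e.symm i)) (fun j => w (f.symm j))
    (fun j => w' (f.symm j)) (fun _ => hu _) (fun _ => hw _) (sq_sub h1 _) (sq_sub h2 _)
    (fun _ _ => h3 _ _) (fun _ _ => h4 _ _)
  refine sq_congr (sq_sub h5 (Sum.map e f : α ⊕ β → Fin m ⊕ Fin n)) ?_ ?_ <;>
  · funext k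
    rcases k with k | k
    · simp only [Sum.map_inl, Sum.elim_inl, Equiv.symm_apply_apply]
    · simp only [Sum.map_inr, Sum.elim_inr, Equiv.symm_apply_apply]

theorem fre_ort {A E : Set V} {cl : V → V → Prop} (h : FreV L A E cl) {α β : Type} [Finite α] [Finite β]
    {u u' : α → V} {w w' : β → V} (hu : ∀ i, u i ∈ E) (hw : ∀ j, w j ∈ E) (h1 : Sq L A u u')
    (h2 : Sq L A w w') (h3 : ∀ i j, ¬ cl (u i) (w j)) (h4 : ∀ i j, ¬ cl (u' i) (w' j)) :
    Sq L A (Sum.elim u w) (Sum.elim u' w') := by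
  obtain ⟨m, ⟨e⟩⟩ := Finite.exists_equiv_fin α
  obtain ⟨n, ⟨f⟩⟩ := Finite.exists_equiv_fin β
  have h5 := h.ort m n (fun i => u (e.symm i)) (fun i => u' (e.symm i)) (fun j => w (f.symm j))
    (fun j => w' (f.symm j)) (fun _ => hu _) (fun _ => hw _) (sq_sub h1 _) (sq_sub h2 _)
    (fun _ _ => h3 _ _) (fun _ _ => h4 _ _)
  refine sq_congr (sq_sub h5 (Sum.map e f : α ⊕ β → Fin m ⊕ Fin n)) ?_ ?_ <;>
  · funext k
    rcases k with k | k
    · simp only [Sum.map_inl, Sum.elim_inl, Equiv.symm_apply_apply]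
    · simp only [Sum.map_inr, Sum.elim_inr, Equiv.symm_apply_apply]

theorem s1_eta (a : Fin 1 → V) : s1 (a 0) = a := by
  funext k
  rw [Subsingleton.elim k 0]
  rfl

/-- the position over `C` determines the type over `C` -/
theorem lin_lim {B C E : Set V} {lt : V → V → Prop} (hL : LinV L B E lt) (hCf : C.Finite)
    {x u : V} (hx : x ∈ E) (hxu : Sq L B (s1 x) (s1 u))
    (hpos : ∀ c ∈ C, c ∈ E → (lt c x ∧ lt c u) ∨ (lt x c ∧ lt u c)) : Tq L C (s1 x) (s1 u) := by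
  have hu : u ∈ E := hL.tqE x u (tq_of_sq hxu) hx
  obtain ⟨k, d, hd⟩ := exists_enum (hCf.subset (fun c hc => hc.1) :
    {c | c ∈ C ∧ c ∈ E ∧ lt c x ∧ lt c u}.Finite)
  obtain ⟨l, w, hw⟩ := exists_enum (hCf.subset (fun c hc => hc.1) :
    {c | c ∈ C ∧ c ∈ E ∧ lt x c ∧ lt u c}.Finite)
  obtain ⟨n, o, ho⟩ := exists_enum (hCf.subset (fun c hc => hc.1) : {c | c ∈ C ∧ c ∉ E}.Finite)
  have hd' : ∀ j, d j ∈ C ∧ d j ∈ E ∧ lt (d j) x ∧ lt (d j) u := fun j => by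
    have h1 : d j ∈ range d := ⟨j, rfl⟩
    rw [hd] at h1
    exact h1
  have hw' : ∀ j, w j ∈ C ∧ w j ∈ E ∧ lt x (w j) ∧ lt u (w j) := fun j => by
    have h1 : w j ∈ range w := ⟨j, rfl⟩
    rw [hw] at h1
    exact h1
  have ho' : ∀ j, o j ∈ C ∧ o j ∉ E := fun j => by
    have h1 : o j ∈ range o := ⟨j, rfl⟩
    rw [ho] at h1
    exact h1
  have h1 : Sq L B (Sum.elim d (s1 x)) (Sum.elim d (s1 u)) :=
    lin_ort hL (fun j => (hd' j).2.1) (fun _ => hx) (sq_refl B d) hxu (fun j _ => (hd' j).2.2.1)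
      (fun j _ => (hd' j).2.2.2)
  have h2 : Sq L B (Sum.elim (Sum.elim d (s1 x)) w) (Sum.elim (Sum.elim d (s1 u)) w) := by
    refine lin_ort hL ?_ (fun j => (hw' j).2.1) h1 (sq_refl B w) ?_ ?_
    · rintro (j | j)
      · exact (hd' j).2.1
      · exact hx
    · rintro (j | j) j'
      · exact hL.tra _ (hd' j).2.1 _ hx _ (hw' j').2.1 (hd' j).2.2.1 (hw' j').2.2.1
      · exact (hw' j').2.2.1
    · rintro (j | j) j'
      · exact hL.tra _ (hd' j).2.1 _ hx _ (hw' j').2.1 (hd' j).2.2.1 (hw' j').2.2.1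
      · exact (hw' j').2.2.2
  have h3 := bf_prd hL.bf (w := o) (by
    rintro ((j | j) | j)
    · exact (hd' j).2.1
    · exact hx
    · exact (hw' j).2.1) (fun j => (ho' j).2) h2
  have h4 : Tq L B (Sum.elim (s1 x) (Sum.elim (Sum.elim d w) o)) (Sum.elim (s1 u) (Sum.elim (Sum.elim d w) o)) := by
    refine tq_congr (tq_of_sq (sq_sub h3 (Sum.elim (fun j => Sum.inl (Sum.inl (Sum.inr j)))
      (Sum.elim (Sum.elim (fun j => Sum.inl (Sum.inl (Sum.inl j))) (fun j => Sum.inl (Sum.inr j)))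
        (fun j => Sum.inr j))))) ?_ ?_ <;>
    · funext j
      rcases j with j | (j | j) | j <;> rfl
  have h5 := tq_fam.2 h4
  refine tq_mono ?_ h5
  intro c hc
  right
  by_cases hcE : c ∈ E
  · rcases hpos c hc hcE with h6 | h6
    · have h7 : c ∈ range d := by
        rw [hd]
        exact ⟨hc, hcE, h6⟩
      obtain ⟨j, rfl⟩ := h7
      exact ⟨Sum.inl (Sum.inl j), rfl⟩
    · have h7 : c ∈ range w := by
        rw [hw]
        exact ⟨hc, hcE, h6⟩
      obtain ⟨j, rfl⟩ := h7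
      exact ⟨Sum.inl (Sum.inr j), rfl⟩
  · have h7 : c ∈ range o := by
      rw [ho]
      exact ⟨hc, hcE⟩
    obtain ⟨j, rfl⟩ := h7
    exact ⟨Sum.inr j, rfl⟩

/-- limits -/
theorem lim_ex (hC : Cx L V) {ι : Type} (𝒰 : Ultrafilter ι) (y : ι → V) {C : Set V} (hCc : C.Countable) :
    ∃ u : V, ∀ E : (Fin 1 → V) → (Fin 1 → V) → Prop, FE L C E → {k | E (s1 (y k)) (s1 u)} ∈ 𝒰 := by
  have hr : GT L (fun P : (Fin 1 → V) → Prop => Dp L (univ : Set V) P ∧ {k | P (s1 (y k))} ∈ 𝒰) := by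
    refine ⟨fun P hP => hP.1, fun P hP => ?_, fun P Q hP hQ => ⟨dp_and hP.1 hQ.1, Filter.inter_mem hP.2 hQ.2⟩,
      fun P hP => ?_⟩
    · obtain ⟨k, hk⟩ := Ultrafilter.nonempty_of_mem hP.2
      exact ⟨_, hk⟩
    · rcases Ultrafilter.mem_or_compl_mem 𝒰 {k | P (s1 (y k))} with h1 | h1
      · exact Or.inl ⟨hP, h1⟩
      · exact Or.inr ⟨dp_not hP, h1⟩
  obtain ⟨u, hu⟩ := gt_real hC hr hCc
  refine ⟨u 0, fun E hE => ?_⟩
  rw [s1_eta]
  exact (hu E hE).2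

theorem fe_pair {C : Set V} {c : V} (hc : c ∈ C) {F : (Fin 2 → V) → (Fin 2 → V) → Prop} (hF : FE L C F) :
    FE L C (fun z z' : Fin 1 → V => F ![z 0, c] ![z' 0, c]) := by
  have h1 := fe_add (fe_sub hF (![Sum.inl 0, Sum.inr ()] : Fin 2 → Fin 1 ⊕ Unit)) (c := fun _ => c)
    (fun _ => hc)
  have e : (fun z z' : Fin 1 → V => F ![z 0, c] ![z' 0, c]) = fun z z' : Fin 1 → V =>
      F (fun k => (Sum.elim z (fun _ : Unit => c)) ((![Sum.inl 0, Sum.inr ()] : Fin 2 → Fin 1 ⊕ Unit) k))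
        (fun k => (Sum.elim z' (fun _ : Unit => c)) ((![Sum.inl 0, Sum.inr ()] : Fin 2 → Fin 1 ⊕ Unit) k)) := by
    funext z z'
    congr 1 <;>
    · funext k
      fin_cases k <;> rfl
  rw [e]
  exact h1

theorem img_pair (x y : U) : (fun k => i ((![x, y] : Fin 2 → U) k)) = ![i x, i y] := by
  funext k
  fin_cases k <;> rfl

theorem aut_pair (g : U → U) (x y : U) : (fun k => g ((![x, y] : Fin 2 → U) k)) = ![g x, g y] := by
  funext k
  fin_cases k <;> rfl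

/-- moving a point of `V` into `U` -/
theorem mv (hi : Emb L i) (hM : Mon L U) {B D : Set U} (hB : B.Finite) (hD : D.Finite) (z : V) :
    ∃ y : U, (∀ (n : ℕ) (d : Fin n → U), (∀ k, d k ∈ D) →
      Tq L (i '' B) (Sum.elim (fun k => i (d k)) (s1 z)) (Sum.elim (fun k => i (d k)) (s1 (i y)))) := by
  obtain ⟨w, hw⟩ := rlz hi hM (hB.union hD) (s1 z)
  refine ⟨w 0, fun n d hd => ?_⟩
  have h1 := tq_sub (tq_add hw (fun k => i (d k)) (fun k => ⟨d k, Or.inr (hd k), rfl⟩))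
    (Sum.swap : Fin n ⊕ Fin 1 → Fin 1 ⊕ Fin n)
  refine tq_congr (tq_mono (image_mono subset_union_left) h1) ?_ ?_
  · funext k
    rcases k with k | k <;> rfl
  · funext k
    rcases k with k | k
    · rfl
    · show i (w 0) = i (w k)
      rw [Subsingleton.elim k 0]

theorem mv1 {B : Set U} {D : Set U} {z : V} {y : U} (h : ∀ (n : ℕ) (d : Fin n → U), (∀ k, d k ∈ D) →
      Tq L (i '' B) (Sum.elim (fun k => i (d k)) (s1 z)) (Sum.elim (fun k => i (d k)) (s1 (i y)))) :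
    Tq L (i '' B) (s1 z) (s1 (i y)) := tq_sub (h 0 Fin.elim0 (fun k => k.elim0)) Sum.inr

theorem mv2 {B : Set U} {D : Set U} {z : V} {y : U} (h : ∀ (n : ℕ) (d : Fin n → U), (∀ k, d k ∈ D) →
      Tq L (i '' B) (Sum.elim (fun k => i (d k)) (s1 z)) (Sum.elim (fun k => i (d k)) (s1 (i y)))) {d : U}
    (hd : d ∈ D) : Tq L (i '' B) ![i d, z] ![i d, i y] := by
  refine tq_congr (tq_sub (h 1 (fun _ => d) (fun k => hd)) (![Sum.inl 0, Sum.inr 0] : Fin 2 → Fin 1 ⊕ Fin 1)) ?_ ?_ <;>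
  · funext k
    fin_cases k <;> rfl

theorem mv2' {B : Set U} {D : Set U} {z : V} {y : U} (h : ∀ (n : ℕ) (d : Fin n → U), (∀ k, d k ∈ D) →
      Tq L (i '' B) (Sum.elim (fun k => i (d k)) (s1 z)) (Sum.elim (fun k => i (d k)) (s1 (i y)))) {d : U}
    (hd : d ∈ D) : Tq L (i '' B) ![z, i d] ![i y, i d] := by
  refine tq_congr (tq_sub (h 1 (fun _ => d) (fun k => hd)) (![Sum.inr 0, Sum.inl 0] : Fin 2 → Fin 1 ⊕ Fin 1)) ?_ ?_ <;>
  · funext k
    fin_cases k <;> rfl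

theorem sq_pt (hi : Emb L i) {B : Set U} (hB : B.Finite) {x y : U} :
    Sq L (i '' B) (s1 (i x)) (s1 (i y)) ↔ Sq L B (s1 x) (s1 y) := sq_emb hi hB (s1 x) (s1 y)

theorem nx_pt (hM : Mon L U) {B : Set U} (hB : B.Finite) {x y : U} (h : Sq L B (s1 x) (s1 y)) :
    ∃ g : U ≃[L] U, Nx L B g ∧ g x = y := by
  obtain ⟨g, hg, hgx⟩ := nx_of_sq hM hB h
  exact ⟨g, hg, hgx 0⟩

end

end Pool.Agent.TPX
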