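import Pool.Agent.TPX.StF
import Pool.Agent.TPX.Brg2

/-!
# TPX, module CUP (helper73): the order of a linear piece is closed on strong types of pairs
-/

set_option autoImplicit false
set_option linter.unusedVariables false

namespace Pool.Agent.TPX

open FirstOrder.Language Set
open scoped FirstOrder
open Pool.Agent.MNO

section cup

variable {L : FirstOrder.Language.{0, 0}} {U : Type} [L.Structure U] {A P : Set U} {lt : U → U → Prop}

/-- countably many types over a finite set -/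
theorem cup_types (hC : Cx L U) {B : Set U} (hB : B.Finite) :
    ∃ q : ℕ → U, ∀ x, ∃ n, Tq L B (s1 x) (s1 (q n)) := by
  classical
  obtain ⟨k, b, rfl⟩ := exists_enum hB
  obtain ⟨s, hs, hs'⟩ := hC.sml (1 + k)
  obtain ⟨u0⟩ := hC.ne
  have h1 : ∀ t : Fin (1 + k) → U, ∃ y : U, (∃ x : U, Tq L (∅ : Set U) (Fin.append (s1 x) b) t) →
      Tq L (∅ : Set U) (Fin.append (s1 y) b) t := by
    intro t
    by_cases h : ∃ x : U, Tq L (∅ : Set U) (Fin.append (s1 x) b) t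
    · obtain ⟨x, hx⟩ := h
      exact ⟨x, fun _ => hx⟩
    · exact ⟨u0, fun h' => absurd h' h⟩
  choose y hy using h1
  have hne : s.Nonempty := by
    obtain ⟨t, ht, -⟩ := hs' (fun _ => u0)
    exact ⟨t, ht⟩
  obtain ⟨e, he⟩ := hs.exists_eq_range hne
  refine ⟨fun n => y (e n), fun x => ?_⟩
  obtain ⟨t, ht, hxt⟩ := hs' (Fin.append (s1 x) b)
  rw [he] at ht
  obtain ⟨n, rfl⟩ := ht
  refine ⟨n, ?_⟩
  have h2 := hy (e n) ⟨x, hxt⟩
  have h3 : Tq L (∅ : Set U) (Fin.append (s1 x) b) (Fin.append (s1 (y (e n))) b) :=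
    tq_trans hxt (tq_symm h2)
  have h4 : Tq L (∅ : Set U) (Sum.elim (s1 x) b) (Sum.elim (s1 (y (e n))) b) := by
    have h6 : ∀ w : U, (fun i => Fin.append (s1 w) b
        ((Sum.elim (Fin.castAdd k) (Fin.natAdd 1) : Fin 1 ⊕ Fin k → Fin (1 + k)) i)) = Sum.elim (s1 w) b := by
      intro w
      funext j
      rcases j with j | j
      · exact Fin.append_left (s1 w) b j
      · exact Fin.append_right (s1 w) b j
    have h7 := tq_sub h3 (Sum.elim (Fin.castAdd k) (Fin.natAdd 1) : Fin 1 ⊕ Fin k → Fin (1 + k))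
    rw [h6, h6] at h7
    exact h7
  have h5 := tq_fam.2 h4
  rw [empty_union] at h5
  exact h5

/-- compactness for one element -/
theorem cup_cmp (hC : Cx L U) {B : Set U} (hB : B.Countable) {ι : Type} (R : ι → (Fin 1 → U) → Prop)
    (hR : ∀ k, Dp L B (R k)) (h : ∀ s : Set ι, s.Finite → ∃ x : U, ∀ k ∈ s, R k (s1 x)) :
    ∃ x : U, ∀ k, R k (s1 x) := by
  classical
  obtain ⟨v, hv⟩ := sat_dp hC hB (F := range R) (by
    rintro _ ⟨k, rfl⟩
    exact hR k) (by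
    intro G hG hfin
    choose f hf using fun P : G => hG P.2
    have := hfin.to_subtype
    obtain ⟨x, hx⟩ := h (range f) (finite_range f)
    refine ⟨s1 x, fun P hP => ?_⟩
    have h1 := hx _ (mem_range_self (⟨P, hP⟩ : G))
    rw [hf] at h1
    exact h1)
  refine ⟨v 0, fun k => ?_⟩
  rw [s1_eta]
  exact hv _ ⟨k, rfl⟩

theorem cup_lt (hl : ∀ x y x' y' : U, Tq L A ![x, y] ![x', y'] → x ∈ P → y ∈ P → lt x y → lt x' y')
    {b z z' : U} (hb : b ∈ P) (hz : z ∈ P) (h : Tq L (insert b A) (s1 z) (s1 z')) (hlt : lt b z) : lt b z' := by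
  refine hl b z b z' ?_ hb hz hlt
  have h1 := tq_add h (fun _ : Fin 1 => b) (fun _ => mem_insert b A)
  refine tq_mono (subset_insert b A) (tq_congr (tq_sub h1 (![Sum.inr 0, Sum.inl 0] : Fin 2 → Fin 1 ⊕ Fin 1)) ?_ ?_) <;>
  · funext k
    fin_cases k <;> rfl

/-- orthogonality to one point below -/
theorem cup_ort (hO : LO L A P lt) {b z z' : U} (hb : b ∈ P) (hz : z ∈ P) (hs : Sq L A (s1 z) (s1 z'))
    (h : lt b z) (h' : lt b z') : Sq L (insert b A) (s1 z) (s1 z') := by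
  have h1 := hO.ort 1 (s1 z) (s1 z') {b} ∅ (finite_singleton b) finite_empty (by
    rintro _ rfl
    exact hb) (empty_subset _) (fun _ => hz) hs (by
    rintro _ rfl i
    exact ⟨h, h'⟩) (fun w hw => absurd hw (notMem_empty _))
  rw [union_empty, union_singleton] at h1
  exact h1

/-- a point above `b` with the same strong type -/
theorem cup_up (hO : LO L A P lt) {b z : U} (hb : b ∈ P) (hz : z ∈ P) :
    ∃ z', Sq L A (s1 z) (s1 z') ∧ lt b z' := by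
  obtain ⟨z', h1, h2, -⟩ := hO.lo0.gap {b} ∅ (finite_singleton b) finite_empty (by
    rintro _ rfl
    exact hb) (empty_subset _) (fun _ _ w hw => absurd hw (notMem_empty _)) z hz
  exact ⟨z', h1, h2 b rfl⟩

/-- the Baire argument -/
theorem cup_one (hC : Cx L U) (hO : LO L A P lt) (hP : ∀ x y : U, Tq L A (s1 x) (s1 y) → x ∈ P → y ∈ P)
    (hl : ∀ x y x' y' : U, Tq L A ![x, y] ![x', y'] → x ∈ P → y ∈ P → lt x y → lt x' y')
    {c b₀ : U} (hc : c ∈ P) (hb₀ : b₀ ∈ P) :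
    ∃ (z₀ : U) (E₀ : (Fin 1 → U) → (Fin 1 → U) → Prop), Tq L A (s1 c) (s1 z₀) ∧ lt b₀ z₀ ∧ FE L A E₀ ∧
      ∀ z', Tq L A (s1 c) (s1 z') → lt b₀ z' → E₀ (s1 z₀) (s1 z') → Tq L (insert b₀ A) (s1 z₀) (s1 z') := by
  classical
  have hA : A.Finite := hO.lo0.fin
  by_contra hcon
  push Not at hcon
  obtain ⟨q, hq⟩ := cup_types hC (hA.insert b₀)
  -- the states
  let St : Type := {s : U × ((Fin 1 → U) → (Fin 1 → U) → Prop) //
    Tq L A (s1 c) (s1 s.1) ∧ lt b₀ s.1 ∧ FE L A s.2}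
  have step : ∀ (n : ℕ) (s : St), ∃ s' : St, (∀ u v, s'.1.2 u v → s.1.2 u v) ∧
      s.1.2 (s1 s.1.1) (s1 s'.1.1) ∧ ∀ z', Tq L A (s1 c) (s1 z') → lt b₀ z' → s'.1.2 (s1 s'.1.1) (s1 z') →
        ¬ Tq L (insert b₀ A) (s1 z') (s1 (q n)) := by
    rintro n ⟨⟨z, E⟩, hz, hbz, hE⟩
    by_cases h : ∃ z', Tq L A (s1 c) (s1 z') ∧ lt b₀ z' ∧ E (s1 z) (s1 z') ∧
        Tq L (insert b₀ A) (s1 z') (s1 (q n))
    · obtain ⟨z', hz', hbz', hEz', hqz'⟩ := h
      obtain ⟨z'', hz'', hbz'', hEz'', hnz''⟩ := hcon z' E hz' hbz' hE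
      have hP' : z' ∈ P := hP c z' hz' hc
      have hP'' : z'' ∈ P := hP c z'' hz'' hc
      -- a finer relation
      have h1 : ∃ E' : (Fin 1 → U) → (Fin 1 → U) → Prop, FE L A E' ∧ (∀ u v, E' u v → E u v) ∧
          ∀ x, E' (s1 z'') (s1 x) → ¬ Tq L (insert b₀ A) (s1 x) (s1 (q n)) := by
        by_contra hno
        push Not at hno
        obtain ⟨x, hx⟩ := cup_cmp hC (B := A ∪ {z''} ∪ {b₀})
          (((hA.union (finite_singleton _)).union (finite_singleton _)).countable)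
          (ι := {E' : (Fin 1 → U) → (Fin 1 → U) → Prop // FE L A E'} ⊕
            {Q : (Fin 1 → U) → Prop // Dp L (insert b₀ A) Q ∧ Q (s1 (q n))})
          (fun k => match k with
            | Sum.inl E' => fun v => E'.1 v (s1 z'')
            | Sum.inr Q => Q.1) (by
            rintro (⟨E', hE'⟩ | ⟨Q, hQ, hQ'⟩)
            · refine dp_mono ?_ (fe_cls hE' (s1 z''))
              rintro y (hy | ⟨j, rfl⟩)
              · exact Or.inl (Or.inl hy)
              · exact Or.inl (Or.inr rfl)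
            · refine dp_mono ?_ hQ
              rintro y (rfl | hy)
              · exact Or.inr rfl
              · exact Or.inl (Or.inl hy)) (by
            intro s hs
            obtain ⟨E₁, hE₁, hE₁'⟩ := fe_inf (A := A) (G := insert E ((fun k : {E' : (Fin 1 → U) →
                (Fin 1 → U) → Prop // FE L A E'} => k.1) '' (Sum.inl ⁻¹' s)))
              (((hs.preimage Sum.inl_injective.injOn).image _).insert _) (by
                rintro _ (rfl | ⟨E', -, rfl⟩)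
                · exact hE
                · exact E'.2)
            obtain ⟨x, hx, hx'⟩ := hno E₁ hE₁ (hE₁' E (mem_insert _ _))
            refine ⟨x, ?_⟩
            rintro (E' | Q) hk
            · exact hE₁'  E'.1 (mem_insert_of_mem _ ⟨E', hk, rfl⟩) _ _ (hE₁.eqv.symm hx)
            · exact (tq_iff hx' Q.2.1).2 Q.2.2)
        have h2 : Sq L A (s1 z'') (s1 x) := fun E' hE' => hE'.eqv.symm (hx (Sum.inl ⟨E', hE'⟩))
        have h3 : Tq L (insert b₀ A) (s1 (q n)) (s1 x) := fun Q hQ hQ' => hx (Sum.inr ⟨Q, hQ, hQ'⟩)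
        have h4 : Tq L (insert b₀ A) (s1 z') (s1 x) := tq_trans hqz' h3
        have h5 : lt b₀ x := cup_lt hl hb₀ hP' h4 hbz'
        have h6 := cup_ort hO hb₀ hP'' h2 hbz'' h5
        exact hnz'' (tq_trans h4 (tq_symm (tq_of_sq h6)))
      obtain ⟨E', hE', hfin, hno⟩ := h1
      refine ⟨⟨(z'', E'), hz'', hbz'', hE'⟩, hfin, hE.eqv.trans hEz' hEz'', fun x _ _ hx => hno x hx⟩
    · push Not at h
      exact ⟨⟨(z, E), hz, hbz, hE⟩, fun u v h => h, hE.eqv.refl _, fun z' h1 h2 h3 h4 =>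
        h z' h1 h2 h3 h4⟩
  choose f hf1 hf2 hf3 using step
  obtain ⟨z₀, hz₀, hbz₀⟩ := cup_up hO hb₀ hc
  let st : ℕ → St := fun n => Nat.rec ⟨(z₀, fun _ _ => True), tq_of_sq hz₀, hbz₀, fe_top A⟩ f n
  have hst : ∀ n, st (n + 1) = f n (st n) := fun n => rfl
  have hmono : ∀ m n, m ≤ n → ∀ u v, (st n).1.2 u v → (st m).1.2 u v := by
    intro m n hmn
    induction n, hmn using Nat.le_induction with
    | base => exact fun u v h => h
    | succ n hmn ih =>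
      intro u v h
      refine ih u v ?_
      rw [hst] at h
      exact hf1 n (st n) u v h
  have hch : ∀ m n, m ≤ n → (st m).1.2 (s1 (st m).1.1) (s1 (st n).1.1) := by
    intro m n hmn
    induction n, hmn using Nat.le_induction with
    | base => exact (st m).2.2.2.eqv.refl _
    | succ n hmn ih =>
      refine (st m).2.2.2.eqv.trans ih (hmono m n hmn _ _ ?_)
      rw [hst]
      exact hf2 n (st n)
  -- the limit
  obtain ⟨x, hx⟩ := cup_cmp hC (B := A ∪ range fun n => (st n).1.1)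
    (hA.countable.union (countable_range _))
    (ι := ℕ ⊕ {Q : (Fin 1 → U) → Prop // Dp L A Q ∧ Q (s1 c)})
    (fun k => match k with
      | Sum.inl n => fun v => (st n).1.2 v (s1 (st n).1.1)
      | Sum.inr Q => Q.1) (by
      rintro (n | ⟨Q, hQ, hQ'⟩)
      · refine dp_mono ?_ (fe_cls (st n).2.2.2 (s1 (st n).1.1))
        rintro y (hy | ⟨j, rfl⟩)
        · exact Or.inl hy
        · exact Or.inr ⟨n, rfl⟩
      · exact dp_mono subset_union_left hQ) (by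
      intro s hs
      obtain ⟨N, hN⟩ : ∃ N, ∀ n, Sum.inl n ∈ s → n ≤ N := by
        obtain ⟨N, hN⟩ := (hs.preimage (f := (Sum.inl : ℕ → _)) Sum.inl_injective.injOn).bddAbove
        exact ⟨N, fun n hn => hN hn⟩
      refine ⟨(st N).1.1, ?_⟩
      rintro (n | Q) hk
      · exact (st n).2.2.2.eqv.symm (hch n N (hN n hk))
      · exact (tq_iff (st N).2.1 Q.2.1).1 Q.2.2)
  have hxc : Tq L A (s1 c) (s1 x) := fun Q hQ hQ' => hx (Sum.inr ⟨Q, hQ, hQ'⟩)
  have hxP : x ∈ P := hP c x hxc hc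
  obtain ⟨y, hxy, hby⟩ := cup_up hO hb₀ hxP
  obtain ⟨n, hn⟩ := hq y
  refine hf3 n (st n) y (tq_trans hxc (tq_of_sq hxy)) hby ?_ hn
  rw [← hst]
  have h1 : (st (n + 1)).1.2 (s1 x) (s1 (st (n + 1)).1.1) := hx (Sum.inl (n + 1))
  exact (st (n + 1)).2.2.2.eqv.trans ((st (n + 1)).2.2.2.eqv.symm h1) (hxy _ (st (n + 1)).2.2.2)

/-- invariance of the conclusion of `cup_one` -/
theorem cup_inv (hC : Cx L U) (hA : A.Finite) (hP : ∀ x y : U, Tq L A (s1 x) (s1 y) → x ∈ P → y ∈ P)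
    (hl : ∀ x y x' y' : U, Tq L A ![x, y] ![x', y'] → x ∈ P → y ∈ P → lt x y → lt x' y')
    {E₀ : (Fin 1 → U) → (Fin 1 → U) → Prop} (hE : FE L A E₀) {c z₀ b₀ z₁ b₁ : U} (hc : c ∈ P) (hb₁ : b₁ ∈ P)
    (h : Tq L A ![z₀, b₀] ![z₁, b₁])
    (h0 : ∀ z', Tq L A (s1 c) (s1 z') → lt b₀ z' → E₀ (s1 z₀) (s1 z') → Tq L (insert b₀ A) (s1 z₀) (s1 z')) :
    ∀ z', Tq L A (s1 c) (s1 z') → lt b₁ z' → E₀ (s1 z₁) (s1 z') → Tq L (insert b₁ A) (s1 z₁) (s1 z') := by
  intro z' hz' hlt hEz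
  obtain ⟨w, hw⟩ := tq_ext hC hA.countable (tq_symm h) (fun _ : Fin 1 => z')
  have h1 : Tq L A (s1 z') (s1 (w 0)) :=
    tq_congr (tq_sub hw (fun _ : Fin 1 => (Sum.inr 0 : Fin 2 ⊕ Fin 1))) rfl rfl
  have h2 : Tq L A ![b₁, z'] ![b₀, w 0] := by
    refine tq_congr (tq_sub hw (![Sum.inl 1, Sum.inr 0] : Fin 2 → Fin 2 ⊕ Fin 1)) ?_ ?_ <;>
    · funext k
      fin_cases k <;> rfl
  have h3 : E₀ (s1 z₀) (s1 (w 0)) := by
    have h4 := tq_iff hw (dp_sub hE.dfn (Sum.elim (fun _ => Sum.inl 0) (fun _ => Sum.inr 0) :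
      Fin 1 ⊕ Fin 1 → Fin 2 ⊕ Fin 1))
    exact h4.1 hEz
  have h5 : Tq L (insert b₀ A) (s1 z₀) (s1 (w 0)) :=
    h0 _ (tq_trans hz' h1) (hl _ _ _ _ h2 hb₁ (hP c z' hz' hc) hlt) h3
  have h6 : Tq L A ![z₀, b₀] ![w 0, b₀] := by
    have h7 := tq_mono (subset_insert b₀ A) (tq_sub (tq_add h5 (fun _ : Fin 1 => b₀) (fun _ => mem_insert _ _))
      (![Sum.inl 0, Sum.inr 0] : Fin 2 → Fin 1 ⊕ Fin 1))
    refine tq_congr h7 ?_ ?_ <;>
    · funext k
      fin_cases k <;> rfl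
  have h8 : Tq L A ![z', b₁] ![w 0, b₀] := by
    refine tq_congr (tq_sub hw (![Sum.inr 0, Sum.inl 1] : Fin 2 → Fin 2 ⊕ Fin 1)) ?_ ?_ <;>
    · funext k
      fin_cases k <;> rfl
  have h9 : Tq L A ![z₁, b₁] ![z', b₁] := tq_trans (tq_symm h) (tq_trans h6 (tq_symm h8))
  have h10 : Tq L (A ∪ range fun _ : Fin 1 => b₁) (s1 z₁) (s1 z') := by
    refine tq_fam.2 (tq_congr (tq_sub h9 (Sum.elim (fun _ => 0) (fun _ => 1) : Fin 1 ⊕ Fin 1 → Fin 2)) ?_ ?_) <;>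
    · funext k
      rcases k with k | k <;> rfl
  refine tq_mono ?_ h10
  rintro y (rfl | hy)
  · exact Or.inr ⟨0, rfl⟩
  · exact Or.inl hy

end cup

theorem thm_CUP : St_CUP := by
  classical
  intro L U _ hC A P lt hO hP hl b hb c hc H
  have hA : A.Finite := hO.lo0.fin
  obtain ⟨z₀, E₀, hz₀, hbz₀, hE₀, h0⟩ := cup_one hC hO hP hl hc hb
  -- move `z₀` to `c`
  obtain ⟨w, hw⟩ := tq_ext hC hA.countable (tq_symm hz₀) (fun _ : Fin 1 => b)
  have hb₂ : w 0 ∈ P := hP b (w 0)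
    (tq_congr (tq_sub hw (fun _ : Fin 1 => (Sum.inr 0 : Fin 1 ⊕ Fin 1))) rfl rfl) hb
  have hzb : Tq L A ![z₀, b] ![c, w 0] := by
    refine tq_congr (tq_sub hw (![Sum.inl 0, Sum.inr 0] : Fin 2 → Fin 1 ⊕ Fin 1)) ?_ ?_ <;>
    · funext k
      fin_cases k <;> rfl
  have hzb' : Tq L A ![b, z₀] ![w 0, c] := by
    refine tq_congr (tq_sub hw (![Sum.inr 0, Sum.inl 0] : Fin 2 → Fin 1 ⊕ Fin 1)) ?_ ?_ <;>
    · funext k
      fin_cases k <;> rfl
  have hz₀P : z₀ ∈ P := hP c z₀ hz₀ hc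
  have hlt₂ : lt (w 0) c := hl _ _ _ _ hzb' hb hz₀P hbz₀
  have h2 := cup_inv hC hA hP hl hE₀ hc hb₂ hzb h0
  -- move `w 0` above `b`
  obtain ⟨b₁, hb₁s, hbb₁⟩ := cup_up hO hb hb₂
  have hb₁ : b₁ ∈ P := hP _ _ (tq_of_sq hb₁s) hb₂
  obtain ⟨t, ht⟩ := sq_ext hC hA.countable hb₁s (fun _ : Fin 1 => c)
  have hct : Sq L A (s1 c) (s1 (t 0)) := by
    refine sq_congr (sq_sub ht (fun _ : Fin 1 => (Sum.inr 0 : Fin 1 ⊕ Fin 1))) ?_ ?_ <;>
    · funext k
      fin_cases k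
      rfl
  have hcb : Sq L A ![w 0, c] ![b₁, t 0] := by
    refine sq_congr (sq_sub ht (![Sum.inl 0, Sum.inr 0] : Fin 2 → Fin 1 ⊕ Fin 1)) ?_ ?_ <;>
    · funext k
      fin_cases k <;> rfl
  have hcb' : Sq L A ![c, w 0] ![t 0, b₁] := by
    refine sq_congr (sq_sub ht (![Sum.inr 0, Sum.inl 0] : Fin 2 → Fin 1 ⊕ Fin 1)) ?_ ?_ <;>
    · funext k
      fin_cases k <;> rfl
  have ht : t 0 ∈ P := hP _ _ (tq_of_sq hct) hc
  have hlt₁ : lt b₁ (t 0) := hl _ _ _ _ (tq_of_sq hcb) hb₂ hc hlt₂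
  have h3 := cup_inv hC hA hP hl hE₀ hc hb₁ (tq_of_sq hcb') h2
  -- the points `z^F`
  have h4 : ∀ F : (Fin 2 → U) → (Fin 2 → U) → Prop, FE L A F → ∃ x : U, F ![x, b] ![c, b] ∧
      Tq L (insert b₁ A) (s1 (t 0)) (s1 x) := by
    intro F hF
    have hF' : FE L A (fun u v : Fin 2 → U => F u v ∧ E₀ (s1 (u 0)) (s1 (v 0))) :=
      fe_inter hF (fe_sub hE₀ (fun _ : Fin 1 => (0 : Fin 2)))
    obtain ⟨z, hz, hcz, hbz, hFz, hEz⟩ := H _ hF'
    obtain ⟨x, hzx, hbx⟩ := cup_up hO hb₁ hz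
    have hxP : x ∈ P := hP _ _ (tq_of_sq hzx) hz
    have hbx' : lt b x := hO.lo0.tra b hb b₁ hb₁ x hxP hbb₁ hbx
    have h5 := cup_ort hO hb hz hzx hbz hbx'
    have h6 : F ![x, b] ![z, b] := hF.eqv.symm (h5 _ (fe_pair (mem_insert b A) (fe_mono (subset_insert b A) hF)))
    refine ⟨x, hF.eqv.trans h6 hFz, h3 x (tq_trans hcz (tq_of_sq hzx)) hbx ?_⟩
    refine hE₀.eqv.trans (hE₀.eqv.symm (hct E₀ hE₀)) (hE₀.eqv.trans (hE₀.eqv.symm ?_) (hzx E₀ hE₀))
    exact hEz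
  obtain ⟨x, hx⟩ := cup_cmp hC (B := A ∪ {b} ∪ {c} ∪ {b₁})
    ((((hA.union (finite_singleton _)).union (finite_singleton _)).union (finite_singleton _)).countable)
    (ι := {F : (Fin 2 → U) → (Fin 2 → U) → Prop // FE L A F} ⊕
      {Q : (Fin 1 → U) → Prop // Dp L (insert b₁ A) Q ∧ Q (s1 (t 0))})
    (fun k => match k with
      | Sum.inl F => fun v => F.1 ![v 0, b] ![c, b]
      | Sum.inr Q => Q.1) (by
      rintro (⟨F, hF⟩ | ⟨Q, hQ, hQ'⟩)
      · have h5 : FE L (insert b A) (fun z z' : Fin 1 → U => F ![z 0, b] ![z' 0, b]) := fe_pair (mem_insert b A)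
          (fe_mono (subset_insert b A) hF)
        refine dp_mono ?_ (fe_cls h5 (s1 c))
        rintro y ((rfl | hy) | ⟨j, rfl⟩)
        · exact Or.inl (Or.inl (Or.inr rfl))
        · exact Or.inl (Or.inl (Or.inl hy))
        · exact Or.inl (Or.inr rfl)
      · refine dp_mono ?_ hQ
        rintro y (rfl | hy)
        · exact Or.inr rfl
        · exact Or.inl (Or.inl (Or.inl hy))) (by
      intro s hs
      obtain ⟨E₁, hE₁, hE₁'⟩ := fe_inf (A := A) (G := (fun k : {F : (Fin 2 → U) → (Fin 2 → U) → Prop //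
          FE L A F} => k.1) '' (Sum.inl ⁻¹' s)) ((hs.preimage Sum.inl_injective.injOn).image _) (by
            rintro _ ⟨F, -, rfl⟩
            exact F.2)
      obtain ⟨x, hx, hx'⟩ := h4 E₁ hE₁
      refine ⟨x, ?_⟩
      rintro (F | Q) hk
      · exact hE₁' F.1 ⟨F, hk, rfl⟩ _ _ hx
      · exact (tq_iff hx' Q.2.1).1 Q.2.2)
  have h5 : Sq L A ![x, b] ![c, b] := fun F hF => hx (Sum.inl ⟨F, hF⟩)
  have h6 : Tq L (insert b₁ A) (s1 (t 0)) (s1 x) := fun Q hQ hQ' => hx (Sum.inr ⟨Q, hQ, hQ'⟩)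
  have h7 : lt b₁ x := cup_lt hl hb₁ ht h6 hlt₁
  have hxP : x ∈ P := hP _ _ (tq_mono (subset_insert b₁ A) h6) ht
  have h8 : lt b x := hO.lo0.tra b hb b₁ hb₁ x hxP hbb₁ h7
  refine hO.lo0.inv b x b c ?_ hb hxP h8
  refine sq_congr (sq_sub h5 (![1, 0] : Fin 2 → Fin 2)) ?_ ?_ <;>
  · funext k
    fin_cases k <;> rfl

end Pool.Agent.TPX
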