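import Pool.Agent.TPX.Defs

/-!
# TPX: the interface between the structure theory in the countably saturated model `V` and the counting part
(`Pool/Agent/TPC`) in the countable saturated model `U`.

`HypV L V` is what the structure theory has to prove (context `Cx L V`, no automorphisms, everything in terms of
`Sq`, `Tq`, `BF`, `Pc`).  The bridge (`TPX/Brg*.lean`) deduces `TPC.Hyp L U`.
-/

set_option autoImplicit false
set_option linter.unusedVariables false

namespace Pool.Agent.TPX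

open FirstOrder.Language Set
open scoped FirstOrder
open Pool.Agent.MNO (Dp FE Sq Exa)

section

variable (L : FirstOrder.Language.{0, 0}) {U : Type} [L.Structure U]

/-- Linear pieces.  `lt x y`: the cluster of `x` is strictly before the cluster of `y`; clusters are the classes of
`neither lt x y nor lt y x`.  `tqE`, `tql`: invariance under equality of types (NOT only strong types) over `A`.
`ort`: orthogonality of the parts before and after a cut.  `gap`: every strong type over `A` in `E` occurs in every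
gap, above and below (`D`, `W` may be empty).  `cup`, `cdn`: the relation `lt` is closed on the strong types over `A`
of the pairs `(z, b)`, `z` in one complete type over `A`. -/
structure LinV (A E : Set U) (lt : U → U → Prop) : Prop where
  fin : A.Finite
  ne : E.Nonempty
  bf : BF L A E
  tqE : ∀ x y : U, Tq L A (s1 x) (s1 y) → x ∈ E → y ∈ E
  tql : ∀ x y x' y' : U, Tq L A ![x, y] ![x', y'] → x ∈ E → y ∈ E → lt x y → lt x' y'
  irr : ∀ x ∈ E, ¬ lt x x
  tra : ∀ x ∈ E, ∀ y ∈ E, ∀ z ∈ E, lt x y → lt y z → lt x z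
  neg : ∀ x ∈ E, ∀ y ∈ E, ∀ z ∈ E, lt x z → lt x y ∨ lt y z
  ort : ∀ (m n : ℕ) (u u' : Fin m → U) (w w' : Fin n → U), (∀ i, u i ∈ E) → (∀ j, w j ∈ E) →
    Sq L A u u' → Sq L A w w' → (∀ i j, lt (u i) (w j)) → (∀ i j, lt (u' i) (w' j)) →
    Sq L A (Sum.elim u w) (Sum.elim u' w')
  gap : ∀ D W : Set U, D.Finite → W.Finite → D ⊆ E → W ⊆ E → (∀ d ∈ D, ∀ w ∈ W, lt d w) → ∀ z ∈ E,
    ∃ z' : U, Sq L A (s1 z) (s1 z') ∧ (∀ d ∈ D, lt d z') ∧ ∀ w ∈ W, lt z' w
  cup : ∀ b ∈ E, ∀ c ∈ E, (∀ F : (Fin 2 → U) → (Fin 2 → U) → Prop, FE L A F →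
    ∃ z ∈ E, Tq L A (s1 c) (s1 z) ∧ lt b z ∧ F ![z, b] ![c, b]) → lt b c
  cdn : ∀ b ∈ E, ∀ c ∈ E, (∀ F : (Fin 2 → U) → (Fin 2 → U) → Prop, FE L A F →
    ∃ z ∈ E, Tq L A (s1 c) (s1 z) ∧ lt z b ∧ F ![z, b] ![c, b]) → lt c b

/-- Free unions of clusters.  `tqE`, `tqc`: invariance under equality of types over `A`.  `ort`: tuples in different
clusters are orthogonal.  `inf`: every strong type over `A` in `E` occurs in infinitely many clusters. -/
structure FreV (A E : Set U) (cl : U → U → Prop) : Prop where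
  fin : A.Finite
  bf : BF L A E
  tqE : ∀ x y : U, Tq L A (s1 x) (s1 y) → x ∈ E → y ∈ E
  tqc : ∀ x y x' y' : U, Tq L A ![x, y] ![x', y'] → x ∈ E → y ∈ E → cl x y → cl x' y'
  rfl : ∀ x ∈ E, cl x x
  sym : ∀ x ∈ E, ∀ y ∈ E, cl x y → cl y x
  tra : ∀ x ∈ E, ∀ y ∈ E, ∀ z ∈ E, cl x y → cl y z → cl x z
  ort : ∀ (m n : ℕ) (u u' : Fin m → U) (w w' : Fin n → U), (∀ i, u i ∈ E) → (∀ j, w j ∈ E) →
    Sq L A u u' → Sq L A w w' → (∀ i j, ¬ cl (u i) (w j)) → (∀ i j, ¬ cl (u' i) (w' j)) →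
    Sq L A (Sum.elim u w) (Sum.elim u' w')
  inf : ∀ z ∈ E, ∀ D : Set U, D.Finite → D ⊆ E →
    ∃ z' : U, Sq L A (s1 z) (s1 z') ∧ ∀ d ∈ D, ¬ cl d z'

/-- The piece of `z` over `A y` is inner: a copy `(y', z')` of `(y, z)` over `A` has the piece of `z'` over `A y'` inside
the cluster of `y'` in a linear piece over some `B ⊇ A`, and this piece misses `B`. -/
def InrV (A : Set U) (y z : U) : Prop :=
  ∃ (B : Set U) (y' z' : U) (E : Set U) (lt : U → U → Prop), B.Finite ∧ A ⊆ B ∧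
    Sq L A ![y, z] ![y', z'] ∧ LinV L B E lt ∧ y' ∈ E ∧ Disjoint (Pc L (insert y' A) z') B ∧
    ∀ v ∈ Pc L (insert y' A) z', v ∈ E ∧ ¬ lt y' v ∧ ¬ lt v y'

/-- pieces which can be classified in `n` steps -/
def NiceV : ℕ → Set U → U → Prop
  | 0, A, x => Pc L A x = {x} ∨ (∃ lt, LinV L A (Pc L A x) lt) ∨
      ∃ E cl, FreV L A E cl ∧ Pc L A x ⊆ E
  | n + 1, A, x => NiceV n A x ∨
      ∀ y ∈ Pc L A x, ∀ z ∈ Pc L A x, InrV L A y z ∨ NiceV n (insert y A) z

variable (U) in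
/-- what the structure theory has to prove -/
structure HypV : Prop where
  rea : ∀ (A : Set U) (x : U), A.Finite → (∃ s : Set U, s.Finite ∧ Pc L A x ⊆ s) ∨
    ∃ (B E : Set U), B.Finite ∧ A ⊆ B ∧ ((∃ lt, LinV L B E lt) ∨ ∃ cl, FreV L B E cl) ∧
      ∀ y ∈ Pc L A x, ∃ z ∈ E, Sq L A (s1 y) (s1 z)
  nic : ∀ (A : Set U) (x : U), A.Finite → ∃ n, NiceV L n A x

end

end Pool.Agent.TPX
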