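import Pool.Agent.TPX.StN
import Pool.Agent.TPX.DefB
import Pool.Agent.TPX.Tqp

/-!
# TPX: statements, third part (helper58), with proofs in the docstrings: free ends, linear ends, canonicity,
assembly of `HypV`.

Notation of `StN.lean`: `r` is a type of elements, `e(B) := En L B r` for finite `B ⊇ A`.  `Gd L A r`: `GT`, `Nal`, `Inv A`.
FREE: `TS L A r`, no nested pair over any finite `B ⊇ A`.  LINEAR: `NF L A r`.
`NNL`: `c ∉ e(B)` implies `e(B c) = e(B)` (ENC (4)).  `OF` over `B`: `of` of `Fr3.lean` for a member of `BF B`.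
-/

set_option autoImplicit false
set_option linter.unusedVariables false

namespace Pool.Agent.TPX

open FirstOrder.Language Set
open scoped FirstOrder
open Pool.Agent.MNO (Dp FE Sq Exa)

section

variable (L : FirstOrder.Language.{0, 0}) {U : Type} [L.Structure U]

/-- `r` is a type of elements which is not realised and invariant over `A` -/
structure Gd (A : Set U) (r : ((Fin 1 → U) → Prop) → Prop) : Prop where
  gt : GT L r
  nal : Nal r
  inv : Inv L A r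

/-- no nested pairs at all above `A` -/
def TS (A : Set U) (r : ((Fin 1 → U) → Prop) → Prop) : Prop := ∀ B : Set U, A ⊆ B → B.Finite → N0 L B r

/-- `P` is one piece over `A` with a linear order of clusters; `orl`: orthogonality to the points above. -/
structure LO0 (A P : Set U) (lt : U → U → Prop) : Prop where
  fin : A.Finite
  ne : P.Nonempty
  pc : ∀ x ∈ P, Pc L A x = P
  inv : ∀ x y x' y' : U, Sq L A ![x, y] ![x', y'] → x ∈ P → y ∈ P → lt x y → lt x' y'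
  irr : ∀ x ∈ P, ¬ lt x x
  tra : ∀ x ∈ P, ∀ y ∈ P, ∀ z ∈ P, lt x y → lt y z → lt x z
  neg : ∀ x ∈ P, ∀ y ∈ P, ∀ z ∈ P, lt x z → lt x y ∨ lt y z
  gap : ∀ D W : Set U, D.Finite → W.Finite → D ⊆ P → W ⊆ P → (∀ d ∈ D, ∀ w ∈ W, lt d w) → ∀ z ∈ P,
    ∃ z' : U, Sq L A (s1 z) (s1 z') ∧ (∀ d ∈ D, lt d z') ∧ ∀ w ∈ W, lt z' w
  orl : ∀ (m : ℕ) (u u' : Fin m → U) (W : Set U), W.Finite → W ⊆ P → (∀ i, u i ∈ P) → Sq L A u u' →
    (∀ w ∈ W, ∀ i, lt (u i) w ∧ lt (u' i) w) → Sq L (A ∪ W) u u'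

/-- `LO0` and orthogonality in both directions.  This is symmetric under reversing `lt`.
NOTE: `Sq L (A ∪ D) u u'` is much stronger than `Sq L A (u, D) (u', D)`. -/
structure LO (A P : Set U) (lt : U → U → Prop) : Prop where
  lo0 : LO0 L A P lt
  ort : ∀ (m : ℕ) (u u' : Fin m → U) (D W : Set U), D.Finite → W.Finite → D ⊆ P → W ⊆ P → (∀ i, u i ∈ P) →
    Sq L A u u' → (∀ d ∈ D, ∀ i, lt d (u i) ∧ lt d (u' i)) → (∀ w ∈ W, ∀ i, lt (u i) w ∧ lt (u' i) w) →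
    Sq L (A ∪ D ∪ W) u u'

/-- the order is invariant under equality of types over two points of different clusters (symmetric under reversing) -/
structure LQ (A P : Set U) (lt : U → U → Prop) : Prop where
  lo : LO L A P lt
  cn : ∀ y₁ y₂ u v u' v' : U, y₁ ∈ P → y₂ ∈ P → u ∈ P → v ∈ P → (lt y₁ y₂ ∨ lt y₂ y₁) →
    Tq L A ![y₁, y₂, u, v] ![y₁, y₂, u', v'] → lt u v → lt u' v'

/-- the order of a linear end -/
def ltr (A : Set U) (r : ((Fin 1 → U) → Prop) → Prop) (x y : U) : Prop := y ∈ En L (insert x A) r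

end

/-! ### Free ends -/

/-- [NNS] NNL for finite sets.
PROOF.  Induction on `S`, ENC (4), (2). -/
def St_NNS : Prop :=
  ∀ (L : FirstOrder.Language.{0, 0}) (U : Type) [L.Structure U], Cx L U →
    ∀ (r : ((Fin 1 → U) → Prop) → Prop) (A : Set U), A.Finite → Gd L A r →
    ∀ C S : Set U, A ⊆ C → C.Finite → S.Finite → (∀ s ∈ S, s ∉ En L C r) → En L (C ∪ S) r = En L C r

/-- [PER] independence is symmetric.
PROOF.  Induction on `n`, step `n → n + 1`.  `k = n`: definition (ENC (2)).  `k < n`: let `C = B ∪ {x i | i < n, i ≠ k}`; `x k ∈ e(C)` by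
induction; `x n ∈ e(B ∪ pre x n) = e(C x_k)`, so `x n ∈ e(C)` (ENC (2)) and `N0 C` gives `x k ∈ e(C x_n)`. -/
def St_PER : Prop :=
  ∀ (L : FirstOrder.Language.{0, 0}) (U : Type) [L.Structure U], Cx L U →
    ∀ (r : ((Fin 1 → U) → Prop) → Prop) (A : Set U), A.Finite → Gd L A r → TS L A r →
    ∀ B : Set U, A ⊆ B → B.Finite → ∀ (n : ℕ) (x : ℕ → U), Ind L B r n x → ∀ k < n,
    x k ∈ En L (B ∪ {v | ∃ i < n, i ≠ k ∧ v = x i}) r

/-- [SON] stationarity in a free end.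
PROOF.  (1) Induction on `B \ A`; `B = B' c`, `y, z ∈ e(B)`.  `c ∉ e(B')`: `e(B) = e(B')`, `Sq B' y z` by induction, OF over `B'`.
`c ∈ e(B')`: `y, z ∈ e(B' c) ⊆ e(B')`, `Sq B' y z` by induction; REA: `t ∈ e(B' c y z)`, `Sq B' y t`.  `Sq (B' c) y t` (and, by the
same argument, `Sq (B' c) z t`): `y ∈ e(B' c)`, so `c ∈ e(B' y)` (`N0 B'`); `t ∈ e(B' y c)` and `c ∈ e(B' y)`, `t ∈ e(B' y)`, so
`c ∈ e(B' y t)` (`N0 (B' y)`); STA over `B'`.
(2) Induction on `n`: `sq_ext`: `t` with `Sq B (x_(<n), x_n) (x'_(<n), t)`; `t, x'_n ∈ e(B ∪ pre x' n)` (ENC (3)), `Sq A t x'_n`, (1). -/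
def St_SON : Prop :=
  ∀ (L : FirstOrder.Language.{0, 0}) (U : Type) [L.Structure U], Cx L U →
    ∀ (r : ((Fin 1 → U) → Prop) → Prop) (A : Set U), A.Finite → Gd L A r → TS L A r →
    ∀ B : Set U, A ⊆ B → B.Finite →
    (∀ y ∈ En L B r, ∀ z ∈ En L B r, Sq L A (s1 y) (s1 z) → Sq L B (s1 y) (s1 z)) ∧
    ∀ (n : ℕ) (x x' : ℕ → U), Ind L B r n x → Ind L B r n x' → (∀ k < n, Sq L A (s1 (x k)) (s1 (x' k))) →
      Sq L B (fun i : Fin n => x i) (fun i : Fin n => x' i)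

/-- [TRG] independence is trivial in a free end.
PROOF.  Two points first: `y ∈ e(B a)`, `y ∈ e(B c)` implies `y ∈ e(B a c)`, for all finite `B ⊇ A`.  Suppose not.  `a ∈ e(B)`
(otherwise `e(B c a) = e(B c)`, NNL), `c ∈ e(B)`, `c ∈ e(B a)` (otherwise `e(B a c) = e(B a)`), and `c ∉ e(B a y)` (otherwise
`N0 (B a)` for `c`, `y` gives `y ∈ e(B a c)`); `c ∈ e(B y)` by `N0 B`.  Let `K` be arbitrary; `a_0, .., a_(K-1), u_0, .., u_(K-1)` an
independent sequence over `B` with `Sq B a_k a`, `Sq B u_l y` (REA).  `(a, y)` is independent over `B`, and so is `(a_i, u_j)`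
(PER), so `Sq B (a_i, u_j) (a, y)` (SON), `c_ij` with `Sq B (a_i, u_j, c_ij) (a, y, c)`.  So `c_ij ∈ e(B a_i)`, `c_ij ∈ e(B u_j)`,
`c_ij ∉ e(B a_i u_j)` (ENC (3)).  For `(k, l) ≠ (i, j)` the triple `(c_ij, a_k, u_l)` is independent over `B`: `e(B a_i u_j D c_ij) =
e(B a_i u_j D)` for all finite `D` (NNL); `k ≠ i`, `l ≠ j`: `a_k ∈ e(B a_i u_j) = e(B a_i u_j c_ij) ⊆ e(B c_ij)`,
`u_l ∈ e(B a_i u_j a_k) = e(B a_i u_j a_k c_ij) ⊆ e(B c_ij a_k)` (PER).  `k = i`, `l ≠ j`: `c_ij ∈ e(B)`, `a_i ∈ e(B c_ij)`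
(`N0 B`), `u_l ∈ e(B a_i u_j) = e(B a_i u_j c_ij) ⊆ e(B c_ij a_i)`.  `k ≠ i`, `l = j`: the triple `(c_ij, u_j, a_k)` in the same way, and
PER.  Let `c*` be in `e(B a y)` with `Sq B c c*` (REA); `(c*, a, y)` is independent (PER), so `Sq B (c_ij, a_k, u_l) (c*, a, y)` for
`(k, l) ≠ (i, j)` (SON), but not `Sq B (c*, a, y) (c, a, y)` (ENC (3)): let `E` in `FE B` with not `E (c*, a, y) (c, a, y)`.
`P (x, v, w) := E (w, x, v) (c, a, y)` is definable over `B`, `a`, `y`, `c` and `P (a_k, u_l, c_ij) ↔ (k, l) = (i, j)`: CDP.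
General case: induction on the number of elements of `X`, for all `B`.  `x₀ ∈ X`: `y ∈ e(B x₀)`, and for `x ∈ X` `y ∈ e(B x₀ x)` by
the first part; induction for `B x₀` and `X \ {x₀}`. -/
def St_TRG : Prop :=
  ∀ (L : FirstOrder.Language.{0, 0}) (U : Type) [L.Structure U], Cx L U →
    ∀ (r : ((Fin 1 → U) → Prop) → Prop) (A : Set U), A.Finite → Gd L A r → TS L A r →
    ∀ (B X : Set U) (y : U), A ⊆ B → B.Finite → X.Finite → y ∈ En L B r → (∀ x ∈ X, y ∈ En L (insert x B) r) →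
    y ∈ En L (B ∪ X) r

/-- [ORS] orthogonality in a free end.
PROOF.  (1) Induction on `n` (the first `k` entries of `w`).  Let `B = A ∪ {w_i | i < k}`, `Sq B u u'`, `c = w_k`.  All `u_i`, `u'_i` are in
`e(B)` and in `e(B c)` (TRG, over `A`).  `c ∉ e(B)`: OF over `B`: `Sq (B c) u u'`.  `c ∈ e(B)`: for `x ∈ B` not in `A`: `c ∈ e(A x)`
(ENC (2)); `c ∈ e(A u_i)`: `N0 A` for `u_i ∈ e(A c)`, `c ∈ e(A)`; so `c ∈ e(B ∪ range u ∪ range u')` (TRG): STA: `Sq (B c) u u'`.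
(2) `sq_ext`: `u''` with `Sq A (u, w) (u'', w')`.  `w'_j ∈ e(A u''_i)` (ENC (3)), so `u''_i ∈ e(A w'_j)`, `u'_i ∈ e(A w'_j)` (`N0 A`);
`Sq A u'' u'`; (1): `Sq (A ∪ range w') u'' u'`, so `Sq A (u'', w') (u', w')` (`sq_add`). -/
def St_ORS : Prop :=
  ∀ (L : FirstOrder.Language.{0, 0}) (U : Type) [L.Structure U], Cx L U →
    ∀ (r : ((Fin 1 → U) → Prop) → Prop) (A : Set U), A.Finite → Gd L A r → TS L A r →
    (∀ (α : Type) [Finite α] (n : ℕ) (u u' : α → U) (w : Fin n → U), Sq L A u u' →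
      (∀ i j, u i ∈ En L (insert (w j) A) r) → (∀ i j, u' i ∈ En L (insert (w j) A) r) →
      (∀ i, u i ∈ En L A r) → Sq L (A ∪ range w) u u') ∧
    ∀ (α β : Type) [Finite α] [Finite β] (u u' : α → U) (w w' : β → U), Sq L A u u' → Sq L A w w' →
      (∀ i, u i ∈ En L A r) → (∀ j, w j ∈ En L A r) → (∀ i j, w j ∈ En L (insert (u i) A) r) →
      (∀ i j, w' j ∈ En L (insert (u' i) A) r) → Sq L A (Sum.elim u w) (Sum.elim u' w')

/-! ### Linear ends -/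

/-- [LMX] a point beyond all elements of a finite set.
PROOF.  `D` empty: clear.  (`NF A`, ENC.)  For `x, y, z ∈ e(A)`: `y ∈ e(A x)`, `z ∈ e(A y)` imply `x ∉ e(A y)` (`NF`), `e(A y x) = e(A y)`
(NNL), `z ∈ e(A x)`: transitivity; `x ∉ e(A x)` (ENC (5)).  So there is a maximal `m ∈ D`: `d ∉ e(A m)` for all `d ∈ D`.  NNS:
`e(A m ∪ D) = e(A m)`, and `A m ∪ D = A ∪ D`. -/
def St_LMX : Prop :=
  ∀ (L : FirstOrder.Language.{0, 0}) (U : Type) [L.Structure U], Cx L U →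
    ∀ (r : ((Fin 1 → U) → Prop) → Prop) (A : Set U), A.Finite → Gd L A r → NF L A r →
    ∀ (D : Set U) (w : U), D.Finite → D ⊆ En L A r → w ∈ En L A r → (∀ d ∈ D, w ∈ En L (insert d A) r) →
    w ∈ En L (A ∪ D) r

/-- [LOF] a linear end is a linear piece.
PROOF.  `lt x y ↔ y ∈ e(A x)`.  `pc`, `ne`, `inv`, `irr`: ENC (7), (6), (3), (5).  `tra`: see LMX.  `neg`: `z ∈ e(A x)`, `y ∉ e(A x)`:
`z ∈ e(A x) = e(A x y) ⊆ e(A y)`.
`gap`: REA: `z₁ ∈ e(A ∪ D)`, `Sq A z z₁`.  `W` empty: done.  Otherwise let `w₀` be minimal in `W` (no `w ∈ W` with `lt w w₀`);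
`w₀ ∈ e(A ∪ D)` (LMX).  REA over `A ∪ D`: `w₀' ∈ e(A ∪ D ∪ {z₁})`, `Sq (A ∪ D) w₀ w₀'`.  Let `ω` be an enumeration of `W`; `sq_ext`:
`Sq (A ∪ D) (w₀, ω) (w₀', ω')`.  Not `lt (ω_j) w₀`, so not `lt (ω'_j) w₀'`, and `lt z₁ w₀'`, so `lt z₁ (ω'_j)` (`neg`).  `sq_ext`: `z'` with
`Sq (A ∪ D) (ω', z₁) (ω, z')`: `Sq A z z'`, `lt z' (ω_j)`, and `z' ∈ e(A ∪ D)` (ENC (3)).
`orl`: `gap`: `y` above `range u ∪ range u'` and below `W`.  `y ∈ e(A ∪ range u ∪ range u')` (LMX), STA: `Sq (A y) u u'`.  `W ⊆ e(A y)`,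
`u_i`, `u'_i ∉ e(A y)` (`NF`), the complement of `e(A y)` is in `BF (A y)` (BXX, `bf_compl`): `of`: `Sq (A y ∪ W) u u'`. -/
def St_LOF : Prop :=
  ∀ (L : FirstOrder.Language.{0, 0}) (U : Type) [L.Structure U], Cx L U →
    ∀ (r : ((Fin 1 → U) → Prop) → Prop) (A : Set U), A.Finite → Gd L A r → NF L A r →
    LO0 L A (En L A r) (ltr L A r)

/-- [LBN] orthogonality to the points below, and in both directions.
PROOF.  (0) A copy `δ'` of a tuple `δ` in `P` (`Sq A δ δ'`) below a finite set `X ⊆ P`: `gap`: `t` above `δ`, `t'` with `Sq A t t'` below `X`;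
`sq_ext`: `Sq A (t, δ) (t', δ')`; `tra`.  Copies above `X`: the same.
(1) `W` empty.  `D = range δ` (`exists_enum`), `E ∈ FE (A ∪ D)`; FAM: a family `F` over `A`, `F δ = E`.  `bnd` for `a = u` and
`R x x' :=` there is `δ'` with `Sq A δ δ'`, `δ'` below `x` and `x'`, and `F δ' x x'`.  This is equivalent to: for all such `δ'` (and there
are such `δ'` by (0)): if `δ'`, `δ''` are two then `orl` gives `Sq (A ∪ range x ∪ range x') δ' δ''`, so `F δ' x x' ↔ F δ'' x x'`.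
Symmetry and transitivity: (0) for the entries of the three tuples.  Invariance: `sq_ext`.  `k`: `fe_num` for `E`; `δ'` below all
`z_i`; `sq_ext`: `Sq A (δ', z) (δ, z°)`, `F δ' z_i z_j ↔ E z°_i z°_j`.  So `R u u'`, and `δ` is below `u`, `u'`: `E u u'`.
(2) General case; `m = 0`: clear.  `D = range δ`, `W = range ω`, `E ∈ FE (A ∪ D ∪ W)`, `F (δ, ω) = E`.  `bnd` for
`R x x' :=` there are `δ'`, `ω'` with `Sq A (δ, ω) (δ', ω')`, `δ'` below and `ω'` above `x`, `x'`, and `F (δ', ω') x x'`.  Equivalently: for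
all such `δ'`, `ω'`: for `δ''`, `ω''`: `orl` for `δ'`, `δ''` and the points `x`, `x'`, `ω'`, (1) for `ω'`, `ω''` and the points `x`, `x'`,
`δ''`.  Existence for finite `X`: `δ'` below `X`, `ω'` above `X` and `δ'` ((0)); `Sq A (δ, ω) (δ', ω')`: `sq_ext`: `Sq A (δ, ω) (δ'', ω')`, `orl`:
`Sq (A ∪ range ω') δ'' δ'`.  The rest as in (1). -/
def St_LBN : Prop :=
  ∀ (L : FirstOrder.Language.{0, 0}) (U : Type) [L.Structure U], Cx L U →
    ∀ (A P : Set U) (lt : U → U → Prop), LO0 L A P lt → LO L A P lt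

/-- [LOH] calculus of linear pieces.
PROOF.  (1) clear.  (2) `P_y := {v ∈ P | lt y v}`.  In `BF (A y)`: `inv`: `inv` of `LO0`.  `prd`: `u, u'` in `P_y`, `Sq (A y) u u'`,
`w = (w¹, w²)`, `w¹` in `P` but not in `P_y`, `w²` outside `P`.  `lt w¹_j u_i`, `lt w¹_j u'_i` (`neg`: `lt y u_i`).  `ort` for
`D = {y} ∪ range w¹`: `Sq (A ∪ D) u u'`; `of` for `P ∈ BF A` (`pc`, `pc_bf`): `Sq (A ∪ D ∪ range w²) u u'`; `sq_add`.
`ne`: `gap`.  `pc`: `⊆` by `pc_sub`.  Let `v, v' ∈ P_y`, `Q ∈ BF (A y)`, `v ∈ Q`, and suppose `v' ∉ Q`; `Q₁ := P_y ∩ Q` (`bf_inter`).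
`gap`: `v₁` with `Sq A v v₁`, `lt v' v₁`, `lt y v₁`; `v₂` with `Sq A v v₂`, `lt y v₂`, `lt v₂ v'`.  `ort` (`D = {y}`): `Sq (A y) v v₁`,
`Sq (A y) v v₂`, so `v₁, v₂ ∈ Q₁`; `prd`: `Sq (A y) (v₁, v') (v₂, v')`; `lt v' v₁`, so `lt v' v₂`: contradiction.  `inv`: `sq_mono`.
`orl`, `ort` over `A y`: `ort` over `A` for `D ∪ {y}`.  `gap`: `gap` for `D ∪ {y}`, and `Sq (A y) z z'` by `ort`.  (3) (1) and (2) for the
reversed order.  (4) the cluster of `y` is `P` without the two sets of (2), (3): it is in `BF (A y)`.  (5) `sq_ext`: `u''` with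
`Sq A (u, w) (u'', w')`; `orl`: `Sq (A ∪ range w') u'' u'`, `sq_add`. -/
def St_LOH : Prop :=
  ∀ (L : FirstOrder.Language.{0, 0}) (U : Type) [L.Structure U], Cx L U →
    ∀ (A P : Set U) (lt : U → U → Prop), LO L A P lt →
    LO L A P (fun x y => lt y x) ∧
    (∀ y ∈ P, LO L (insert y A) {v | v ∈ P ∧ lt y v} lt) ∧
    (∀ y ∈ P, LO L (insert y A) {v | v ∈ P ∧ lt v y} lt) ∧
    (∀ y ∈ P, BF L (insert y A) {v | v ∈ P ∧ ¬ lt y v ∧ ¬ lt v y}) ∧
    ∀ (m n : ℕ) (u u' : Fin m → U) (w w' : Fin n → U), (∀ i, u i ∈ P) → (∀ j, w j ∈ P) →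
      Sq L A u u' → Sq L A w w' → (∀ i j, lt (u i) (w j)) → (∀ i j, lt (u' i) (w' j)) →
      Sq L A (Sum.elim u w) (Sum.elim u' w')

/-- [CLA] the types of a linear piece converge to one of the two ends.
PROOF.  `e(B) := En B p`; `u ∈ P`; `P_(>u)`, `P_(<u)`, `K_u` (cluster).  `e(A u) ⊆ P` is a piece over `A u` (ENC (7)), `P_(>u)` and `P_(<u)` are
pieces over `A u` (LOH), so `e(A u)` is one of them or contained in `K_u`.  Suppose `e(A u) ⊆ K_u`.  `gap`: `v` with `Sq A u v`,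
`lt u v`.  `e(A v) ⊆ K_v` (ENC (3), `inv`), `e(A u v) ⊆ K_u ∩ K_v`, which is empty (`neg`): contradiction to ENC (6).
Suppose `e(A u) = P_(>u)`, `e(A v) = P_(<v)`.  `gap`: `v'` with `Sq A v v'`, `lt v' u`; `e(A v') = P_(<v')` (ENC (3), `inv`);
`e(A u v') ⊆ P_(>u) ∩ P_(<v')`, which is empty: contradiction. -/
def St_CLA : Prop :=
  ∀ (L : FirstOrder.Language.{0, 0}) (U : Type) [L.Structure U], Cx L U →
    ∀ (A P : Set U) (lt : U → U → Prop), LO L A P lt → ∀ p : ((Fin 1 → U) → Prop) → Prop, Gd L A p →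
    En L A p = P → (∀ u ∈ P, En L (insert u A) p = {v | v ∈ P ∧ lt u v}) ∨
      ∀ u ∈ P, En L (insert u A) p = {v | v ∈ P ∧ lt v u}

/-- [TQT] invariant types are transported along equality of types.
PROOF.  There is a sequence `e : ℕ → U` such that for all `n` and `E ∈ FE A` (on `Fin n → U`) every class of `E` contains a tuple of
terms of `e` (`fe_cnt`).  `e'` with `Tq A (c, e) (c', e')`: term by term with `tq_ext` (a formula has finitely many variables).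
`R d d' :↔ Tq A (d, (c, e)) (d', (c', e'))` for finite tuples.  (a) if `R d d'` then for all `b` there is `b'` with `R (d, b) (d', b')`,
and conversely (`tq_ext`).  (b) `R d₁ d₁'`, `R d₂ d₂'`, `Sq A d₁ d₂` imply `Sq A d₁' d₂'`: `E d₁ f`, `E d₂ f` for a tuple `f` of terms of
`e`, so `E d₁' f'`, `E d₂' f'`.  (c) subtuples.  `p' P' :↔` there are `n`, `Q` definable over `A`, `d, d' : Fin n → U` with `R d d'`,
`P' = Q (·, d')` and `p (Q (·, d))`.  By (a), (b), `Inv A p` this does not depend on the choices: if `Q₁ (·, d₁') = Q₂ (·, d₂')`,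
`R (d₁, d₂) (d₁', d₂')` then `Q₁ (·, d₁) = Q₂ (·, d₂)`; `R d d'`, `R d₀ d'` imply `Sq A d d₀`.  So `p (Q (·, d)) ↔ p' (Q (·, d'))` for
`R d d'`.  `GT p'`: `dfn` clear, `ne`: `∃ x, Q (x, d)` transfers; `and`, `max`: joint `d` (`dp_fam` for every `P'`, from `univ`).
`Inv A p'`: (b).  `Nal p'`: `Q (x, d) = (x = d)`.
`R (w, d) (w', d')`: `Ets (A ∪ d) w p ↔ Ets (A ∪ d') w' p'`: the relations in `FE (A ∪ d')` are `Q (·, ·, d')` with `Q (·, ·, d)` in
`FE (A ∪ d)` (as in `sq_tq`).  So `Mo (A ∪ d) p n z ↔ Mo (A ∪ d') p' n z'` for `R (z, d) (z', d')`, and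
`Or (A ∪ d) p y ↔ Or (A ∪ d') p' y'` for `R (y, d) (y', d')` ((a)).  `R c c'` holds, (c). -/
def St_TQT : Prop :=
  ∀ (L : FirstOrder.Language.{0, 0}) (U : Type) [L.Structure U], Cx L U →
    ∀ (p : ((Fin 1 → U) → Prop) → Prop), GT L p → ∀ A : Set U, A.Finite → Inv L A p →
    ∀ (γ : Type) [Finite γ] (c c' : γ → U), Tq L A c c' →
    ∃ p' : ((Fin 1 → U) → Prop) → Prop, GT L p' ∧ Inv L A p' ∧ (Nal p → Nal p') ∧
      ∀ (δ : Type) [Finite δ] (f : δ → γ) (i : γ), c i ∈ En L (A ∪ range (fun j => c (f j))) p ↔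
        c' i ∈ En L (A ∪ range (fun j => c' (f j))) p'

/-- [LQF] the order of a linear end is invariant under equality of types over two points.
PROOF.  LOF, LBN.  `cn`: TQT for `c = (y₁, y₂, u, v)`, `c' = (y₁, y₂, u', v')`: `r'`.  `y₁ ∈ En A r`, so `y₁ ∈ En A r'`, so
`En A r' = Pc A y₁ = En A r =: P` (ENC (7)); `u' ∈ En A r' = P`.  CLA for `r'`.  If `lt y₁ y₂` then `y₂ ∈ En (A y₁) r`, so
`y₂ ∈ En (A y₁) r'`, so the second alternative is impossible (`lt y₂ y₁`).  The same for `lt y₂ y₁`.  `v ∈ En (A u) r`, so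
`v' ∈ En (A u') r' = {v | v ∈ P ∧ lt u' v}`. -/
def St_LQF : Prop :=
  ∀ (L : FirstOrder.Language.{0, 0}) (U : Type) [L.Structure U], Cx L U →
    ∀ (r : ((Fin 1 → U) → Prop) → Prop) (A : Set U), A.Finite → Gd L A r → NF L A r →
    LQ L A (En L A r) (ltr L A r)

/-- [CUP] closedness of the order (clause `cup` of `LinV`; `cdn` is the same for the reversed order).
PROOF.  Let `p` be the type of `c` over `A`.  (1) For `b₀ ∈ P` there are `z₀` of type `p`, `lt b₀ z₀`, and `E₀ ∈ FE A` such that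
`Tq (A b₀) z₀ z'` for all `z'` of type `p` with `lt b₀ z'` and `E₀ z₀ z'`.  Suppose not.  There are countably many types over `A b₀`
(`hC.sml`): `q_0, q_1, ..`.  We construct `z_n` of type `p`, `lt b₀ z_n`, `E_n ∈ FE A` with `E_(n+1) → E_n`, `E_n z_n z_(n+1)`, and no
`z'` of type `p`, `lt b₀ z'`, `E_(n+1) z_(n+1) z'` has the type `q_n`.  Step: if no `z'` with `E_n z_n z'` has the type `q_n`: take
`z_(n+1) = z_n`.  Otherwise let `z'` be one; by assumption (for `z'`, `E_n`) there is `z''` of type `p`, `lt b₀ z''`, `E_n z' z''`, whose type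
is not `q_n`.  If for every `E ∈ FE A` there is `z^E` of type `q_n` over `A b₀` with `E z'' z^E`, then, by compactness (`sat_dp`), there is
`z*` of type `q_n` with `Sq A z'' z*`; `Tq (A b₀) z' z*`, so `lt b₀ z*` (invariance of `lt` under `Tq`), so `Sq (A b₀) z'' z*`
(`ort`) and `z''` has the type `q_n`: contradiction.  So there is `E_(n+1)` (finer than `E_n`) for `z_(n+1) = z''`.  By compactness there is
`z` with `E_n z_n z` for all `n`, `Tq A c z`; by `gap` we may assume `lt b₀ z`.  The type of `z` over `A b₀` is some `q_n`: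
contradiction to `E_(n+1) z_(n+1) z`.
(2) Let `b`, `c` be as in the hypothesis of `cup`.  `z₀`, `b₀`, `E₀` from (1), `b₀ ∈ P` arbitrary.  We may assume `Sq A c z₀`
[`tq_ext`: `(c, b)` is replaced by `(z₀, b')` with `Tq A (c, b) (z₀, b')`; the hypothesis and the conclusion are invariant: for `z_F` there is
`z_F'` with `Tq A (c, b, z_F) (z₀, b', z_F')`].  So let `c = z₀`.  `gap`: `b₁` with `Sq A b₀ b₁`, `lt b b₁`; `z₁` with
`Sq A (b₀, z₀) (b₁, z₁)`: (1) holds for `b₁`, `z₁`, `E₀`.  For `F ∈ FE A` (finer than `E₀` in the first variable) let `z_F` be as in the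
hypothesis, `z^F` with `Sq A z_F z^F`, `lt b₁ z^F` (`gap`).  `lt b z_F`, `lt b z^F`: `Sq (A b) z_F z^F` (`ort`), so
`F (z^F, b) (c, b)`; `E₀ z₁ z^F`, so `Tq (A b₁) z₁ z^F`.  By compactness there is `z*` with `Sq A (z*, b) (c, b)`, `Tq (A b₁) z₁ z*`.  So
`lt b₁ z*`, `lt b z*`, `lt b c` (`inv`). -/
def St_CUP : Prop :=
  ∀ (L : FirstOrder.Language.{0, 0}) (U : Type) [L.Structure U], Cx L U →
    ∀ (A P : Set U) (lt : U → U → Prop), LO L A P lt →
    (∀ x y : U, Tq L A (s1 x) (s1 y) → x ∈ P → y ∈ P) →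
    (∀ x y x' y' : U, Tq L A ![x, y] ![x', y'] → x ∈ P → y ∈ P → lt x y → lt x' y') →
    ∀ b ∈ P, ∀ c ∈ P, (∀ F : (Fin 2 → U) → (Fin 2 → U) → Prop, FE L A F →
      ∃ z ∈ P, Tq L A (s1 c) (s1 z) ∧ lt b z ∧ F ![z, b] ![c, b]) → lt b c

/-- [LIN] over two points `b₁`, `b₂` of different clusters the three parts of a linear piece are `LinV`.
PROOF.  `B = A b₁ b₂`.  `LO B`: LOH twice: `P_(>b₁)` over `A b₁`, then above `b₂` resp. below `b₂`; `P_(<b₂)` over `A b₂`, then below `b₁`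
(`insert_comm`).  `bf`: `pc`, `pc_bf`.  `ort`: LOH (5).  `tqE`, `tql` over `B`: `P` is invariant under `Tq (A b₁)` (`P = Pc A b₁`, `pc_tq0`);
`cn` for `y₁ = b₁`, `y₂ = b₂`.  `cup`, `cdn`: CUP over `B` for `lt` and the reversed order (LOH (1)). -/
def St_LIN : Prop :=
  ∀ (L : FirstOrder.Language.{0, 0}) (U : Type) [L.Structure U], Cx L U →
    ∀ (A P : Set U) (lt : U → U → Prop), LQ L A P lt → ∀ b₁ ∈ P, ∀ b₂ ∈ P, lt b₁ b₂ →
    LinV L (insert b₂ (insert b₁ A)) {v | v ∈ P ∧ lt b₂ v} lt ∧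
    LinV L (insert b₂ (insert b₁ A)) {v | v ∈ P ∧ lt b₁ v ∧ lt v b₂} lt ∧
    LinV L (insert b₂ (insert b₁ A)) {v | v ∈ P ∧ lt v b₁} lt

/-- [NI2] linear pieces are classified in two steps.
PROOF.  (a) Let `F = A` or `F = A a` with `a ∈ P`; `y, z ∈ P`, `z ≠ y`, `z` in the cluster of `y` (neither `lt y z` nor `lt z y`), `y` not
in the cluster of `a`.  Then `InrV F y z` (with `y' = y`, `z' = z`): `F = A`, or `lt a y`: let `lt b₁ b₂`, `lt b₂ y` (`gap`), `b₁ = a` in the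
second case; `B = A b₁ b₂`, `E = P_(>b₂)` (LIN).  `lt y a`: `lt y b₁`, `lt b₁ a`, `b₂ = a`, `E = P_(<b₁)`.  `Pc (F y) z ⊆ Pc (A y) z ⊆`
cluster of `y` (LOH (4), `bf_mono`, `pc_sub`) `⊆ E` (`neg`), and `E` misses `B`: `b₁`, `b₂` by `irr`, `tra`; `a ∈ A`: `pc_par`, `par_notMem`
(`P` is infinite by `gap`).
(b) `y₁, z₁ ∈ P = Pc A z`.  `z₁ = y₁`: `Pc (A y₁) z₁ = {z₁}` (`pc_par`), `NiceV 0`.  `z₁` in the cluster of `y₁`: (a).  Otherwise
`NiceV 1 (A y₁) z₁`: `P₁ := Pc (A y₁) z₁ = P_(>y₁)` or `P_(<y₁)` (LOH).  Let `y₂, z₂ ∈ P₁`; `z₂ = y₂`: `NiceV 0`; `z₂` in the cluster of `y₂`: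
(a); otherwise `Pc (A y₁ y₂) z₂` is one of the three sets of LIN (for `{b₁, b₂} = {y₁, y₂}`; LOH twice): `NiceV 0`. -/
def St_NI2 : Prop :=
  ∀ (L : FirstOrder.Language.{0, 0}) (U : Type) [L.Structure U], Cx L U →
    ∀ (A P : Set U) (lt : U → U → Prop), LQ L A P lt → ∀ z ∈ P, NiceV L 2 A z

/-! ### Type L: linear after finitely many independent points -/

/-- [ALB] the algebra argument.
PROOF.  DIV: `q`, invariant over `F`, contains the strong type of `y` over `C`.  `inv`: `Sq F a a'`, `a ∈ W`; `y''` realises `q` over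
`acl^eq(C ∪ {a, a'})`: `Sq C y y''`; LI over `F`: `Sq (F y'') a a'`; `W ∈ BF (F y'')`: `a' ∈ W`.  `prd`: `Sq F u u'`, in `W`, `w` outside; `y''`
realises `q` over `acl^eq(C ∪ u ∪ u' ∪ w)`: `Sq (F y'') u u'`, `Sq (F y'') (u, w) (u', w)`, `sq_mono`.  (This is also the last step of FAC
and UNE.) -/
def St_ALB : Prop :=
  ∀ (L : FirstOrder.Language.{0, 0}) (U : Type) [L.Structure U], Cx L U →
    ∀ (r : ((Fin 1 → U) → Prop) → Prop) (A : Set U), A.Finite → Gd L A r →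
    ∀ (F C W : Set U) (y : U), A ⊆ F → F ⊆ C → C.Finite → y ∈ En L C r →
    (∀ y'' : U, Sq L C (s1 y) (s1 y'') → BF L (insert y'' F) W) → BF L F W

/-- [INR] the other pieces over `F y` are inner.
PROOF.  `R := Pc (F y) z`; `R` misses `e(F y)` (`pc_iff`), so it misses `C \ F`, and `R = Pc (C y) z` (`nnl'`; `z ∉ F`, ENC (5); `z ≠ y`).
(i) `z ∈ e(C)`: suppose not.  `z ∉ C`; `e(C) = Pc C y`, so `y ∉ Pc C z` and `R = Pc C z` (`nnl1`).  Let `Sq C y y''`; `z''` with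
`Sq C (y, z) (y'', z'')`; `z'' ∈ Pc C z = R`, `Pc C z'' = R`; the hypotheses hold for `y''`, `z''` (ENC (3); `c ∈ C \ F` is in `e(F y'')`), so
`Pc (F y'') z'' = Pc (C y'') z'' = Pc C z'' = R`, and `R ∈ BF (F y'')`.  ALB: `R ∈ BF F`.  `z ∈ R ∩ e(F)`, a piece over `F`, so
`e(F) ⊆ R`; but `c₀ ∈ e(F)` and `c₀ ∉ R`.
(ii) So `z ∈ e(C) ∈ BF (C y)` (`bf_mono`), `R ⊆ e(C)`.  For `v ∈ R`: `v ∉ e(F y) ⊇ e(C y)`, and `y ∉ e(C v)` by the hypothesis; so `v` is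
in the cluster of `y` in `e(C)` (LQF for `C`).  `gap`: `b₂`, `b₁` in `e(C)` with `lt b₂ y`, `lt b₁ b₂`.  `B = C b₁ b₂`,
`E = {v | v ∈ e(C) ∧ lt b₂ v}`: LIN; `R ⊆ E` (`neg`), and `E` misses `B` (`irr`, `tra`, ENC (5)). -/
def St_INR : Prop :=
  ∀ (L : FirstOrder.Language.{0, 0}) (U : Type) [L.Structure U], Cx L U →
    ∀ (r : ((Fin 1 → U) → Prop) → Prop) (A : Set U), A.Finite → Gd L A r →
    ∀ (F C : Set U) (y z c₀ : U), A ⊆ F → F ⊆ C → C.Finite → NF L C r → y ∈ En L C r → z ∈ En L F r →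
    z ∉ En L (insert y F) r → z ≠ y → (∀ c ∈ C, c ∉ F → c ∈ En L (insert y F) r) → c₀ ∈ C → c₀ ∉ F →
    c₀ ∈ En L F r → (∀ v ∈ En L C r, v ∉ En L (insert y F) r → y ∉ En L (insert v C) r) → InrV L F y z

/-- [NIL] ends which become linear after `N` independent points are classified in `N + 2` steps.
PROOF.  `NiceV n → NiceV (n + 1)` is clear.  By induction on `j ≤ N`: if `Ind A r (N - j) x`, `B = A ∪ pre x (N - j)`, `z₀ ∈ e(B)` then
`NiceV (j + 2) B z₀`.  If `NF B r`: LQF, NI2 (this includes `j = 0`).  Step to `j + 1`; not `NF B r`, `B = A ∪ pre x k`, `k = N - j - 1`.  Let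
`y, z ∈ Pc B z₀ = e(B)`.  `z = y`: `Pc (B y) z = {z}`.  `z ∈ e(B y)`: `x' = x` with `x' k = y`: `Ind A r (k + 1) x'`,
`B y = A ∪ pre x' (k + 1)`: induction.  Otherwise `InrV B y z`:
(a) not `N0 B r`.  CMP (`o = y`) gives `z₁`, `z₂` with the strong type of `y` over `B`, facing; `sq_ext`: `x₁` with `Sq B (z₁, z₂) (y, x₁)`;
`y`, `x₁` are facing over `B`, `Sq B y x₁`.  `C := B x₁`: `NF C r` (CCC).  INR with `c₀ = x₁`; last hypothesis: let `v ∈ e(C)`, `y ∈ e(C v)`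
(`v` is below `y` in `e(C)`); `gap`: `v'` below `y` in `e(C)`, `Sq C y v'`.  `Sq B x₁ v'` and `y ∈ e(C v')`, STA over `B`:
`Sq (B y) x₁ v'`, `x₁ ∈ e(B y)`, so `v' ∈ e(B y)`.  `v ∈ Pc (C y) v'` (LOH (3)) and `e(B y) ∈ BF (C y)`: `v ∈ e(B y)`.
(b) `N0 B r`.  Extend `x_0, .., x_(k-1)` to an independent sequence `x'` of length `N` over `A` (ENC (6)); `C = A ∪ pre x' N`, `NF C r`.
REA: `y' ∈ e(C)`, `Sq B y y'`; `z'` with `Sq B (y, z) (y', z')`.  INR for `y'`, `z'`, `c₀ = x'_k`: `c ∈ C \ B` is in `e(B)`, `y' ∈ e(B c)`, so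
`c ∈ e(B y')` (`N0 B`); last hypothesis: `y' ∈ e(C v) ⊆ e(B v)`, so `v ∈ e(B y')` (`N0 B`).  `InrV B y' z'` gives `InrV B y z`. -/
def St_NIL : Prop :=
  ∀ (L : FirstOrder.Language.{0, 0}) (U : Type) [L.Structure U], Cx L U →
    ∀ (r : ((Fin 1 → U) → Prop) → Prop) (A : Set U), A.Finite → Gd L A r →
    ∀ N : ℕ, (∀ x : ℕ → U, Ind L A r N x → NF L (A ∪ pre x N) r) → ∀ z ∈ En L A r, NiceV L (N + 2) A z

/-! ### Free pieces and assembly -/

/-- [TST] conjugates of free ends are free.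
PROOF.  TQT for `c = x`, `c' = y`: `q`; `Nal q`, `y ∈ En A q`.  Suppose not `N0 B q`: `B = A ∪ range b`, `v ∈ En (B u) q`, `u ∈ En B q`,
`u ∉ En (B v) q`.  `tq_ext`: `Tq A (y, b, u, v) (x, b₀, u₀, v₀)`; TQT for `q`: `q'`, `x ∈ En A q'`, so `En A q' = En A p` (ENC (7)), and not
`N0 (A ∪ range b₀) q'`.  UNE: `En D q' = En D p` for all finite `D ⊇ A`: contradiction to `TS A p`. -/
def St_TST : Prop :=
  ∀ (L : FirstOrder.Language.{0, 0}) (U : Type) [L.Structure U], Cx L U →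
    ∀ (p : ((Fin 1 → U) → Prop) → Prop) (A : Set U), A.Finite → Gd L A p → TS L A p →
    ∀ x y : U, Tq L A (s1 x) (s1 y) → x ∈ En L A p →
    ∃ q : ((Fin 1 → U) → Prop) → Prop, Gd L A q ∧ TS L A q ∧ y ∈ En L A q

/-- [FRV] free ends are contained in free unions of clusters.
PROOF.  `E := {y | ∃ x ∈ En A r, Tq A x y}`; for `y ∈ E` there is `q` with `Gd A q`, `TS A q`, `y ∈ En A q` (TST), so `En A q = Pc A y`.
`cl x y :↔ y ∈ Pc A x ∧ ∃ p, Gd A p ∧ x ∈ En A p ∧ y ∉ En (A x) p`.  (*) By UNE, for `x ∈ E`: for all `p`, `p'` with `Gd A`, `x ∈ En A p`,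
`x ∈ En A p'`: `En D p = En D p'` for all finite `D ⊇ A`, and `TS A p`.  `tqE`: `tq_trans`.  `bf`: `E` is a union of pieces (`tq_ext`, `pc_tq0`),
`bf_sUnion`.  `tqc`: TQT, `pc_tq0`.  `rfl`: ENC (5).  `sym`: `N0 A p`.  `tra`: `p` for `x`, `y`; (*): `y ∉ e(A x)`, `z ∉ e(A y)`; `x ∉ e(A y)` (`N0 A`);
`e(A x) = e(A x y) = e(A y)` (NNL), so `z ∉ e(A x)`.  `ort`: `prod` reduces to the subtuples in one piece `Pc A v` (the entries of
`u'`, `w'` are in the same pieces, `bf_inv`), ORS (2).  `inf`: REA for `z ∈ En A q`: `z' ∈ En (A ∪ D) q`, `Sq A z z'`; if `cl d z'` then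
`d ∈ Pc A z' = En A q` and `z' ∉ En (A d) q` by (*): contradiction to ENC (2). -/
def St_FRV : Prop :=
  ∀ (L : FirstOrder.Language.{0, 0}) (U : Type) [L.Structure U], Cx L U →
    ∀ (r : ((Fin 1 → U) → Prop) → Prop) (A : Set U), A.Finite → Gd L A r → TS L A r →
    ∃ (E : Set U) (cl : U → U → Prop), FreV L A E cl ∧ En L A r ⊆ E

/-- [HYP] **the structure chapter**.
PROOF.  Let `A` be finite, `x ∈ U`; `cx_inv`: `r` (`GT`, `Inv A`, `Ets A x r`).  If `r` is realised, `r (y = u)`: `Inv A` gives: `u` is the only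
element with the strong type of `u` over `A`, so `x = u`, `{x} ∈ BF A` (as `bf_univ`), `Pc A x = {x}`: `rea` (first alternative) and `NiceV 0`.
Otherwise `Gd A r`, `Pc A x = En A r` (ENC (1)).
If `TS A r`: FRV: `NiceV 0`; `rea` with `B = A`, `z = y`.  Otherwise TRL: `N` as in NIL: `NiceV (N + 2) A x`.  `rea`: an independent
sequence `x_0, .., x_(N-1)` over `A` (ENC (6)), `C = A ∪ pre x N`, `NF C r`, LQF; `b₁, b₂` in `e(C)`, `lt b₁ b₂` (`gap`); `B = C b₁ b₂`,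
`E = {v | v ∈ e(C) ∧ lt b₂ v}`, LIN; for `y ∈ En A r`: REA: `z ∈ e(C b₂)`, `Sq A y z`, and `z ∈ E` (ENC (2)). -/
def St_HYP : Prop :=
  ∀ (L : FirstOrder.Language.{0, 0}) (U : Type) [L.Structure U], Cx L U → HypV L U

end Pool.Agent.TPX
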