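import Pool.Agent.TPX.FRV
import Pool.Agent.TPX.StF

/-!
# TPX: the statements NNS, FRV of `StF.lean`
-/

set_option autoImplicit false
set_option linter.unusedVariables false

namespace Pool.Agent.TPX

open FirstOrder.Language Set
open scoped FirstOrder
open Pool.Agent.MNO

/-- [NNS] NNL for finite sets -/
theorem k_NNS : St_NNS := by
  intro L U _ hC r A hA hG C S hAC hCf hS
  induction S, hS using Set.Finite.induction_on with
  | empty =>
    intro _
    rw [union_empty]
  | @insert s S _ hS ih =>
    intro hs
    have h1 := ih fun t ht => hs t (mem_insert_of_mem s ht)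
    have h2 : s ∉ En L (C ∪ S) r := by
      rw [h1]
      exact hs s (mem_insert s S)
    rw [union_insert, e_add hC hG.gt hG.nal hG.inv (hAC.trans subset_union_left) (hCf.union hS) h2, h1]

/-- [FRV] free ends are contained in free unions of clusters -/
theorem k_FRV : St_FRV := by
  intro L U _ hC r A hA hG hT
  have h : Fr0 L A r := ⟨hA, hG.gt, hG.nal, hG.inv, hT⟩
  obtain ⟨x, -, hx⟩ := e_real hC hG.gt hG.nal hG.inv Subset.rfl hA
  obtain ⟨E, cl, h1, h2⟩ := thm_FRV hC h hx
  rw [fr_pc hC h hx] at h2
  exact ⟨E, cl, h1, h2⟩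

end Pool.Agent.TPX
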