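import Pool.Agent.TPX.Fr2
import Pool.Agent.MST.CMS
import Pool.Agent.MST.ELX

/-!
# TPX, transfer of the hypotheses from the models on `ℕ` to a countably saturated model
-/

set_option autoImplicit false
set_option linter.unusedVariables false

namespace Pool.Agent.TPX

open FirstOrder.Language Set
open scoped FirstOrder
open Pool.Agent.MNO
open Pool.Agent.WOM (IsEl)

/-- `A` is an extension base: all strong types over `A` have invariant extensions -/
def EBA (L : FirstOrder.Language.{0, 0}) {M : Type} [L.Structure M] (A : Set M) : Prop :=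
  ∀ (n : ℕ) (a : Fin n → M), ∃ r, GT L r ∧ Inv L A r ∧ Ets L A a r

/-- all finite sets are extension bases -/
def EB (L : FirstOrder.Language.{0, 0}) (M : Type) [L.Structure M] : Prop :=
  ∀ A : Set M, A.Finite → EBA L A

section transfer

variable {L : FirstOrder.Language.{0, 0}} {V : Type} [L.Structure V] {M : Type} [L.Structure M] {i : M → V}

variable (L) in
/-- `i` is an elementary embedding of `M` in `V` -/
structure Emb {V M : Type} [L.Structure V] [L.Structure M] (i : M → V) : Prop where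
  inj : Function.Injective i
  el : IsEl L (range i)
  fm : ∀ (α : Type) [Finite α] (φ : L.Formula α) (v : α → M),
    φ.Realize v ↔ φ.Realize (fun j => i (v j))

theorem lift_tuple {V M : Type} {i : M → V} {α : Type} {x : α → V} (h : ∀ j, x j ∈ range i) :
    ∃ v : α → M, (fun j => i (v j)) = x := by
  choose v hv using h
  exact ⟨v, funext hv⟩

theorem elim_comp {V M : Type} {i : M → V} {α β : Type} (v : α → M) (w : β → M) :
    (fun j => i (Sum.elim v w j)) = Sum.elim (fun j => i (v j)) (fun j => i (w j)) := by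
  funext j
  rcases j with j | j <;> rfl

theorem dp_pull (hi : Emb L i) {α : Type} [Finite α] {A : Set V} (hA : A.Finite)
    (hAi : A ⊆ range i) {P : (α → V) → Prop} (hP : Dp L A P) :
    Dp L (i ⁻¹' A) (fun v : α → M => P (fun j => i (v j))) := by
  obtain ⟨k, b, hb⟩ := exists_enum hA
  subst hb
  obtain ⟨φ, hφ⟩ := dp_form0 hP
  obtain ⟨b', hb'⟩ := lift_tuple (i := i) (x := b) (fun j => hAi ⟨j, rfl⟩)
  have h1 : Dp L (range b') (fun v : α → M => P (fun j => i (v j))) := by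
    refine dp_of_form0 φ fun v => ?_
    rw [hφ, hi.fm (α ⊕ Fin k) φ (Sum.elim v b'), elim_comp, hb']
  refine dp_mono ?_ h1
  rintro _ ⟨j, rfl⟩
  exact ⟨j, (congrFun hb' j).symm⟩

theorem dp_push (hi : Emb L i) {α : Type} [Finite α] {A : Set M} (hA : A.Finite)
    {P : (α → M) → Prop} (hP : Dp L A P) :
    ∃ Q : (α → V) → Prop, Dp L (i '' A) Q ∧ ∀ v : α → M, Q (fun j => i (v j)) ↔ P v := by
  obtain ⟨k, b, hb⟩ := exists_enum hA
  subst hb
  obtain ⟨φ, hφ⟩ := dp_form0 hP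
  refine ⟨fun v => φ.Realize (Sum.elim v (fun j => i (b j))), ?_, fun v => ?_⟩
  · refine dp_mono ?_ (dp_of_form0 φ fun v => Iff.rfl)
    rintro _ ⟨j, rfl⟩
    exact ⟨b j, ⟨j, rfl⟩, rfl⟩
  · rw [hφ v, hi.fm (α ⊕ Fin k) φ (Sum.elim v b), elim_comp]

/-- elements of a definable set -/
theorem el_ex (hi : Emb L i) {α : Type} [Finite α] {A : Set V} (hA : A.Finite)
    (hAi : A ⊆ range i) {P : (α → V) → Prop} (hP : Dp L A P) (h : ∃ x, P x) :
    ∃ v : α → M, P (fun j => i (v j)) := by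
  obtain ⟨k, b, hb⟩ := exists_enum hA
  subst hb
  obtain ⟨φ, hφ⟩ := dp_form0 hP
  obtain ⟨x, hx⟩ := h
  obtain ⟨y, hy, hy'⟩ := (Pool.Agent.MST.thm_ELX L V).1 (range i) hi.el α (Fin k) φ b
    (fun j => hAi ⟨j, rfl⟩) ⟨x, (hφ x).1 hx⟩
  obtain ⟨v, rfl⟩ := lift_tuple hy
  exact ⟨v, (hφ _).2 hy'⟩

theorem fe_pull (hi : Emb L i) {α : Type} [Finite α] {A : Set V} (hA : A.Finite)
    (hAi : A ⊆ range i) {E : (α → V) → (α → V) → Prop} (hE : FE L A E) :
    FE L (i ⁻¹' A) (fun x y : α → M => E (fun j => i (x j)) (fun j => i (y j))) := by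
  refine ⟨dp_pull hi hA hAi hE.dfn, ⟨fun _ => hE.eqv.refl _, fun h => hE.eqv.symm h,
    fun h h' => hE.eqv.trans h h'⟩, ?_⟩
  obtain ⟨s, hs, hs'⟩ := hE.fin
  obtain ⟨t, ht, ht'⟩ := fin_rep (X := α → M) hs (Q := fun x y => E (fun j => i (x j)) y)
    (fun x => hs' _)
  refine ⟨t, ht, fun x => ?_⟩
  obtain ⟨y, hy, p, -, h1, h2⟩ := ht' x
  exact ⟨y, hy, hE.eqv.trans h1 (hE.eqv.symm h2)⟩

/-- bounded number of classes -/
theorem fin_of_num {X : Type} {R : X → X → Prop} (hs : ∀ x y, R x y → R y x) {k : ℕ}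
    (h : ∀ z : Fin (k + 1) → X, ∃ i j, i < j ∧ R (z i) (z j)) :
    ∃ s : Set X, s.Finite ∧ ∀ x, ∃ y ∈ s, R x y := by
  classical
  by_contra hcon
  push Not at hcon
  obtain ⟨f, -, hf⟩ := exists_seq_of_forall_finset_exists (fun _ : X => True) (fun x y => ¬ R x y) (by
    intro s _
    obtain ⟨x, hx⟩ := hcon s s.finite_toSet
    exact ⟨x, trivial, fun y hy h1 => hx y hy (hs _ _ h1)⟩)
  obtain ⟨i, j, hij, h1⟩ := h (fun i => f i)
  exact hf i j hij h1

theorem fe_push (hi : Emb L i) {α : Type} [Finite α] {A : Set M} (hA : A.Finite)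
    {E : (α → M) → (α → M) → Prop} (hE : FE L A E) :
    ∃ F : (α → V) → (α → V) → Prop, FE L (i '' A) F ∧
      ∀ x y : α → M, F (fun j => i (x j)) (fun j => i (y j)) ↔ E x y := by
  obtain ⟨Q, hQ, hQE⟩ := dp_push hi hA hE.dfn
  obtain ⟨k, hk⟩ := fe_num hE
  have hAi : i '' A ⊆ range i := image_subset_range i A
  have hAf : (i '' A).Finite := hA.image i
  have hQE' : ∀ x y : α → M, Q (Sum.elim (fun j => i (x j)) (fun j => i (y j))) ↔ E x y := by
    intro x y
    rw [← elim_comp]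
    exact hQE (Sum.elim x y)
  have hsub : ∀ {γ : Type} (f g : α → γ), Dp L (i '' A) (fun v : γ → V =>
      Q (Sum.elim (fun j => v (f j)) (fun j => v (g j)))) := by
    intro γ f g
    refine dp_congr (dp_sub hQ (Sum.elim f g)) fun v => iff_of_eq ?_
    congr 1
    funext j
    rcases j with j | j <;> rfl
  have hrefl : ∀ x : α → V, Q (Sum.elim x x) := by
    intro x
    by_contra hx
    obtain ⟨v, hv⟩ := el_ex hi hAf hAi (dp_not (hsub (γ := α) id id)) ⟨x, hx⟩
    exact hv ((hQE' v v).2 (hE.eqv.refl v))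
  have hsymm : ∀ x y : α → V, Q (Sum.elim x y) → Q (Sum.elim y x) := by
    intro x y h
    by_contra hx
    obtain ⟨v, hv, hv'⟩ := el_ex hi hAf hAi (dp_and (hsub (γ := α ⊕ α) Sum.inl Sum.inr)
      (dp_not (hsub (γ := α ⊕ α) Sum.inr Sum.inl))) ⟨Sum.elim x y, h, hx⟩
    exact hv' ((hQE' _ _).2 (hE.eqv.symm ((hQE' _ _).1 hv)))
  have htrans : ∀ x y z : α → V, Q (Sum.elim x y) → Q (Sum.elim y z) → Q (Sum.elim x z) := by
    intro x y z h h'
    by_contra hx
    obtain ⟨v, ⟨hv, hv'⟩, hv''⟩ := el_ex hi hAf hAi (dp_and (dp_and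
      (hsub (γ := α ⊕ (α ⊕ α)) Sum.inl (fun j => Sum.inr (Sum.inl j)))
      (hsub (γ := α ⊕ (α ⊕ α)) (fun j => Sum.inr (Sum.inl j)) (fun j => Sum.inr (Sum.inr j))))
      (dp_not (hsub (γ := α ⊕ (α ⊕ α)) Sum.inl (fun j => Sum.inr (Sum.inr j)))))
      ⟨Sum.elim x (Sum.elim y z), ⟨h, h'⟩, hx⟩
    exact hv'' ((hQE' _ _).2 (hE.eqv.trans ((hQE' _ _).1 hv) ((hQE' _ _).1 hv')))
  refine ⟨fun x y => Q (Sum.elim x y), ⟨hsub _ _, ⟨hrefl, fun {x y} h => hsymm x y h,
    fun {x y z} h h' => htrans x y z h h'⟩, ?_⟩, hQE'⟩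
  refine fin_of_num (k := k) hsymm fun z => ?_
  by_contra hz
  push Not at hz
  obtain ⟨v, hv⟩ := el_ex hi hAf hAi (α := Fin (k + 1) × α)
    (P := fun w => ∀ p : Fin (k + 1) × Fin (k + 1), p.1 < p.2 →
      ¬ Q (Sum.elim (fun j => w (p.1, j)) (fun j => w (p.2, j))))
    (dp_all_fin fun p => dp_imp (dp_const _) (dp_not (hsub _ _)))
    ⟨fun q => z q.1 q.2, fun p hp => hz p.1 p.2 hp⟩
  obtain ⟨a, b, hab, h1⟩ := hk (fun p j => v (p, j))
  exact hv (a, b) hab ((hQE' _ _).2 h1)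

theorem sq_pull (hi : Emb L i) {α : Type} [Finite α] {A : Set V} (hA : A.Finite)
    (hAi : A ⊆ range i) {c c' : α → M} (h : Sq L A (fun j => i (c j)) (fun j => i (c' j))) :
    Sq L (i ⁻¹' A) c c' := by
  intro E hE
  have hAf : (i ⁻¹' A).Finite := hA.preimage hi.inj.injOn
  obtain ⟨F, hF, hFE⟩ := fe_push hi hAf hE
  exact (hFE c c').1 (h F (fe_mono (by
    rintro _ ⟨x, hx, rfl⟩
    exact hx) hF))

/-- the hypothesis for the countable elementary submodels gives the hypothesis for `V` -/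
theorem eba_of (hL : Countable L.Symbols) (hV : Infinite V) {A X₀ : Set V} (hA : A.Finite)
    (hX₀ : X₀.Countable)
    (h : ∀ (S : L.Structure ℕ) (i : ℕ → V), @Emb L V ℕ _ S i → A ⊆ range i → X₀ ⊆ range i →
      @EBA L ℕ S (i ⁻¹' A)) :
    EBA L A := by
  classical
  intro n a
  -- the conditions
  let Φ : Set (Set (Fin n → V)) :=
    {D | ∃ E, FE L A E ∧ D = {x | E x a}} ∪
    {D | ∃ (m : ℕ) (P : (Fin n ⊕ Fin m → V) → Prop) (c c' : Fin m → V), Dp L A P ∧ Sq L A c c' ∧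
      D = {x | P (Sum.elim x c) ↔ P (Sum.elim x c')}}
  have key : ∀ G : Set (Set (Fin n → V)), G ⊆ Φ → G.Finite → (⋂₀ G).Nonempty := by
    intro G hG hfin
    -- parameters
    have h1 : ∀ D : Set (Fin n → V), ∃ (m : ℕ) (c c' : Fin m → V), D ∈ Φ →
        (∃ E, FE L A E ∧ D = {x | E x a}) ∨ ∃ (P : (Fin n ⊕ Fin m → V) → Prop), Dp L A P ∧
          Sq L A c c' ∧ D = {x | P (Sum.elim x c) ↔ P (Sum.elim x c')} := by
      intro D
      by_cases hD : D ∈ Φ
      · rcases hD with hD | ⟨m, P, c, c', hP, hc, hD⟩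
        · exact ⟨0, Fin.elim0, Fin.elim0, fun _ => Or.inl hD⟩
        · exact ⟨m, c, c', fun _ => Or.inr ⟨P, hP, hc, hD⟩⟩
      · exact ⟨0, Fin.elim0, Fin.elim0, fun h => absurd h hD⟩
    choose m c c' hm using h1
    let X : Set V := (A ∪ range a ∪ ⋃ D ∈ G, (range (c D) ∪ range (c' D))) ∪ X₀
    have hX : X.Countable := ((hA.countable.union (countable_range _)).union
      (hfin.countable.biUnion fun D _ => (countable_range _).union (countable_range _))).union hX₀
    obtain ⟨S, i, hinj, hXi, hel, hT, hfm⟩ := Pool.Agent.MST.thm_CMS Pool.Agent.MST.thm_ELX L hL V hV X hX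
    let _ := S
    have hi : Emb L i := ⟨hinj, hel, fun α _ φ v => hfm α φ v⟩
    have hAi : A ⊆ range i := fun x hx => hXi (Or.inl (Or.inl (Or.inl hx)))
    have hAf : (i ⁻¹' A).Finite := hA.preimage hinj.injOn
    obtain ⟨a', ha'⟩ := lift_tuple (i := i) (x := a) (fun j => hXi (Or.inl (Or.inl (Or.inr ⟨j, rfl⟩))))
    obtain ⟨r, hr, hI, hE⟩ := h S i hi hAi (fun x hx => hXi (Or.inr hx)) n a'
    have h2 : ∀ Q ∈ (fun D : Set (Fin n → V) => fun v : Fin n → ℕ => (fun j => i (v j)) ∈ D) '' G, r Q := by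
      rintro _ ⟨D, hD, rfl⟩
      rcases hm D (hG hD) with ⟨E, hE', hDE⟩ | ⟨P, hP, hc, hDP⟩
      · have h3 := hE _ (fe_pull hi hA hAi hE')
        have e : (fun v : Fin n → ℕ => (fun j => i (v j)) ∈ D) =
            fun v => E (fun j => i (v j)) (fun j => i (a' j)) := by
          funext v
          rw [hDE, ha']
          rfl
        show r (fun v : Fin n → ℕ => (fun j => i (v j)) ∈ D)
        rw [e]
        exact h3
      · obtain ⟨d, hd⟩ := lift_tuple (i := i) (x := c D) (fun j => hXi (Or.inl (Or.inr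
          (mem_biUnion hD (Or.inl ⟨j, rfl⟩)))))
        obtain ⟨d', hd'⟩ := lift_tuple (i := i) (x := c' D) (fun j => hXi (Or.inl (Or.inr
          (mem_biUnion hD (Or.inr ⟨j, rfl⟩)))))
        have h4 : Sq L A (fun j => i (d j)) (fun j => i (d' j)) := by
          rw [hd, hd']
          exact hc
        have h5 := sq_pull hi hA hAi h4
        have hPp : Dp L (i ⁻¹' A) (fun v : Fin n ⊕ Fin (m D) → ℕ => P (fun j => i (v j))) :=
          dp_pull hi hA hAi hP
        have h6 := hI (m D) _ hPp d d' h5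
        have h7 := hI (m D) _ hPp d' d (sq_symm h5)
        have hdp : ∀ d : Fin (m D) → ℕ, Dp L (univ : Set ℕ)
            (fun v : Fin n → ℕ => P (fun j => i (Sum.elim v d j))) :=
          fun d => dp_par (dp_mono (subset_univ _) hPp) d (fun j => mem_univ _)
        have h8 : r (fun v => P (fun j => i (Sum.elim v d j)) ↔ P (fun j => i (Sum.elim v d' j))) := by
          rcases hr.max _ (hdp d) with h9 | h9
          · exact gt_mono hr (hr.and _ _ h9 (h6 h9)) (dp_iff (hdp d) (hdp d'))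
              fun v hv => ⟨fun _ => hv.2, fun _ => hv.1⟩
          · have h10 : r (fun v => ¬ P (fun j => i (Sum.elim v d' j))) := by
              refine (gt_not hr (hdp d')).2 fun h11 => ?_
              exact (gt_not hr (hdp d)).1 h9 (h7 h11)
            exact gt_mono hr (hr.and _ _ h9 h10) (dp_iff (hdp d) (hdp d'))
              fun v hv => ⟨fun h => absurd h hv.1, fun h => absurd h hv.2⟩
        have e : (fun v : Fin n → ℕ => (fun j => i (v j)) ∈ D) =
            fun v => P (fun j => i (Sum.elim v d j)) ↔ P (fun j => i (Sum.elim v d' j)) := by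
          have hmem : ∀ x, x ∈ D ↔ (P (Sum.elim x (c D)) ↔ P (Sum.elim x (c' D))) :=
            fun x => Set.ext_iff.1 hDP x
          funext v
          rw [elim_comp, elim_comp, hd, hd']
          exact propext (hmem _)
        show r (fun v : Fin n → ℕ => (fun j => i (v j)) ∈ D)
        rw [e]
        exact h8
    obtain ⟨v, hv⟩ := hr.ne _ (gt_all hr (hfin.image _) h2)
    refine ⟨fun j => i (v j), fun D hD => ?_⟩
    exact hv _ ⟨D, hD, rfl⟩
  -- the ultrafilter
  have hne : (Filter.generate Φ).NeBot := by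
    rw [Filter.generate_neBot_iff]
    intro t ht hfin
    exact key t ht hfin
  let 𝒰 : Ultrafilter (Fin n → V) := Ultrafilter.of (Filter.generate Φ)
  have h𝒰 : ∀ D ∈ Φ, D ∈ 𝒰 := fun D hD => Ultrafilter.of_le _ (Filter.mem_generate_of_mem hD)
  refine ⟨fun P => Dp L (univ : Set V) P ∧ {x | P x} ∈ 𝒰, ⟨fun P hP => hP.1, ?_, ?_, ?_⟩, ?_, ?_⟩
  · intro P hP
    obtain ⟨x, hx⟩ := Ultrafilter.nonempty_of_mem hP.2
    exact ⟨x, hx⟩
  · intro P Q hP hQ
    exact ⟨dp_and hP.1 hQ.1, Filter.inter_mem hP.2 hQ.2⟩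
  · intro P hP
    rcases Ultrafilter.mem_or_compl_mem 𝒰 {x | P x} with h1 | h1
    · exact Or.inl ⟨hP, h1⟩
    · exact Or.inr ⟨dp_not hP, h1⟩
  · intro m P hP c c' hc h1
    refine ⟨dp_par (dp_mono (subset_univ _) hP) c' (fun j => mem_univ _), ?_⟩
    have h2 := h𝒰 {x | P (Sum.elim x c) ↔ P (Sum.elim x c')} (Or.inr ⟨m, P, c, c', hP, hc, rfl⟩)
    filter_upwards [h1.2, h2] with x hx hx'
    exact hx'.1 hx
  · intro E hE
    exact ⟨dp_mono (subset_univ _) (fe_cls hE a), h𝒰 _ (Or.inl ⟨E, hE, rfl⟩)⟩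

/-- the hypothesis for the models on `ℕ` gives the hypothesis for `V` -/
theorem eb_of (hL : Countable L.Symbols) (hV : Infinite V)
    (h : ∀ (S : L.Structure ℕ) (i : ℕ → V), @Emb L V ℕ _ S i → @EB L ℕ S) : EB L V := by
  intro A hA
  refine eba_of hL hV hA countable_empty fun S i hi _ _ => ?_
  let _ := S
  exact h S i hi _ (hA.preimage hi.inj.injOn)

end transfer

end Pool.Agent.TPX
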