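import Pool.Agent.TPX.Fr3
import Pool.Agent.TPX.XUU

/-!
# TPX: strong types and pieces are invariant under equality of types
-/

set_option autoImplicit false
set_option linter.unusedVariables false

namespace Pool.Agent.TPX

open FirstOrder.Language Set
open scoped FirstOrder
open Pool.Agent.MNO

section tq

variable {L : FirstOrder.Language.{0, 0}} {U : Type} [L.Structure U] {A B : Set U}

theorem tq_refl {α : Type} (x : α → U) : Tq L A x x := fun _ _ h => h

theorem tq_iff {α : Type} {x y : α → U} (h : Tq L A x y) {P : (α → U) → Prop} (hP : Dp L A P) :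
    P x ↔ P y := by
  refine ⟨h P hP, fun h1 => ?_⟩
  by_contra h2
  exact h _ (dp_not hP) h2 h1

theorem tq_symm {α : Type} {x y : α → U} (h : Tq L A x y) : Tq L A y x :=
  fun _ hP => (tq_iff h hP).2

theorem tq_trans {α : Type} {x y z : α → U} (h : Tq L A x y) (h' : Tq L A y z) : Tq L A x z :=
  fun P hP h1 => h' P hP (h P hP h1)

theorem tq_mono {α : Type} (hAB : A ⊆ B) {x y : α → U} (h : Tq L B x y) : Tq L A x y :=
  fun P hP => h P (dp_mono hAB hP)

theorem tq_sub {α β : Type} {x y : α → U} (h : Tq L A x y) (f : β → α) :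
    Tq L A (fun i => x (f i)) (fun i => y (f i)) := fun P hP => h _ (dp_sub hP f)

theorem tq_of_sq {α : Type} {x y : α → U} (h : Sq L A x y) : Tq L A x y :=
  fun P hP => (sq_dp h hP).1

/-- parameters from `A` may be added -/
theorem tq_add {α β : Type} {x y : α → U} (h : Tq L A x y) (c : β → U) (hc : ∀ i, c i ∈ A) :
    Tq L A (Sum.elim x c) (Sum.elim y c) := fun P hP => h _ (dp_par hP c hc)

/-- parameters become variables -/
theorem tq_fam {α β : Type} {x y : α → U} {c : β → U} :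
    Tq L (A ∪ range c) x y ↔ Tq L A (Sum.elim x c) (Sum.elim y c) := by
  constructor
  · intro h
    exact tq_mono subset_union_left (tq_add h c fun i => Or.inr ⟨i, rfl⟩)
  · intro h P hP
    obtain ⟨Q, hQ, hPQ⟩ := dp_fam hP
    rw [hPQ, hPQ]
    exact h Q hQ

/-- equal tuples -/
theorem tq_par {α : Type} {x y : α → U} (h : Tq L A x y) (i : α) (hi : x i ∈ A) : y i = x i :=
  (tq_iff h (P := fun v => v i = x i) (dp_eqc i hi)).1 rfl

theorem tq_eq {α : Type} {x y : α → U} (h : Tq L A x y) (i j : α) : x i = x j ↔ y i = y j :=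
  tq_iff h (dp_eq i j)

end tq

section sq

variable {L : FirstOrder.Language.{0, 0}} {U : Type} [L.Structure U] {A : Set U}

/-- the number of classes of a definable relation -/
theorem dp_num {α γ : Type} [Finite α] {Q : ((α ⊕ α) ⊕ γ → U) → Prop} (hQ : Dp L A Q) (k : ℕ) :
    Dp L A (fun c : γ → U => ∃ z : Fin (k + 1) × α → U, ∀ p : Fin (k + 1) × Fin (k + 1), p.1 < p.2 →
      ¬ Q (Sum.elim (Sum.elim (fun j => z (p.1, j)) (fun j => z (p.2, j))) c)) := by
  have h1 : Dp L A (fun v : γ ⊕ (Fin (k + 1) × α) → U => ∀ p : Fin (k + 1) × Fin (k + 1), p.1 < p.2 →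
      ¬ Q (Sum.elim (Sum.elim (fun j => v (Sum.inr (p.1, j))) (fun j => v (Sum.inr (p.2, j))))
        (fun i => v (Sum.inl i)))) := by
    refine dp_all_fin fun p => dp_imp (dp_const _) (dp_not ?_)
    refine dp_congr (dp_sub hQ (Sum.elim (Sum.elim (fun j => Sum.inr (p.1, j)) (fun j => Sum.inr (p.2, j)))
      (fun i => Sum.inl i))) fun v => iff_of_eq ?_
    congr 1
    funext i
    rcases i with (i | i) | i <;> rfl
  exact dp_ex h1

/-- strong types are invariant under equality of types -/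
theorem sq_tq {α γ : Type} [Finite α] {x y x' y' : α → U} {c c' : γ → U}
    (h : Tq L A (Sum.elim (Sum.elim x y) c) (Sum.elim (Sum.elim x' y') c'))
    (hs : Sq L (A ∪ range c) x y) : Sq L (A ∪ range c') x' y' := by
  intro E hE
  obtain ⟨k, hk⟩ := fe_num hE
  obtain ⟨Q, hQ, hEQ⟩ := dp_fam hE.dfn
  have hEQ' : ∀ u v, E u v ↔ Q (Sum.elim (Sum.elim u v) c') := fun u v => hEQ (Sum.elim u v)
  have hc : Tq L A c c' := tq_sub h Sum.inr
  have hsub : ∀ {γ' : Type} (f g : α → γ') (e : γ → γ'), Dp L A (fun v : γ' → U =>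
      Q (Sum.elim (Sum.elim (fun j => v (f j)) (fun j => v (g j))) (fun i => v (e i)))) := by
    intro γ' f g e
    refine dp_congr (dp_sub hQ (Sum.elim (Sum.elim f g) e)) fun v => iff_of_eq ?_
    congr 1
    funext j
    rcases j with (j | j) | j <;> rfl
  -- `Q (x, y, c)` is a finite equivalence relation
  have hrefl : ∀ u : α → U, Q (Sum.elim (Sum.elim u u) c) := by
    have h1 := hsub (γ' := γ ⊕ α) Sum.inr Sum.inr Sum.inl
    exact (tq_iff hc (dp_all h1)).2 fun u => (hEQ' u u).1 (hE.eqv.refl u)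
  have hsymm : ∀ u v : α → U, Q (Sum.elim (Sum.elim u v) c) → Q (Sum.elim (Sum.elim v u) c) := by
    have h1 := dp_all (dp_imp (hsub (γ' := γ ⊕ (α ⊕ α)) (fun j => Sum.inr (Sum.inl j))
      (fun j => Sum.inr (Sum.inr j)) Sum.inl) (hsub (γ' := γ ⊕ (α ⊕ α)) (fun j => Sum.inr (Sum.inr j))
      (fun j => Sum.inr (Sum.inl j)) Sum.inl))
    have h2 := (tq_iff hc h1).2 fun w hw => (hEQ' _ _).1 (hE.eqv.symm ((hEQ' _ _).2 hw))
    exact fun u v huv => h2 (Sum.elim u v) huv
  have htrans : ∀ u v w : α → U, Q (Sum.elim (Sum.elim u v) c) → Q (Sum.elim (Sum.elim v w) c) →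
      Q (Sum.elim (Sum.elim u w) c) := by
    have h1 := dp_all (dp_imp (hsub (γ' := γ ⊕ (α ⊕ (α ⊕ α))) (fun j => Sum.inr (Sum.inl j))
      (fun j => Sum.inr (Sum.inr (Sum.inl j))) Sum.inl) (dp_imp
      (hsub (γ' := γ ⊕ (α ⊕ (α ⊕ α))) (fun j => Sum.inr (Sum.inr (Sum.inl j)))
      (fun j => Sum.inr (Sum.inr (Sum.inr j))) Sum.inl)
      (hsub (γ' := γ ⊕ (α ⊕ (α ⊕ α))) (fun j => Sum.inr (Sum.inl j))
      (fun j => Sum.inr (Sum.inr (Sum.inr j))) Sum.inl)))
    have h2 := (tq_iff hc h1).2 fun w hw hw' =>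
      (hEQ' _ _).1 (hE.eqv.trans ((hEQ' _ _).2 hw) ((hEQ' _ _).2 hw'))
    exact fun u v w huv hvw => h2 (Sum.elim u (Sum.elim v w)) huv hvw
  have hFE : FE L (A ∪ range c) (fun u v : α → U => Q (Sum.elim (Sum.elim u v) c)) := by
    refine ⟨?_, ⟨hrefl, fun {u v} h => hsymm u v h, fun {u v w} h h' => htrans u v w h h'⟩, ?_⟩
    · have h1 := dp_par (dp_mono (subset_union_left (s := A) (t := range c)) hQ) c
        (fun i => Or.inr ⟨i, rfl⟩)
      refine dp_congr h1 fun v => iff_of_eq ?_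
      congr 1
      congr 1
      funext j
      rcases j with j | j <;> rfl
    · refine fin_of_num (k := k) hsymm fun z => ?_
      by_contra hz
      push Not at hz
      obtain ⟨z', hz'⟩ := (tq_iff hc (dp_num hQ k)).1 ⟨fun p => z p.1 p.2, fun p hp => hz p.1 p.2 hp⟩
      obtain ⟨a, b, hab, h1⟩ := hk (fun p j => z' (p, j))
      exact hz' (a, b) hab ((hEQ' _ _).1 h1)
  have h3 := hs _ hFE
  exact (hEQ' _ _).2 ((tq_iff h hQ).1 h3)

/-- extension of equality of types -/
theorem tq_ext (hC : Cx L U) {α β : Type} [Countable α] [Finite β] (hA : A.Countable)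
    {u u' : α → U} (h : Tq L A u u') (c : β → U) :
    ∃ c' : β → U, Tq L A (Sum.elim u c) (Sum.elim u' c') := by
  have hB : (A ∪ range u').Countable := hA.union (countable_range _)
  obtain ⟨c', hc'⟩ := sat_dp hC hB (F := {P : (β → U) → Prop | ∃ Q, Dp L A Q ∧ Q (Sum.elim u c) ∧
      P = fun x => Q (Sum.elim u' x)}) (by
      rintro P ⟨Q, hQ, -, rfl⟩
      have h2 := dp_sub (dp_mono (subset_union_left (s := A) (t := range u')) hQ) (Sum.swap : α ⊕ β → β ⊕ α)
      have h3 := dp_par h2 u' (fun i => Or.inr ⟨i, rfl⟩)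
      refine dp_congr h3 fun v => iff_of_eq ?_
      congr 1
      funext i
      rcases i with i | i <;> rfl) (by
      intro G hG hfin
      have h2 : ∀ P : (β → U) → Prop, ∃ Q : (α ⊕ β → U) → Prop, Dp L A Q ∧ Q (Sum.elim u c) ∧
          (P ∈ G → P = fun x => Q (Sum.elim u' x)) := by
        intro P
        by_cases hP : P ∈ G
        · obtain ⟨Q, hQ, hQ', h3⟩ := hG hP
          exact ⟨Q, hQ, hQ', fun _ => h3⟩
        · exact ⟨fun _ => True, dp_true, trivial, fun h => absurd h hP⟩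
      choose q hq hq' hq'' using h2
      obtain ⟨x, hx⟩ := h (fun v => ∃ x : β → U, ∀ P ∈ G, q P (Sum.elim v x))
        (dp_ex (dp_ball hfin fun P _ => hq P)) ⟨c, fun P _ => hq' P⟩
      refine ⟨x, fun P hP => ?_⟩
      rw [hq'' P hP]
      exact hx P hP)
  refine ⟨c', fun Q hQ hx => ?_⟩
  exact hc' _ ⟨Q, hQ, hx, rfl⟩

end sq

/-! ### orthogonality of tuples -/

section ort

variable {L : FirstOrder.Language.{0, 0}} {U : Type} [L.Structure U] {A : Set U}

variable (L) in
/-- the tuples `u`, `w` are orthogonal over `A` -/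
def Ort (A : Set U) {α β : Type} (u : α → U) (w : β → U) : Prop :=
  ∀ u' : α → U, Sq L A u u' → Sq L A (Sum.elim u w) (Sum.elim u' w)

theorem ort_tq (hC : Cx L U) (hA : A.Countable) {α β γ : Type} [Finite α] [Finite β] [Countable γ]
    {u u' : α → U} {w w' : β → U} {c c' : γ → U}
    (h : Tq L A (Sum.elim (Sum.elim u w) c) (Sum.elim (Sum.elim u' w') c'))
    (hs : Ort L (A ∪ range c) u w) : Ort L (A ∪ range c') u' w' := by
  intro v' hv'
  obtain ⟨v, hv⟩ := tq_ext hC hA (tq_symm h) v'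
  -- `((u', w'), c'), v'` and `((u, w), c), v`
  have h1 : Tq L A (Sum.elim (Sum.elim u' v') c') (Sum.elim (Sum.elim u v) c) := by
    have h2 := tq_sub hv (Sum.elim (Sum.elim (fun i => Sum.inl (Sum.inl (Sum.inl i))) Sum.inr)
      (fun i => Sum.inl (Sum.inr i)) : (α ⊕ α) ⊕ γ → (((α ⊕ β) ⊕ γ) ⊕ α))
    have e : ∀ (u : α → U) (w : β → U) (c : γ → U) (v : α → U),
        (fun i => (Sum.elim (Sum.elim (Sum.elim u w) c) v) ((Sum.elim (Sum.elim
          (fun i => Sum.inl (Sum.inl (Sum.inl i))) Sum.inr)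
      (fun i => Sum.inl (Sum.inr i)) : (α ⊕ α) ⊕ γ → (((α ⊕ β) ⊕ γ) ⊕ α)) i)) =
        Sum.elim (Sum.elim u v) c := by
      intro u w c v
      funext i
      rcases i with (i | i) | i <;> rfl
    rw [e, e] at h2
    exact h2
  have h3 : Sq L (A ∪ range c) u v := sq_tq h1 hv'
  have h4 := hs v h3
  have h5 : Tq L A (Sum.elim (Sum.elim (Sum.elim u w) (Sum.elim v w)) c)
      (Sum.elim (Sum.elim (Sum.elim u' w') (Sum.elim v' w')) c') := by
    have h2 := tq_sub (tq_symm hv) (Sum.elim (Sum.elim (fun i => Sum.inl (Sum.inl i))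
      (Sum.elim Sum.inr (fun i => Sum.inl (Sum.inl (Sum.inr i)))))
      (fun i => Sum.inl (Sum.inr i)) : ((α ⊕ β) ⊕ (α ⊕ β)) ⊕ γ → (((α ⊕ β) ⊕ γ) ⊕ α))
    have e : ∀ (u : α → U) (w : β → U) (c : γ → U) (v : α → U),
        (fun i => (Sum.elim (Sum.elim (Sum.elim u w) c) v) ((Sum.elim (Sum.elim (fun i => Sum.inl (Sum.inl i))
      (Sum.elim Sum.inr (fun i => Sum.inl (Sum.inl (Sum.inr i)))))
      (fun i => Sum.inl (Sum.inr i)) : ((α ⊕ β) ⊕ (α ⊕ β)) ⊕ γ → (((α ⊕ β) ⊕ γ) ⊕ α)) i)) =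
        Sum.elim (Sum.elim (Sum.elim u w) (Sum.elim v w)) c := by
      intro u w c v
      funext i
      rcases i with (i | i | i) | i
      · rcases i with i | i <;> rfl
      · rfl
      · rfl
      · rfl
    rw [e, e] at h2
    exact h2
  exact sq_tq h5 h4

end ort

end Pool.Agent.TPX
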