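import Pool.Agent.TPX.StK
import Pool.Agent.TPX.Tqi

/-!
# TPX module FAM: families of finite equivalence relations
-/

set_option autoImplicit false
set_option linter.unusedVariables false

namespace Pool.Agent.TPX

open FirstOrder.Language Set
open scoped FirstOrder
open Pool.Agent.MNO

/-- [FAM] a finite equivalence relation with parameters is a member of a family -/
theorem thm_FAM : St_FAM := by
  intro L U _ hC α γ _ _ A c E hE
  obtain ⟨k, hk⟩ := fe_num hE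
  obtain ⟨Q, hQ, hEQ⟩ := dp_fam hE.dfn
  have hEQ' : ∀ u v, E u v ↔ Q (Sum.elim (Sum.elim u v) c) := fun u v => hEQ (Sum.elim u v)
  have hsub : ∀ {γ' : Type} (f g : α → γ') (e : γ → γ'), Dp L A (fun v : γ' → U =>
      Q (Sum.elim (Sum.elim (fun j => v (f j)) (fun j => v (g j))) (fun i => v (e i)))) := by
    intro γ' f g e
    refine dp_congr (dp_sub hQ (Sum.elim (Sum.elim f g) e)) fun v => iff_of_eq ?_
    congr 1
    funext j
    rcases j with (j | j) | j <;> rfl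
  let G : (γ → U) → Prop := fun y =>
    (∀ u : α → U, Q (Sum.elim (Sum.elim u u) y)) ∧
    (∀ w : α ⊕ α → U, Q (Sum.elim (Sum.elim (fun i => w (Sum.inl i)) (fun i => w (Sum.inr i))) y) →
      Q (Sum.elim (Sum.elim (fun i => w (Sum.inr i)) (fun i => w (Sum.inl i))) y)) ∧
    (∀ w : α ⊕ (α ⊕ α) → U,
      Q (Sum.elim (Sum.elim (fun i => w (Sum.inl i)) (fun i => w (Sum.inr (Sum.inl i)))) y) →
      Q (Sum.elim (Sum.elim (fun i => w (Sum.inr (Sum.inl i))) (fun i => w (Sum.inr (Sum.inr i)))) y) →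
      Q (Sum.elim (Sum.elim (fun i => w (Sum.inl i)) (fun i => w (Sum.inr (Sum.inr i)))) y)) ∧
    ¬ ∃ z : Fin (k + 1) × α → U, ∀ p : Fin (k + 1) × Fin (k + 1), p.1 < p.2 →
      ¬ Q (Sum.elim (Sum.elim (fun j => z (p.1, j)) (fun j => z (p.2, j))) y)
  have hG : Dp L A G := by
    refine dp_and ?_ (dp_and ?_ (dp_and ?_ (dp_not (dp_num hQ k))))
    · exact dp_all (hsub (γ' := γ ⊕ α) Sum.inr Sum.inr Sum.inl)
    · exact dp_all (dp_imp (hsub (γ' := γ ⊕ (α ⊕ α)) (fun j => Sum.inr (Sum.inl j))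
        (fun j => Sum.inr (Sum.inr j)) Sum.inl) (hsub (γ' := γ ⊕ (α ⊕ α)) (fun j => Sum.inr (Sum.inr j))
        (fun j => Sum.inr (Sum.inl j)) Sum.inl))
    · exact dp_all (dp_imp (hsub (γ' := γ ⊕ (α ⊕ (α ⊕ α))) (fun j => Sum.inr (Sum.inl j))
        (fun j => Sum.inr (Sum.inr (Sum.inl j))) Sum.inl) (dp_imp
        (hsub (γ' := γ ⊕ (α ⊕ (α ⊕ α))) (fun j => Sum.inr (Sum.inr (Sum.inl j)))
        (fun j => Sum.inr (Sum.inr (Sum.inr j))) Sum.inl)
        (hsub (γ' := γ ⊕ (α ⊕ (α ⊕ α))) (fun j => Sum.inr (Sum.inl j))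
        (fun j => Sum.inr (Sum.inr (Sum.inr j))) Sum.inl)))
  have hGc : G c := by
    refine ⟨fun u => (hEQ' u u).1 (hE.eqv.refl u), fun w hw => (hEQ' _ _).1 (hE.eqv.symm ((hEQ' _ _).2 hw)),
      fun w hw hw' => (hEQ' _ _).1 (hE.eqv.trans ((hEQ' _ _).2 hw) ((hEQ' _ _).2 hw')), ?_⟩
    rintro ⟨z, hz⟩
    obtain ⟨i, j, hij, h1⟩ := hk (fun p j => z (p, j))
    exact hz (i, j) hij ((hEQ' _ _).1 h1)
  refine ⟨fun y x x' => G y → Q (Sum.elim (Sum.elim x x') y), ?_, ?_, ?_⟩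
  · exact dp_imp (dp_sub hG (Sum.inr : γ → (α ⊕ α) ⊕ γ)) (hsub (γ' := (α ⊕ α) ⊕ γ)
      (fun j => Sum.inl (Sum.inl j)) (fun j => Sum.inl (Sum.inr j)) Sum.inr)
  · intro y
    have hdf : Dp L (A ∪ range y) (fun v : α ⊕ α → U =>
        G y → Q (Sum.elim (Sum.elim (fun i => v (Sum.inl i)) (fun i => v (Sum.inr i))) y)) := by
      have h1 := dp_par (dp_mono (subset_union_left (s := A) (t := range y))
        (dp_imp (dp_sub hG (Sum.inr : γ → (α ⊕ α) ⊕ γ)) (hsub (γ' := (α ⊕ α) ⊕ γ)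
          (fun j => Sum.inl (Sum.inl j)) (fun j => Sum.inl (Sum.inr j)) Sum.inr))) y
        (fun i => Or.inr ⟨i, rfl⟩)
      exact h1
    by_cases hy : G y
    · have hs : ∀ x x' : α → U, (G y → Q (Sum.elim (Sum.elim x x') y)) →
          (G y → Q (Sum.elim (Sum.elim x' x) y)) :=
        fun x x' h _ => hy.2.1 (Sum.elim x x') (h hy)
      refine ⟨hdf, ⟨fun x _ => hy.1 x, fun {x x'} h => hs x x' h, fun {x x' x''} h h' _ =>
        hy.2.2.1 (Sum.elim x (Sum.elim x' x'')) (h hy) (h' hy)⟩, ?_⟩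
      refine fin_of_num (k := k) hs fun z => ?_
      by_contra hz
      push Not at hz
      exact hy.2.2.2 ⟨fun p => z p.1 p.2, fun p hp => (hz p.1 p.2 hp).2⟩
    · have h1 := fe_top (U := U) (α := α) (L := L) (A ∪ range y)
      refine ⟨hdf, ⟨fun x h => absurd h hy, fun h h' => absurd h' hy, fun h h' h'' => absurd h'' hy⟩, ?_⟩
      obtain ⟨s, hs, hs'⟩ := h1.fin
      refine ⟨s, hs, fun x => ?_⟩
      obtain ⟨y', hy', -⟩ := hs' x
      exact ⟨y', hy', fun h => absurd h hy⟩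
  · intro x x'
    exact ⟨fun h => (hEQ' x x').2 (h hGc), fun h _ => (hEQ' x x').1 h⟩

end Pool.Agent.TPX
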