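import Pool.Agent.TPX.ENC
import Pool.Agent.TPX.FAM
import Pool.Agent.TPX.Brg1

/-!
# TPX module TQE: the existence of invariant extensions is invariant under equality of types
-/

set_option autoImplicit false
set_option linter.unusedVariables false

namespace Pool.Agent.TPX

open FirstOrder.Language Set
open scoped FirstOrder
open Pool.Agent.MNO

variable {L : FirstOrder.Language.{0, 0}} {U : Type} [L.Structure U]

/-- a finitely satisfiable set of definable properties is contained in a global type -/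
theorem gt_of {α : Type} (F : Set ((α → U) → Prop))
    (h : ∀ G ⊆ F, G.Finite → ∃ v, ∀ P ∈ G, P v) :
    ∃ r, GT L r ∧ ∀ P ∈ F, Dp L (univ : Set U) P → r P := by
  let S : Set (Set (α → U)) := F
  have hne : (Filter.generate S).NeBot := by
    rw [Filter.generate_neBot_iff]
    intro t ht hfin
    obtain ⟨v, hv⟩ := h t ht hfin
    exact ⟨v, fun P hP => hv P hP⟩
  let W : Ultrafilter (α → U) := @Ultrafilter.of _ (Filter.generate S) hne
  have hW : ∀ P : (α → U) → Prop, P ∈ F → {v | P v} ∈ W := by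
    intro P hP
    have h1 : (W : Filter (α → U)) ≤ Filter.generate S := @Ultrafilter.of_le _ (Filter.generate S) hne
    exact h1 (Filter.mem_generate_of_mem hP)
  refine ⟨fun P => Dp L (univ : Set U) P ∧ {v | P v} ∈ W, ⟨fun P hP => hP.1, fun P hP => ?_,
    fun P Q hP hQ => ⟨dp_and hP.1 hQ.1, ?_⟩, fun P hP => ?_⟩, fun P hP hd => ⟨hd, hW P hP⟩⟩
  · obtain ⟨v, hv⟩ := W.nonempty_of_mem hP.2
    exact ⟨v, hv⟩
  · exact Filter.inter_mem hP.2 hQ.2
  · by_cases h1 : {v | P v} ∈ W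
    · exact Or.inl ⟨hP, h1⟩
    · exact Or.inr ⟨dp_not hP, Ultrafilter.compl_mem_iff_notMem.2 h1⟩

variable (L) in
/-- the strong type of `a` over `B` has an extension which is invariant over `A` -/
def Xt (A B : Set U) {α : Type} (a : α → U) : Prop := ∃ p, GT L p ∧ Inv L A p ∧ Ets L B a p

variable (L) in
/-- the strong type of `a` over `B` has a non-realised extension which is invariant over `A` -/
def Xn (A B : Set U) (a : U) : Prop := ∃ p, GT L p ∧ Nal p ∧ Inv L A p ∧ Ets L B (s1 a) p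

/-- **TQE** -/
theorem xt_tq (hC : Cx L U) {A : Set U} (hA : A.Countable) {α γ : Type} [Finite α] [Finite γ]
    {a a' : α → U} {c c' : γ → U} (h : Tq L A (Sum.elim a c) (Sum.elim a' c'))
    (hX : Xt L A (A ∪ range c) a) : Xt L A (A ∪ range c') a' := by
  classical
  obtain ⟨p, hp, hIp, hE⟩ := hX
  let F : Set ((α → U) → Prop) := {P | ∃ E, FE L (A ∪ range c') E ∧ P = fun v => E v a'} ∪
    {P | ∃ (n : ℕ) (Q : (α ⊕ Fin n → U) → Prop) (d d' : Fin n → U), Dp L A Q ∧ Sq L A d d' ∧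
      P = fun v => (Q (Sum.elim v d) ↔ Q (Sum.elim v d'))}
  -- every condition and its transfer
  have claim : ∀ P : F, ∃ (κ : Type) (_ : Finite κ) (T : ((α ⊕ (α ⊕ γ)) ⊕ κ → U) → Prop) (e : κ → U),
      Dp L A T ∧ (∀ v, P.1 v ↔ T (Sum.elim (Sum.elim v (Sum.elim a' c')) e)) ∧
      ∀ e₁ : κ → U, Tq L A (Sum.elim (Sum.elim a' c') e) (Sum.elim (Sum.elim a c) e₁) →
        p (fun v => T (Sum.elim (Sum.elim v (Sum.elim a c)) e₁)) := by
    rintro ⟨P, hP⟩
    rcases hP with ⟨E, hE', rfl⟩ | ⟨n, Q, d, d', hQ, hdd, rfl⟩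
    · obtain ⟨Fm, hFm, hFE, hFc⟩ := thm_FAM L U hC α γ A c' E hE'
      refine ⟨Fin 0, inferInstance, fun t => Fm (fun i => t (Sum.inl (Sum.inr (Sum.inr i))))
        (fun i => t (Sum.inl (Sum.inl i))) (fun i => t (Sum.inl (Sum.inr (Sum.inl i)))),
        Fin.elim0, ?_, fun v => (hFc v a').symm, fun e₁ _ => ?_⟩
      · exact dp_sub hFm (Sum.elim (Sum.elim (fun i => Sum.inl (Sum.inl i))
          (fun i => Sum.inl (Sum.inr (Sum.inl i)))) (fun i => Sum.inl (Sum.inr (Sum.inr i))) :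
            (α ⊕ α) ⊕ γ → (α ⊕ (α ⊕ γ)) ⊕ Fin 0)
      · exact hE _ (hFE c)
    · refine ⟨Fin n ⊕ Fin n, inferInstance,
        fun t => (Q (fun i => t ((Sum.elim (fun i => Sum.inl (Sum.inl i)) (fun i => Sum.inr (Sum.inl i)) :
          α ⊕ Fin n → (α ⊕ (α ⊕ γ)) ⊕ (Fin n ⊕ Fin n)) i)) ↔
          Q (fun i => t ((Sum.elim (fun i => Sum.inl (Sum.inl i)) (fun i => Sum.inr (Sum.inr i)) :
          α ⊕ Fin n → (α ⊕ (α ⊕ γ)) ⊕ (Fin n ⊕ Fin n)) i))), Sum.elim d d',
        dp_iff (dp_sub hQ _) (dp_sub hQ _), fun v => ?_, fun e₁ he₁ => ?_⟩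
      · have e1 : ∀ (v : α → U), (fun i => (Sum.elim (Sum.elim v (Sum.elim a' c')) (Sum.elim d d'))
            ((Sum.elim (fun i => Sum.inl (Sum.inl i)) (fun i => Sum.inr (Sum.inl i)) :
              α ⊕ Fin n → (α ⊕ (α ⊕ γ)) ⊕ (Fin n ⊕ Fin n)) i)) = Sum.elim v d := by
          intro v
          funext i
          rcases i with i | i <;> rfl
        have e2 : ∀ (v : α → U), (fun i => (Sum.elim (Sum.elim v (Sum.elim a' c')) (Sum.elim d d'))
            ((Sum.elim (fun i => Sum.inl (Sum.inl i)) (fun i => Sum.inr (Sum.inr i)) :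
              α ⊕ Fin n → (α ⊕ (α ⊕ γ)) ⊕ (Fin n ⊕ Fin n)) i)) = Sum.elim v d' := by
          intro v
          funext i
          rcases i with i | i <;> rfl
        show (Q (Sum.elim v d) ↔ Q (Sum.elim v d')) ↔ (Q _ ↔ Q _)
        rw [e1, e2]
      · have e1 : ∀ (v : α → U), (fun i => (Sum.elim (Sum.elim v (Sum.elim a c)) e₁)
            ((Sum.elim (fun i => Sum.inl (Sum.inl i)) (fun i => Sum.inr (Sum.inl i)) :
              α ⊕ Fin n → (α ⊕ (α ⊕ γ)) ⊕ (Fin n ⊕ Fin n)) i)) =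
              Sum.elim v (fun i => e₁ (Sum.inl i)) := by
          intro v
          funext i
          rcases i with i | i <;> rfl
        have e2 : ∀ (v : α → U), (fun i => (Sum.elim (Sum.elim v (Sum.elim a c)) e₁)
            ((Sum.elim (fun i => Sum.inl (Sum.inl i)) (fun i => Sum.inr (Sum.inr i)) :
              α ⊕ Fin n → (α ⊕ (α ⊕ γ)) ⊕ (Fin n ⊕ Fin n)) i)) =
              Sum.elim v (fun i => e₁ (Sum.inr i)) := by
          intro v
          funext i
          rcases i with i | i <;> rfl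
        have h1 : Sq L A (fun i => e₁ (Sum.inl i)) (fun i => e₁ (Sum.inr i)) := by
          refine sq_tq0 (x := d) (y := d') ?_ hdd
          have h2 := tq_sub he₁ (Sum.inr : Fin n ⊕ Fin n → (α ⊕ γ) ⊕ (Fin n ⊕ Fin n))
          refine tq_congr h2 ?_ ?_
          · rfl
          · funext i
            rcases i with i | i <;> rfl
        have hd : ∀ b : Fin n → U, Dp L (univ : Set U) (fun v : α → U => Q (Sum.elim v b)) := fun b =>
          dp_par (dp_mono (subset_univ _) hQ) b (fun i => mem_univ _)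
        have h3 : p (fun v => (Q (Sum.elim v (fun i => e₁ (Sum.inl i))) ↔
            Q (Sum.elim v (fun i => e₁ (Sum.inr i))))) := by
          rcases hp.max _ (hd (fun i => e₁ (Sum.inl i))) with h4 | h4
          · have h5 := hIp n Q hQ _ _ h1 h4
            exact gt_mono hp (hp.and _ _ h4 h5) (dp_iff (hd _) (hd _))
              fun v hv => ⟨fun _ => hv.2, fun _ => hv.1⟩
          · rcases hp.max _ (hd (fun i => e₁ (Sum.inr i))) with h5 | h5
            · have h6 := hIp n Q hQ _ _ (sq_symm h1) h5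
              exact absurd h6 ((gt_not hp (hd _)).1 h4)
            · exact gt_mono hp (hp.and _ _ h4 h5) (dp_iff (hd _) (hd _))
                fun v hv => ⟨fun h => absurd h hv.1, fun h => absurd h hv.2⟩
        have e3 : (fun v : α → U => (Q (fun i => (Sum.elim (Sum.elim v (Sum.elim a c)) e₁)
            ((Sum.elim (fun i => Sum.inl (Sum.inl i)) (fun i => Sum.inr (Sum.inl i)) :
              α ⊕ Fin n → (α ⊕ (α ⊕ γ)) ⊕ (Fin n ⊕ Fin n)) i)) ↔
            Q (fun i => (Sum.elim (Sum.elim v (Sum.elim a c)) e₁)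
            ((Sum.elim (fun i => Sum.inl (Sum.inl i)) (fun i => Sum.inr (Sum.inr i)) :
              α ⊕ Fin n → (α ⊕ (α ⊕ γ)) ⊕ (Fin n ⊕ Fin n)) i)))) =
            fun v => (Q (Sum.elim v (fun i => e₁ (Sum.inl i))) ↔
              Q (Sum.elim v (fun i => e₁ (Sum.inr i)))) := by
          funext v
          rw [e1, e2]
        show p (fun v : α → U => (Q _ ↔ Q _))
        rw [e3]
        exact h3
  choose κ hκ T e hT hPT hpT using claim
  obtain ⟨r, hr, hrF⟩ := gt_of (L := L) F (by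
    intro G hG hfin
    have : Finite G := hfin
    have hGF : ∀ P : G, P.1 ∈ F := fun P => hG P.2
    let K : Type := Σ P : G, κ ⟨P.1, hGF P⟩
    have hK : Finite K := by
      have : ∀ P : G, Finite (κ ⟨P.1, hGF P⟩) := fun P => hκ _
      exact inferInstance
    obtain ⟨e₁, he₁⟩ := tq_ext hC hA (tq_symm h) (fun k : K => e ⟨k.1.1, hGF k.1⟩ k.2)
    have h1 : ∀ P : G, p (fun v => T ⟨P.1, hGF P⟩ (Sum.elim (Sum.elim v (Sum.elim a c))
        (fun k => e₁ ⟨P, k⟩))) := by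
      intro P
      refine hpT ⟨P.1, hGF P⟩ (fun k => e₁ ⟨P, k⟩) ?_
      have h2 := tq_sub he₁ (Sum.elim Sum.inl (fun k => Sum.inr ⟨P, k⟩) :
        (α ⊕ γ) ⊕ κ ⟨P.1, hGF P⟩ → (α ⊕ γ) ⊕ K)
      refine tq_congr h2 ?_ ?_
      · funext i
        rcases i with i | i <;> rfl
      · funext i
        rcases i with i | i <;> rfl
    have h3 := gt_all hp (G := range (fun P : G => fun v : α → U => T ⟨P.1, hGF P⟩
      (Sum.elim (Sum.elim v (Sum.elim a c)) (fun k => e₁ ⟨P, k⟩)))) (finite_range _) (by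
        rintro _ ⟨P, rfl⟩
        exact h1 P)
    obtain ⟨v, hv⟩ := hp.ne _ h3
    have h4 : Dp L A (fun w : (α ⊕ γ) ⊕ K → U => ∃ v : α → U, ∀ P : G, T ⟨P.1, hGF P⟩
        (Sum.elim (Sum.elim v (fun i => w (Sum.inl i))) (fun k => w (Sum.inr ⟨P, k⟩)))) := by
      have h5 : Dp L A (fun w : ((α ⊕ γ) ⊕ K) ⊕ α → U => ∀ P : G, T ⟨P.1, hGF P⟩
          (Sum.elim (Sum.elim (fun i => w (Sum.inr i)) (fun i => w (Sum.inl (Sum.inl i))))
            (fun k => w (Sum.inl (Sum.inr ⟨P, k⟩))))) := by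
        refine dp_all_fin fun P => ?_
        refine dp_congr (dp_sub (hT ⟨P.1, hGF P⟩) (Sum.elim (Sum.elim (fun i => Sum.inr i)
          (fun i => Sum.inl (Sum.inl i))) (fun k => Sum.inl (Sum.inr ⟨P, k⟩)) :
            (α ⊕ (α ⊕ γ)) ⊕ κ ⟨P.1, hGF P⟩ → ((α ⊕ γ) ⊕ K) ⊕ α)) fun w => iff_of_eq ?_
        congr 1
        funext i
        rcases i with (i | i) | i <;> rfl
      exact dp_ex h5
    obtain ⟨w, hw⟩ := (tq_iff he₁ h4).2 ⟨v, fun P => hv _ ⟨P, rfl⟩⟩
    refine ⟨w, fun P hP => ?_⟩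
    exact (hPT ⟨P, hG hP⟩ w).2 (hw ⟨P, hP⟩))
  refine ⟨r, hr, ?_, ?_⟩
  · intro n Q hQ d d' hdd h1
    have hd : ∀ b : Fin n → U, Dp L (univ : Set U) (fun v : α → U => Q (Sum.elim v b)) := fun b =>
      dp_par (dp_mono (subset_univ _) hQ) b (fun i => mem_univ _)
    have h2 := hrF (fun v => (Q (Sum.elim v d) ↔ Q (Sum.elim v d')))
      (Or.inr ⟨n, Q, d, d', hQ, hdd, rfl⟩) (dp_iff (hd d) (hd d'))
    exact gt_mono hr (hr.and _ _ h1 h2) (hd d') fun v hv => hv.2.1 hv.1
  · intro E hE'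
    exact hrF (fun v => E v a') (Or.inl ⟨E, hE', rfl⟩) (dp_mono (subset_univ _) (fe_cls hE' a'))

/-! ### non-realised types -/

/-- an invariant type is not realised iff the strong type has another element -/
theorem nal_iff (hC : Cx L U) {A : Set U} (hA : A.Countable) {p : ((Fin 1 → U) → Prop) → Prop}
    (hp : GT L p) (hI : Inv L A p) {y : U} (hy : Ets L A (s1 y) p) :
    Nal p ↔ ∃ y₂, y₂ ≠ y ∧ Sq L A (s1 y) (s1 y₂) := by
  constructor
  · intro hN
    obtain ⟨w, hw⟩ := gt_real hC hp (B := A ∪ {y}) (hA.union (countable_singleton y))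
    have hw' : Ets L (A ∪ {y}) (s1 (w 0)) p := by
      rw [s1_eq]
      exact hw
    refine ⟨w 0, ?_, ets_sq hp hy (ets_mono subset_union_left hw')⟩
    intro h
    exact nal_not hp hN hw' (Or.inr h)
  · rintro ⟨y₂, hne, hs⟩ u hu
    have hd : Dp L A (fun v : Fin 1 ⊕ Fin 1 → U => v (Sum.inl 0) = v (Sum.inr 0)) := dp_eq _ _
    have h1 : Sq L A (s1 u) (s1 y) := by
      intro E hE
      obtain ⟨x, hx, hx'⟩ := hp.ne _ (hp.and _ _ (hy E hE) hu)
      have e : x = s1 u := by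
        funext i
        rw [Subsingleton.elim i 0]
        exact hx'
      rw [e] at hx
      exact hx
    have h2 : ∀ v, Sq L A (s1 u) (s1 v) → v = u := by
      intro v hv
      have h3 := hI 1 (fun v => v (Sum.inl 0) = v (Sum.inr 0)) hd (s1 u) (s1 v) hv hu
      obtain ⟨x, hx, hx'⟩ := hp.ne _ (hp.and _ _ hu h3)
      have hx1 : x 0 = u := hx
      have hx2 : x 0 = v := hx'
      rw [← hx1, ← hx2]
    have h4 := h2 y h1
    have h5 := h2 y₂ (sq_trans h1 hs)
    exact hne (h5.trans h4.symm)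

/-- **TQE** for non-realised types of elements -/
theorem xn_tq (hC : Cx L U) {A : Set U} (hA : A.Countable) {γ : Type} [Finite γ]
    {a a' : U} {c c' : γ → U} (h : Tq L A (Sum.elim (s1 a) c) (Sum.elim (s1 a') c'))
    (hX : Xn L A (A ∪ range c) a) : Xn L A (A ∪ range c') a' := by
  obtain ⟨p, hp, hN, hI, hE⟩ := hX
  obtain ⟨p', hp', hI', hE'⟩ := xt_tq hC hA h ⟨p, hp, hI, hE⟩
  obtain ⟨y₂, hne, hs⟩ := (nal_iff hC hA hp hI (ets_mono subset_union_left hE)).1 hN
  have h1 : Tq L A (s1 a) (s1 a') := tq_sub h (Sum.inl : Fin 1 → Fin 1 ⊕ γ)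
  obtain ⟨w, hw⟩ := tq_ext hC hA h1 (s1 y₂)
  rw [← s1_eq w] at hw
  refine ⟨p', hp', (nal_iff hC hA hp' hI' (ets_mono subset_union_left hE')).2 ⟨w 0, ?_, sq_tq0 hw hs⟩,
    hI', hE'⟩
  intro h2
  have h3 := (tq_eq hw (Sum.inr 0) (Sum.inl 0)).2 h2
  exact hne h3

end Pool.Agent.TPX
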