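import Pool.Agent.TPX.AllN
import Pool.Agent.TPX.StF
import Pool.Agent.TPX.TQE

/-!
# TPX module HYP (helper58): assembly of the structure chapter
-/

set_option autoImplicit false
set_option linter.unusedVariables false

namespace Pool.Agent.TPX

open FirstOrder.Language Set
open scoped FirstOrder
open Pool.Agent.MNO

section

variable {L : FirstOrder.Language.{0, 0}} {U : Type} [L.Structure U]

/-- a piece is one point or the end of a non-realised invariant type -/
theorem pc_cases (hC : Cx L U) {A : Set U} (hA : A.Finite) (x : U) :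
    Pc L A x = {x} ∨ ∃ r : ((Fin 1 → U) → Prop) → Prop, Gd L A r ∧ Pc L A x = En L A r := by
  obtain ⟨r, hr, hI, hE⟩ := cx_inv hC hA (s1 x)
  by_cases hN : Nal r
  · exact Or.inr ⟨r, ⟨hr, hN, hI⟩, e_pc hC hr hN hI Subset.rfl hA hE⟩
  · left
    have h1 := mt (nal_iff hC hA.countable hr hI hE).2 hN
    push Not at h1
    have h2 : ∀ y, Sq L A (s1 x) (s1 y) → y = x := by
      intro y hy
      by_contra hne
      exact h1 y hne hy
    have h3 : BF L A {x} := by
      refine ⟨fun a b hab ha => ?_, fun m n u u' w hu hu' hw h => ?_⟩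
      · rw [mem_singleton_iff] at ha
        rw [ha] at hab
        exact h2 b hab
      · have e : u = u' := by
          funext i
          rw [mem_singleton_iff.1 (hu i), mem_singleton_iff.1 (hu' i)]
        rw [e]
        exact sq_refl A _
    exact Subset.antisymm (pc_sub h3 rfl) (singleton_subset_iff.2 (mem_pc x))

/-- an infinite independent sequence -/
theorem ind_ex (hC : Cx L U) {A : Set U} (hA : A.Finite) {r : ((Fin 1 → U) → Prop) → Prop}
    (hG : Gd L A r) : ∃ x : ℕ → U, ∀ k, x k ∈ En L (A ∪ pre x k) r := by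
  obtain ⟨z, hz⟩ := mo_ex0 hC hG.gt hA.countable
  refine ⟨fun k => z k 0, fun k => ?_⟩
  have h1 := hz (k + 1) k (Nat.lt_succ_self k)
  rw [← s1_eq (z k)] at h1
  refine e_mem hG.gt hG.nal (ets_mono ?_ h1)
  refine union_subset_union_right A ?_
  rintro y ⟨i, hi, rfl⟩
  exact ⟨i, hi, 0, rfl⟩

end

/-- [HYP] **the structure chapter** -/
theorem thm_HYP (hFRV : St_FRV) (hNIL : St_NIL) (hLIN : St_LIN) (hLQF : St_LQF) : St_HYP := by
  intro L U _ hC
  -- type L: `N` as in NIL
  have hN : ∀ (A : Set U) (r : ((Fin 1 → U) → Prop) → Prop), A.Finite → Gd L A r → ¬ TS L A r →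
      ∃ N : ℕ, ∀ x : ℕ → U, Ind L A r N x → NF L (A ∪ pre x N) r := by
    intro A r hA hG hT
    unfold TS at hT
    push Not at hT
    obtain ⟨B, hAB, hB, h1⟩ := hT
    exact n_TRL L U hC r hG.gt hG.nal A hA hG.inv B hAB hB h1
  refine ⟨fun A x hA => ?_, fun A x hA => ?_⟩
  · rcases pc_cases hC hA x with h1 | ⟨r, hG, h1⟩
    · exact Or.inl ⟨{x}, finite_singleton x, h1.le⟩
    · right
      by_cases hT : TS L A r
      · obtain ⟨E, cl, h2, h3⟩ := hFRV L U hC r A hA hG hT
        refine ⟨A, E, hA, Subset.rfl, Or.inr ⟨cl, h2⟩, fun y hy => ⟨y, h3 ?_, sq_refl A _⟩⟩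
        rw [← h1]
        exact hy
      · obtain ⟨N, hN'⟩ := hN A r hA hG hT
        obtain ⟨x', hx'⟩ := ind_ex hC hA hG
        have hCf : (A ∪ pre x' N).Finite := hA.union (trl_pre_fin x' N)
        have hGC : Gd L (A ∪ pre x' N) r := ⟨hG.gt, hG.nal, inv_up subset_union_left hG.inv⟩
        have hNF : NF L (A ∪ pre x' N) r := hN' x' fun k _ => hx' k
        have hLQ := hLQF L U hC r (A ∪ pre x' N) hCf hGC hNF
        obtain ⟨b₁, -, hb₁⟩ := e_real hC hGC.gt hGC.nal hGC.inv Subset.rfl hCf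
        obtain ⟨b₂, -, hb₂⟩ := e_real hC hGC.gt hGC.nal hGC.inv (subset_insert b₁ (A ∪ pre x' N))
          (hCf.insert b₁)
        have hb₂' : b₂ ∈ En L (A ∪ pre x' N) r := e_mono hC hGC.gt hGC.nal hGC.inv Subset.rfl
          (subset_insert b₁ _) (hCf.insert b₁) hb₂
        have hLV := (hLIN L U hC (A ∪ pre x' N) _ _ hLQ b₁ hb₁ b₂ hb₂' hb₂).1
        refine ⟨_, _, (hCf.insert b₁).insert b₂, ?_, Or.inl ⟨_, hLV⟩, fun y hy => ?_⟩
        · exact subset_union_left.trans ((subset_insert b₁ _).trans (subset_insert b₂ _))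
        · rw [h1] at hy
          obtain ⟨z, hz, hz'⟩ := e_rea hC hG.gt hG.nal hG.inv (B := A) (C := insert b₂ (A ∪ pre x' N))
            Subset.rfl (subset_union_left.trans (subset_insert b₂ _)) (hCf.insert b₂) hy
          exact ⟨z, ⟨e_mono hC hGC.gt hGC.nal hGC.inv Subset.rfl (subset_insert b₂ _) (hCf.insert b₂) hz',
            hz'⟩, hz⟩
  · rcases pc_cases hC hA x with h1 | ⟨r, hG, h1⟩
    · exact ⟨0, Or.inl h1⟩
    · by_cases hT : TS L A r
      · obtain ⟨E, cl, h2, h3⟩ := hFRV L U hC r A hA hG hT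
        exact ⟨0, Or.inr (Or.inr ⟨E, cl, h2, h1.trans_subset h3⟩)⟩
      · obtain ⟨N, hN'⟩ := hN A r hA hG hT
        refine ⟨N + 2, hNIL L U hC r A hA hG N hN' x ?_⟩
        rw [← h1]
        exact mem_pc x

end Pool.Agent.TPX
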