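import Pool.Agent.TPX.AllK
import Pool.Agent.TPX.StF

/-!
# TPX module ALB (helper58): the algebra argument
-/

set_option autoImplicit false
set_option linter.unusedVariables false

namespace Pool.Agent.TPX

open FirstOrder.Language Set
open scoped FirstOrder
open Pool.Agent.MNO

/-- [ALB] -/
theorem thm_ALB : St_ALB := by
  intro L U _ hC r A hA hG F C W y hAF hFC hCf hy h
  have hF : F.Finite := hCf.subset hFC
  have hIF := inv_up hAF hG.inv
  obtain ⟨q, hq, hqN, hIq, hEq⟩ := e_div hC hG.gt hG.nal hF hIF hFC hCf hy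
  -- a realisation over everything
  have key : ∀ (γ : Type) [Finite γ] (u u' : γ → U) (X : Set U), X.Finite → Sq L F u u' →
      ∃ y'', BF L (insert y'' F) W ∧ Sq L (insert y'' F) u u' := by
    intro γ _ u u' X hX huu
    obtain ⟨v, hv⟩ := gt_real hC hq (B := C ∪ range u ∪ range u')
      ((hCf.union (finite_range u)).union (finite_range u')).countable
    have hv' : Ets L (C ∪ range u ∪ range u') (s1 (v 0)) q := by
      rw [s1_eq]
      exact hv
    refine ⟨v 0, h _ (ets_sq hq hEq (ets_mono (subset_union_left.trans subset_union_left) hv')), ?_⟩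
    have h1 : Rl L F q (Sum.elim u u') (s1 (v 0)) := by
      refine rl_of_ets (hFC.trans (subset_union_left.trans subset_union_left)) ?_ hv'
      rintro (i | i)
      · exact Or.inl (Or.inr ⟨i, rfl⟩)
      · exact Or.inr ⟨i, rfl⟩
    have h2 := li hC hF hq hIq huu h1
    rw [range_s1, union_singleton] at h2
    exact h2
  refine ⟨fun a a' haa ha => ?_, fun m n u u' w hu hu' hw huu => ?_⟩
  · obtain ⟨y'', h1, h2⟩ := key (Fin 1) (s1 a) (s1 a') ∅ finite_empty haa
    exact h1.inv a a' h2 ha
  · obtain ⟨y'', h1, h2⟩ := key (Fin m) u u' ∅ finite_empty huu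
    exact sq_mono (subset_insert y'' F) (h1.prd m n u u' w hu hu' hw h2)

end Pool.Agent.TPX
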