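import Pool.Agent.TPX.AllK
import Pool.Agent.TPX.StF

/-!
# TPX module CLA: the types of a linear piece converge to one of the two ends
-/

set_option autoImplicit false
set_option linter.unusedVariables false

namespace Pool.Agent.TPX

open FirstOrder.Language Set
open scoped FirstOrder
open Pool.Agent.MNO

variable {L : FirstOrder.Language.{0, 0}} {U : Type} [L.Structure U]

theorem sq_pair {A : Set U} {x y x' y' : U} :
    Sq L A (Sum.elim (s1 x) (s1 y)) (Sum.elim (s1 x') (s1 y')) ↔ Sq L A ![x, y] ![x', y'] := by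
  constructor
  · intro h
    refine sq_cov h ?_
    intro i
    fin_cases i
    · exact ⟨Sum.inl 0, rfl, rfl⟩
    · exact ⟨Sum.inr 0, rfl, rfl⟩
  · intro h
    refine sq_cov h ?_
    rintro (i | i)
    · exact ⟨0, rfl, rfl⟩
    · exact ⟨1, rfl, rfl⟩

section cla

variable {A P : Set U} {lt : U → U → Prop}

/-- extension of a pair -/
theorem cla_ext (hC : Cx L U) (hA : A.Countable) {x x' : U} (h : Sq L A (s1 x) (s1 x')) (y : U) :
    ∃ y', Sq L A (Sum.elim (s1 y) (s1 x)) (Sum.elim (s1 y') (s1 x')) := by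
  obtain ⟨w, hw⟩ := sq_ext hC hA h (s1 y)
  rw [← s1_eq w] at hw
  exact ⟨w 0, sq_swap hw⟩

theorem cla_bf (hC : Cx L U) (hL : LO0 L A P lt) : BF L A P := by
  obtain ⟨x, hx⟩ := hL.ne
  rw [← hL.pc x hx]
  exact pc_bf hC x

theorem cla_mem (hC : Cx L U) (hL : LO0 L A P lt) {x y : U} (h : Sq L A (s1 x) (s1 y)) (hx : x ∈ P) :
    y ∈ P := (cla_bf hC hL).inv _ _ h hx

theorem cla_inv (hL : LO0 L A P lt) {x y x' y' : U}
    (h : Sq L A (Sum.elim (s1 y) (s1 x)) (Sum.elim (s1 y') (s1 x'))) (hx : x ∈ P) (hy : y ∈ P)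
    (hxy : lt x y) : lt x' y' := by
  refine hL.inv x y x' y' (sq_cov h ?_) hx hy hxy
  intro i
  fin_cases i
  · exact ⟨Sum.inr 0, rfl, rfl⟩
  · exact ⟨Sum.inl 0, rfl, rfl⟩

theorem cla_inv' (hL : LO0 L A P lt) {x y x' y' : U}
    (h : Sq L A (Sum.elim (s1 y) (s1 x)) (Sum.elim (s1 y') (s1 x'))) (hx : x ∈ P) (hy : y ∈ P)
    (hxy : lt y x) : lt y' x' := by
  refine hL.inv y x y' x' (sq_cov h ?_) hy hx hxy
  intro i
  fin_cases i
  · exact ⟨Sum.inl 0, rfl, rfl⟩
  · exact ⟨Sum.inr 0, rfl, rfl⟩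

/-- [CLA] -/
theorem thm_CLA (hLOH : St_LOH) : St_CLA := by
  intro L U _ hC A P lt hL p hG hP
  obtain ⟨-, h2, h3, h4, -⟩ := hLOH L U hC A P lt hL
  have h0 := hL.lo0
  have hA := h0.fin
  have hsub : ∀ u, En L (insert u A) p ⊆ P := by
    intro u
    rw [← hP]
    exact e_mono hC hG.gt hG.nal hG.inv Subset.rfl (subset_insert u A) (hA.insert u)
  have hup : ∀ u ∈ P, ∀ w ∈ En L (insert u A) p, lt u w → En L (insert u A) p = {v | v ∈ P ∧ lt u v} := by
    intro u hu w hw huw
    rw [← (h2 u hu).lo0.pc w ⟨hsub u hw, huw⟩,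
      e_eq hC hG.gt hG.nal hG.inv (subset_insert u A) (hA.insert u) hw]
  have hdn : ∀ u ∈ P, ∀ w ∈ En L (insert u A) p, lt w u → En L (insert u A) p = {v | v ∈ P ∧ lt v u} := by
    intro u hu w hw huw
    rw [← (h3 u hu).lo0.pc w ⟨hsub u hw, huw⟩,
      e_eq hC hG.gt hG.nal hG.inv (subset_insert u A) (hA.insert u) hw]
  -- no end inside a cluster
  have hcl : ∀ u ∈ P, ∃ w ∈ En L (insert u A) p, lt u w ∨ lt w u := by
    intro u hu
    by_contra hcon
    push Not at hcon
    obtain ⟨v, hv, huv, -⟩ := h0.gap {u} ∅ (finite_singleton u) finite_empty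
      (singleton_subset_iff.2 hu) (empty_subset _) (fun d _ w hw => absurd hw (notMem_empty w)) u hu
    have huv' : lt u v := huv u (mem_singleton u)
    have hvP : v ∈ P := cla_mem hC h0 hv hu
    obtain ⟨t, -, ht⟩ := e_real (B := insert v (insert u A)) hC hG.gt hG.nal hG.inv
      ((subset_insert u A).trans (subset_insert v _)) ((hA.insert u).insert v)
    have htu : t ∈ En L (insert u A) p :=
      e_mono hC hG.gt hG.nal hG.inv (subset_insert u A) (subset_insert v _) ((hA.insert u).insert v) ht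
    have htv : t ∈ En L (insert v A) p :=
      e_mono hC hG.gt hG.nal hG.inv (subset_insert v A) (insert_subset_insert (subset_insert u A))
        ((hA.insert u).insert v) ht
    obtain ⟨t', ht'⟩ := cla_ext hC hA.countable (sq_symm hv) t
    have ht'u : t' ∈ En L (insert u A) p := (e_mv1 hC hG.gt hG.inv Subset.rfl hA ht').1 htv
    have h5 := hcon t htu
    have h6 := hcon t' ht'u
    have h7 : ¬ lt v t := fun h => h6.1 (cla_inv h0 ht' hvP (hsub v htv) h)
    have h8 : ¬ lt t v := fun h => h6.2 (cla_inv' h0 ht' hvP (hsub v htv) h)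
    rcases h0.neg u hu t (hsub u htu) v hvP huv' with h | h
    · exact h5.1 h
    · exact h8 h
  by_cases hall : ∀ u ∈ P, En L (insert u A) p = {v | v ∈ P ∧ lt u v}
  · exact Or.inl hall
  · right
    push Not at hall
    obtain ⟨v, hv, hne⟩ := hall
    -- `v` is lower
    obtain ⟨t, ht, htv⟩ := hcl v hv
    have htv : lt t v := by
      rcases htv with h | h
      · exact absurd (hup v hv t ht h) hne
      · exact h
    intro u hu
    obtain ⟨s, hs, hsu⟩ := hcl u hu
    rcases hsu with hsu | hsu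
    swap
    · exact hdn u hu s hs hsu
    exfalso
    have hU := hup u hu s hs hsu
    obtain ⟨v', hvv', -, hv'u⟩ := h0.gap ∅ {u} finite_empty (finite_singleton u) (empty_subset _)
      (singleton_subset_iff.2 hu) (fun d hd => absurd hd (notMem_empty d)) v hv
    have hv'u : lt v' u := hv'u u (mem_singleton u)
    have hv'P : v' ∈ P := cla_mem hC h0 hvv' hv
    obtain ⟨t', ht'⟩ := cla_ext hC hA.countable hvv' t
    have ht'e : t' ∈ En L (insert v' A) p := (e_mv1 hC hG.gt hG.inv Subset.rfl hA ht').1 ht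
    have ht'v : lt t' v' := cla_inv' h0 ht' hv (hsub v ht) htv
    have hV := hdn v' hv'P t' ht'e ht'v
    obtain ⟨w, -, hw⟩ := e_real (B := insert v' (insert u A)) hC hG.gt hG.nal hG.inv
      ((subset_insert u A).trans (subset_insert v' _)) ((hA.insert u).insert v')
    have hwu : w ∈ En L (insert u A) p :=
      e_mono hC hG.gt hG.nal hG.inv (subset_insert u A) (subset_insert v' _) ((hA.insert u).insert v') hw
    have hwv : w ∈ En L (insert v' A) p :=
      e_mono hC hG.gt hG.nal hG.inv (subset_insert v' A) (insert_subset_insert (subset_insert u A))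
        ((hA.insert u).insert v') hw
    rw [hU] at hwu
    rw [hV] at hwv
    have h5 := h0.tra u hu w hwu.1 v' hv'P hwu.2 hwv.2
    exact h0.irr u hu (h0.tra u hu v' hv'P u hu h5 hv'u)

end cla

end Pool.Agent.TPX
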