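import Pool.Agent.TPX.LOH
import Pool.Agent.TPX.CLA
import Pool.Agent.TPX.TQE

/-!
# TPX module LQF: the order of a linear piece is invariant under equality of types over two points

For `b ∈ P` and a finite set `C ⊆ P` the strong type of `b` over `A ∪ C` has a non-realised `A`-invariant extension iff
`b` is above all points of `C` or below all points of `C` (`xn_lo`).  This is invariant under equality of types (TQE).
-/

set_option autoImplicit false
set_option linter.unusedVariables false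

namespace Pool.Agent.TPX

open FirstOrder.Language Set
open scoped FirstOrder
open Pool.Agent.MNO

variable {L : FirstOrder.Language.{0, 0}} {U : Type} [L.Structure U]

section lqf

variable {A P : Set U} {lt : U → U → Prop}

theorem lo_asy (h : LO0 L A P lt) {x y : U} (hx : x ∈ P) (hy : y ∈ P) (hxy : lt x y) : ¬ lt y x :=
  fun hyx => h.irr x hx (h.tra x hx y hy x hx hxy hyx)

/-- points of the same strong type below `B ∩ P` have the same strong type over `B` -/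
theorem lo_agree (hC : Cx L U) (h : LO L A P lt) {b z z' : U} (hb : b ∈ P) {B : Set U} (hB : B.Finite)
    (hz : Sq L A (s1 b) (s1 z)) (hz' : Sq L A (s1 b) (s1 z')) (hzB : ∀ c ∈ B, c ∈ P → lt z c)
    (hzB' : ∀ c ∈ B, c ∈ P → lt z' c) : Sq L B (s1 z) (s1 z') := by
  have hzP : z ∈ P := cla_mem hC h.lo0 hz hb
  have hBP : (B ∩ P).Finite := hB.inter_of_left P
  have h1 : Sq L (A ∪ ∅ ∪ (B ∩ P)) (s1 z) (s1 z') :=
    h.ort 1 (s1 z) (s1 z') ∅ (B ∩ P) finite_empty hBP (empty_subset P) inter_subset_right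
      (fun i => hzP) (sq_trans (sq_symm hz) hz') (fun d hd => absurd hd (notMem_empty d))
      (fun w hw i => ⟨hzB w hw.1 hw.2, hzB' w hw.1 hw.2⟩)
  obtain ⟨n, w, hw⟩ := exists_enum (B := B \ P) (hB.subset sdiff_subset)
  have h2 := of (w := w) hC ((h.lo0.fin.union finite_empty).union hBP)
    (show A ⊆ A ∪ ∅ ∪ (B ∩ P) from subset_union_left.trans subset_union_left) (cla_bf hC h.lo0)
    (u := s1 z) (u' := s1 z') (fun i => hzP) h1 (fun j => by
      have h3 : w j ∈ B \ P := by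
        rw [← hw]
        exact ⟨j, rfl⟩
      exact h3.2)
  refine sq_mono ?_ h2
  intro c hc
  by_cases hcP : c ∈ P
  · exact Or.inl (Or.inr ⟨hc, hcP⟩)
  · rw [hw]
    exact Or.inr ⟨hc, hcP⟩

/-- the parameters are not in the piece -/
theorem lo_notA (hC : Cx L U) (h : LO0 L A P lt) {a : U} (ha : a ∈ A) : a ∉ P := by
  intro haP
  obtain ⟨z, hz, haz, -⟩ := h.gap {a} ∅ (finite_singleton a) finite_empty
    (singleton_subset_iff.2 haP) (empty_subset _) (fun d _ w hw => absurd hw (notMem_empty w)) a haP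
  have haz : lt a z := haz a (mem_singleton a)
  have hzP := cla_mem hC h hz haP
  rw [← h.pc a haP, pc_par ha] at hzP
  have e : z = a := hzP
  rw [e] at haz
  exact h.irr a haP haz

/-- below everything -/
theorem lo_low (hC : Cx L U) (h : LO L A P lt) {b : U} (hb : b ∈ P) {C : Set U} (hCf : C.Finite)
    (hCP : C ⊆ P) (hbC : ∀ c ∈ C, lt b c) : Xn L A (A ∪ C) b := by
  classical
  have hA := h.lo0.fin
  let F : Set ((Fin 1 → U) → Prop) := {Q | ∃ B : Set U, B.Finite ∧ Dp L B Q ∧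
    ∀ z, Sq L A (s1 b) (s1 z) → (∀ c ∈ B, c ∈ P → lt z c) → Q (s1 z)}
  have hgap : ∀ B : Set U, B.Finite → ∃ z, Sq L A (s1 b) (s1 z) ∧ ∀ c ∈ B, c ∈ P → lt z c := by
    intro B hB
    obtain ⟨z, hz, -, hzB⟩ := h.lo0.gap ∅ (B ∩ P) finite_empty (hB.inter_of_left P) (empty_subset _)
      inter_subset_right (fun d hd => absurd hd (notMem_empty d)) b hb
    exact ⟨z, hz, fun c hc hcP => hzB c ⟨hc, hcP⟩⟩
  obtain ⟨p, hp, hpF⟩ := gt_of (L := L) F (by
    intro G hG hfin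
    have h1 : ∀ Q : G, ∃ B : Set U, B.Finite ∧ Dp L B Q.1 ∧
        ∀ z, Sq L A (s1 b) (s1 z) → (∀ c ∈ B, c ∈ P → lt z c) → Q.1 (s1 z) := fun Q => hG Q.2
    choose B hB hBQ hBz using h1
    have hGf : Finite G := hfin
    obtain ⟨z, hz, hzB⟩ := hgap (⋃ Q : G, B Q) (finite_iUnion fun Q => hB Q)
    refine ⟨s1 z, fun Q hQ => hBz ⟨Q, hQ⟩ z hz fun c hc hcP => hzB c ?_ hcP⟩
    exact mem_iUnion.2 ⟨⟨Q, hQ⟩, hc⟩)
  have hpF' : ∀ Q ∈ F, p Q := by
    intro Q hQ
    obtain ⟨B, hB, hBQ, hBz⟩ := hQ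
    exact hpF Q ⟨B, hB, hBQ, hBz⟩ (dp_mono (subset_univ B) hBQ)
  -- `p` decides properties by points below
  have hdec : ∀ (B : Set U) (Q : (Fin 1 → U) → Prop) (z : U), B.Finite → Dp L B Q →
      Sq L A (s1 b) (s1 z) → (∀ c ∈ B, c ∈ P → lt z c) → (p Q ↔ Q (s1 z)) := by
    intro B Q z hB hQ hz hzB
    have h1 : Q (s1 z) → p Q := fun h2 => hpF' Q ⟨B, hB, hQ, fun z' hz' hzB' =>
      (sq_dp (lo_agree hC h hb hB hz hz' hzB hzB') hQ).1 h2⟩
    refine ⟨fun h2 => ?_, h1⟩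
    by_contra h3
    have h4 := hpF' (fun v => ¬ Q v) ⟨B, hB, dp_not hQ, fun z' hz' hzB' h5 =>
      h3 ((sq_dp (lo_agree hC h hb hB hz hz' hzB hzB') hQ).2 h5)⟩
    obtain ⟨x, hx, hx'⟩ := hp.ne _ (hp.and _ _ h2 h4)
    exact hx' hx
  refine ⟨p, hp, ?_, ?_, ?_⟩
  · intro a ha
    obtain ⟨z, hz, hza⟩ := hgap {a} (finite_singleton a)
    have h1 := (hdec {a} (fun v => v 0 = a) z (finite_singleton a) (dp_eqc 0 (mem_singleton a)) hz hza).1 ha
    have h1' : z = a := h1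
    have hzP := cla_mem hC h.lo0 hz hb
    have h2 := hza a (mem_singleton a) (by rw [← h1']; exact hzP)
    rw [h1'] at h2
    exact h.lo0.irr a (by rw [← h1']; exact hzP) h2
  · intro n Q hQ c c' hcc h1
    obtain ⟨z, hz, hzB⟩ := hgap (A ∪ range c ∪ range c') ((hA.union (finite_range _)).union (finite_range _))
    have hd : ∀ c : Fin n → U, Dp L (A ∪ range c) (fun v => Q (Sum.elim v c)) := fun c =>
      dp_par (dp_mono subset_union_left hQ) c (fun i => Or.inr ⟨i, rfl⟩)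
    have h2 : Q (Sum.elim (s1 z) c) := (hdec (A ∪ range c) _ z (hA.union (finite_range _)) (hd c) hz
      (fun d hd hdP => hzB d (Or.inl hd) hdP)).1 h1
    obtain ⟨z₁, hz₁⟩ := sq_ext hC hA.countable hcc (s1 z)
    rw [← s1_eq z₁] at hz₁
    have h3 : Q (Sum.elim (s1 (z₁ 0)) c') := (sq_dp (sq_swap hz₁) hQ).1 h2
    have hz₁b : Sq L A (s1 b) (s1 (z₁ 0)) := sq_trans hz (sq_right hz₁)
    refine (hdec (A ∪ range c') _ (z₁ 0) (hA.union (finite_range _)) (hd c') hz₁b ?_).2 h3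
    rintro d (hdA | ⟨i, rfl⟩) hdP
    · exact absurd hdP (lo_notA hC h.lo0 hdA)
    · have h4 : c i ∈ P := (bf_inv (cla_bf hC h.lo0) hcc i).2 hdP
      have h5 : Sq L A (Sum.elim (s1 (c i)) (s1 z)) (Sum.elim (s1 (c' i)) (s1 (z₁ 0))) := by
        refine sq_cov hz₁ ?_
        rintro (j | j)
        · exact ⟨Sum.inl i, rfl, rfl⟩
        · exact ⟨Sum.inr j, rfl, rfl⟩
      exact cla_inv h.lo0 h5 (cla_mem hC h.lo0 hz hb) h4 (hzB (c i) (Or.inl (Or.inr ⟨i, rfl⟩)) h4)
  · intro E hE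
    refine hpF' _ ⟨A ∪ C ∪ range (s1 b), (hA.union hCf).union (finite_range _), fe_cls hE (s1 b),
      fun z hz hzB => ?_⟩
    have h1 : Sq L (A ∪ C) (s1 z) (s1 b) := by
      refine lo_agree hC h hb (hA.union hCf) hz (sq_refl A _) (fun c hc hcP => hzB c (Or.inl hc) hcP) ?_
      rintro c (hcA | hcC) hcP
      · exact absurd hcP (lo_notA hC h.lo0 hcA)
      · exact hbC c hcC
    exact h1 E hE

/-- the elements with a non-realised invariant extension are above or below everything -/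
theorem xn_lo (hC : Cx L U) (h : LO L A P lt) {b : U} (hb : b ∈ P) {C : Set U} (hCf : C.Finite)
    (hCP : C ⊆ P) : Xn L A (A ∪ C) b ↔ (∀ c ∈ C, lt c b) ∨ ∀ c ∈ C, lt b c := by
  have hA := h.lo0.fin
  constructor
  · rintro ⟨p, hp, hN, hI, hE⟩
    have hpb : Ets L A (s1 b) p := ets_mono subset_union_left hE
    have hP : En L A p = P := by
      rw [← e_pc hC hp hN hI Subset.rfl hA hpb, h.lo0.pc b hb]
    have hbe : ∀ c ∈ C, b ∈ En L (insert c A) p := by
      intro c hc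
      refine e_mono hC hp hN hI (subset_insert c A) ?_ (hA.union hCf) (e_mem hp hN hE)
      rintro x (rfl | hx)
      · exact Or.inr hc
      · exact Or.inl hx
    rcases thm_CLA thm_LOH L U hC A P lt h p ⟨hp, hN, hI⟩ hP with h1 | h1
    · left
      intro c hc
      have h2 := hbe c hc
      rw [h1 c (hCP hc)] at h2
      exact h2.2
    · right
      intro c hc
      have h2 := hbe c hc
      rw [h1 c (hCP hc)] at h2
      exact h2.2
  · rintro (h1 | h1)
    · exact lo_low hC (lo_rev h) hb hCf hCP h1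
    · exact lo_low hC h hb hCf hCP h1

/-- linear pieces are `LQ` -/
theorem lq_of (hC : Cx L U) (h : LO L A P lt) : LQ L A P lt := by
  refine ⟨h, ?_⟩
  intro y₁ y₂ u v u' v' hy₁ hy₂ hu hv hy hT huv
  have h0 := h.lo0
  have hA := h0.fin
  obtain ⟨t, ht, htD, -⟩ := h0.gap {y₁, y₂, u, v} ∅ (toFinite _) finite_empty (by
      rintro x (rfl | rfl | rfl | rfl)
      · exact hy₁
      · exact hy₂
      · exact hu
      · exact hv) (empty_subset _) (fun d _ w hw => absurd hw (notMem_empty w)) y₁ hy₁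
  have htP := cla_mem hC h0 ht hy₁
  have ty₁ : lt y₁ t := htD y₁ (Or.inl rfl)
  have ty₂ : lt y₂ t := htD y₂ (Or.inr (Or.inl rfl))
  have tu : lt u t := htD u (Or.inr (Or.inr (Or.inl rfl)))
  have tv : lt v t := htD v (Or.inr (Or.inr (Or.inr rfl)))
  obtain ⟨w, hw⟩ := tq_ext hC hA.countable hT (s1 t)
  rw [← s1_eq w] at hw
  generalize w 0 = t' at hw
  -- membership
  have hmem : ∀ (i : Fin 4 ⊕ Fin 1), Sum.elim ![y₁, y₂, u, v] (s1 t) i ∈ P →
      Sum.elim ![y₁, y₂, u', v'] (s1 t') i ∈ P := by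
    intro i hi
    rw [← h0.pc y₁ hy₁] at hi ⊢
    refine pc_tq0 hC hA.countable ?_ hi
    have h1 := tq_sub hw ![Sum.inl 0, i]
    refine tq_congr h1 ?_ ?_
    · funext j
      fin_cases j <;> rfl
    · funext j
      fin_cases j <;> rfl
  have hu' : u' ∈ P := hmem (Sum.inl 2) hu
  have hv' : v' ∈ P := hmem (Sum.inl 3) hv
  have ht' : t' ∈ P := hmem (Sum.inr 0) htP
  -- transfer
  have hX : ∀ (k : ℕ) (i : Fin 4 ⊕ Fin 1) (g : Fin k → Fin 4 ⊕ Fin 1) (b b' : U) (C C' : Set U),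
      Sum.elim ![y₁, y₂, u, v] (s1 t) i = b → Sum.elim ![y₁, y₂, u', v'] (s1 t') i = b' →
      range (fun j => Sum.elim ![y₁, y₂, u, v] (s1 t) (g j)) = C →
      range (fun j => Sum.elim ![y₁, y₂, u', v'] (s1 t') (g j)) = C' →
      (Xn L A (A ∪ C) b ↔ Xn L A (A ∪ C') b') := by
    rintro k i g _ _ _ _ rfl rfl rfl rfl
    have h1 := tq_sub hw (Sum.elim (fun _ => i) g : Fin 1 ⊕ Fin k → Fin 4 ⊕ Fin 1)
    have h2 : Tq L A (Sum.elim (s1 (Sum.elim ![y₁, y₂, u, v] (s1 t) i))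
        (fun j => Sum.elim ![y₁, y₂, u, v] (s1 t) (g j)))
        (Sum.elim (s1 (Sum.elim ![y₁, y₂, u', v'] (s1 t') i))
        (fun j => Sum.elim ![y₁, y₂, u', v'] (s1 t') (g j))) := by
      refine tq_congr h1 ?_ ?_
      · funext j
        rcases j with j | j <;> rfl
      · funext j
        rcases j with j | j <;> rfl
    exact ⟨fun h3 => xn_tq hC hA.countable h2 h3, fun h3 => xn_tq hC hA.countable (tq_symm h2) h3⟩
  have r2 : ∀ (X : Fin 4 ⊕ Fin 1 → U) (i j : Fin 4 ⊕ Fin 1),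
      range (fun k => X ((![i, j] : Fin 2 → Fin 4 ⊕ Fin 1) k)) = {X i, X j} := by
    intro X i j
    ext x
    constructor
    · rintro ⟨k, rfl⟩
      fin_cases k
      · exact Or.inl rfl
      · exact Or.inr rfl
    · rintro (rfl | rfl)
      · exact ⟨0, rfl⟩
      · exact ⟨1, rfl⟩
  have r1 : ∀ (X : Fin 4 ⊕ Fin 1 → U) (i : Fin 4 ⊕ Fin 1),
      range (fun k => X ((![i] : Fin 1 → Fin 4 ⊕ Fin 1) k)) = {X i} := by
    intro X i
    ext x
    constructor
    · rintro ⟨k, rfl⟩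
      fin_cases k
      rfl
    · rintro rfl
      exact ⟨0, rfl⟩
  have r4 : ∀ (X : Fin 4 ⊕ Fin 1 → U),
      range (fun k => X ((Sum.inl : Fin 4 → Fin 4 ⊕ Fin 1) k)) =
        {X (Sum.inl 0), X (Sum.inl 1), X (Sum.inl 2), X (Sum.inl 3)} := by
    intro X
    ext x
    constructor
    · rintro ⟨k, rfl⟩
      fin_cases k
      · exact Or.inl rfl
      · exact Or.inr (Or.inl rfl)
      · exact Or.inr (Or.inr (Or.inl rfl))
      · exact Or.inr (Or.inr (Or.inr rfl))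
    · rintro (rfl | rfl | rfl | rfl)
      · exact ⟨0, rfl⟩
      · exact ⟨1, rfl⟩
      · exact ⟨2, rfl⟩
      · exact ⟨3, rfl⟩
  -- pairs
  have hpair : ∀ (a b c : U), a ∈ P → b ∈ P → c ∈ P →
      (Xn L A (A ∪ {a, c}) b ↔ (lt a b ∧ lt c b) ∨ (lt b a ∧ lt b c)) := by
    intro a b c ha hb hc
    rw [xn_lo hC h hb (toFinite {a, c}) (by
      rintro x (rfl | rfl)
      · exact ha
      · exact hc)]
    constructor
    · rintro (h1 | h1)
      · exact Or.inl ⟨h1 a (Or.inl rfl), h1 c (Or.inr rfl)⟩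
      · exact Or.inr ⟨h1 a (Or.inl rfl), h1 c (Or.inr rfl)⟩
    · rintro (h1 | h1)
      · left
        rintro x (rfl | rfl)
        · exact h1.1
        · exact h1.2
      · right
        rintro x (rfl | rfl)
        · exact h1.1
        · exact h1.2
  -- `t'` is above everything
  have ht'4 : (∀ c ∈ ({y₁, y₂, u', v'} : Set U), lt c t') ∨ ∀ c ∈ ({y₁, y₂, u', v'} : Set U), lt t' c := by
    rw [← xn_lo hC h ht' (toFinite {y₁, y₂, u', v'}) (by
      rintro x (rfl | rfl | rfl | rfl)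
      · exact hy₁
      · exact hy₂
      · exact hu'
      · exact hv')]
    refine (hX 4 (Sum.inr 0) Sum.inl t t' {y₁, y₂, u, v} {y₁, y₂, u', v'} rfl rfl (r4 _) (r4 _)).1 ?_
    rw [xn_lo hC h htP (toFinite {y₁, y₂, u, v}) (by
      rintro x (rfl | rfl | rfl | rfl)
      · exact hy₁
      · exact hy₂
      · exact hu
      · exact hv)]
    exact Or.inl htD
  have habove : ∀ c ∈ ({y₁, y₂, u', v'} : Set U), lt c t' := by
    rcases ht'4 with h1 | h1
    · exact h1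
    · exfalso
      have h2 : lt t' y₁ := h1 y₁ (Or.inl rfl)
      have h3 : lt t' y₂ := h1 y₂ (Or.inr (Or.inl rfl))
      rcases hy with hy | hy
      · have h4 : ¬ Xn L A (A ∪ {y₁, t}) y₂ := by
          rw [hpair y₁ y₂ t hy₁ hy₂ htP]
          rintro (h5 | h5)
          · exact lo_asy h0 hy₂ htP ty₂ h5.2
          · exact lo_asy h0 hy₁ hy₂ hy h5.1
        rw [hX 2 (Sum.inl 1) ![Sum.inl 0, Sum.inr 0] y₂ y₂ {y₁, t} {y₁, t'} rfl rfl (r2 _ _ _) (r2 _ _ _),
          hpair y₁ y₂ t' hy₁ hy₂ ht'] at h4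
        exact h4 (Or.inl ⟨hy, h3⟩)
      · have h4 : ¬ Xn L A (A ∪ {y₂, t}) y₁ := by
          rw [hpair y₂ y₁ t hy₂ hy₁ htP]
          rintro (h5 | h5)
          · exact lo_asy h0 hy₁ htP ty₁ h5.2
          · exact lo_asy h0 hy₂ hy₁ hy h5.1
        rw [hX 2 (Sum.inl 0) ![Sum.inl 1, Sum.inr 0] y₁ y₁ {y₂, t} {y₂, t'} rfl rfl (r2 _ _ _) (r2 _ _ _),
          hpair y₂ y₁ t' hy₂ hy₁ ht'] at h4
        exact h4 (Or.inl ⟨hy, h2⟩)
  have hv't' : lt v' t' := habove v' (Or.inr (Or.inr (Or.inr rfl)))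
  -- the order of `u'`, `v'`
  have h4 : ¬ Xn L A (A ∪ {u, t}) v := by
    rw [hpair u v t hu hv htP]
    rintro (h5 | h5)
    · exact lo_asy h0 hv htP tv h5.2
    · exact lo_asy h0 hu hv huv h5.1
  rw [hX 2 (Sum.inl 3) ![Sum.inl 2, Sum.inr 0] v v' {u, t} {u', t'} rfl rfl (r2 _ _ _) (r2 _ _ _),
    hpair u' v' t' hu' hv' ht'] at h4
  have h5 : Xn L A (A ∪ {u}) v := by
    rw [xn_lo hC h hv (finite_singleton u) (singleton_subset_iff.2 hu)]
    left
    rintro x rfl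
    exact huv
  rw [hX 1 (Sum.inl 3) ![Sum.inl 2] v v' {u} {u'} rfl rfl (r1 _ _) (r1 _ _),
    xn_lo hC h hv' (finite_singleton u') (singleton_subset_iff.2 hu')] at h5
  rcases h5 with h6 | h6
  · exact h6 u' rfl
  · exact absurd (Or.inr ⟨h6 u' rfl, hv't'⟩) h4

end lqf

/-- [LQF] -/
theorem thm_LQF (hLOF : St_LOF) (hLBN : St_LBN) : St_LQF := by
  intro L U _ hC r A hA hG hF
  exact lq_of hC (hLBN L U hC A _ _ (hLOF L U hC r A hA hG hF))

end Pool.Agent.TPX
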