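import Pool.Agent.TPX.Fr3

/-!
# TPX, the free case, part 1: NIP with parameters, realisations of invariant types, marginals, Morley sequences
of elements
-/

set_option autoImplicit false
set_option linter.unusedVariables false

namespace Pool.Agent.TPX

open FirstOrder.Language Set
open scoped FirstOrder
open Pool.Agent.MNO

variable {L : FirstOrder.Language.{0, 0}} {U : Type} [L.Structure U]

/-- NIP with parameters -/
theorem nipx (hC : Cx L U) {α β : Type} [Finite α] [Finite β] {B : Set U}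
    {P : (α ⊕ β → U) → Prop} (hP : Dp L B P) :
    ∃ k, ¬ Sh (fun (x : α → U) (y : β → U) => P (Sum.elim x y)) k := by
  obtain ⟨B0, hB0, -, hP0⟩ := dp_fin hP
  obtain ⟨p, b, rfl⟩ := exists_enum hB0
  obtain ⟨Q, hQ, hPQ⟩ := dp_fam0 hP0
  obtain ⟨m, ⟨e⟩⟩ := Finite.exists_equiv_fin α
  obtain ⟨n, ⟨e'⟩⟩ := Finite.exists_equiv_fin (β ⊕ Fin p)
  obtain ⟨k, hk⟩ := hC.nip m n (fun v => Q (fun i => v ((Sum.elim (Sum.elim (fun i => Sum.inl (e i))
    (fun i => Sum.inr (e' (Sum.inl i)))) (fun i => Sum.inr (e' (Sum.inr i))) :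
      (α ⊕ β) ⊕ Fin p → Fin m ⊕ Fin n) i))) (dp_sub hQ _)
  refine ⟨k, fun ⟨x, y, h⟩ => hk ⟨fun i => x i ∘ e.symm, fun s => Sum.elim (y s) b ∘ e'.symm,
    fun i s => ?_⟩⟩
  rw [← h i s]
  show Q _ ↔ P _
  rw [hPQ]
  refine iff_of_eq (congrArg Q ?_)
  funext t
  rcases t with (t | t) | t
  · show x i (e.symm (e t)) = x i t
    rw [e.symm_apply_apply]
  · show Sum.elim (y s) b (e'.symm (e' (Sum.inl t))) = y s t
    rw [e'.symm_apply_apply]
    rfl
  · show Sum.elim (y s) b (e'.symm (e' (Sum.inr t))) = b t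
    rw [e'.symm_apply_apply]
    rfl

/-- subtuples, given by a covering condition -/
theorem sq_cov {α β : Type} {A : Set U} {X Y : α → U} {x y : β → U} (h : Sq L A X Y)
    (hc : ∀ i, ∃ j, X j = x i ∧ Y j = y i) : Sq L A x y := by
  choose f hf using hc
  have h1 := sq_sub h f
  have e1 : (fun i => X (f i)) = x := funext fun i => (hf i).1
  have e2 : (fun i => Y (f i)) = y := funext fun i => (hf i).2
  rw [e1, e2] at h1
  exact h1

section rl

variable {α β γ : Type} {r : ((α → U) → Prop) → Prop} {A : Set U}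

theorem rl_cov (hr : GT L r) {u : α → U} {c : β → U} {c' : γ → U} (hu : Rl L A r c u)
    (hc : ∀ i, ∃ j, c j = c' i) : Rl L A r c' u := by
  choose f hf using hc
  have h1 := rl_sub hr hu f
  have e : (fun i => c (f i)) = c' := funext hf
  rw [e] at h1
  exact h1

/-- realisations may be moved -/
theorem rl_mv [Finite α] [Finite β] (hC : Cx L U) (hr : GT L r) (hI : Inv L A r) (hA : A.Countable)
    {c c' : β → U} {u u' : α → U} (hu : Rl L A r c u)
    (h : Sq L A (Sum.elim u c) (Sum.elim u' c')) : Rl L A r c' u' := by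
  intro E hE
  have h1 := inv_fe hC hr hI hA hE (sq_right h) (hu E hE)
  refine gt_mono hr h1 ?_ fun x hx => hE.eqv.trans hx (h E hE)
  have h6 : Dp L (univ : Set U) (fun v : α ⊕ β → U => E v (Sum.elim u' c')) :=
    dp_mono (subset_univ _) (fe_cls hE _)
  exact dp_par h6 c' (fun i => mem_univ _)

/-- two elements of the same strong type, one of which is `r`-generic -/
theorem ets_congr [Finite α] (hr : GT L r) {a a' : α → U} {B : Set U} (ha : Ets L B a r)
    (h : Sq L B a a') : Ets L B a' r := by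
  intro E hE
  refine gt_mono hr (ha E hE) (dp_mono (subset_univ _) (fe_cls hE a')) fun x hx =>
    hE.eqv.trans hx (h E hE)

theorem ets_mono {a : α → U} {B B' : Set U} (hB : B ⊆ B') (ha : Ets L B' a r) : Ets L B a r :=
  fun E hE => ha E (fe_mono hB hE)

theorem ets_sq [Finite α] (hr : GT L r) {a a' : α → U} {B : Set U} (ha : Ets L B a r)
    (ha' : Ets L B a' r) : Sq L B a a' := by
  intro E hE
  obtain ⟨x, hx, hx'⟩ := hr.ne _ (hr.and _ _ (ha E hE) (ha' E hE))
  exact hE.eqv.trans (hE.eqv.symm hx) hx'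

theorem rl_of_ets {u : α → U} {c : β → U} {B : Set U} (hAB : A ⊆ B) (hc : ∀ i, c i ∈ B)
    (hu : Ets L B u r) : Rl L A r c u := rl_of_real hAB hc hu

/-- a realisation over `acl^eq(A)` and `c` is a realisation over `acl^eq(A c)` -/
theorem rl_ets' [Finite α] [Finite β] (hC : Cx L U) (hr : GT L r) (hI : Inv L A r) (hA : A.Countable)
    {c : β → U} {u : α → U} (hu : Rl L A r c u) : Ets L (A ∪ range c) u r := by
  intro E hE
  obtain ⟨v, hv⟩ := gt_real hC hr (B := A ∪ range c) (hA.union (countable_range _))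
  have hv' : Rl L A r c v := rl_of_real (B := A ∪ range c) subset_union_left (fun i => Or.inr ⟨i, rfl⟩) hv
  have h1 := rl_sq hC hr hI hA (sq_refl A c) hu hv'
  obtain ⟨w, hw⟩ := sq_ext hC hA h1 v
  obtain ⟨Q, hQ, hQE⟩ := dp_fam hE.dfn
  have hQE' : ∀ x y : α → U, E x y ↔ Q (Sum.elim (Sum.elim x y) c) := fun x y => hQE (Sum.elim x y)
  have h2 : r (fun x => E x w) := by
    have h3 := inv_any (β := β ⊕ α) hI (P := fun t => Q (fun i => t ((Sum.elim (Sum.elim
      (fun i => Sum.inl i) (fun i => Sum.inr (Sum.inr i))) (fun i => Sum.inr (Sum.inl i)) :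
        (α ⊕ α) ⊕ β → α ⊕ (β ⊕ α)) i))) (dp_sub hQ _) (c := Sum.elim c v) (c' := Sum.elim c w)
      (sq_cov hw (by
        rintro (i | i)
        · exact ⟨Sum.inl (Sum.inr i), rfl, rfl⟩
        · exact ⟨Sum.inr i, rfl, rfl⟩))
    have e : ∀ w : α → U, (fun x : α → U => Q (fun i => Sum.elim x (Sum.elim c w) ((Sum.elim (Sum.elim
      (fun i => Sum.inl i) (fun i => Sum.inr (Sum.inr i))) (fun i => Sum.inr (Sum.inl i)) :
        (α ⊕ α) ⊕ β → α ⊕ (β ⊕ α)) i))) = fun x => E x w := by
      intro w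
      funext x
      rw [hQE']
      congr 1
      funext i
      rcases i with (i | i) | i <;> rfl
    simp only [e] at h3
    exact h3 (hv E hE)
  obtain ⟨x, hx, hx'⟩ := hr.ne _ (hr.and _ _ (hv E hE) h2)
  have h4 : E v w := hE.eqv.trans (hE.eqv.symm hx) hx'
  have h5 : E u v := by
    rw [hQE'] at h4 ⊢
    have h6 := (sq_dp hw (P := fun t => Q (fun i => t ((Sum.elim (Sum.elim
      (fun i => Sum.inl (Sum.inl i)) (fun i => Sum.inr i)) (fun i => Sum.inl (Sum.inr i)) :
        (α ⊕ α) ⊕ β → (α ⊕ β) ⊕ α) i))) (dp_sub hQ _)).2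
    have e : ∀ a b : α → U, (fun i => Sum.elim (Sum.elim a c) b ((Sum.elim (Sum.elim
      (fun i => Sum.inl (Sum.inl i)) (fun i => Sum.inr i)) (fun i => Sum.inl (Sum.inr i)) :
        (α ⊕ α) ⊕ β → (α ⊕ β) ⊕ α) i)) = Sum.elim (Sum.elim a b) c := by
      intro a b
      funext i
      rcases i with (i | i) | i <;> rfl
    simp only [e] at h6
    exact h6 h4
  exact gt_mono hr (hv E hE) (dp_mono (subset_univ _) (fe_cls hE u)) fun x hx =>
    hE.eqv.trans hx (hE.eqv.symm h5)

end rl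

/-! ### marginals -/

section mg

variable {α β : Type} {r : ((α → U) → Prop) → Prop} {A : Set U}

variable (L) in
/-- the marginal of `r` on the coordinates `f` -/
def mg (r : ((α → U) → Prop) → Prop) (f : β → α) : ((β → U) → Prop) → Prop :=
  fun P => Dp L (univ : Set U) P ∧ r (fun x => P (fun i => x (f i)))

theorem gt_mg (hr : GT L r) (f : β → α) : GT L (mg L r f) where
  dfn := fun P hP => hP.1
  ne := fun P hP => by
    obtain ⟨x, hx⟩ := hr.ne _ hP.2
    exact ⟨_, hx⟩
  and := fun P Q hP hQ => ⟨dp_and hP.1 hQ.1, hr.and _ _ hP.2 hQ.2⟩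
  max := fun P hP => by
    rcases hr.max _ (dp_sub hP f) with h | h
    · exact Or.inl ⟨hP, h⟩
    · exact Or.inr ⟨dp_not hP, h⟩

theorem inv_mg (hI : Inv L A r) (f : β → α) : Inv L A (mg L r f) := by
  intro n P hP c c' h h1
  refine ⟨dp_par (dp_mono (subset_univ _) hP) c' (fun i => mem_univ _), ?_⟩
  have h2 := inv_any hI (P := fun v : α ⊕ Fin n → U => P (fun i => v (Sum.map f id i)))
    (dp_sub hP _) h
  have e : ∀ c : Fin n → U, (fun x : α → U => P (fun i => Sum.elim x c (Sum.map f id i))) =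
      fun x => P (Sum.elim (fun i => x (f i)) c) := by
    intro c
    funext x
    congr 1
    funext i
    rcases i with i | i <;> rfl
  simp only [e] at h2
  exact h2 h1.2

theorem ets_mg {a : α → U} {B : Set U} [Finite β] (ha : Ets L B a r) (f : β → α) :
    Ets L B (fun i => a (f i)) (mg L r f) := by
  intro E hE
  exact ⟨dp_mono (subset_univ _) (fe_cls hE _), ha _ (fe_sub hE f)⟩

end mg

/-! ### Morley sequences of elements -/

section mr

variable {β γ : Type} {q : ((Fin 1 → U) → Prop) → Prop} {A : Set U}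

variable (L) in
/-- `z` is a Morley sequence of `q` over `acl^eq(A)` and `c` -/
def Mr (A : Set U) (q : ((Fin 1 → U) → Prop) → Prop) {β : Type} (c : β → U) (z : ℕ → U) : Prop :=
  ∀ n, Rl L A q (Sum.elim c (fun i : Fin n => z i)) (s1 (z n))

variable (L) in
/-- `z` is totally indiscernible over `acl^eq(A)` and `c` -/
def Tz (A : Set U) {β : Type} (c : β → U) (z : ℕ → U) : Prop :=
  ∀ (n : ℕ) (f g : Fin n → ℕ), Function.Injective f → Function.Injective g →
    Sq L A (Sum.elim c (fun i => z (f i))) (Sum.elim c (fun i => z (g i)))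

theorem mr_uni [Finite β] (hC : Cx L U) (hq : GT L q) (hI : Inv L A q) (hA : A.Countable)
    {c c' : β → U} {z z' : ℕ → U} (hz : Mr L A q c z) (hz' : Mr L A q c' z') (h : Sq L A c c') (n : ℕ) :
    Sq L A (Sum.elim c (fun i : Fin n => z i)) (Sum.elim c' (fun i : Fin n => z' i)) := by
  induction n with
  | zero => exact sq_empty h
  | succ n ih =>
    refine sq_cov (rl_sq hC hq hI hA ih (hz n) (hz' n)) ?_
    rintro (i | i)
    · exact ⟨Sum.inr (Sum.inl i), rfl, rfl⟩
    · refine Fin.lastCases ?_ (fun j => ?_) i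
      · exact ⟨Sum.inl 0, rfl, rfl⟩
      · exact ⟨Sum.inr (Sum.inr j), rfl, rfl⟩

theorem mr_sub (hq : GT L q) {c : β → U} {z : ℕ → U} (hz : Mr L A q c z) {f : ℕ → ℕ}
    (hf : StrictMono f) : Mr L A q c (fun i => z (f i)) := by
  intro n
  refine rl_cov hq (hz (f n)) ?_
  rintro (i | i)
  · exact ⟨Sum.inl i, rfl⟩
  · exact ⟨Sum.inr ⟨f i, hf i.2⟩, rfl⟩

theorem mr_cov (hq : GT L q) {c : β → U} {c' : γ → U} {z : ℕ → U} (hz : Mr L A q c z)
    (hc : ∀ i, ∃ j, c j = c' i) : Mr L A q c' z := by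
  intro n
  refine rl_cov hq (hz n) ?_
  rintro (i | i)
  · obtain ⟨j, hj⟩ := hc i
    exact ⟨Sum.inl j, hj⟩
  · exact ⟨Sum.inr i, rfl⟩

/-- existence of Morley sequences -/
theorem mr_ex (hC : Cx L U) (hq : GT L q) {B : Set U} (hB : B.Countable) (hAB : A ⊆ B) :
    ∃ z : ℕ → U, (∀ (β : Type) (c : β → U), (∀ i, c i ∈ B) → Mr L A q c z) ∧
      ∀ n, Ets L B (s1 (z n)) q := by
  obtain ⟨z, hz⟩ := morley (A := B) hC hq hB
  have e : ∀ n, s1 (z n 0) = z n := by
    intro n
    funext i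
    rw [Subsingleton.elim i 0]
    rfl
  refine ⟨fun n => z n 0, fun β c hc n => ?_, fun n => ?_⟩
  · rw [e]
    refine rl_of_real (hAB.trans subset_union_left) ?_ (hz n)
    rintro (i | i)
    · exact Or.inl (hc i)
    · exact Or.inr (mem_biUnion (show (i : ℕ) ∈ {i | i < n} from i.2) (mem_range_self 0))
  · rw [e]
    exact fun E hE => hz n E (fe_mono subset_union_left hE)

end mr

end Pool.Agent.TPX
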