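import Pool.Agent.TPX.LOF

/-!
# TPX module LIN (helper48): the three parts of a linear piece over two points are `LinV`
-/

set_option autoImplicit false
set_option linter.unusedVariables false

namespace Pool.Agent.TPX

open FirstOrder.Language Set
open scoped FirstOrder
open Pool.Agent.MNO

section

variable {L : FirstOrder.Language.{0, 0}} {U : Type} [L.Structure U] {A B : Set U}

/-- subtuples, given by a covering condition -/
theorem tq_cov {α β : Type} {X Y : α → U} {x y : β → U} (h : Tq L A X Y)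
    (hc : ∀ i, ∃ j, X j = x i ∧ Y j = y i) : Tq L A x y := by
  choose f hf using hc
  have h1 := tq_sub h f
  have e1 : (fun i => X (f i)) = x := funext fun i => (hf i).1
  have e2 : (fun i => Y (f i)) = y := funext fun i => (hf i).2
  rw [e1, e2] at h1
  exact h1

/-- a linear piece whose order is invariant under equality of types is `LinV` -/
theorem linv_of (hLOH : St_LOH) (hCUP : St_CUP) (hC : Cx L U) {E : Set U} {lt : U → U → Prop}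
    (h : LO L B E lt) (tqE : ∀ x y : U, Tq L B (s1 x) (s1 y) → x ∈ E → y ∈ E)
    (tql : ∀ x y x' y' : U, Tq L B ![x, y] ![x', y'] → x ∈ E → y ∈ E → lt x y → lt x' y') :
    LinV L B E lt := by
  obtain ⟨h1, -, -, -, h5⟩ := hLOH L U hC B E lt h
  obtain ⟨z, hz⟩ := h.lo0.ne
  refine ⟨h.lo0.fin, h.lo0.ne, ?_, tqE, tql, h.lo0.irr, h.lo0.tra, h.lo0.neg, h5, h.lo0.gap,
    hCUP L U hC B E lt h tqE tql, ?_⟩
  · rw [← h.lo0.pc z hz]
    exact pc_bf hC z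
  · refine hCUP L U hC B E _ h1 tqE fun x y x' y' hxy hx hy hlt => ?_
    refine tql y x y' x' (tq_cov hxy ?_) hy hx hlt
    intro i
    fin_cases i
    · exact ⟨1, rfl, rfl⟩
    · exact ⟨0, rfl, rfl⟩

/-- invariance of the piece and of the order under equality of types over `B ⊇ A`, `b₁`, `b₂` -/
theorem lq_tqE (hC : Cx L U) {P : Set U} {lt : U → U → Prop} (h : LQ L A P lt) {b₁ b₂ : U}
    (hb₁ : b₁ ∈ P) {x y : U} (hxy : Tq L (insert b₂ (insert b₁ A)) (s1 x) (s1 y)) (hx : x ∈ P) : y ∈ P := by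
  have h1 : Tq L A ![b₁, x] ![b₁, y] := by
    refine tq_cov (tq_mono ((subset_insert b₁ A).trans (subset_insert b₂ _))
      (tq_add hxy (s1 b₁) (fun _ => Or.inr (Or.inl rfl)))) ?_
    intro i
    fin_cases i
    · exact ⟨Sum.inr 0, rfl, rfl⟩
    · exact ⟨Sum.inl 0, rfl, rfl⟩
  rw [← h.lo.lo0.pc b₁ hb₁] at hx ⊢
  exact pc_tq0 hC h.lo.lo0.fin.countable h1 hx

theorem lq_tql (hC : Cx L U) {P : Set U} {lt : U → U → Prop} (h : LQ L A P lt) {b₁ b₂ : U}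
    (hb₁ : b₁ ∈ P) (hb₂ : b₂ ∈ P) (hlt : lt b₁ b₂) {x y x' y' : U}
    (hxy : Tq L (insert b₂ (insert b₁ A)) ![x, y] ![x', y']) (hx : x ∈ P) (hy : y ∈ P) (hl : lt x y) :
    lt x' y' := by
  refine h.cn b₁ b₂ x y x' y' hb₁ hb₂ hx hy (Or.inl hlt) ?_ hl
  refine tq_cov (tq_mono ((subset_insert b₁ A).trans (subset_insert b₂ _))
    (tq_add hxy ![b₁, b₂] (fun i => by
      fin_cases i
      · exact Or.inr (Or.inl rfl)
      · exact Or.inl rfl))) ?_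
  intro i
  fin_cases i
  · exact ⟨Sum.inr 0, rfl, rfl⟩
  · exact ⟨Sum.inr 1, rfl, rfl⟩
  · exact ⟨Sum.inl 0, rfl, rfl⟩
  · exact ⟨Sum.inl 1, rfl, rfl⟩

/-- `x` is one of the two points: invariance of the order for one variable -/
theorem lq_up (hC : Cx L U) {P : Set U} {lt : U → U → Prop} (h : LQ L A P lt) {b₁ b₂ : U}
    (hb₁ : b₁ ∈ P) (hb₂ : b₂ ∈ P) (hlt : lt b₁ b₂) {b x x' : U} (hb : b = b₁ ∨ b = b₂)
    (hxy : Tq L (insert b₂ (insert b₁ A)) (s1 x) (s1 x')) (hx : x ∈ P) (hl : lt b x) : lt b x' := by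
  have hbP : b ∈ P := by rcases hb with rfl | rfl <;> assumption
  refine lq_tql hC h hb₁ hb₂ hlt (x := b) (y := x) ?_ hbP hx hl
  refine tq_cov (tq_add hxy (s1 b) (fun _ => by
    rcases hb with rfl | rfl
    · exact Or.inr (Or.inl rfl)
    · exact Or.inl rfl)) ?_
  intro i
  fin_cases i
  · exact ⟨Sum.inr 0, rfl, rfl⟩
  · exact ⟨Sum.inl 0, rfl, rfl⟩

theorem lq_dn (hC : Cx L U) {P : Set U} {lt : U → U → Prop} (h : LQ L A P lt) {b₁ b₂ : U}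
    (hb₁ : b₁ ∈ P) (hb₂ : b₂ ∈ P) (hlt : lt b₁ b₂) {b x x' : U} (hb : b = b₁ ∨ b = b₂)
    (hxy : Tq L (insert b₂ (insert b₁ A)) (s1 x) (s1 x')) (hx : x ∈ P) (hl : lt x b) : lt x' b := by
  have hbP : b ∈ P := by rcases hb with rfl | rfl <;> assumption
  refine lq_tql hC h hb₁ hb₂ hlt (x := x) (y := b) ?_ hx hbP hl
  refine tq_cov (tq_add hxy (s1 b) (fun _ => by
    rcases hb with rfl | rfl
    · exact Or.inr (Or.inl rfl)
    · exact Or.inl rfl)) ?_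
  intro i
  fin_cases i
  · exact ⟨Sum.inl 0, rfl, rfl⟩
  · exact ⟨Sum.inr 0, rfl, rfl⟩

theorem lo_set {E E' : Set U} {lt : U → U → Prop} (h : LO L A E lt) (he : E = E') : LO L A E' lt := he ▸ h

end

/-- [LIN] over two points of different clusters the three parts of a linear piece are `LinV` -/
theorem thm_LIN (hLOH : St_LOH) (hCUP : St_CUP) : St_LIN := by
  intro L U _ hC A P lt h b₁ hb₁ b₂ hb₂ hlt
  have hlo := h.lo.lo0
  obtain ⟨-, hup, hdn, -, -⟩ := hLOH L U hC A P lt h.lo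
  have hU₁ := hup b₁ hb₁
  have hD₂ := hdn b₂ hb₂
  obtain ⟨-, hup₁, hdn₁, -, -⟩ := hLOH L U hC _ _ lt hU₁
  obtain ⟨-, -, hdn₂, -, -⟩ := hLOH L U hC _ _ lt hD₂
  have hA₁ := lo_set (hup₁ b₂ ⟨hb₂, hlt⟩) (E' := {v | v ∈ P ∧ lt b₂ v}) (by
    ext v
    refine ⟨fun hv => ⟨hv.1.1, hv.2⟩, fun hv => ⟨⟨hv.1, ?_⟩, hv.2⟩⟩
    exact hlo.tra b₁ hb₁ b₂ hb₂ v hv.1 hlt hv.2)
  have hA₂ := lo_set (hdn₁ b₂ ⟨hb₂, hlt⟩) (E' := {v | v ∈ P ∧ lt b₁ v ∧ lt v b₂}) (by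
    ext v
    exact ⟨fun hv => ⟨hv.1.1, hv.1.2, hv.2⟩, fun hv => ⟨⟨hv.1, hv.2.1⟩, hv.2.2⟩⟩)
  have hA₃ := lo_set (hdn₂ b₁ ⟨hb₁, hlt⟩) (E' := {v | v ∈ P ∧ lt v b₁}) (by
    ext v
    refine ⟨fun hv => ⟨hv.1.1, hv.2⟩, fun hv => ⟨⟨hv.1, ?_⟩, hv.2⟩⟩
    exact hlo.tra v hv.1 b₁ hb₁ b₂ hb₂ hv.2 hlt)
  rw [insert_comm] at hA₃
  refine ⟨?_, ?_, ?_⟩
  · refine linv_of hLOH hCUP hC hA₁ (fun x y hxy hx => ?_) (fun x y x' y' hxy hx hy hl => ?_)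
    · exact ⟨lq_tqE hC h hb₁ hxy hx.1, lq_up hC h hb₁ hb₂ hlt (Or.inr rfl) hxy hx.1 hx.2⟩
    · exact lq_tql hC h hb₁ hb₂ hlt hxy hx.1 hy.1 hl
  · refine linv_of hLOH hCUP hC hA₂ (fun x y hxy hx => ?_) (fun x y x' y' hxy hx hy hl => ?_)
    · exact ⟨lq_tqE hC h hb₁ hxy hx.1, lq_up hC h hb₁ hb₂ hlt (Or.inl rfl) hxy hx.1 hx.2.1,
        lq_dn hC h hb₁ hb₂ hlt (Or.inr rfl) hxy hx.1 hx.2.2⟩
    · exact lq_tql hC h hb₁ hb₂ hlt hxy hx.1 hy.1 hl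
  · refine linv_of hLOH hCUP hC hA₃ (fun x y hxy hx => ?_) (fun x y x' y' hxy hx hy hl => ?_)
    · exact ⟨lq_tqE hC h hb₁ hxy hx.1, lq_dn hC h hb₁ hb₂ hlt (Or.inl rfl) hxy hx.1 hx.2⟩
    · exact lq_tql hC h hb₁ hb₂ hlt hxy hx.1 hy.1 hl

end Pool.Agent.TPX
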