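import Pool.Agent.TPX.AllK
import Pool.Agent.TPX.StF

/-!
# TPX modules NNS, LMX, LOF (helper58): a linear end is a linear piece (`LO0`)
-/

set_option autoImplicit false
set_option linter.unusedVariables false

namespace Pool.Agent.TPX

open FirstOrder.Language Set
open scoped FirstOrder
open Pool.Agent.MNO

section

variable {L : FirstOrder.Language.{0, 0}} {U : Type} [L.Structure U]
variable {r : ((Fin 1 → U) → Prop) → Prop} {A B C : Set U}

/-- NNL for finite sets -/
theorem en_nns (hC : Cx L U) (hG : Gd L A r) {C S : Set U} (hAC : A ⊆ C) (hCf : C.Finite)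
    (hS : S.Finite) (h : ∀ s ∈ S, s ∉ En L C r) : En L (C ∪ S) r = En L C r := by
  induction S, hS using Set.Finite.induction_on with
  | empty => rw [union_empty]
  | @insert a T _ hT ih =>
    have h1 := ih fun s hs => h s (mem_insert_of_mem a hs)
    rw [union_insert]
    rw [e_add hC hG.gt hG.nal hG.inv (hAC.trans subset_union_left) (hCf.union hT)
      (by rw [h1]; exact h a (mem_insert a T)), h1]

theorem thm_NNS : St_NNS := fun L U _ hC r A hA hG C S hAC hCf hS h => en_nns hC hG hAC hCf hS h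

/-- maximal elements of finite sets -/
theorem fin_max {X : Type} {P : Set X} {lt : X → X → Prop} (hi : ∀ x ∈ P, ¬ lt x x)
    (ht : ∀ x ∈ P, ∀ y ∈ P, ∀ z ∈ P, lt x y → lt y z → lt x z) {D : Set X} (hD : D.Finite)
    (hDP : D ⊆ P) (hne : D.Nonempty) : ∃ m ∈ D, ∀ d ∈ D, ¬ lt m d := by
  induction D, hD using Set.Finite.induction_on with
  | empty => exact absurd hne not_nonempty_empty
  | @insert a T _ hT ih =>
    have haP := hDP (mem_insert a T)
    rcases T.eq_empty_or_nonempty with rfl | hTn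
    · refine ⟨a, mem_insert _ _, ?_⟩
      rintro d (rfl | hd)
      · exact hi _ haP
      · exact absurd hd (notMem_empty _)
    · obtain ⟨m, hm, hmax⟩ := ih (fun x hx => hDP (mem_insert_of_mem a hx)) hTn
      have hmP := hDP (mem_insert_of_mem a hm)
      by_cases hma : lt m a
      · refine ⟨a, mem_insert _ _, ?_⟩
        rintro d (rfl | hd)
        · exact hi _ haP
        · intro had
          exact hmax d hd (ht m hmP a haP d (hDP (mem_insert_of_mem a hd)) hma had)
      · refine ⟨m, mem_insert_of_mem a hm, ?_⟩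
        rintro d (rfl | hd)
        · exact hma
        · exact hmax d hd

/-- the order of an end under equality of strong types -/
theorem ltr_mv (hC : Cx L U) (hG : Gd L A r) (hA : A.Finite) {B : Set U} (hAB : A ⊆ B) (hB : B.Finite)
    {x y x' y' : U} (h : Sq L B ![x, y] ![x', y']) : ltr L B r x y ↔ ltr L B r x' y' := by
  refine e_mv1 hC hG.gt hG.inv hAB hB (sq_cov h ?_)
  rintro (i | i)
  · exact ⟨1, rfl, rfl⟩
  · exact ⟨0, rfl, rfl⟩

theorem ltr_tra (hC : Cx L U) (hG : Gd L A r) (hA : A.Finite) (hNF : NF L A r) {x y z : U}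
    (hx : x ∈ En L A r) (hy : y ∈ En L A r) (h1 : ltr L A r x y) (h2 : ltr L A r y z) :
    ltr L A r x z := by
  have h3 := hNF x hx y hy h1
  have h4 : z ∈ En L (insert x (insert y A)) r := by
    rw [e_add hC hG.gt hG.nal hG.inv (subset_insert y A) (hA.insert y) h3]
    exact h2
  exact e_mono hC hG.gt hG.nal hG.inv (subset_insert x A) (insert_subset_insert (subset_insert y A))
    ((hA.insert y).insert x) h4

theorem ltr_neg (hC : Cx L U) (hG : Gd L A r) (hA : A.Finite) {x y z : U}
    (h : ltr L A r x z) : ltr L A r x y ∨ ltr L A r y z := by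
  by_cases h1 : ltr L A r x y
  · exact Or.inl h1
  · right
    have h4 : z ∈ En L (insert y (insert x A)) r := by
      rw [e_add hC hG.gt hG.nal hG.inv (subset_insert x A) (hA.insert x) h1]
      exact h
    exact e_mono hC hG.gt hG.nal hG.inv (subset_insert y A) (insert_subset_insert (subset_insert x A))
      ((hA.insert x).insert y) h4

/-- a point beyond all elements of a finite set -/
theorem ltr_max (hC : Cx L U) (hG : Gd L A r) (hA : A.Finite) (hNF : NF L A r) {D : Set U} {w : U}
    (hD : D.Finite) (hDP : D ⊆ En L A r) (hw : w ∈ En L A r) (h : ∀ d ∈ D, ltr L A r d w) :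
    w ∈ En L (A ∪ D) r := by
  rcases D.eq_empty_or_nonempty with rfl | hne
  · rw [union_empty]
    exact hw
  · obtain ⟨m, hm, hmax⟩ := fin_max (P := En L A r) (lt := ltr L A r)
      (fun x hx => e_par hC hG.gt hG.nal hG.inv (subset_insert x A) (hA.insert x) (mem_insert x A))
      (fun x hx y hy z hz h1 h2 => ltr_tra hC hG hA hNF hx hy h1 h2) hD hDP hne
    have h1 : w ∈ En L (insert m A ∪ D) r := by
      rw [en_nns hC hG (subset_insert m A) (hA.insert m) hD hmax]
      exact h m hm
    exact e_mono hC hG.gt hG.nal hG.inv subset_union_left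
      (union_subset_union_left D (subset_insert m A)) ((hA.insert m).union hD) h1

theorem thm_LMX : St_LMX := fun L U _ hC r A hA hG hNF D w hD hDP hw h =>
  ltr_max hC hG hA hNF hD hDP hw h

/-- every strong type occurs in every gap -/
theorem ltr_gap (hC : Cx L U) (hG : Gd L A r) (hA : A.Finite) (hNF : NF L A r) {D W : Set U}
    (hD : D.Finite) (hW : W.Finite) (hDP : D ⊆ En L A r) (hWP : W ⊆ En L A r)
    (hDW : ∀ d ∈ D, ∀ w ∈ W, ltr L A r d w) {z : U} (hz : z ∈ En L A r) :
    ∃ z' : U, Sq L A (s1 z) (s1 z') ∧ z' ∈ En L (A ∪ D) r ∧ ∀ w ∈ W, ltr L A r z' w := by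
  have hAD : (A ∪ D).Finite := hA.union hD
  obtain ⟨z₁, hz₁, hz₁D⟩ := e_rea hC hG.gt hG.nal hG.inv (B := A) Subset.rfl
    (subset_union_left (s := A) (t := D)) hAD hz
  have hirr : ∀ x ∈ En L A r, ¬ ltr L A r x x := fun x hx =>
    e_par hC hG.gt hG.nal hG.inv (subset_insert x A) (hA.insert x) (mem_insert x A)
  have htra : ∀ x ∈ En L A r, ∀ y ∈ En L A r, ∀ z ∈ En L A r, ltr L A r x y → ltr L A r y z →
      ltr L A r x z := fun x hx y hy z hz h1 h2 => ltr_tra hC hG hA hNF hx hy h1 h2
  rcases W.eq_empty_or_nonempty with rfl | hne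
  · exact ⟨z₁, hz₁, hz₁D, fun w hw => absurd hw (notMem_empty _)⟩
  · obtain ⟨w₀, hw₀, hmin⟩ := fin_max (P := En L A r) (lt := fun x y => ltr L A r y x) hirr
      (fun x hx y hy z hz h1 h2 => htra z hz y hy x hx h2 h1) hW hWP hne
    have hw₀D : w₀ ∈ En L (A ∪ D) r := ltr_max hC hG hA hNF hD hDP (hWP hw₀) fun d hd => hDW d hd w₀ hw₀
    obtain ⟨w₁, hw₁, hw₁z⟩ := e_rea hC hG.gt hG.nal hG.inv (B := A ∪ D) subset_union_left
      (subset_insert z₁ (A ∪ D)) (hAD.insert z₁) hw₀D
    obtain ⟨n, ω, hω⟩ := exists_enum hW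
    obtain ⟨ω', hω'⟩ := sq_ext hC hAD.countable hw₁ ω
    obtain ⟨z', hz'⟩ := sq_ext hC hAD.countable (sq_symm hω') (s1 z₁)
    -- `(w₁, ω'), z₁` and `(w₀, ω), z'`
    have hzz : Sq L (A ∪ D) (s1 z₁) (s1 (z' 0)) := by
      rw [s1_eq]
      exact sq_right hz'
    refine ⟨z' 0, ?_, ?_, ?_⟩
    · exact sq_trans hz₁ (sq_mono subset_union_left hzz)
    · have h1 := e_mv hC hG.gt hG.inv (B := A ∪ D) (γ := Fin 0) (c := fun i => i.elim0)
        (c' := fun i => i.elim0) (y := z₁) (y' := z' 0) subset_union_left hAD (sq_empty hzz)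
      rw [range_eq_empty, union_empty] at h1
      exact h1.1 hz₁D
    · intro w hw
      obtain ⟨j, rfl⟩ : w ∈ range ω := by rw [hω]; exact hw
      have h1 : ¬ ltr L A r (ω j) w₀ := hmin _ hw
      have h2 : ltr L A r (ω j) w₀ ↔ ltr L A r (ω' j) w₁ := by
        refine ltr_mv hC hG hA Subset.rfl hA (sq_cov (sq_mono subset_union_left hω') ?_)
        intro i
        fin_cases i
        · exact ⟨Sum.inr j, rfl, rfl⟩
        · exact ⟨Sum.inl 0, rfl, rfl⟩
      have h3 : ltr L A r z₁ w₁ := e_mono hC hG.gt hG.nal hG.inv (subset_insert z₁ A)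
        (insert_subset_insert subset_union_left) (hAD.insert z₁) hw₁z
      have h4 : ltr L A r z₁ (ω' j) := by
        rcases ltr_neg hC hG hA (y := ω' j) h3 with h4 | h4
        · exact h4
        · exact absurd (h2.2 h4) h1
      have h5 : ltr L A r z₁ (ω' j) ↔ ltr L A r (z' 0) (ω j) := by
        refine ltr_mv hC hG hA Subset.rfl hA (sq_cov (sq_mono subset_union_left hz') ?_)
        intro i
        fin_cases i
        · exact ⟨Sum.inr 0, rfl, rfl⟩
        · exact ⟨Sum.inl (Sum.inr j), rfl, rfl⟩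
      exact h5.1 h4

/-- [LOF] a linear end is a linear piece -/
theorem thm_LOF : St_LOF := by
  intro L U _ hC r A hA hG hNF
  have hirr : ∀ x ∈ En L A r, ¬ ltr L A r x x := fun x hx =>
    e_par hC hG.gt hG.nal hG.inv (subset_insert x A) (hA.insert x) (mem_insert x A)
  have htra : ∀ x ∈ En L A r, ∀ y ∈ En L A r, ∀ z ∈ En L A r, ltr L A r x y → ltr L A r y z →
      ltr L A r x z := fun x hx y hy z hz h1 h2 => ltr_tra hC hG hA hNF hx hy h1 h2
  have hbf : BF L A (En L A r) := e_bf hC hG.gt hG.inv Subset.rfl hA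
  have hgap := fun {D W : Set U} => ltr_gap hC hG hA hNF (D := D) (W := W)
  refine ⟨hA, ?_, fun x hx => e_eq hC hG.gt hG.nal hG.inv Subset.rfl hA hx,
    fun x y x' y' h hx hy hxy => (ltr_mv hC hG hA Subset.rfl hA h).1 hxy, hirr, htra,
    fun x hx y hy z hz h => ltr_neg hC hG hA h, ?_, ?_⟩
  · obtain ⟨w, -, hw⟩ := e_real hC hG.gt hG.nal hG.inv Subset.rfl hA
    exact ⟨w, hw⟩
  · intro D W hD hW hDP hWP hDW z hz
    obtain ⟨z', h1, h2, h3⟩ := hgap hD hW hDP hWP hDW hz
    refine ⟨z', h1, fun d hd => ?_, h3⟩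
    exact e_mono hC hG.gt hG.nal hG.inv (subset_insert d A)
      (insert_subset (Or.inr hd) subset_union_left) (hA.union hD) h2
  · intro m u u' W hW hWP hu huu hlt
    have hu' : ∀ i, u' i ∈ En L A r := fun i => (bf_inv hbf huu i).1 (hu i)
    obtain ⟨z, -, hz⟩ := e_real hC hG.gt hG.nal hG.inv Subset.rfl hA
    have hDf : (range u ∪ range u').Finite := (finite_range u).union (finite_range u')
    obtain ⟨y, hzy, hyD, hyW⟩ := hgap (D := range u ∪ range u') (W := W) hDf hW (by
      rintro x (⟨i, rfl⟩ | ⟨i, rfl⟩)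
      · exact hu i
      · exact hu' i) hWP (by
      rintro x (⟨i, rfl⟩ | ⟨i, rfl⟩) w hw
      · exact (hlt w hw i).1
      · exact (hlt w hw i).2) hz
    have hyP : y ∈ En L A r := (bf_inv1 hbf hzy).1 hz
    rw [← union_assoc] at hyD
    have h1 : Sq L (insert y A) u u' := e_sta hC hG.gt hG.nal hG.inv Subset.rfl hA huu hyD
    have hlow : ∀ x ∈ range u ∪ range u', x ∈ (En L (insert y A) r)ᶜ := by
      intro x hx
      have hxP : x ∈ En L A r := by
        rcases hx with ⟨i, rfl⟩ | ⟨i, rfl⟩
        · exact hu i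
        · exact hu' i
      have h2 : ltr L A r x y := e_mono hC hG.gt hG.nal hG.inv (subset_insert x A)
        (insert_subset (by rw [union_assoc]; exact Or.inr hx)
          (subset_union_left.trans subset_union_left))
        (by rw [union_assoc]; exact hA.union hDf) hyD
      exact hNF x hxP y hyP h2
    have hWi : Finite W := hW
    have h2 := of hC (hA.insert y) (Subset.refl (insert y A))
      (bf_compl hC (hA.insert y).countable (e_bf hC hG.gt hG.inv (subset_insert y A) (hA.insert y)))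
      (fun i => hlow _ (Or.inl ⟨i, rfl⟩)) h1 (β := W) (w := fun w => (w : U)) (by
        intro j hj
        exact hj (hyW j j.2))
    refine sq_mono ?_ h2
    rw [Subtype.range_coe]
    exact union_subset_union_left W (subset_insert y A)

end

end Pool.Agent.TPX
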