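import Pool.Agent.TPX.LIN
import Pool.Agent.TPX.LQF

/-!
# TPX module NI2 (helper48): linear pieces are classified in two steps
-/

set_option autoImplicit false
set_option linter.unusedVariables false

namespace Pool.Agent.TPX

open FirstOrder.Language Set
open scoped FirstOrder
open Pool.Agent.MNO

section

variable {L : FirstOrder.Language.{0, 0}} {U : Type} [L.Structure U] {A : Set U}

/-- the three parts are linear pieces -/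
theorem lo_three (hC : Cx L U) {P : Set U} {lt : U → U → Prop} (h : LO L A P lt) {b₁ b₂ : U}
    (hb₁ : b₁ ∈ P) (hb₂ : b₂ ∈ P) (hlt : lt b₁ b₂) :
    LO L (insert b₂ (insert b₁ A)) {v | v ∈ P ∧ lt b₂ v} lt ∧
    LO L (insert b₂ (insert b₁ A)) {v | v ∈ P ∧ lt b₁ v ∧ lt v b₂} lt ∧
    LO L (insert b₂ (insert b₁ A)) {v | v ∈ P ∧ lt v b₁} lt := by
  have hlo := h.lo0
  have hU₁ := lo_up hC h hb₁
  have hD₂ := lo_dn hC h hb₂
  have hA₁ := lo_set (lo_up hC hU₁ (y := b₂) ⟨hb₂, hlt⟩) (E' := {v | v ∈ P ∧ lt b₂ v}) (by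
    ext v
    refine ⟨fun hv => ⟨hv.1.1, hv.2⟩, fun hv => ⟨⟨hv.1, ?_⟩, hv.2⟩⟩
    exact hlo.tra b₁ hb₁ b₂ hb₂ v hv.1 hlt hv.2)
  have hA₂ := lo_set (lo_dn hC hU₁ (y := b₂) ⟨hb₂, hlt⟩) (E' := {v | v ∈ P ∧ lt b₁ v ∧ lt v b₂}) (by
    ext v
    exact ⟨fun hv => ⟨hv.1.1, hv.1.2, hv.2⟩, fun hv => ⟨⟨hv.1, hv.2.1⟩, hv.2.2⟩⟩)
  have hA₃ := lo_set (lo_dn hC hD₂ (y := b₁) ⟨hb₁, hlt⟩) (E' := {v | v ∈ P ∧ lt v b₁}) (by
    ext v
    refine ⟨fun hv => ⟨hv.1.1, hv.2⟩, fun hv => ⟨⟨hv.1, ?_⟩, hv.2⟩⟩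
    exact hlo.tra v hv.1 b₁ hb₁ b₂ hb₂ hv.2 hlt)
  rw [insert_comm] at hA₃
  exact ⟨hA₁, hA₂, hA₃⟩

/-- the piece of a point in the cluster of `y` is contained in the cluster -/
theorem lo_pccl (hC : Cx L U) {P F : Set U} {lt : U → U → Prop} (h : LO L A P lt) (hF : F.Finite)
    (hAF : A ⊆ F) {y z : U} (hy : y ∈ P) (hz : z ∈ P) (h1 : ¬ lt y z) (h2 : ¬ lt z y) :
    ∀ v ∈ Pc L (insert y F) z, v ∈ P ∧ ¬ lt y v ∧ ¬ lt v y :=
  pc_sub (bf_mono hC (hF.insert y) (insert_subset_insert hAF) (lo_cl hC h hy)) ⟨hz, h1, h2⟩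

/-- inner pieces: two points below -/
theorem inr_up (hLIN : St_LIN) (hC : Cx L U) {P F : Set U} {lt : U → U → Prop} (h : LQ L A P lt)
    (hF : F.Finite) (hAF : A ⊆ F) {b₁ b₂ y z : U} (hb₁ : b₁ ∈ P) (hb₂ : b₂ ∈ P) (hlt : lt b₁ b₂)
    (hFB : F ⊆ insert b₂ (insert b₁ A)) (hy : y ∈ P) (hby : lt b₂ y) (hz : z ∈ P)
    (h1 : ¬ lt y z) (h2 : ¬ lt z y) : InrV L F y z := by
  have hlo := h.lo.lo0
  obtain ⟨hL, -, -⟩ := hLIN L U hC A P lt h b₁ hb₁ b₂ hb₂ hlt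
  have hK := lo_pccl hC h.lo hF hAF hy hz h1 h2
  refine ⟨insert b₂ (insert b₁ A), y, z, {v | v ∈ P ∧ lt b₂ v}, lt,
    (hlo.fin.insert b₁).insert b₂, hFB, sq_refl F _, hL, ⟨hy, hby⟩, ?_, ?_⟩
  · rw [Set.disjoint_left]
    intro v hv hvB
    obtain ⟨hvP, h3, h4⟩ := hK v hv
    rcases hvB with rfl | rfl | hvA
    · exact h4 hby
    · exact h4 (hlo.tra _ hvP b₂ hb₂ y hy hlt hby)
    · exact lo_notA hC hlo hvA hvP
  · intro v hv
    obtain ⟨hvP, h3, h4⟩ := hK v hv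
    refine ⟨⟨hvP, ?_⟩, h3, h4⟩
    rcases hlo.neg b₂ hb₂ v hvP y hy hby with h5 | h5
    · exact h5
    · exact absurd h5 h4

/-- inner pieces: two points above -/
theorem inr_dn (hLIN : St_LIN) (hC : Cx L U) {P F : Set U} {lt : U → U → Prop} (h : LQ L A P lt)
    (hF : F.Finite) (hAF : A ⊆ F) {b₁ b₂ y z : U} (hb₁ : b₁ ∈ P) (hb₂ : b₂ ∈ P) (hlt : lt b₁ b₂)
    (hFB : F ⊆ insert b₂ (insert b₁ A)) (hy : y ∈ P) (hby : lt y b₁) (hz : z ∈ P)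
    (h1 : ¬ lt y z) (h2 : ¬ lt z y) : InrV L F y z := by
  have hlo := h.lo.lo0
  obtain ⟨-, -, hL⟩ := hLIN L U hC A P lt h b₁ hb₁ b₂ hb₂ hlt
  have hK := lo_pccl hC h.lo hF hAF hy hz h1 h2
  refine ⟨insert b₂ (insert b₁ A), y, z, {v | v ∈ P ∧ lt v b₁}, lt,
    (hlo.fin.insert b₁).insert b₂, hFB, sq_refl F _, hL, ⟨hy, hby⟩, ?_, ?_⟩
  · rw [Set.disjoint_left]
    intro v hv hvB
    obtain ⟨hvP, h3, h4⟩ := hK v hv
    rcases hvB with rfl | rfl | hvA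
    · exact h3 (hlo.tra y hy b₁ hb₁ _ hvP hby hlt)
    · exact h3 hby
    · exact lo_notA hC hlo hvA hvP
  · intro v hv
    obtain ⟨hvP, h3, h4⟩ := hK v hv
    refine ⟨⟨hvP, ?_⟩, h3, h4⟩
    rcases hlo.neg y hy v hvP b₁ hb₁ hby with h5 | h5
    · exact absurd h5 h3
    · exact h5

/-- over `A` -/
theorem inr_cl0 (hLIN : St_LIN) (hC : Cx L U) {P : Set U} {lt : U → U → Prop} (h : LQ L A P lt)
    {y z : U} (hy : y ∈ P) (hz : z ∈ P) (h1 : ¬ lt y z) (h2 : ¬ lt z y) : InrV L A y z := by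
  have hlo := h.lo.lo0
  obtain ⟨b₂, hb₂, -, hb₂y⟩ := hlo.gap ∅ {y} finite_empty (finite_singleton y) (empty_subset _)
    (singleton_subset_iff.2 hy) (fun d hd => absurd hd (notMem_empty d)) y hy
  have hb₂P := cla_mem hC hlo hb₂ hy
  obtain ⟨b₁, hb₁, -, hb₁b⟩ := hlo.gap ∅ {b₂} finite_empty (finite_singleton b₂) (empty_subset _)
    (singleton_subset_iff.2 hb₂P) (fun d hd => absurd hd (notMem_empty d)) y hy
  have hb₁P := cla_mem hC hlo hb₁ hy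
  exact inr_up hLIN hC h hlo.fin Subset.rfl hb₁P hb₂P (hb₁b b₂ rfl)
    ((subset_insert b₁ A).trans (subset_insert b₂ _)) hy (hb₂y y rfl) hz h1 h2

/-- over one point `a` of another cluster -/
theorem inr_cl1 (hLIN : St_LIN) (hC : Cx L U) {P : Set U} {lt : U → U → Prop} (h : LQ L A P lt)
    {a y z : U} (ha : a ∈ P) (hy : y ∈ P) (hz : z ∈ P) (hay : lt a y ∨ lt y a) (h1 : ¬ lt y z)
    (h2 : ¬ lt z y) : InrV L (insert a A) y z := by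
  have hlo := h.lo.lo0
  rcases hay with hay | hay
  · obtain ⟨b₂, hb₂, hab, hby⟩ := hlo.gap {a} {y} (finite_singleton a) (finite_singleton y)
      (singleton_subset_iff.2 ha) (singleton_subset_iff.2 hy) (by
        rintro d hd w hw
        rw [mem_singleton_iff] at hd hw
        rw [hd, hw]
        exact hay) y hy
    exact inr_up hLIN hC h (hlo.fin.insert a) (subset_insert a A) ha (cla_mem hC hlo hb₂ hy)
      (hab a rfl) (subset_insert b₂ _) hy (hby y rfl) hz h1 h2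
  · obtain ⟨b₁, hb₁, hyb, hba⟩ := hlo.gap {y} {a} (finite_singleton y) (finite_singleton a)
      (singleton_subset_iff.2 hy) (singleton_subset_iff.2 ha) (by
        rintro d hd w hw
        rw [mem_singleton_iff] at hd hw
        rw [hd, hw]
        exact hay) y hy
    exact inr_dn hLIN hC h (hlo.fin.insert a) (subset_insert a A) (cla_mem hC hlo hb₁ hy) ha
      (hba a rfl) (insert_subset_insert (subset_insert b₁ A)) hy (hyb y rfl) hz h1 h2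

/-- the piece of a point of another cluster over two points -/
theorem nice_two (hLIN : St_LIN) (hC : Cx L U) {P : Set U} {lt : U → U → Prop} (h : LQ L A P lt)
    {b₁ b₂ z : U} (hb₁ : b₁ ∈ P) (hb₂ : b₂ ∈ P) (hlt : lt b₁ b₂) (hz : z ∈ P)
    (h3 : lt b₂ z ∨ (lt b₁ z ∧ lt z b₂) ∨ lt z b₁) : NiceV L 0 (insert b₂ (insert b₁ A)) z := by
  obtain ⟨hL₁, hL₂, hL₃⟩ := hLIN L U hC A P lt h b₁ hb₁ b₂ hb₂ hlt
  obtain ⟨hO₁, hO₂, hO₃⟩ := lo_three hC h.lo hb₁ hb₂ hlt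
  refine Or.inr (Or.inl ⟨lt, ?_⟩)
  rcases h3 with h3 | h3 | h3
  · rw [hO₁.lo0.pc z ⟨hz, h3⟩]
    exact hL₁
  · rw [hO₂.lo0.pc z ⟨hz, h3⟩]
    exact hL₂
  · rw [hO₃.lo0.pc z ⟨hz, h3⟩]
    exact hL₃

end

/-- [NI2] linear pieces are classified in two steps -/
theorem thm_NI2 (hLIN : St_LIN) : St_NI2 := by
  intro L U _ hC A P lt h z hz
  have hlo := h.lo.lo0
  refine Or.inr fun y₁ hy₁ z₁ hz₁ => ?_
  rw [hlo.pc z hz] at hy₁ hz₁
  by_cases hc : ¬ lt y₁ z₁ ∧ ¬ lt z₁ y₁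
  · exact Or.inl (inr_cl0 hLIN hC h hy₁ hz₁ hc.1 hc.2)
  right
  have hc : lt y₁ z₁ ∨ lt z₁ y₁ := by
    by_contra hcon
    push Not at hcon
    exact hc hcon
  refine Or.inr fun y₂ hy₂ z₂ hz₂ => ?_
  rcases hc with hc | hc
  · have hpc := (lo_up hC h.lo hy₁).lo0.pc z₁ ⟨hz₁, hc⟩
    rw [hpc] at hy₂ hz₂
    by_cases hc2 : ¬ lt y₂ z₂ ∧ ¬ lt z₂ y₂
    · exact Or.inl (inr_cl1 hLIN hC h hy₁ hy₂.1 hz₂.1 (Or.inl hy₂.2) hc2.1 hc2.2)
    · right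
      refine nice_two hLIN hC h hy₁ hy₂.1 hy₂.2 hz₂.1 ?_
      by_cases h3 : lt y₂ z₂
      · exact Or.inl h3
      · right
        left
        refine ⟨hz₂.2, ?_⟩
        by_contra h4
        exact hc2 ⟨h3, h4⟩
  · have hpc := (lo_dn hC h.lo hy₁).lo0.pc z₁ ⟨hz₁, hc⟩
    rw [hpc] at hy₂ hz₂
    by_cases hc2 : ¬ lt y₂ z₂ ∧ ¬ lt z₂ y₂
    · exact Or.inl (inr_cl1 hLIN hC h hy₁ hy₂.1 hz₂.1 (Or.inr hy₂.2) hc2.1 hc2.2)
    · right
      rw [insert_comm]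
      refine nice_two hLIN hC h hy₂.1 hy₁ hy₂.2 hz₂.1 ?_
      by_cases h3 : lt y₂ z₂
      · exact Or.inr (Or.inl ⟨h3, hz₂.2⟩)
      · right
        right
        by_contra h4
        exact hc2 ⟨h3, h4⟩

end Pool.Agent.TPX
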