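import Pool.Agent.TPX.Asm2
import Pool.Agent.TPC.ALLD
import Pool.Agent.TPX.HYP
import Pool.Agent.TPX.FRW
import Pool.Agent.TPX.NIL
import Pool.Agent.TPX.NI2
import Pool.Agent.TPX.INR
import Pool.Agent.TPX.LIN
import Pool.Agent.TPX.LQF
import Pool.Agent.TPX.LBN
import Pool.Agent.TPX.LOF
import Pool.Agent.TPX.CUP
import Pool.Agent.PMC.NPU

/-!
# TPX, assembly (helper73): T6' without hypotheses
-/

set_option autoImplicit false

namespace Pool.Agent.TPX

open FirstOrder.Language Set
open scoped FirstOrder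

theorem f_LQF : St_LQF := thm_LQF thm_LOF thm_LBN
theorem f_LIN : St_LIN := thm_LIN thm_LOH thm_CUP
theorem f_NI2 : St_NI2 := thm_NI2 f_LIN
theorem f_INR : St_INR := thm_INR f_LIN f_LQF
theorem f_NIL : St_NIL := thm_NIL f_LQF thm_LOH f_NI2 f_INR

/-- the structure chapter -/
theorem f_HYP : St_HYP := thm_HYP k_FRV f_NIL f_LIN f_LQF

/-- Vaught's conjecture for monadically NIP theories with finite extension bases, relative form -/
theorem all_T6P : St_T6P :=
  T6P_of (fun L V _ hC => f_HYP L V hC)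
    (fun L U _ _ hM hH hN => Pool.Agent.TPC.all_CTG L U hM hN hH) Pool.Agent.PMC.thm_NPU

end Pool.Agent.TPX
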