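import Pool.Agent.TPX.ORC

/-!
# TPX module BXX: the end of `r` over `A` is in the algebra of `A`
-/

set_option autoImplicit false
set_option linter.unusedVariables false

namespace Pool.Agent.TPX

open FirstOrder.Language Set
open scoped FirstOrder
open Pool.Agent.MNO

/-- [BXX] the end of `r` over `A` is in the algebra of `A` -/
theorem thm_BXX (hTRT : St_TRT) (hDPO : St_DPO) : St_BXX := by
  intro L U _ hC α _ r hr A hA hI
  have h0 : BF L A (En L A r)ᶜ := by
    refine ⟨fun x y h hx => ?_, fun m n u u' w hu hu' hw h => ?_⟩
    · intro hy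
      exact hx fun hx' => hy (or_mv0 hC hr hA hI h hx')
    · obtain ⟨s, hs, hIs, hEs⟩ := cx_inv hC hA u
      have h1 : ∀ (k : ℕ) (z : ℕ → Fin m → U), Mo L A s k z → Or L A r (fl k z) := by
        intro k z hz
        refine hTRT L U hC α (Fin k × Fin m) r hr A hA hI (fl k z) ?_
        rintro ⟨i, a⟩
        have h2 : Sq L A u (z i) := ets_sq hs hEs (ets_mono subset_union_left (hz i i.2))
        have h3 : Or L A r (s1 (u a)) := by
          by_contra h4
          exact hu a h4
        exact or_mv0 hC hr hA hI (sq_s1 h2 a) h3
      have h2 : Or L A s w := by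
        refine hTRT L U hC (Fin m) (Fin n) s hs A hA hIs w fun j => ?_
        by_contra h3
        have h4 := hDPO L U hC (Fin m) α s r hs hr A hA hIs hI h1 (w j) h3
        exact hw j fun h5 => h5 h4
      have h3 : ∀ v : Fin m → U, Ets L A v s → Ets L (A ∪ range w) v s := by
        intro v hv
        have h4 : Mo L A s 1 (fun _ => v) := by
          intro j hj
          refine ets_mono ?_ hv
          refine union_subset Subset.rfl ?_
          rintro x ⟨i, hi, -⟩
          omega
        exact ets_mono subset_union_left (h2 1 _ h4 0 Nat.one_pos)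
      have h4 : Sq L (A ∪ range w) u u' := ets_sq hs (h3 u hEs) (h3 u' (ets_congr hs hEs h))
      exact sq_mono subset_union_left (sq_add h4 w fun i => Or.inr ⟨i, rfl⟩)
  have h1 := bf_compl hC hA.countable h0
  rw [compl_compl] at h1
  exact h1

end Pool.Agent.TPX
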