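import Pool.Agent.TPX.DVA

/-!
# TPX [DIV] (helper45): invariant extensions
-/

set_option autoImplicit false
set_option linter.unusedVariables false

namespace Pool.Agent.TPX

open FirstOrder.Language Set
open scoped FirstOrder
open Pool.Agent.MNO

open DVA

theorem thm_DIV (hDVA : St_DVA) (hMOC : St_MOC) (hORC : St_ORC) (hREA : St_REA) (hENC : St_ENC)
    (hNPP : St_NPP) : St_DIV := by
  intro L U _ hC r hr hN A hA hI B y hAB hB hy
  classical
  obtain ⟨m1, m2, -, m4, m5, m6, -, m8, m9⟩ := hMOC L U hC (Fin 1) r hr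
  have hIB : Inv L B r := inv_up hAB hI
  obtain ⟨-, o2, -, -, -, -⟩ := hORC L U hC (Fin 1) r hr B hB hIB
  -- the two sequences
  have h1 : ∃ (n : ℕ) (z z' : ℕ → Fin 1 → U), Mo L B r n z ∧ Mo L (B ∪ range (s1 y)) r n z' ∧
      ¬ Sq L B (Sum.elim (fl n z) (s1 y)) (Sum.elim (fl n z') (s1 y)) := by
    by_contra hcon
    push Not at hcon
    exact hy (o2 (Fin 1) (s1 y) hcon)
  obtain ⟨n, z, z', hz, hz', hzy⟩ := h1
  -- the copies
  have h2 : ∀ C : Finset U, ∃ (zC : ℕ → Fin 1 → U) (yC : U), Mo L (B ∪ C) r n zC ∧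
      Sq L B (Sum.elim (fl n z) (s1 y)) (Sum.elim (fl n zC) (s1 yC)) := by
    intro C
    obtain ⟨zC, -, hzC⟩ := m1 (B ∪ C) 0 z (hB.union C.finite_toSet).countable
    have h3 : Mo L (B ∪ C) r n zC := fun j hj => hzC j (Nat.zero_le j)
    have h4 := m9 B n z zC hB hIB hz (m2 _ _ _ _ _ subset_union_left (le_refl n) h3)
    obtain ⟨w, hw⟩ := sq_ext hC hB.countable h4 (s1 y)
    refine ⟨zC, w 0, h3, ?_⟩
    have e : s1 (w 0) = w := by
      funext i
      rw [Subsingleton.elim i 0]
      rfl
    rw [e]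
    exact hw
  choose zC yC hzC hyC using h2
  -- the ultrafilter
  let F : Ultrafilter (Finset U) := Ultrafilter.of Filter.atTop
  have hF : ∀ D : Set U, D.Finite → ∀ᶠ C : Finset U in F, D ⊆ C := by
    intro D hD
    have h3 : ∀ᶠ C : Finset U in Filter.atTop, hD.toFinset ≤ C := Filter.eventually_ge_atTop _
    have h4 := Ultrafilter.of_le (Filter.atTop : Filter (Finset U)) h3
    refine Filter.Eventually.mono h4 fun C hC' u hu => ?_
    exact hC' (hD.mem_toFinset.2 hu)
  let p : ((Fin 1 → U) → Prop) → Prop := fun Q => Dp L (univ : Set U) Q ∧ ∀ᶠ C : Finset U in F, Q (s1 (yC C))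
  have hp : GT L p := by
    refine ⟨fun P hP => hP.1, fun P hP => ?_, fun P Q hP hQ => ⟨dp_and hP.1 hQ.1, hP.2.and hQ.2⟩,
      fun P hP => ?_⟩
    · obtain ⟨C, hC'⟩ := hP.2.exists
      exact ⟨_, hC'⟩
    · by_cases h3 : ∀ᶠ C : Finset U in F, P (s1 (yC C))
      · exact Or.inl ⟨hP, h3⟩
      · exact Or.inr ⟨dp_not hP, (Ultrafilter.eventually_not).2 h3⟩
  have hyB : ∀ C, Sq L B (s1 y) (s1 (yC C)) := fun C => sq_right (hyC C)
  have hEts : Ets L B (s1 y) p := fun E hE =>
    ⟨dp_mono (subset_univ _) (fe_cls hE _), Filter.Eventually.of_forall fun C => hE.eqv.symm (hyB C E hE)⟩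
  have hInv : Inv L A p := by
    intro m P hP c c' hcc' hc
    by_contra hc'
    obtain ⟨t, ht, hIt, hEt⟩ := cx_inv hC hA c
    obtain ⟨t1, t2, -, t4, t5, -, -, -, t9⟩ := hMOC L U hC (Fin m) t ht
    have hcf : (A ∪ range c ∪ range c').Finite := (hA.union (finite_range c)).union (finite_range c')
    obtain ⟨e, -, he⟩ := t1 (A ∪ range c ∪ range c') 0 (fun _ => c) hcf.countable
    have he' : ∀ j, Ets L (A ∪ range c ∪ range c' ∪ rg j e) (e j) t := fun j => he j (Nat.zero_le j)
    have hdp : ∀ w : Fin m → U, Dp L (univ : Set U) (fun v : Fin 1 → U => P (Sum.elim v w)) := fun w =>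
      dp_par (dp_mono (subset_univ _) hP) w (fun i => mem_univ _)
    let V : (Fin m → U) → Prop := fun w => p (fun v => P (Sum.elim v w))
    -- eventually constant
    have hcst : ∃ (v : Prop) (J : ℕ), ∀ j, J ≤ j → (V (e j) ↔ v) := by
      by_contra hcon
      push Not at hcon
      obtain ⟨k, hk⟩ := hNPP L U hC (Fin m) (Fin 1) A (fun u v => P (Sum.elim v u)) hA
        (dp_congr (dp_sub hP Sum.swap) fun v => iff_of_eq (congrArg P (by
          funext i
          rcases i with i | i <;> rfl)))
      apply hk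
      -- indices with prescribed truth values
      have h3 : ∀ (b : Bool) (J : ℕ), ∃ j, J ≤ j ∧ (V (e j) ↔ b = true) := by
        intro b J
        obtain ⟨j, hj, hj'⟩ := hcon (¬ (b = true)) J
        refine ⟨j, hj, ?_⟩
        by_cases h4 : V (e j) <;> by_cases h5 : b = true <;> simp [h4, h5] at hj' ⊢
      choose q hq hq' using h3
      have h4 : ∀ s : ℕ → Bool, ∃ f : ℕ → ℕ, StrictMono f ∧ ∀ i, V (e (f i)) ↔ s i = true := by
        intro s
        let f : ℕ → ℕ := fun i => Nat.rec (q (s 0) 0) (fun i fi => q (s (i + 1)) (fi + 1)) i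
        have hf : ∀ i, f (i + 1) = q (s (i + 1)) (f i + 1) := fun i => rfl
        refine ⟨f, strictMono_nat_of_lt_succ fun i => ?_, fun i => ?_⟩
        · rw [hf]
          exact hq _ _
        · cases i with
          | zero => exact hq' _ _
          | succ i => exact hq' _ _
      have heM : ∀ n, Mo L A t n e := fun n j hj =>
        ets_mono (union_subset_union_left _ (subset_union_left.trans subset_union_left)) (he' j)
      have h5 : ∀ s : Set (Fin k), ∃ w : Fin 1 → U, ∀ i : Fin k, P (Sum.elim w (e i)) ↔ i ∈ s := by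
        intro s
        obtain ⟨f, hf, hf'⟩ := h4 (fun i => if h : i < k then decide (⟨i, h⟩ ∈ s) else false)
        have h6 : ∀ i : Fin k, (V (e (f i)) ↔ i ∈ s) := by
          intro i
          have h7 := hf' i
          rw [dif_pos i.2] at h7
          rw [h7]
          simp
        have h7 := gt_all hp (G := range fun (i : Fin k) => fun v : Fin 1 → U => (P (Sum.elim v (e (f i))) ↔ i ∈ s))
          (finite_range _) (by
          rintro _ ⟨i, rfl⟩
          by_cases h8 : i ∈ s
          · exact gt_mono hp ((h6 i).2 h8) (dp_iff (hdp _) (dp_const _)) fun v hv => ⟨fun _ => h8, fun _ => hv⟩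
          · have h9 := (gt_not hp (hdp (e (f i)))).2 (fun h9 => h8 ((h6 i).1 h9))
            exact gt_mono hp h9 (dp_iff (hdp _) (dp_const _)) fun v hv => ⟨fun h => absurd h hv, fun h => absurd h h8⟩)
        obtain ⟨w0, hw0⟩ := hp.ne _ h7
        have h8 : Sq L A (fl k (fun i => e (f i))) (fl k e) :=
          t9 A k _ _ hA hIt (t5 A k (f k + 1) e f (fun a b hab _ => hf hab) (fun a ha => by
            have := hf ha
            omega) (heM _)) (heM k)
        obtain ⟨w, hw⟩ := sq_ext hC hA.countable h8 w0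
        refine ⟨w, fun i => ?_⟩
        have h9 : P (Sum.elim w0 (e (f i))) ↔ i ∈ s := hw0 _ ⟨i, rfl⟩
        rw [← h9]
        refine (sq_dp (sq_cov hw ?_) hP).symm
        rintro (a | a)
        · exact ⟨Sum.inr a, rfl, rfl⟩
        · exact ⟨Sum.inl (i, a), rfl, rfl⟩
      choose w hw using h5
      refine ⟨fun i => e i, w, fun i s => ?_⟩
      exact hw s i
    obtain ⟨v, J, hJ⟩ := hcst
    -- the Morley sequence with the wrong first term
    obtain ⟨d0, hd0, hd0', hd0r⟩ : ∃ d0 : Fin m → U, Ets L A d0 t ∧ (V d0 ↔ ¬ v) ∧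
        range d0 ⊆ A ∪ range c ∪ range c' := by
      by_cases hv : v
      · exact ⟨c', ets_congr ht hEt hcc', ⟨fun h => absurd h hc', fun h => absurd hv h⟩, subset_union_right⟩
      · exact ⟨c, hEt, ⟨fun _ => hv, fun _ => hc⟩, subset_union_right.trans subset_union_left⟩
    let d : ℕ → Fin m → U := fun j => Nat.casesOn j d0 (fun j => e (J + j))
    have hdM : ∀ N, Mo L A t N d := by
      intro N j _
      cases j with
      | zero =>
        have h3 : A ∪ rg 0 d = A := by
          refine Subset.antisymm (union_subset (Subset.refl _) ?_) subset_union_left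
          rintro u ⟨i, hi, -⟩
          exact absurd hi (Nat.not_lt_zero i)
        rw [h3]
        exact hd0
      | succ j =>
        refine ets_mono (union_subset ?_ ?_) (he' (J + j))
        · exact subset_union_left.trans (subset_union_left.trans subset_union_left)
        · rintro u ⟨i, hi, a, rfl⟩
          cases i with
          | zero => exact Or.inl (hd0r ⟨a, rfl⟩)
          | succ i => exact Or.inr ⟨J + i, by omega, a, rfl⟩
    have hdV : ∀ j, 0 < j → ¬ (V (d j) ↔ V (d 0)) := by
      intro j hj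
      cases j with
      | zero => exact absurd hj (lt_irrefl 0)
      | succ j =>
        have h3 : V (d (j + 1)) ↔ v := hJ (J + j) (Nat.le_add_right J j)
        have h4 : V (d 0) ↔ ¬ v := hd0'
        rw [h3, h4]
        tauto
    -- DVA
    obtain ⟨l, b, hb⟩ := exists_enum hB
    have hAb : A ∪ range b = B := by
      rw [hb]
      exact union_eq_right.2 hAB
    refine hDVA L U hC r hr A hA hI (Fin l) (Fin m) b y n z z' t P ht hIt hP ?_ ?_ fun N => ?_
    · rw [hAb, ← range_s1]
      exact hz'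
    · rw [hAb]
      exact hzy
    · rw [hAb]
      have h3 : ∀ᶠ C : Finset U in F, ∀ j < N, (P (Sum.elim (s1 (yC C)) (d j)) ↔ V (d j)) := by
        refine (Filter.eventually_all_finite (Set.finite_lt_nat N)).2 fun j _ => ?_
        by_cases h4 : V (d j)
        · exact h4.2.mono fun C hC' => ⟨fun _ => h4, fun _ => hC'⟩
        · exact ((gt_not hp (hdp (d j))).2 h4).2.mono fun C hC' => ⟨fun h => absurd h hC', fun h => absurd h h4⟩
      obtain ⟨C, h4, h5⟩ := (h3.and (hF (rg N d) (rg_fin N d))).exists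
      refine ⟨d, zC C, yC C, hdM N, m2 _ _ _ _ _ (union_subset_union_right B h5) (le_refl n) (hzC C),
        hyC C, fun j hj hjN => ?_⟩
      rw [h4 j hjN, h4 0 (by omega)]
      exact hdV j hj
  have hNal : Nal p := by
    intro u hu
    obtain ⟨C, hC'⟩ := hu.2.exists
    have h3 : yC C = u := hC'
    have h4 : Sq L B (s1 y) (s1 u) := by
      rw [← h3]
      exact hyB C
    have h5 : ∀ u', Sq L A (s1 u) (s1 u') → u' = u := by
      intro u' h6
      have h7 := inv_any hInv (P := fun v : Fin 1 ⊕ Fin 1 → U => v (Sum.inl 0) = v (Sum.inr 0))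
        (dp_eq _ _) h6 hu
      obtain ⟨w, hw, hw'⟩ := hp.ne _ (hp.and _ _ hu h7)
      exact (hw.symm.trans hw').symm
    have h6 : y = u := h5 y (sq_symm (sq_mono hAB h4))
    obtain ⟨y', hy', hy''⟩ := hREA L U hC r hr hN A hA hI B (insert y B) y hAB (subset_insert y B)
      (hB.insert y) hy
    have h7 : y' = y := by
      rw [h6] at hy' ⊢
      exact h5 y' (sq_mono hAB hy')
    rw [h7] at hy''
    exact (hENC L U hC r hr hN A hA hI).2.2.2.2.1 (insert y B) y (hAB.trans (subset_insert y B))
      (hB.insert y) (mem_insert y B) hy''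
  exact ⟨p, hp, hNal, hInv, hEts⟩

end Pool.Agent.TPX
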