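import Pool.Agent.TPX.TRS

/-!
# TPX: DPO (helper97)
-/

set_option autoImplicit false
set_option linter.unusedVariables false

namespace Pool.Agent.TPX

open FirstOrder.Language Set
open scoped FirstOrder
open Pool.Agent.MNO

variable {L : FirstOrder.Language.{0, 0}} {U : Type} [L.Structure U]

/-- a family of finite equivalence relations which is broken by `v` at the first term of a Morley sequence -/
theorem dpo_brk (hMOC : St_MOC) (hC : Cx L U) {α : Type} [Finite α]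
    {s : ((α → U) → Prop) → Prop} (hs : GT L s) {A : Set U} (hA : A.Finite)
    (v : U) (u₀ : α → U) (hu₀ : Ets L A u₀ s) (hn : ¬ Ets L (A ∪ {v}) u₀ s) :
    ∃ F : (Fin 1 → U) → (α → U) → (α → U) → Prop,
      Dp L A (fun v : (α ⊕ α) ⊕ Fin 1 → U =>
        F (fun i => v (Sum.inr i)) (fun i => v (Sum.inl (Sum.inl i))) (fun i => v (Sum.inl (Sum.inr i)))) ∧
      (∀ y, FE L (A ∪ range y) (F y)) ∧
      ∃ w : ℕ → α → U, (∀ n, Mo L A s n w) ∧ ¬ F (s1 v) (w 0) (w 1) ∧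
        ∀ l, 1 ≤ l → F (s1 v) (w l) (w (l + 1)) := by
  obtain ⟨m1, m2, m3, m4, m5, m6, m7, m8, m9⟩ := hMOC L U hC α s hs
  have hr : range (s1 v) = {v} := by
    ext y
    simp [s1, eq_comm]
  have h0 : ∃ E, FE L (A ∪ range (s1 v)) E ∧ ¬ s (fun x => E x u₀) := by
    by_contra hcon
    push Not at hcon
    rw [hr] at hcon
    exact hn (fun E hE => hcon E hE)
  obtain ⟨E, hE, hEs⟩ := h0
  obtain ⟨F, hFd, hFf, hFE⟩ := thm_FAM L U hC α (Fin 1) A (s1 v) E hE
  obtain ⟨w, hw0, hw1⟩ := m1 (A ∪ range (s1 v)) 1 (fun _ => u₀)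
    (hA.countable.union (countable_range _))
  have hw00 : w 0 = u₀ := hw0 0 one_pos
  refine ⟨F, hFd, hFf, w, ?_, ?_, ?_⟩
  · intro n j hj
    rcases Nat.eq_zero_or_pos j with rfl | hj0
    · rw [trs_rg_zero, union_empty, hw00]
      exact hu₀
    · exact trs_ets_mono (union_subset_union_left _ subset_union_left) (hw1 j hj0)
  · intro h
    rw [hFE, hw00] at h
    refine hEs (gt_mono hs (trs_ets_mono subset_union_left (hw1 1 le_rfl) E hE)
      (dp_mono (subset_univ _) (fe_cls hE u₀)) (fun x hx => hE.eqv.trans hx (hE.eqv.symm h)))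
  · intro l hl
    rw [hFE]
    exact ets_sq hs (trs_ets_mono subset_union_left (hw1 l hl))
      (trs_ets_mono subset_union_left (hw1 (l + 1) (by omega))) E hE

theorem dpo_rg {α : Type} (n : ℕ) (z : ℕ → α → U) : range (fl n z) = rg n z := by
  ext y
  constructor
  · rintro ⟨⟨t, i⟩, rfl⟩
    exact ⟨t, t.2, i, rfl⟩
  · rintro ⟨t, ht, i, rfl⟩
    exact ⟨(⟨t, ht⟩, i), rfl⟩

theorem dpo_rgD {α : Type} [Finite α] (z : ℕ → α → U) : {x | ∃ l i, x = z l i}.Countable := by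
  have : {x | ∃ l i, x = z l i} = ⋃ l : ℕ, range (z l) := by
    ext x
    simp only [mem_ofPred_eq, mem_iUnion, mem_range]
    constructor
    · rintro ⟨l, i, h⟩
      exact ⟨l, i, h.symm⟩
    · rintro ⟨l, i, h⟩
      exact ⟨l, i, h.symm⟩
  rw [this]
  exact countable_iUnion (fun l => countable_range _)

theorem dpo_core (hMOC : St_MOC) (hMGP : St_MGP) (hC : Cx L U)
    {α β : Type} [Finite α] [Finite β] {s : ((α → U) → Prop) → Prop}
    {r : ((β → U) → Prop) → Prop} (hs : GT L s) (hr : GT L r) {A : Set U}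
    (hA : A.Finite) (hsI : Inv L A s) (hrI : Inv L A r)
    (H : ∀ (n : ℕ) (z : ℕ → α → U), Mo L A s n z → Or L A r (fl n z)) (v : U)
    (u₀ : α → U) (hu₀ : Ets L A u₀ s) (hu₁ : ¬ Ets L (A ∪ {v}) u₀ s)
    (w₀ : β → U) (hw₀ : Ets L A w₀ r) (hw₁ : ¬ Ets L (A ∪ {v}) w₀ r) : False := by
  obtain ⟨m1, m2, m3, m4, m5, m6, m7, m8, m9⟩ := hMOC L U hC α s hs
  obtain ⟨n1, n2, n3, n4, n5, n6, n7, n8, n9⟩ := hMOC L U hC β r hr
  obtain ⟨F₁, hd₁, hf₁, u, huM, hu0, hu1⟩ := dpo_brk hMOC hC hs hA v u₀ hu₀ hu₁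
  obtain ⟨F₂, hd₂, hf₂, w, hwM, hw0, hw1⟩ := dpo_brk hMOC hC hr hA v w₀ hw₀ hw₁
  have huS : ∀ n j, Mo L A s n (fun t => u (j + t)) := fun n j =>
    m5 A n (j + n) u (fun t => j + t) (fun i i' h _ => by omega) (fun i hi => by omega) (huM _)
  have hwS : ∀ n j, Mo L A r n (fun t => w (j + t)) := fun n j =>
    n5 A n (j + n) w (fun t => j + t) (fun i i' h _ => by omega) (fun i hi => by omega) (hwM _)
  -- no exact arrays
  let P : (α ⊕ α → U) → (β ⊕ β → U) → U → Prop := fun X V y =>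
    ¬ F₁ (s1 y) (fun i => X (Sum.inl i)) (fun i => X (Sum.inr i)) ∧
    ¬ F₂ (s1 y) (fun i => V (Sum.inl i)) (fun i => V (Sum.inr i))
  have hPd : Dp L A (fun v : ((α ⊕ α) ⊕ (β ⊕ β)) ⊕ Unit → U =>
      P (fun i => v (Sum.inl (Sum.inl i))) (fun i => v (Sum.inl (Sum.inr i))) (v (Sum.inr ()))) := by
    have k1 := dp_sub hd₁ (Sum.elim (fun w => Sum.inl (Sum.inl w)) (fun _ => Sum.inr ()) :
      (α ⊕ α) ⊕ Fin 1 → ((α ⊕ α) ⊕ (β ⊕ β)) ⊕ Unit)
    have k2 := dp_sub hd₂ (Sum.elim (fun w => Sum.inl (Sum.inr w)) (fun _ => Sum.inr ()) :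
      (β ⊕ β) ⊕ Fin 1 → ((α ⊕ α) ⊕ (β ⊕ β)) ⊕ Unit)
    exact dp_and (dp_not k1) (dp_not k2)
  obtain ⟨K, hK⟩ := thm_CDP L U hC (α ⊕ α) (β ⊕ β) A P hA hPd
  set N := 2 * K + 2 with hN
  -- the codes
  let D : Set U := {x | ∃ l i, x = u l i} ∪ {x | ∃ l i, x = w l i}
  have hDc : D.Countable := (dpo_rgD u).union (dpo_rgD w)
  let Bs : ℕ → ℕ → Set U := fun i j => A ∪ rg N (fun t => u (i + t)) ∪ rg N (fun t => w (j + t))
  have hBf : ∀ i j, (Bs i j).Finite := fun i j =>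
    (hA.union (trs_rg_fin _ _)).union (trs_rg_fin _ _)
  have hrow : ∀ i j, ∃ y : U,
      Sq L A (Sum.elim (Sum.elim (fl N (fun t => w (j + t))) (fl N (fun t => u (i + t)))) (s1 y))
        (Sum.elim (Sum.elim (fl N w) (fl N u)) (s1 v)) ∧
      ∀ (δ : Type) [Finite δ] (v v' : δ → U), (∀ i, v i ∈ D) → (∀ i, v' i ∈ D) →
        Sq L (Bs i j) v v' → Sq L (Bs i j ∪ {y}) v v' := by
    intro i j
    have k0 : Sq L A (fl N u) (fl N (fun t => u (i + t))) := m9 A N _ _ hA hsI (huM N) (huS N i)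
    have k1 := n4 (Fin N × α) A N w (fun t => w (j + t)) _ _ hA hrI k0
      (H N _ (huM N) N _ (hwM N)) (H N _ (huS N i) N _ (hwS N j))
    obtain ⟨c1, hc1⟩ := sq_ext hC hA.countable k1 (s1 v)
    obtain ⟨c2, hc2, hc3⟩ := thm_GEN L U hC (Fin 1) (Bs i j) D c1 (hBf i j) hDc
    have e : c2 = s1 (c2 0) := by
      funext i
      rw [Fin.fin_one_eq_zero i]
      rfl
    have e' : range c2 = {c2 0} := by
      rw [e]
      ext y
      simp [s1, eq_comm]
    refine ⟨c2 0, ?_, ?_⟩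
    · rw [← e]
      refine sq_symm (sq_trans hc1 ?_)
      refine sq_swap (sq_mono (B := Bs i j) (subset_union_left.trans subset_union_left)
        (sq_add hc2 _ ?_))
      rintro (⟨t, q⟩ | ⟨t, q⟩)
      · exact Or.inr ⟨t, t.2, q, rfl⟩
      · exact Or.inl (Or.inr ⟨t, t.2, q, rfl⟩)
    · intro δ _ v v' hv hv' h
      rw [← e']
      exact hc3 δ v v' hv hv' h
  choose y hy hy' using hrow
  -- the rows
  have hu_ge : ∀ i j t, t + 1 < N → (F₁ (s1 (y i j)) (u (i + t)) (u (i + t + 1)) ↔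
      F₁ (s1 v) (u t) (u (t + 1))) := by
    intro i j t ht
    have k := sq_cov (x := Sum.elim (Sum.elim (u (i + t)) (u (i + t + 1))) (s1 (y i j)))
      (y := Sum.elim (Sum.elim (u t) (u (t + 1))) (s1 v)) (hy i j) (by
      rintro ((q | q) | q)
      · exact ⟨Sum.inl (Sum.inr (⟨t, by omega⟩, q)), rfl, rfl⟩
      · exact ⟨Sum.inl (Sum.inr (⟨t + 1, ht⟩, q)), rfl, rfl⟩
      · exact ⟨Sum.inr q, rfl, rfl⟩)
    exact sq_dp k hd₁
  have hw_ge : ∀ i j t, t + 1 < N → (F₂ (s1 (y i j)) (w (j + t)) (w (j + t + 1)) ↔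
      F₂ (s1 v) (w t) (w (t + 1))) := by
    intro i j t ht
    have k := sq_cov (x := Sum.elim (Sum.elim (w (j + t)) (w (j + t + 1))) (s1 (y i j)))
      (y := Sum.elim (Sum.elim (w t) (w (t + 1))) (s1 v)) (hy i j) (by
      rintro ((q | q) | q)
      · exact ⟨Sum.inl (Sum.inl (⟨t, by omega⟩, q)), rfl, rfl⟩
      · exact ⟨Sum.inl (Sum.inl (⟨t + 1, ht⟩, q)), rfl, rfl⟩
      · exact ⟨Sum.inr q, rfl, rfl⟩)
    exact sq_dp k hd₂
  have hu_lt : ∀ i j k, k + 1 < i → F₁ (s1 (y i j)) (u k) (u (k + 1)) := by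
    intro i j k hk
    have k2 := hMGP L U hC α s hs A hA hsI (i + N) u (huM _) i (i + N) k (k + 1) (by omega) le_rfl
      (by omega) (by omega) (Or.inl ⟨by omega, hk⟩)
    have k3 : Sq L (A ∪ rg N (fun t => u (i + t))) (u k) (u (k + 1)) := by
      refine sq_mono ?_ k2
      rintro y (hy | ⟨t, ht, q, rfl⟩)
      · exact Or.inl hy
      · exact Or.inr ⟨i + t, by omega, by omega, q, rfl⟩
    have k4 : Sq L (Bs i j) (u k) (u (k + 1)) := by
      refine n6 α (A ∪ rg N (fun t => u (i + t))) N (fun t => w (j + t)) _ _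
        (hA.union (trs_rg_fin _ _)) (trs_inv subset_union_left hrI) k3 ?_
      refine n2 _ (A ∪ range (fl (i + N) u)) N N _ ?_ le_rfl (H _ _ (huM _) _ _ (hwS N j))
      rw [dpo_rg]
      rintro y (((hy | ⟨t, ht, q, rfl⟩) | ⟨q, rfl⟩) | ⟨q, rfl⟩)
      · exact Or.inl hy
      · exact Or.inr ⟨i + t, by omega, q, rfl⟩
      · exact Or.inr ⟨k, by omega, q, rfl⟩
      · exact Or.inr ⟨k + 1, by omega, q, rfl⟩
    have k5 := hy' i j α (u k) (u (k + 1)) (fun q => Or.inl ⟨k, q, rfl⟩)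
      (fun q => Or.inl ⟨k + 1, q, rfl⟩) k4
    refine k5 _ (fe_mono ?_ (hf₁ _))
    rintro y (hy | ⟨t, rfl⟩)
    · exact Or.inl (Or.inl (Or.inl hy))
    · exact Or.inr rfl
  have hw_lt : ∀ i j k, k + 1 < j → F₂ (s1 (y i j)) (w k) (w (k + 1)) := by
    intro i j k hk
    have k1 : Mo L (A ∪ rg (i + N) u) r (j + N) w := by
      have := H _ _ (huM (i + N)) _ _ (hwM (j + N))
      rwa [dpo_rg] at this
    have k2 := hMGP L U hC β r hr (A ∪ rg (i + N) u) (hA.union (trs_rg_fin _ _))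
      (trs_inv subset_union_left hrI) (j + N) w k1 j (j + N) k (k + 1) (by omega) le_rfl
      (by omega) (by omega) (Or.inl ⟨by omega, hk⟩)
    have k4 : Sq L (Bs i j) (w k) (w (k + 1)) := by
      refine sq_mono ?_ k2
      rintro y ((hy | ⟨t, ht, q, rfl⟩) | ⟨t, ht, q, rfl⟩)
      · exact Or.inl (Or.inl hy)
      · exact Or.inl (Or.inr ⟨i + t, by omega, q, rfl⟩)
      · exact Or.inr ⟨j + t, by omega, by omega, q, rfl⟩
    have k5 := hy' i j β (w k) (w (k + 1)) (fun q => Or.inr ⟨k, q, rfl⟩)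
      (fun q => Or.inr ⟨k + 1, q, rfl⟩) k4
    refine k5 _ (fe_mono ?_ (hf₂ _))
    rintro y (hy | ⟨t, rfl⟩)
    · exact Or.inl (Or.inl (Or.inl hy))
    · exact Or.inr rfl
  -- the exact array
  refine hK ⟨fun p => Sum.elim (u (2 * p)) (u (2 * p + 1)),
    fun q => Sum.elim (w (2 * q)) (w (2 * q + 1)), fun p q => y (2 * p) (2 * q), ?_⟩
  intro p q p' q'
  show (¬ F₁ (s1 (y (2 * p') (2 * q'))) (u (2 * p)) (u (2 * p + 1)) ∧
    ¬ F₂ (s1 (y (2 * p') (2 * q'))) (w (2 * q)) (w (2 * q + 1))) ↔ _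
  have hp := p.2
  have hq := q.2
  have hp' := p'.2
  have hq' := q'.2
  constructor
  · rintro ⟨h1, h2⟩
    constructor
    · rcases lt_trichotomy (p : ℕ) p' with h | h | h
      · exact absurd (hu_lt _ _ _ (by omega)) h1
      · exact Fin.ext h
      · have h3 := (hu_ge (2 * p') (2 * q') (2 * p - 2 * p') (by omega)).2 (hu1 _ (by omega))
        have e : 2 * (p' : ℕ) + (2 * p - 2 * p') = 2 * p := by omega
        rw [e] at h3
        exact absurd h3 h1
    · rcases lt_trichotomy (q : ℕ) q' with h | h | h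
      · exact absurd (hw_lt _ _ _ (by omega)) h2
      · exact Fin.ext h
      · have h3 := (hw_ge (2 * p') (2 * q') (2 * q - 2 * q') (by omega)).2 (hw1 _ (by omega))
        have e : 2 * (q' : ℕ) + (2 * q - 2 * q') = 2 * q := by omega
        rw [e] at h3
        exact absurd h3 h2
  · rintro ⟨rfl, rfl⟩
    have h3 := (not_congr (hu_ge (2 * p) (2 * q) 0 (by omega))).2 hu0
    have h4 := (not_congr (hw_ge (2 * p) (2 * q) 0 (by omega))).2 hw0
    rw [add_zero] at h3 h4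
    exact ⟨h3, h4⟩

/-- concatenation of Morley sequences -/
theorem dpo_cat (hMOC : St_MOC) (hC : Cx L U) {α : Type} [Finite α]
    {s : ((α → U) → Prop) → Prop} (hs : GT L s) {A : Set U} {m n : ℕ} {z y : ℕ → α → U}
    (hz : Mo L A s m z) (hy : Mo L (A ∪ rg m z) s n y) :
    ∃ x : ℕ → α → U, Mo L A s (m + n) x ∧ (∀ i < m, x i = z i) ∧ ∀ i, x (m + i) = y i := by
  refine ⟨fun i => if i < m then z i else y (i - m), ?_, fun i hi => if_pos hi, fun i => ?_⟩
  · intro j hj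
    by_cases hjm : j < m
    · have h1 := hz j hjm
      simp only [if_pos hjm]
      refine trs_ets_mono ?_ h1
      rintro x (hx | ⟨t, ht, q, rfl⟩)
      · exact Or.inl hx
      · refine Or.inr ⟨t, ht, q, ?_⟩
        simp [show t < m by omega]
    · have h1 := hy (j - m) (by omega)
      simp only [if_neg hjm]
      refine trs_ets_mono ?_ h1
      rintro x (hx | ⟨t, ht, q, rfl⟩)
      · exact Or.inl (Or.inl hx)
      · by_cases htm : t < m
        · exact Or.inl (Or.inr ⟨t, htm, q, by simp [htm]⟩)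
        · exact Or.inr ⟨t - m, by omega, q, by simp [htm]⟩
  · simp

theorem thm_DPO (hMOC : St_MOC) (hMGP : St_MGP) (hORC : St_ORC) : St_DPO := by
  intro L U _ hC α β _ _ s r hs hr A hA hsI hrI H v hv
  by_contra hcon
  obtain ⟨m1, m2, m3, m4, m5, m6, m7, m8, m9⟩ := hMOC L U hC α s hs
  obtain ⟨n1, n2, n3, n4, n5, n6, n7, n8, n9⟩ := hMOC L U hC β r hr
  obtain ⟨-, -, o3, -, -, -⟩ := hORC L U hC α s hs A hA hsI
  obtain ⟨-, -, -, -, o5, -⟩ := hORC L U hC β r hr A hA hrI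
  obtain ⟨n, z, u, hz, hu, hnu⟩ := o3 _ _ hv
  have hr1 : range (s1 v) = {v} := by
    ext y
    simp [s1, eq_comm]
  unfold Or at hcon
  push Not at hcon
  obtain ⟨m, w, hw, hwn⟩ := hcon
  -- `z` and `u` as one sequence
  obtain ⟨x, hx, hx1, hx2⟩ := dpo_cat hMOC hC hs (n := 1) (y := fun _ => u) hz (by
    intro j hj
    obtain rfl : j = 0 := by omega
    rw [trs_rg_zero, union_empty]
    exact hu)
  have hwx : Mo L (A ∪ range (fl (n + 1) x)) r m w := H _ _ hx _ _ hw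
  rw [dpo_rg] at hwx
  have hzx : rg n z ⊆ rg (n + 1) x := by
    rintro y ⟨t, ht, q, rfl⟩
    exact ⟨t, by omega, q, by rw [hx1 t ht]⟩
  have hwn' : ¬ Mo L (A ∪ rg n z ∪ {v}) r m w := by
    intro h
    refine hwn (n2 _ _ m m w ?_ le_rfl h)
    rw [hr1]
    exact union_subset_union_left _ subset_union_left
  have hk : ∃ k < m, ¬ Ets L (A ∪ rg n z ∪ {v} ∪ rg k w) (w k) r := by
    by_contra hc
    push Not at hc
    exact hwn' hc
  obtain ⟨k, hkm, hk⟩ := hk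
  have hxw : Mo L (A ∪ range (fl m w)) s (n + 1) x :=
    o5 α s hs hsI H m w hw _ _ hx
  rw [dpo_rg] at hxw
  have hA₂ : (A ∪ rg n z ∪ rg k w).Finite := (hA.union (trs_rg_fin _ _)).union (trs_rg_fin _ _)
  refine dpo_core hMOC hMGP hC hs hr hA₂ (trs_inv (subset_union_left.trans subset_union_left) hsI)
    (trs_inv (subset_union_left.trans subset_union_left) hrI) ?_ v u ?_ ?_ (w k) ?_ ?_
  · intro n' y hy n'' w' hw'
    obtain ⟨x', hx', hx1', hx2'⟩ := dpo_cat hMOC hC hs (n := n') (y := y) hz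
      (m2 _ _ n' n' y subset_union_left le_rfl hy)
    obtain ⟨w'', hw'', hw1'', hw2''⟩ := dpo_cat hMOC hC hr (m := k) (z := w) (n := n'') (y := w')
      (n2 _ _ k m w Subset.rfl (by omega) hw) (n2 _ _ n'' n'' w' (by
        rintro y (hy | hy)
        · exact Or.inl (Or.inl hy)
        · exact Or.inr hy) le_rfl hw')
    have h1 := H _ _ hx' _ _ hw''
    rw [dpo_rg] at h1 ⊢
    intro j hj
    have h2 := h1 (k + j) (by omega)
    rw [hw2''] at h2
    refine trs_ets_mono ?_ h2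
    rintro y (((( hy | ⟨t, ht, q, rfl⟩) | ⟨t, ht, q, rfl⟩) | ⟨t, ht, q, rfl⟩) | ⟨t, ht, q, rfl⟩)
    · exact Or.inl (Or.inl hy)
    · exact Or.inl (Or.inr ⟨t, by omega, q, by rw [hx1' t ht]⟩)
    · exact Or.inr ⟨t, by omega, q, by rw [hw1'' t ht]⟩
    · exact Or.inl (Or.inr ⟨n + t, by omega, q, by rw [hx2' t]⟩)
    · exact Or.inr ⟨k + t, by omega, q, by rw [hw2'' t]⟩
  · have h1 := hxw n (by omega)
    have h2 : x n = u := hx2 0
    rw [h2] at h1
    refine trs_ets_mono ?_ h1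
    rintro y ((hy | ⟨t, ht, q, rfl⟩) | ⟨t, ht, q, rfl⟩)
    · exact Or.inl (Or.inl hy)
    · exact Or.inr ⟨t, ht, q, by rw [hx1 t ht]⟩
    · exact Or.inl (Or.inr ⟨t, by omega, q, rfl⟩)
  · intro h
    refine hnu (trs_ets_mono ?_ h)
    rw [hr1]
    rintro y ((hy | hy) | hy)
    · exact Or.inl (Or.inl (Or.inl hy))
    · exact Or.inr hy
    · exact Or.inl (Or.inl (Or.inr hy))
  · refine trs_ets_mono ?_ (hwx k hkm)
    rintro y ((hy | hy) | hy)
    · exact Or.inl (Or.inl hy)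
    · exact Or.inl (Or.inr (hzx hy))
    · exact Or.inr hy
  · intro h
    refine hk (trs_ets_mono ?_ h)
    rintro y (((hy | hy) | hy) | hy)
    · exact Or.inl (Or.inl (Or.inl hy))
    · exact Or.inl (Or.inl (Or.inr hy))
    · exact Or.inr hy
    · exact Or.inl (Or.inr hy)

end Pool.Agent.TPX
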