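import Pool.Agent.TPX.Fr3

/-!
# TPX: statements, first part (helper58), with proofs in the docstrings: generic copies, Morley sequences,
orthogonality to a type, exact arrays, ends, existence (REA) and invariant extensions (DIV).

`r` is a global type (`GT L r`) which is invariant over the finite set `A` (`Inv L A r`; then also over every `B ⊇ A`).
`Ets L B z r`: `z` realises the restriction of `r` to `acl^eq(B)`.  `ℕ`-indexed sequences `z : ℕ → α → U` are used
for finite Morley sequences `z 0, .., z (n-1)`.  Frame lemmas: `Fr1.lean`, `Fr2.lean`, `Fr3.lean` (`gt_real`, `rl_sq`,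
`rl_of_real`, `morley`, `bnd`, `li`, `of`, `sq_ext`, `nnl'`, ..).

LI below means `li` of `Fr2.lean`: if `Sq B v v'`, `r` is invariant over `B` and `u` realises `r` over
`acl^eq(B)`, `v`, `v'` then `Sq (B ∪ range u) v v'`.
-/

set_option autoImplicit false
set_option linter.unusedVariables false

namespace Pool.Agent.TPX

open FirstOrder.Language Set
open scoped FirstOrder
open Pool.Agent.MNO (Dp FE Sq Exa)

section

variable (L : FirstOrder.Language.{0, 0}) {U : Type} [L.Structure U]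

/-- the entries of `z 0, .., z (n-1)` -/
def rg {α : Type} (n : ℕ) (z : ℕ → α → U) : Set U := {x | ∃ i < n, ∃ a, x = z i a}

/-- `z 0, .., z (n-1)` as one tuple -/
def fl {α : Type} (n : ℕ) (z : ℕ → α → U) : Fin n × α → U := fun v => z v.1 v.2

/-- `z 0, .., z (n-1)` is a Morley sequence of `r` over `A` -/
def Mo (A : Set U) {α : Type} (r : ((α → U) → Prop) → Prop) (n : ℕ) (z : ℕ → α → U) : Prop :=
  ∀ j < n, Ets L (A ∪ rg j z) (z j) r

/-- all Morley sequences of `r` over `A` are Morley over `A` and `c` (`c` is orthogonal to `r` over `A`) -/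
def Or (A : Set U) {α β : Type} (r : ((α → U) → Prop) → Prop) (c : β → U) : Prop :=
  ∀ (n : ℕ) (z : ℕ → α → U), Mo L A r n z → Mo L (A ∪ range c) r n z

/-- the end of `r` over `A`: the elements which are not orthogonal to `r` over `A` -/
def En (A : Set U) {α : Type} (r : ((α → U) → Prop) → Prop) : Set U := {y | ¬ Or L A r (s1 y)}

/-- the type `r` of elements is not realised -/
def Nal (r : ((Fin 1 → U) → Prop) → Prop) : Prop := ∀ u : U, ¬ r (fun x => x 0 = u)

end

/-! ### Generic copies, families, exact arrays with parameters -/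

/-- [FAM] a finite equivalence relation with parameters is a member of a family of finite equivalence relations.
PROOF.  `dp_fam` for `E`: `E x x' ↔ Q ((x, x'), c)`, `Q` definable over `A`.  `fe_num`: every `k + 1` tuples have two
equivalent ones.  `F y x x' :=` (if `Q (·, ·, y)` is an equivalence relation such that every `k + 1` tuples have two
equivalent ones then `Q ((x, x'), y)` else `True`).  Definability of the condition: as for `G` in the proof of `li`
(`Fr2.lean`).  Finitely many classes: a maximal set of pairwise inequivalent tuples has at most `k` elements. -/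
def St_FAM : Prop :=
  ∀ (L : FirstOrder.Language.{0, 0}) (U : Type) [L.Structure U], Cx L U →
    ∀ (α γ : Type) [Finite α] [Finite γ] (A : Set U) (c : γ → U) (E : (α → U) → (α → U) → Prop),
    FE L (A ∪ range c) E →
    ∃ F : (γ → U) → (α → U) → (α → U) → Prop,
      Dp L A (fun v : (α ⊕ α) ⊕ γ → U =>
        F (fun i => v (Sum.inr i)) (fun i => v (Sum.inl (Sum.inl i))) (fun i => v (Sum.inl (Sum.inr i)))) ∧
      (∀ y, FE L (A ∪ range y) (F y)) ∧ ∀ x x', F c x x' ↔ E x x'

/-- [GEN] generic copies.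
PROOF.  `cx_inv` for `u` over `B`: `r`; `u'` realises `r` over `acl^eq(B ∪ C)` (`gt_real`).  `Sq B u u'`: both realise `r`
over `acl^eq(B)`.  The second part is `li` (`rl_of_real`). -/
def St_GEN : Prop :=
  ∀ (L : FirstOrder.Language.{0, 0}) (U : Type) [L.Structure U], Cx L U →
    ∀ (β : Type) [Finite β] (B C : Set U) (u : β → U), B.Finite → C.Countable →
    ∃ u' : β → U, Sq L B u u' ∧ ∀ (γ : Type) [Finite γ] (v v' : γ → U), (∀ i, v i ∈ C) →
      (∀ i, v' i ∈ C) → Sq L B v v' → Sq L (B ∪ range u') v v'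

/-- [CDP] no exact arrays of arbitrary size, with parameters.
PROOF.  Let `A = range a`, `a : Fin p → U`.  `P x y z ↔ Q (x, a) y z` with `Q` definable over `∅` (`dp_fam`).  Apply
`hC.cod` to `Q` (transport `α ⊕ Fin p` and `β` to `Fin m`, `Fin n` by `Finite.exists_equiv_fin`, `dp_sub`); an exact array of
`P` of size `k` gives one for `Q`. -/
def St_CDP : Prop :=
  ∀ (L : FirstOrder.Language.{0, 0}) (U : Type) [L.Structure U], Cx L U →
    ∀ (α β : Type) [Finite α] [Finite β] (A : Set U) (P : (α → U) → (β → U) → U → Prop), A.Finite →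
    Dp L A (fun v : (α ⊕ β) ⊕ Unit → U =>
      P (fun i => v (Sum.inl (Sum.inl i))) (fun i => v (Sum.inl (Sum.inr i))) (v (Sum.inr ()))) →
    ∃ k, ¬ Exa P k

/-- [NPP] no independence property, with parameters.
PROOF.  As CDP, from `hC.nip`. -/
def St_NPP : Prop :=
  ∀ (L : FirstOrder.Language.{0, 0}) (U : Type) [L.Structure U], Cx L U →
    ∀ (α β : Type) [Finite α] [Finite β] (A : Set U) (P : (α → U) → (β → U) → Prop), A.Finite →
    Dp L A (fun v : α ⊕ β → U => P (fun i => v (Sum.inl i)) (fun i => v (Sum.inr i))) →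
    ∃ k, ¬ Sh P k

/-- [RLE] realising `r` over `acl^eq(A ∪ c)` is invariant under `Sq A` (there is no problem with frames).
PROOF.  Let `w` realise `r` over `acl^eq(A ∪ c ∪ z)`, `w'` over `acl^eq(A ∪ c' ∪ z')` (`gt_real`).  `rl_sq`:
`Sq A (w, (z, c)) (w', (z', c'))`.  Let `E` be in `FE (A ∪ range c')`; family `F` of FAM with `F c' = E`.  `F c` is in
`FE (A ∪ range c)`, and `z`, `w` realise `r` over `acl^eq(A ∪ c)`, so `F c z w`; so `F c' z' w'` (`Sq` implies equality of
types).  `r (E · w')`, so `r (E · z')`. -/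
def St_RLE : Prop :=
  ∀ (L : FirstOrder.Language.{0, 0}) (U : Type) [L.Structure U], Cx L U →
    ∀ (α γ : Type) [Finite α] [Finite γ] (A : Set U) (r : ((α → U) → Prop) → Prop), A.Finite → GT L r →
    Inv L A r → ∀ (z z' : α → U) (c c' : γ → U), Sq L A (Sum.elim z c) (Sum.elim z' c') →
    Ets L (A ∪ range c) z r → Ets L (A ∪ range c') z' r

/-! ### Morley sequences -/

/-- [MOC] calculus of Morley sequences.
PROOF.  (1) recursion with `gt_real` (as `morley`).  (2) `rg j z ⊆ rg j z`, `fe_mono`.  (3) induction on `n` with RLE for the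
tuples `c, z 0, .., z (n-1)`.  (4) induction on `n` with `rl_sq`.  (5) the entries of `z (f i)`, `i < j`, are entries of
`z i`, `i < f j`.  (6) induction on `n`: LI over `B ∪ rg n z`.  (7) both realise `r` over `acl^eq(B)`.  (8) definition.
(9) (4) for `c` an enumeration of `B`: `Sq A (fl n z, c) (fl n z', c)` gives only this; for `Sq B` use: `r` is invariant over
`B`, and (4) over `B` with the empty tuple `c`. -/
def St_MOC : Prop :=
  ∀ (L : FirstOrder.Language.{0, 0}) (U : Type) [L.Structure U], Cx L U →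
    ∀ (α : Type) [Finite α] (r : ((α → U) → Prop) → Prop), GT L r →
    (∀ (C : Set U) (n : ℕ) (z : ℕ → α → U), C.Countable →
      ∃ z' : ℕ → α → U, (∀ i < n, z' i = z i) ∧ ∀ j, n ≤ j → Ets L (C ∪ rg j z') (z' j) r) ∧
    (∀ (B C : Set U) (m n : ℕ) (z : ℕ → α → U), B ⊆ C → m ≤ n → Mo L C r n z → Mo L B r m z) ∧
    (∀ (γ : Type) [Finite γ] (A : Set U) (n : ℕ) (z z' : ℕ → α → U) (c c' : γ → U), A.Finite → Inv L A r →
      Sq L A (Sum.elim (fl n z) c) (Sum.elim (fl n z') c') → Mo L (A ∪ range c) r n z →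
      Mo L (A ∪ range c') r n z') ∧
    (∀ (γ : Type) [Finite γ] (A : Set U) (n : ℕ) (z z' : ℕ → α → U) (c c' : γ → U), A.Finite → Inv L A r →
      Sq L A c c' → Mo L (A ∪ range c) r n z → Mo L (A ∪ range c') r n z' →
      Sq L A (Sum.elim (fl n z) c) (Sum.elim (fl n z') c')) ∧
    (∀ (B : Set U) (m n : ℕ) (z : ℕ → α → U) (f : ℕ → ℕ), (∀ i j, i < j → j < m → f i < f j) →
      (∀ i < m, f i < n) → Mo L B r n z → Mo L B r m (fun i => z (f i))) ∧
    (∀ (γ : Type) [Finite γ] (B : Set U) (n : ℕ) (z : ℕ → α → U) (v v' : γ → U), B.Finite → Inv L B r →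
      Sq L B v v' → Mo L (B ∪ range v ∪ range v') r n z → Sq L (B ∪ rg n z) v v') ∧
    (∀ (B : Set U) (n : ℕ) (z : ℕ → α → U), Mo L B r n z → ∀ i < n, ∀ j < n, Sq L B (z i) (z j)) ∧
    (∀ (B : Set U) (m n : ℕ) (z : ℕ → α → U), Mo L B r m z → (∀ j < n, Ets L (B ∪ rg (m + j) z) (z (m + j)) r) →
      Mo L B r (m + n) z) ∧
    (∀ (B : Set U) (n : ℕ) (z z' : ℕ → α → U), B.Finite → Inv L B r → Mo L B r n z → Mo L B r n z' →
      Sq L B (fl n z) (fl n z'))

/-- [MGP] positions in a Morley sequence: terms on the same side of the block `z i, .., z (n-1)` (or of the block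
`z i, .., z (j-1)`) are conjugate over it.
PROOF.  `z k`, `z k'` realise `r` over `acl^eq(B)` (MOC (7)), and `z i, .., z (j-1)` is a Morley sequence over
`B ∪ range (z k) ∪ range (z k')`: MOC (6).  For `j ≤ k, k'`: both realise `r` over `acl^eq(B ∪ z 0 ∪ .. ∪ z (j-1))`. -/
def St_MGP : Prop :=
  ∀ (L : FirstOrder.Language.{0, 0}) (U : Type) [L.Structure U], Cx L U →
    ∀ (α : Type) [Finite α] (r : ((α → U) → Prop) → Prop), GT L r → ∀ (B : Set U), B.Finite → Inv L B r →
    ∀ (n : ℕ) (z : ℕ → α → U), Mo L B r n z → ∀ i j k k' : ℕ, i ≤ j → j ≤ n → k < n → k' < n →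
    ((k < i ∧ k' < i) ∨ (j ≤ k ∧ j ≤ k')) →
    Sq L (B ∪ {x | ∃ l, i ≤ l ∧ l < j ∧ ∃ a, x = z l a}) (z k) (z k')

/-- [ORC] calculus of orthogonality.
PROOF.  (1) a Morley sequence `z'` over `A ∪ d'` is moved (`sq_ext`, `Sq A (z', c', d') (z, c, d)`, MOC (3)).  (2) for `z` Morley
over `A` and `z'` Morley over `A ∪ range c`: the hypothesis and MOC (3) (with `z'` in the role of `z`).  (3) the first `k` such
that `z k` does not realise `r` over `acl^eq(A ∪ c ∪ z 0 ∪ .. ∪ z (k-1))`.  (4) if `y` is Morley over `A ∪ rg n z` then `z` followed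
by `y` is Morley over `A`, so over `A ∪ range c`.  (5) `w` Morley (`r`) over `A`, `z` Morley (`s`) over `A`; use (2) for `s` and
`fl n w`: let `z'` be Morley (`s`) over `A ∪ w`.  `Or A r (fl m z)`, `Or A r (fl m z')`: `w` is Morley over `A ∪ z` and over `A ∪ z'`,
`Sq A (fl m z) (fl m z')`, so `Sq A (w, z) (w, z')` (MOC (4)).  (6) `rg`, `range` monotone.  (7) `Mo` over `A ∪ range c` for
`c = (c₁, c₂)`. -/
def St_ORC : Prop :=
  ∀ (L : FirstOrder.Language.{0, 0}) (U : Type) [L.Structure U], Cx L U →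
    ∀ (α : Type) [Finite α] (r : ((α → U) → Prop) → Prop), GT L r → ∀ (A : Set U), A.Finite → Inv L A r →
    (∀ (γ δ : Type) [Finite γ] [Finite δ] (c c' : γ → U) (d d' : δ → U),
      Sq L A (Sum.elim c d) (Sum.elim c' d') → Or L (A ∪ range d) r c → Or L (A ∪ range d') r c') ∧
    (∀ (γ : Type) [Finite γ] (c : γ → U), (∀ (n : ℕ) (z z' : ℕ → α → U), Mo L A r n z →
      Mo L (A ∪ range c) r n z' → Sq L A (Sum.elim (fl n z) c) (Sum.elim (fl n z') c)) → Or L A r c) ∧
    (∀ (γ : Type) [Finite γ] (c : γ → U), ¬ Or L A r c → ∃ (n : ℕ) (z : ℕ → α → U) (u : α → U),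
      Mo L A r n z ∧ Ets L (A ∪ rg n z) u r ∧ ¬ Ets L (A ∪ range c ∪ rg n z) u r) ∧
    (∀ (γ : Type) [Finite γ] (c : γ → U) (n : ℕ) (z : ℕ → α → U), Or L A r c → Mo L A r n z →
      Or L (A ∪ rg n z) r c) ∧
    (∀ (β : Type) [Finite β] (s : ((β → U) → Prop) → Prop), GT L s → Inv L A s →
      (∀ (n : ℕ) (z : ℕ → β → U), Mo L A s n z → Or L A r (fl n z)) →
      ∀ (n : ℕ) (w : ℕ → α → U), Mo L A r n w → Or L A s (fl n w)) ∧
    (∀ (γ δ : Type) [Finite γ] [Finite δ] (c : γ → U) (f : δ → γ), Or L A r c → Or L A r (fun i => c (f i)))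

/-! ### Exact arrays -/

/-- [TRS] **TR**: `a` and the element `c` orthogonal to `s` give `(a, c)` orthogonal to `s`.
PROOF.  Suppose not.  ORC (3): by ORC (4) we may add a Morley sequence to `A` (all hypotheses are preserved), so there is `u₀`
which realises `s` over `acl^eq(A)`, but not over `acl^eq(A ∪ a ∪ c)`.  So (FAM, parameters `(a, c)`) there is a family `F` over `A`
of finite equivalence relations such that, for a sequence `u° = (u₀, u₁, ..)` whose terms `u₁, ..` realise `s` over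
`acl^eq(A ∪ a ∪ c)` and all earlier terms: not `F (a, c) u₀ u₁`, `F (a, c) u_l u_(l+1)` for `l ≥ 1`.  `u°` is Morley over `A`.
Let `K` be arbitrary, `N = 2 K`.  Let `u` be Morley (`s`) over `A`, length `N`; `α` an `A`-invariant type which contains the strong
type of `a` over `A` (`cx_inv`).  For `i = 0, .., N - 1` choose `a_i` realising `α` over `acl^eq` of `A`, `u` and all elements chosen
before (so `a_i` and `a` have the same strong type over `A`), then for `j = 0, .., N - 1` elements `c_ij`: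
`Sq A (a_i, (u_j, .., u_(N-1))) (a, (u°_0, .., u°_(N-1-j)))` (ORC (1): `a_i` is orthogonal to `s`, so both sequences are Morley over
`A` and `a_i`, `a`: MOC (4)).  `sq_ext`: `c°` with `Sq A (a_i, (u_j, ..), c°) (a, (u°_0, ..), c)`.  GEN over
`B_ij = A ∪ a_i ∪ {u_j, .., u_(N-1)}`: `c_ij` is a generic copy of `c°` over `B_ij` relative to all elements chosen before.
Let `D (k, l; i, j)` be: not `F (a_k, c_ij) u_l u_(l+1)`, for even `k, l, i, j < N`.
(a) `D (i, j; i, j)`; not `D (i, l; i, j)` for `l > j` (transport).  (b) `l < j`: `u_l`, `u_(l+1)` are conjugate over `B_ij` (MGP over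
`A ∪ range a_i`; `u` is Morley over `A ∪ range a_i`), so over `B_ij ∪ {c_ij}`, and `F (a_i, c_ij)` is in `FE (A ∪ a_i ∪ {c_ij})`: not
`D (i, l; i, j)`.  (c) `k > i` (`k` or `k + 1` in the role of the row): `u` is Morley over `A ∪ {c_ij}` (`c_ij` is orthogonal to
`s`), so `Sq (A ∪ {c_ij}) u_l u_(l+1)`, LI with `α`: not `D (k, l; i, j)`, for all `k > i` (also odd `k`).  (d) `k + 1 < i`:
`a_k`, `a_(k+1)` are conjugate over `A ∪ u` (both realise `α`), so over `A ∪ u ∪ a_i` (LI with `α`), so over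
`A ∪ u ∪ a_i ∪ {c_ij}` (GEN): `D (k, l; i, j) ↔ D (k + 1, l; i, j)`.
So `P ((x, x'), (v, v'), y) := ¬ F (x, y) v v' ∧ F (x', y) v v'` has the exact array: rows `(a_k, a_(k+1))`, columns
`(u_l, u_(l+1))`, codes `c_ij` (`k, l, i, j` even) of size `K`: CDP. -/
def St_TRS : Prop :=
  ∀ (L : FirstOrder.Language.{0, 0}) (U : Type) [L.Structure U], Cx L U →
    ∀ (α γ : Type) [Finite α] [Finite γ] (s : ((α → U) → Prop) → Prop), GT L s → ∀ (A : Set U), A.Finite →
    Inv L A s → ∀ (a : γ → U) (c : U), Or L A s a → Or L A s (s1 c) → Or L A s (Sum.elim a (s1 c))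

/-- [TRT] a tuple is orthogonal to `s` if its entries are.
PROOF.  Induction on the number of entries with TRS (and ORC (6)). -/
def St_TRT : Prop :=
  ∀ (L : FirstOrder.Language.{0, 0}) (U : Type) [L.Structure U], Cx L U →
    ∀ (α γ : Type) [Finite α] [Finite γ] (s : ((α → U) → Prop) → Prop), GT L s → ∀ (A : Set U), A.Finite →
    Inv L A s → ∀ (a : γ → U), (∀ i, Or L A s (s1 (a i))) → Or L A s a

/-- [DPO] **DP**: one element is orthogonal to one of two orthogonal types.
PROOF.  Suppose not.  ORC (3) for `s`: `z` Morley (`s`) over `A` of length `n`, `u₀` realises `s` over `acl^eq(A ∪ z)`, not over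
`acl^eq(A ∪ z ∪ v)`.  Let `w` be Morley (`r`) over `A`, but not over `A ∪ {v}`.  As `Or A r (z, u₀)`, `w` is Morley over
`A ∪ z ∪ u₀`; let `k` be the first index such that `w_k` does not realise `r` over `acl^eq(A ∪ z ∪ {v} ∪ w_(<k))`, and
`A₂ = A ∪ z ∪ w_(<k)`.  ORC (5): `(z, u₀)` is Morley over `A ∪ w`, so `u₀` realises `s` over `acl^eq(A₂)`, not over
`acl^eq(A₂ ∪ v)`; `w₀ := w_k` realises `r` over `acl^eq(A₂)`, not over `acl^eq(A₂ ∪ v)`.  The hypothesis holds over `A₂`: if `y` is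
Morley (`s`) over `A₂` then `(z, y)` is Morley over `A`; if `w'` is Morley (`r`) over `A₂` then `(w_(<k), w')` is Morley over `A`, so
over `A ∪ z ∪ y`, so `w'` is Morley over `A₂ ∪ y`.  Write `A` for `A₂`.  FAM: families `F₁`, `F₂` over `A` with, for sequences
`u° = (u₀, u₁, ..)`, `w° = (w₀, w₁, ..)` whose terms of index `≥ 1` realise `s` (`r`) over `acl^eq` of `A ∪ {v}` and everything
chosen before (first all `u°_l`, then all `w°_l`, `l < N = 2 K`): not `F₁ v u₀ u₁`, `F₁ v u_l u_(l+1)`, `l ≥ 1`; the same for `F₂`, `w°`.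
`u°` is Morley over `A`, `w°` is Morley over `A`, so over `A ∪ u°`.  For even `i, j < N`:
`Sq A ((u°_i, ..), (w°_j, ..)) ((u°_0, ..), (w°_0, ..))` (MOC (4) twice), so there is `v°` with
`Sq A ((u°_i, ..), (w°_j, ..), v°) ((u°_0, ..), (w°_0, ..), v)`; `v_ij` := generic copy of `v°` over
`B_ij = A ∪ {u°_l, l ≥ i} ∪ {w°_l, l ≥ j}` relative to all `u°`, `w°` (GEN).  Then not `F₁ v_ij u°_i u°_(i+1)`; `F₁ v_ij u°_k u°_(k+1)`
for `k > i`, and for `k < i`: `u°_k`, `u°_(k+1)` are conjugate over `A ∪ {u°_l, l ≥ i}` (MGP), so over `B_ij` (MOC (6)), so over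
`B_ij ∪ {v_ij}`.  The same for `F₂`: `w°_l`, `w°_(l+1)`, `l < j`, are conjugate over `A ∪ u° ∪ {w°_m, m ≥ j}` (MGP over `A ∪ u°`).
`P ((x, x'), (y, y'), v) := ¬ F₁ v x x' ∧ ¬ F₂ v y y'` has exact arrays of size `K`: CDP. -/
def St_DPO : Prop :=
  ∀ (L : FirstOrder.Language.{0, 0}) (U : Type) [L.Structure U], Cx L U →
    ∀ (α β : Type) [Finite α] [Finite β] (s : ((α → U) → Prop) → Prop) (r : ((β → U) → Prop) → Prop),
    GT L s → GT L r → ∀ (A : Set U), A.Finite → Inv L A s → Inv L A r →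
    (∀ (n : ℕ) (z : ℕ → α → U), Mo L A s n z → Or L A r (fl n z)) → ∀ v : U, ¬ Or L A s (s1 v) →
    Or L A r (s1 v)

/-- [BXX] the end of `r` over `A` is in the algebra of `A`.
PROOF.  We show that the complement `X` (the elements orthogonal to `r`) is in `BF A` (`bf_compl`).  `inv`: ORC (1).  `prd`: let
`Sq A u u'`, `u`, `u'` in `X`, `w` outside `X`; `s` an `A`-invariant type which contains the strong type of `u` over `A`
(`cx_inv`).  For a Morley sequence `z` of `s` over `A` all entries are in `X` (`Sq A (z i) u`, MOC (7), ORC (1)), so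
`Or A r (fl n z)` (TRT).  Every `w j` is not orthogonal to `r`, so it is orthogonal to `s` (DPO), so `w` is orthogonal to `s`
(TRT).  `u`, `u'` are Morley sequences of `s` over `A` of length one, so over `A ∪ range w`, so `Sq (A ∪ range w) u u'`
(MOC (9)), `Sq A (u, w) (u', w)` (`sq_add`). -/
def St_BXX : Prop :=
  ∀ (L : FirstOrder.Language.{0, 0}) (U : Type) [L.Structure U], Cx L U →
    ∀ (α : Type) [Finite α] (r : ((α → U) → Prop) → Prop), GT L r → ∀ (A : Set U), A.Finite → Inv L A r →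
    BF L A (En L A r)

/-! ### Ends of types of elements -/

/-- [ENC] calculus of ends (`r` a type of elements, not realised, invariant over `A ⊆ B`, `B` finite).
PROOF.  (1) `w ∈ En B r`: otherwise `w` would realise `r` over `acl^eq(B ∪ {w})`, so `r (x = w)`.  `En B r` is in `BF B` (BXX over
`B`), so `Pc B w ⊆ En B r`.  Let `y ∉ Pc B w`; `z` Morley over `B` and `z'` Morley over `B ∪ {y}`: `Sq B z z'` (MOC (9)), the entries
are in `Pc B w` (they have the same strong type over `B` as `w`), so `of`: `Sq (B ∪ {y}) z z'`; ORC (2): `Or B r y`.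
(2) (1) and `pc_mono` for a realisation `w` over `acl^eq(C)`.  (3) ORC (1).  (4) `nnl'` and (1).  (5) `pc_par`, `par_notMem`; `w ∉ B`
for a realisation `w` (otherwise `r (x = w)`).  (6) `gt_real`, (1).  (7) `bf_inv1`, (1). -/
def St_ENC : Prop :=
  ∀ (L : FirstOrder.Language.{0, 0}) (U : Type) [L.Structure U], Cx L U →
    ∀ (r : ((Fin 1 → U) → Prop) → Prop), GT L r → Nal r → ∀ (A : Set U), A.Finite → Inv L A r →
    (∀ (B : Set U) (w : U), A ⊆ B → B.Finite → Ets L B (s1 w) r → Pc L B w = En L B r) ∧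
    (∀ (B C : Set U), A ⊆ B → B ⊆ C → C.Finite → En L C r ⊆ En L B r) ∧
    (∀ (γ : Type) [Finite γ] (c c' : γ → U) (y y' : U), Sq L A (Sum.elim (s1 y) c) (Sum.elim (s1 y') c') →
      (y ∈ En L (A ∪ range c) r ↔ y' ∈ En L (A ∪ range c') r)) ∧
    (∀ (B : Set U) (c : U), A ⊆ B → B.Finite → c ∉ En L B r → En L (insert c B) r = En L B r) ∧
    (∀ (B : Set U) (b : U), A ⊆ B → B.Finite → b ∈ B → b ∉ En L B r) ∧
    (∀ (B : Set U), A ⊆ B → B.Finite → ∃ w, Ets L B (s1 w) r ∧ w ∈ En L B r) ∧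
    (∀ (B : Set U) (y : U), A ⊆ B → B.Finite → y ∈ En L B r → Pc L B y = En L B r)

/-- [REA] every strong type over `B` in the end `En B r` occurs in the end `En C r`, `B ⊆ C`.
PROOF.  `y` is not orthogonal to `r` over `B`: ORC (2): `z`, `z°` of length `n`, `z` Morley over `B`, `z°` Morley over `B ∪ {y}`, not
`Sq B (z, y) (z°, y)`.  Let `z'` be Morley over `C`, `Sq B z z'` (MOC (9)), `sq_ext`: `y'` with `Sq B (z, y) (z', y')`.  Suppose
`y' ∉ En C r`.  Let `z''` be Morley over `C ∪ {y'}`: `Sq C z' z''`, the entries are in `En C r` (ENC), so `of` over `C`: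
`Sq (C ∪ {y'}) z' z''`, so `Sq B (z', y') (z'', y')`; and `Sq B (z'', y') (z°, y)` (MOC (4)).  So `Sq B (z, y) (z°, y)`:
contradiction. -/
def St_REA : Prop :=
  ∀ (L : FirstOrder.Language.{0, 0}) (U : Type) [L.Structure U], Cx L U →
    ∀ (r : ((Fin 1 → U) → Prop) → Prop), GT L r → Nal r → ∀ (A : Set U), A.Finite → Inv L A r →
    ∀ (B C : Set U) (y : U), A ⊆ B → B ⊆ C → C.Finite → y ∈ En L B r →
    ∃ y', Sq L B (s1 y) (s1 y') ∧ y' ∈ En L C r

/-- [DVA] the array of DIV.  `D°` long Morley sequences of `δ` over `A`, broken by `y'` at the first term (formula `P`);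
`y'` and the block `z⁰` have the fixed strong type of `(y, z)` over `A ∪ x`, and `z⁰` is Morley over `A ∪ x ∪ D°`; `y` breaks `z`.
PROOF of the contradiction.  Let `F` be a family over `A` (FAM) with not `F x (z, y) (z°, y)`, where `z°` is Morley over
`A ∪ x ∪ {y}`.  Let `N = 2 K`.  Hypothesis for `N`: `d`, `z⁰`, `y'`.  Choose blocks `z¹, .., z^(N-1)` (each of length `n`), Morley over
everything chosen before (also `y'`, `d`, `x`): not `F x (z⁰, y') (z^m, y')` and `F x (z^m, y') (z^(m+1), y')` for `m ≥ 1` [as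
`Sq (A ∪ x) (z⁰, y') (z, y)`, `Sq (A ∪ x) (z^m, y') (z°, y)`].  For every even `i < N`: `Sq A (d_i, .., d_(N-1)) (d_0, .., d_(N-1-i))`,
so `x°_i` with `Sq A (x°_i, (d_i, ..)) (x, (d_0, ..))`; `x_i` := generic copy of `x°_i` over `A ∪ {d_l, l ≥ i}` relative to `d` (GEN).
`w⁰, .., w^(N-1)`: blocks of length `n`, Morley (`r`) over `A ∪ d ∪ all x_i`.
`Sq A (x_i, (d_i, ..), (w^j, ..)) (x, (d_0, ..), (z⁰, z¹, ..))` (MOC (4)), so `y°` with
`Sq A (x_i, (d_i, ..), (w^j, ..), y°) (x, (d_0, ..), (z⁰, ..), y')`; `y_ij` := generic copy of `y°` over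
`B_ij = A ∪ x_i ∪ {d_l, l ≥ i} ∪ {w^l, l ≥ j}` relative to everything.  Rows `(x_k, d_k, d_(k+1))`, columns `(w^l, w^(l+1))`,
`Φ := (P (y, d_k) xor P (y, d_(k+1))) ∧ ¬ F x_k (w^l, y) (w^(l+1), y)`.  `k = i`: the first part is true (`P (y', d_0)` and
`P (y', d_1)` differ); `l = j`: the second part is true, `l > j`: false; `l < j`: `w^l`, `w^(l+1)` are conjugate over `B_ij` (MGP over
`A ∪ d ∪ x_i`), so over `B_ij ∪ {y_ij}`: false.  `k > i`: `P (y', d_(k-i))`, `P (y', d_(k+1-i))` agree: false.  `k < i`: `d_k`, `d_(k+1)`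
are conjugate over `A ∪ {d_l, l ≥ i}` (MGP), so over `.. ∪ x_i` (GEN), so over `B_ij` (MOC (6)), so over `B_ij ∪ {y_ij}`: false.
Exact array: CDP. -/
def St_DVA : Prop :=
  ∀ (L : FirstOrder.Language.{0, 0}) (U : Type) [L.Structure U], Cx L U →
    ∀ (r : ((Fin 1 → U) → Prop) → Prop), GT L r → ∀ (A : Set U), A.Finite → Inv L A r →
    ∀ (γ δ : Type) [Finite γ] [Finite δ] (x : γ → U) (y : U) (n : ℕ) (z z' : ℕ → Fin 1 → U)
      (t : ((δ → U) → Prop) → Prop) (P : (Fin 1 ⊕ δ → U) → Prop), GT L t → Inv L A t → Dp L A P →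
    Mo L (A ∪ range x ∪ {y}) r n z' → ¬ Sq L (A ∪ range x) (Sum.elim (fl n z) (s1 y)) (Sum.elim (fl n z') (s1 y)) →
    ¬ ∀ N : ℕ, ∃ (d : ℕ → δ → U) (z₀ : ℕ → Fin 1 → U) (y' : U), Mo L A t N d ∧
      Mo L (A ∪ range x ∪ rg N d) r n z₀ ∧
      Sq L (A ∪ range x) (Sum.elim (fl n z) (s1 y)) (Sum.elim (fl n z₀) (s1 y')) ∧
      ∀ j, 0 < j → j < N → ¬ (P (Sum.elim (s1 y') (d j)) ↔ P (Sum.elim (s1 y') (d 0)))

/-- [DIV] strong types over `B` in the end `En B r`, `r` invariant over `A ⊆ B`, have extensions which are invariant over `A`.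
PROOF.  `B = A ∪ range x` (`x` an enumeration of `B`).  `y` is not orthogonal to `r` over `B`: `z`, `z°` as in REA.  For every finite
`C ⊇ B` let `z_C` be Morley over `C` of length `n` and `y_C` with `Sq B (z, y) (z_C, y_C)` (as in REA).  Let `𝒰` be an ultrafilter on
the finite sets `C` which contains all the cones `{C | D ⊆ C}`, and `p Q :=` (`Q` is definable over `U` and `Q (s1 y_C)` for
`𝒰`-almost all `C`).  `GT p` and `Ets B y p` (`Sq B y y_C`) are clear.  `Inv A p`: suppose `P` is definable over `A`,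
`Sq A c c'`, `p (P (·, c))`, not `p (P (·, c'))`.  `t`: an `A`-invariant type which contains the strong type of `c` over `A`;
`c₁, c₂, ..` realise `t` over `acl^eq(A ∪ c ∪ c' ∪ earlier terms)`.  The truth value of `p (P (·, c_j))` is eventually constant:
otherwise, for `s ⊆ Fin k`, there are `j_0 < .. < j_(k-1)` with `p (P (·, c_(j_i))) ↔ i ∈ s`, so (`hp.ne`) `y*` with
`P (y*, c_(j_i)) ↔ i ∈ s`, and `Sq A (c_(j_0), ..) (c_1, .., c_k)` gives `y_s` with `P (y_s, c_(i+1)) ↔ i ∈ s`: NPP.  So for `d_0 = c`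
or `d_0 = c'` the value of `p (P (·, d_0))` differs from that of `p (P (·, c_j))` for all large `j`; with `d_1, d_2, ..` these
`c_j`, `d` is a Morley sequence of `t` over `A`; for every `N` there is `C ⊇ B ∪ rg N d` such that `y_C` has the truth values of
`p` on `P (·, d_j)`, `j < N`: this contradicts DVA.  `Nal p`: if `p (x = u)` then `Inv A p` gives: the only element with the strong
type of `u` over `A` is `u`, and `y = u`; but REA for `C = B ∪ {y}` gives `y' ∈ En C r`, `Sq B y y'`, so `y' = y ∈ C`, ENC (5).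
Finally `y ∈ En B p` (ENC (1) for `p`). -/
def St_DIV : Prop :=
  ∀ (L : FirstOrder.Language.{0, 0}) (U : Type) [L.Structure U], Cx L U →
    ∀ (r : ((Fin 1 → U) → Prop) → Prop), GT L r → Nal r → ∀ (A : Set U), A.Finite → Inv L A r →
    ∀ (B : Set U) (y : U), A ⊆ B → B.Finite → y ∈ En L B r →
    ∃ p : ((Fin 1 → U) → Prop) → Prop, GT L p ∧ Nal p ∧ Inv L A p ∧ Ets L B (s1 y) p

/-- [STA] consequence of DIV and LI: an element in the end over `B`, `z`, `z'` does not distinguish `z` and `z'`.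
PROOF.  DIV over the base `B` (`r` is invariant over `B`) for the set `B ∪ range z ∪ range z'`; `li` over `B`. -/
def St_STA : Prop :=
  ∀ (L : FirstOrder.Language.{0, 0}) (U : Type) [L.Structure U], Cx L U →
    ∀ (r : ((Fin 1 → U) → Prop) → Prop), GT L r → Nal r → ∀ (A : Set U), A.Finite → Inv L A r →
    ∀ (γ : Type) [Finite γ] (B : Set U) (z z' : γ → U) (x : U), A ⊆ B → B.Finite → Sq L B z z' →
    x ∈ En L (B ∪ range z ∪ range z') r → Sq L (insert x B) z z'

end Pool.Agent.TPX
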