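import Pool.Agent.TPX.Fre1
import Pool.Agent.TPX.StK

/-!
# TPX [DVA] (helper45): the array of DIV
-/

set_option autoImplicit false
set_option linter.unusedVariables false

namespace Pool.Agent.TPX

open FirstOrder.Language Set
open scoped FirstOrder
open Pool.Agent.MNO

namespace DVA

variable {L : FirstOrder.Language.{0, 0}} {U : Type} [L.Structure U]

/-- invariance over a larger set -/
theorem inv_up {α : Type} {r : ((α → U) → Prop) → Prop} {A B : Set U} (hAB : A ⊆ B)
    (hI : Inv L A r) : Inv L B r := by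
  intro n P hP c c' h h1
  obtain ⟨B0, hB0, hB0B, hP0⟩ := dp_fin hP
  obtain ⟨p, b, rfl⟩ := exists_enum hB0
  obtain ⟨Q, hQ, hPQ⟩ := dp_fam0 hP0
  have h2 := inv_any (β := Fin n ⊕ Fin p) hI (P := fun v => Q (fun i => v ((Sum.elim (Sum.elim
    (fun i => Sum.inl i) (fun i => Sum.inr (Sum.inl i))) (fun i => Sum.inr (Sum.inr i)) :
      (α ⊕ Fin n) ⊕ Fin p → α ⊕ (Fin n ⊕ Fin p)) i))) (dp_sub (dp_mono (empty_subset _) hQ) _)
      (sq_mono hAB (sq_add h b (fun i => hB0B ⟨i, rfl⟩)))
  have e : ∀ c : Fin n → U, (fun x : α → U => Q (fun i => Sum.elim x (Sum.elim c b) ((Sum.elim (Sum.elim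
    (fun i => Sum.inl i) (fun i => Sum.inr (Sum.inl i))) (fun i => Sum.inr (Sum.inr i)) :
      (α ⊕ Fin n) ⊕ Fin p → α ⊕ (Fin n ⊕ Fin p)) i))) = fun x => P (Sum.elim x c) := by
    intro c
    funext x
    rw [hPQ]
    congr 1
    funext i
    rcases i with (i | i) | i <;> rfl
  simp only [e] at h2
  exact h2 h1

theorem rg_mono {α : Type} {m n : ℕ} (h : m ≤ n) (z : ℕ → α → U) : rg m z ⊆ rg n z := by
  rintro x ⟨i, hi, a, rfl⟩
  exact ⟨i, lt_of_lt_of_le hi h, a, rfl⟩

theorem rg_shift {α : Type} (i m : ℕ) (z : ℕ → α → U) : rg m (fun k => z (i + k)) ⊆ rg (i + m) z := by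
  rintro x ⟨k, hk, a, rfl⟩
  exact ⟨i + k, by omega, a, rfl⟩

theorem rg_range {α : Type} (m : ℕ) (z : ℕ → α → U) : range (fl m z) = rg m z := by
  ext x
  constructor
  · rintro ⟨⟨i, a⟩, rfl⟩
    exact ⟨i, i.2, a, rfl⟩
  · rintro ⟨i, hi, a, rfl⟩
    exact ⟨(⟨i, hi⟩, a), rfl⟩

theorem rg_fin {α : Type} [Finite α] (m : ℕ) (z : ℕ → α → U) : (rg m z).Finite := by
  rw [← rg_range]
  exact finite_range _

/-- a Morley sequence of length `ω` over `C` gives Morley sequences -/
theorem mo_of {α : Type} {r : ((α → U) → Prop) → Prop} {C B : Set U} {W : ℕ → α → U}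
    (hW : ∀ j, Ets L (C ∪ rg j W) (W j) r) (s m : ℕ) (hB : B ⊆ C ∪ rg s W) :
    Mo L B r m (fun k => W (s + k)) := by
  intro j hj
  refine ets_mono ?_ (hW (s + j))
  refine union_subset (hB.trans (union_subset_union_right _ (rg_mono (by omega) W))) ?_
  exact (rg_shift s j W).trans subset_union_right

theorem range_s1 (y : U) : range (s1 y) = {y} := by
  ext x
  constructor
  · rintro ⟨i, rfl⟩
    rfl
  · intro h
    rw [mem_singleton_iff] at h
    exact ⟨0, h.symm⟩

end DVA

open DVA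

theorem thm_DVA (hCDP : St_CDP) (hFAM : St_FAM) (hGEN : St_GEN) (hMOC : St_MOC) (hMGP : St_MGP) :
    St_DVA := by
  intro L U _ hC r hr A hA hI γ δ _ _ x y n z z' t P ht hIt hP hz' hzy hall
  obtain ⟨m1, m2, -, m4, m5, m6, -, m8, m9⟩ := hMOC L U hC (Fin 1) r hr
  obtain ⟨-, t2, -, -, t5, -, -, -, t9⟩ := hMOC L U hC δ t ht
  have hAx : (A ∪ range x).Finite := hA.union (finite_range x)
  -- the relation
  have h1 : ∃ E, FE L (A ∪ range x) E ∧ ¬ E (Sum.elim (fl n z) (s1 y)) (Sum.elim (fl n z') (s1 y)) := by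
    by_contra hcon
    push Not at hcon
    exact hzy hcon
  obtain ⟨E, hE, hEn⟩ := h1
  obtain ⟨F, hFd, hFE, hF⟩ := hFAM L U hC ((Fin n × Fin 1) ⊕ Fin 1) γ A x E hE
  -- the formula
  let Q : (γ ⊕ (δ ⊕ δ) → U) → ((Fin n × Fin 1) ⊕ (Fin n × Fin 1) → U) → U → Prop := fun X Y v =>
    ¬ (P (Sum.elim (s1 v) (fun i => X (Sum.inr (Sum.inl i)))) ↔
        P (Sum.elim (s1 v) (fun i => X (Sum.inr (Sum.inr i))))) ∧
    ¬ F (fun i => X (Sum.inl i)) (Sum.elim (fun i => Y (Sum.inl i)) (s1 v))
        (Sum.elim (fun i => Y (Sum.inr i)) (s1 v))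
  have hQ : Dp L A (fun v : ((γ ⊕ (δ ⊕ δ)) ⊕ ((Fin n × Fin 1) ⊕ (Fin n × Fin 1))) ⊕ Unit → U =>
      Q (fun i => v (Sum.inl (Sum.inl i))) (fun i => v (Sum.inl (Sum.inr i))) (v (Sum.inr ()))) := by
    have hPs : ∀ f : δ → ((γ ⊕ (δ ⊕ δ)) ⊕ ((Fin n × Fin 1) ⊕ (Fin n × Fin 1))) ⊕ Unit,
        Dp L A (fun v : ((γ ⊕ (δ ⊕ δ)) ⊕ ((Fin n × Fin 1) ⊕ (Fin n × Fin 1))) ⊕ Unit → U =>
          P (Sum.elim (s1 (v (Sum.inr ()))) (fun i => v (f i)))) := by
      intro f
      refine dp_congr (dp_sub hP (Sum.elim (fun _ => Sum.inr ()) f)) fun v => iff_of_eq ?_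
      congr 1
      funext i
      rcases i with i | i <;> rfl
    refine dp_and (dp_not (dp_iff (hPs (fun i => Sum.inl (Sum.inl (Sum.inr (Sum.inl i)))))
      (hPs (fun i => Sum.inl (Sum.inl (Sum.inr (Sum.inr i))))))) (dp_not ?_)
    refine dp_congr (dp_sub hFd (Sum.elim (Sum.elim
      (Sum.elim (fun i => Sum.inl (Sum.inr (Sum.inl i))) (fun _ => Sum.inr ()))
      (Sum.elim (fun i => Sum.inl (Sum.inr (Sum.inr i))) (fun _ => Sum.inr ())))
      (fun i => Sum.inl (Sum.inl (Sum.inl i))))) fun v => iff_of_eq ?_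
    congr 1
    · funext i
      rcases i with i | i <;> rfl
    · funext i
      rcases i with i | i <;> rfl
  obtain ⟨K, hK⟩ := hCDP L U hC (γ ⊕ (δ ⊕ δ)) ((Fin n × Fin 1) ⊕ (Fin n × Fin 1)) A Q hA hQ
  set N : ℕ := 2 * K with hNK
  obtain ⟨d, z₀, y', hd, hz₀, hy', hPd⟩ := hall N
  -- the sequence `Z`
  obtain ⟨Z, hZ0, hZ⟩ := m1 (A ∪ range x ∪ rg N d ∪ {y'}) n z₀
    (((hAx.union (rg_fin N d)).union (finite_singleton y')).countable)
  have hz₀Z : Mo L (A ∪ range x ∪ rg N d) r n Z := by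
    intro j hj
    have h1 := hz₀ j hj
    rw [hZ0 j hj]
    refine ets_mono (union_subset_union_right _ ?_) h1
    rintro u ⟨k, hk, a, rfl⟩
    exact ⟨k, hk, a, by rw [hZ0 k (by omega)]⟩
  have hZM : ∀ m, Mo L (A ∪ range x ∪ rg N d) r m Z := by
    intro m
    refine m2 _ _ m (n + m) Z (Subset.refl _) (by omega) (m8 _ n m Z hz₀Z fun j hj => ?_)
    exact ets_mono (union_subset_union_left _ subset_union_left) (hZ (n + j) (by omega))
  -- the copies of `x`
  have hB1 : ∀ i, (A ∪ rg (N - i) (fun k => d (i + k))).Finite := fun i => hA.union (rg_fin _ _)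
  have hX : ∀ i : ℕ, ∃ xi : γ → U, i < N →
      Sq L A (Sum.elim (fl (N - i) d) x) (Sum.elim (fl (N - i) (fun k => d (i + k))) xi) ∧
      ∀ (v v' : δ → U), (∀ a, v a ∈ rg N d) → (∀ a, v' a ∈ rg N d) →
        Sq L (A ∪ rg (N - i) (fun k => d (i + k))) v v' →
        Sq L (A ∪ rg (N - i) (fun k => d (i + k)) ∪ range xi) v v' := by
    intro i
    by_cases hi : i < N
    · have h1 : Sq L A (fl (N - i) d) (fl (N - i) (fun k => d (i + k))) := by
        refine t9 A (N - i) _ _ hA hIt (t2 _ _ _ _ _ (Subset.refl _) (by omega) hd) ?_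
        exact t5 A (N - i) N d (fun k => i + k) (fun a b hab _ => by omega) (fun a ha => by omega) hd
      obtain ⟨x0, hx0⟩ := sq_ext hC hA.countable h1 x
      obtain ⟨xi, hxi, hxi'⟩ := hGEN L U hC γ (A ∪ rg (N - i) (fun k => d (i + k))) (rg N d) x0 (hB1 i)
        (rg_fin N d).countable
      refine ⟨xi, fun _ => ⟨?_, fun v v' hv hv' h => hxi' δ v v' hv hv' h⟩⟩
      have h2 := sq_mono subset_union_left (sq_add hxi (fl (N - i) (fun k => d (i + k)))
        (fun k => Or.inr (by rw [← rg_range]; exact ⟨k, rfl⟩)))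
      exact sq_trans hx0 (sq_swap h2)
    · exact ⟨x, fun h => absurd h hi⟩
  choose X hX using hX
  -- the sequence `W`
  set CW : Set U := A ∪ rg N d ∪ ⋃ i ∈ {i | i < N}, range (X i) with hCW
  have hCWc : CW.Countable := ((hA.union (rg_fin N d)).countable).union
    ((Set.finite_lt_nat N).countable.biUnion fun i _ => countable_range _)
  obtain ⟨W, -, hW⟩ := m1 CW 0 z₀ hCWc
  have hW' : ∀ j, Ets L (CW ∪ rg j W) (W j) r := fun j => hW j (Nat.zero_le j)
  -- the sets `B1`
  have hB1C : ∀ i, i < N → A ∪ rg (N - i) (fun k => d (i + k)) ∪ range (X i) ⊆ CW := by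
    intro i hi
    refine union_subset (union_subset (subset_union_left.trans subset_union_left) ?_) ?_
    · exact ((rg_shift i (N - i) d).trans (rg_mono (by omega) d)).trans
        (subset_union_right.trans subset_union_left)
    · exact (subset_biUnion_of_mem (u := fun i => range (X i)) (show i ∈ {i | i < N} from hi)).trans
        subset_union_right
  have hB2 : ∀ i j, (A ∪ rg (N - i) (fun k => d (i + k)) ∪ range (X i) ∪
      rg ((N - j) * n) (fun k => W (j * n + k))).Finite := fun i j =>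
    ((hB1 i).union (finite_range _)).union (rg_fin _ _)
  -- the copies of `y'`
  have hY : ∀ i j : ℕ, ∃ yij : Fin 1 → U, i < N → j < N →
      Sq L A (Sum.elim (Sum.elim (fl ((N - j) * n) Z) (Sum.elim (fl (N - i) d) x)) (s1 y'))
        (Sum.elim (Sum.elim (fl ((N - j) * n) (fun k => W (j * n + k)))
          (Sum.elim (fl (N - i) (fun k => d (i + k))) (X i))) yij) ∧
      ∀ (κ : Type) [Finite κ] (v v' : κ → U), (∀ a, v a ∈ CW ∪ rg (N * n) W) →
        (∀ a, v' a ∈ CW ∪ rg (N * n) W) →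
        Sq L (A ∪ rg (N - i) (fun k => d (i + k)) ∪ range (X i) ∪
          rg ((N - j) * n) (fun k => W (j * n + k))) v v' →
        Sq L (A ∪ rg (N - i) (fun k => d (i + k)) ∪ range (X i) ∪
          rg ((N - j) * n) (fun k => W (j * n + k)) ∪ range yij) v v' := by
    intro i j
    by_cases hi : i < N
    · have h1 : Sq L A (Sum.elim (fl ((N - j) * n) Z) (Sum.elim (fl (N - i) d) x))
          (Sum.elim (fl ((N - j) * n) (fun k => W (j * n + k)))
            (Sum.elim (fl (N - i) (fun k => d (i + k))) (X i))) := by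
        refine m4 ((Fin (N - i) × δ) ⊕ γ) A ((N - j) * n) Z (fun k => W (j * n + k)) _ _ hA hI
          (hX i hi).1 ?_ ?_
        · refine m2 _ _ _ _ _ ?_ (le_refl _) (hZM ((N - j) * n))
          rw [Set.Sum.elim_range, rg_range]
          refine union_subset (subset_union_left.trans subset_union_left) (union_subset ?_ ?_)
          · exact (rg_mono (by omega) d).trans subset_union_right
          · exact subset_union_right.trans subset_union_left
        · refine mo_of hW' _ _ ?_
          rw [Set.Sum.elim_range, rg_range, ← union_assoc]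
          exact (hB1C i hi).trans subset_union_left
      obtain ⟨y0, hy0⟩ := sq_ext hC hA.countable h1 (s1 y')
      obtain ⟨yi, hyi, hyi'⟩ := hGEN L U hC (Fin 1) (A ∪ rg (N - i) (fun k => d (i + k)) ∪ range (X i) ∪
          rg ((N - j) * n) (fun k => W (j * n + k))) (CW ∪ rg (N * n) W) y0 (hB2 i j)
          (hCWc.union (rg_fin _ _).countable)
      refine ⟨yi, fun _ _ => ⟨?_, fun κ _ v v' hv hv' h => hyi' κ v v' hv hv' h⟩⟩
      have h2 := sq_mono (subset_union_left.trans (subset_union_left.trans subset_union_left)) (sq_add hyi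
        (Sum.elim (fl ((N - j) * n) (fun k => W (j * n + k)))
          (Sum.elim (fl (N - i) (fun k => d (i + k))) (X i))) (by
        rintro (k | (k | k))
        · exact Or.inr (by rw [← rg_range]; exact ⟨k, rfl⟩)
        · exact Or.inl (Or.inl (Or.inr (by rw [← rg_range]; exact ⟨k, rfl⟩)))
        · exact Or.inl (Or.inr ⟨k, rfl⟩)))
      exact sq_trans hy0 (sq_swap h2)
    · exact ⟨s1 y', fun h => absurd h hi⟩
  choose Y hY using hY
  -- (G1)
  have hPy : ∀ (y : Fin 1 → U) (B : Set U), A ⊆ B → Dp L (B ∪ range y) (fun v : δ → U => P (Sum.elim y v)) := by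
    intro y B hB
    have h1 := dp_sub (dp_mono (hB.trans (subset_union_left (t := range y))) hP) (Sum.swap : Fin 1 ⊕ δ → δ ⊕ Fin 1)
    refine dp_congr (dp_par h1 y (fun i => Or.inr ⟨i, rfl⟩)) fun v => iff_of_eq ?_
    congr 1
    funext i
    rcases i with i | i <;> rfl
  have G1 : ∀ i j k, i < N → j < N → k + 1 < i →
      (P (Sum.elim (Y i j) (d k)) ↔ P (Sum.elim (Y i j) (d (k + 1)))) := by
    intro i j k hi hj hk
    have h1 : Sq L (A ∪ rg (N - i) (fun k => d (i + k))) (d k) (d (k + 1)) := by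
      refine sq_mono (union_subset_union_right _ ?_) (hMGP L U hC δ t ht A hA hIt N d hd i N k (k + 1)
        (by omega) (le_refl N) (by omega) (by omega) (Or.inl ⟨by omega, by omega⟩))
      rintro u ⟨l, hl, a, rfl⟩
      exact ⟨i + l, by omega, by omega, a, rfl⟩
    have h2 := (hX i hi).2 (d k) (d (k + 1)) (fun a => ⟨k, by omega, a, rfl⟩)
      (fun a => ⟨k + 1, by omega, a, rfl⟩) h1
    have h3 := m6 δ _ ((N - j) * n) (fun k => W (j * n + k)) (d k) (d (k + 1))
      ((hB1 i).union (finite_range _)) (inv_up (subset_union_left.trans subset_union_left) hI) h2 (by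
        refine mo_of hW' _ _ (union_subset (union_subset ((hB1C i hi).trans subset_union_left) ?_) ?_)
        · rintro u ⟨a, rfl⟩
          exact Or.inl (Or.inl (Or.inr ⟨k, by omega, a, rfl⟩))
        · rintro u ⟨a, rfl⟩
          exact Or.inl (Or.inl (Or.inr ⟨k + 1, by omega, a, rfl⟩)))
    have h4 := (hY i j hi hj).2 δ (d k) (d (k + 1)) (fun a => Or.inl (Or.inl (Or.inr ⟨k, by omega, a, rfl⟩)))
      (fun a => Or.inl (Or.inl (Or.inr ⟨k + 1, by omega, a, rfl⟩))) h3
    exact sq_dp h4 (hPy (Y i j) _ (subset_union_left.trans (subset_union_left.trans subset_union_left)))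
  -- the blocks
  have hblk : ∀ l m, l < m → range (fl n (fun k => W (l * n + k))) ⊆ rg (m * n) W := by
    intro l m hl
    rw [rg_range]
    refine (rg_shift (l * n) n W).trans (rg_mono ?_ W)
    calc l * n + n = (l + 1) * n := by ring
      _ ≤ m * n := Nat.mul_le_mul_right n hl
  -- (G2)
  have G2 : ∀ i j l, i < N → j < N → l + 1 < j →
      F (X i) (Sum.elim (fl n (fun k => W (l * n + k))) (Y i j))
        (Sum.elim (fl n (fun k => W ((l + 1) * n + k))) (Y i j)) := by
    intro i j l hi hj hl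
    have hfin : (A ∪ rg (N - i) (fun k => d (i + k)) ∪ range (X i)).Finite := (hB1 i).union (finite_range _)
    have hinv : Inv L (A ∪ rg (N - i) (fun k => d (i + k)) ∪ range (X i)) r :=
      inv_up (subset_union_left.trans subset_union_left) hI
    have h1 := m9 _ n _ _ hfin hinv (mo_of hW' (l * n) n ((hB1C i hi).trans subset_union_left))
      (mo_of hW' ((l + 1) * n) n ((hB1C i hi).trans subset_union_left))
    have h3 := m6 (Fin n × Fin 1) _ ((N - j) * n) (fun k => W (j * n + k)) _ _ hfin hinv h1 (by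
        refine mo_of hW' _ _ (union_subset (union_subset ((hB1C i hi).trans subset_union_left) ?_) ?_)
        · exact (hblk l j (by omega)).trans subset_union_right
        · exact (hblk (l + 1) j (by omega)).trans subset_union_right)
    have h4 := (hY i j hi hj).2 (Fin n × Fin 1) _ _
      (fun a => Or.inr (hblk l N (by omega) ⟨a, rfl⟩)) (fun a => Or.inr (hblk (l + 1) N (by omega) ⟨a, rfl⟩)) h3
    have h5 : FE L (A ∪ rg (N - i) (fun k => d (i + k)) ∪ range (X i) ∪
          rg ((N - j) * n) (fun k => W (j * n + k)) ∪ range (Y i j)) (F (X i)) := by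
      refine fe_mono (union_subset ?_ ?_) (hFE (X i))
      · exact subset_union_left.trans (subset_union_left.trans (subset_union_left.trans subset_union_left))
      · exact subset_union_right.trans (subset_union_left.trans subset_union_left)
    exact h4 _ (fe_add h5 (fun a => Or.inr ⟨a, rfl⟩))
  -- transport
  have T1 : ∀ i j k, i < N → j < N → i + k < N →
      (P (Sum.elim (Y i j) (d (i + k))) ↔ P (Sum.elim (s1 y') (d k))) := by
    intro i j k hi hj hk
    refine (sq_dp (sq_cov (hY i j hi hj).1 ?_) hP).symm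
    rintro (a | a)
    · exact ⟨Sum.inr a, rfl, rfl⟩
    · exact ⟨Sum.inl (Sum.inr (Sum.inl (⟨k, by omega⟩, a))), rfl, rfl⟩
  have hlt : ∀ j m (k : Fin n), j + m < N → m * n + k < (N - j) * n := by
    intro j m k h
    calc m * n + k < m * n + n := by have := k.2; omega
      _ = (m + 1) * n := by ring
      _ ≤ (N - j) * n := Nat.mul_le_mul_right n (by omega)
  have T2 : ∀ i j m m', i < N → j < N → j + m < N → j + m' < N →
      (F (X i) (Sum.elim (fl n (fun k => W ((j + m) * n + k))) (Y i j))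
        (Sum.elim (fl n (fun k => W ((j + m') * n + k))) (Y i j)) ↔
      F x (Sum.elim (fl n (fun k => Z (m * n + k))) (s1 y'))
        (Sum.elim (fl n (fun k => Z (m' * n + k))) (s1 y'))) := by
    intro i j m m' hi hj hm hm'
    have key := (sq_dp (sq_cov (x := Sum.elim (Sum.elim
        (Sum.elim (fl n (fun k => Z (m * n + k))) (s1 y'))
        (Sum.elim (fl n (fun k => Z (m' * n + k))) (s1 y'))) x)
      (y := Sum.elim (Sum.elim
        (Sum.elim (fl n (fun k => W ((j + m) * n + k))) (Y i j))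
        (Sum.elim (fl n (fun k => W ((j + m') * n + k))) (Y i j))) (X i)) (hY i j hi hj).1 ?_) hFd).symm
    · exact key
    · rintro ((a | a) | a)
      · rcases a with a | a
        · refine ⟨Sum.inl (Sum.inl (⟨m * n + a.1, hlt j m a.1 hm⟩, a.2)), rfl, ?_⟩
          show W (j * n + (m * n + a.1)) a.2 = W ((j + m) * n + a.1) a.2
          congr 1
          ring_nf
        · exact ⟨Sum.inr a, rfl, rfl⟩
      · rcases a with a | a
        · refine ⟨Sum.inl (Sum.inl (⟨m' * n + a.1, hlt j m' a.1 hm'⟩, a.2)), rfl, ?_⟩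
          show W (j * n + (m' * n + a.1)) a.2 = W ((j + m') * n + a.1) a.2
          congr 1
          ring_nf
        · exact ⟨Sum.inr a, rfl, rfl⟩
      · exact ⟨Sum.inl (Sum.inr (Sum.inr a)), rfl, rfl⟩
  -- the classes of the blocks of `Z`
  have hy's : Sq L (A ∪ range x) (s1 y') (s1 y) := sq_symm (sq_right hy')
  have Z1 : ∀ m, 1 ≤ m → F x (Sum.elim (fl n (fun k => Z (m * n + k))) (s1 y')) (Sum.elim (fl n z') (s1 y)) := by
    intro m hm
    have h1 : Mo L (A ∪ range x ∪ range (s1 y')) r n (fun k => Z (m * n + k)) := by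
      intro j hj
      refine ets_mono ?_ (hZ (m * n + j) (by nlinarith))
      refine union_subset ?_ ((rg_shift (m * n) j Z).trans subset_union_right)
      rw [range_s1]
      refine union_subset ?_ ?_
      · exact subset_union_left.trans (subset_union_left.trans subset_union_left)
      · exact subset_union_right.trans subset_union_left
    have h2 : Mo L (A ∪ range x ∪ range (s1 y)) r n z' := by
      rw [range_s1]
      exact hz'
    have h3 := m4 (Fin 1) (A ∪ range x) n (fun k => Z (m * n + k)) z' (s1 y') (s1 y) hAx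
      (inv_up subset_union_left hI) hy's h1 h2
    exact h3 _ (hFE x)
  have Z0 : F x (Sum.elim (fl n z) (s1 y)) (Sum.elim (fl n (fun k => Z (0 * n + k))) (s1 y')) := by
    have e : fl n (fun k => Z (0 * n + k)) = fl n z₀ := by
      funext a
      show Z (0 * n + a.1) a.2 = z₀ a.1 a.2
      rw [zero_mul, zero_add, hZ0 a.1 a.1.2]
    rw [e]
    exact hy' _ (hFE x)
  have hEn' : ¬ F x (Sum.elim (fl n z) (s1 y)) (Sum.elim (fl n z') (s1 y)) := fun h => hEn ((hF _ _).1 h)
  -- the array
  refine hK ⟨fun k => Sum.elim (X (2 * k)) (Sum.elim (d (2 * k)) (d (2 * k + 1))),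
    fun l => Sum.elim (fl n (fun k => W ((2 * l : ℕ) * n + k))) (fl n (fun k => W ((2 * l + 1 : ℕ) * n + k))),
    fun a b => Y (2 * a) (2 * b) 0, fun k l a b => ?_⟩
  have hs1 : s1 (Y (2 * a) (2 * b) 0) = Y (2 * a) (2 * b) := by
    funext i
    rw [Subsingleton.elim i 0]
    rfl
  show (¬ (P (Sum.elim (s1 (Y (2 * a) (2 * b) 0)) (d (2 * k))) ↔
      P (Sum.elim (s1 (Y (2 * a) (2 * b) 0)) (d (2 * k + 1)))) ∧
    ¬ F (X (2 * k)) (Sum.elim (fl n (fun k => W ((2 * l : ℕ) * n + k))) (s1 (Y (2 * a) (2 * b) 0)))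
        (Sum.elim (fl n (fun k => W ((2 * l + 1 : ℕ) * n + k))) (s1 (Y (2 * a) (2 * b) 0)))) ↔ k = a ∧ l = b
  rw [hs1]
  have hk := k.2
  have hl := l.2
  have ha := a.2
  have hb := b.2
  have hne : ∀ m, 0 < m → m < N → (P (Sum.elim (s1 y') (d m)) ↔ ¬ P (Sum.elim (s1 y') (d 0))) := by
    intro m h1 h2
    have h3 := hPd m h1 h2
    tauto
  rcases lt_trichotomy (k : ℕ) a with h | h | h
  · -- `k < a`
    have h1 := G1 (2 * a) (2 * b) (2 * k) (by omega) (by omega) (by omega)
    constructor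
    · rintro ⟨h2, -⟩
      exact absurd h1 h2
    · rintro ⟨h2, -⟩
      exact absurd (congrArg Fin.val h2) (by omega)
  · have hka : k = a := Fin.ext h
    subst hka
    have h1 := T1 (2 * k) (2 * b) 0 (by omega) (by omega) (by omega)
    have h2 := T1 (2 * k) (2 * b) 1 (by omega) (by omega) (by omega)
    rw [add_zero] at h1
    have h3 := hne 1 (by omega) (by omega)
    have h4 : ¬ (P (Sum.elim (Y (2 * k) (2 * b)) (d (2 * k))) ↔ P (Sum.elim (Y (2 * k) (2 * b)) (d (2 * k + 1)))) := by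
      rw [h1, h2, h3]
      tauto
    have h5 : (¬ F (X (2 * k)) (Sum.elim (fl n (fun k => W ((2 * l : ℕ) * n + k))) (Y (2 * k) (2 * b)))
        (Sum.elim (fl n (fun k => W ((2 * l + 1 : ℕ) * n + k))) (Y (2 * k) (2 * b)))) ↔ l = b := by
      rcases lt_trichotomy (l : ℕ) b with h | h | h
      · have h6 := G2 (2 * k) (2 * b) (2 * l) (by omega) (by omega) (by omega)
        constructor
        · intro h7
          exact absurd h6 h7
        · intro h7
          exact absurd (congrArg Fin.val h7) (by omega)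
      · have hlb : l = b := Fin.ext h
        subst hlb
        have h6 := T2 (2 * k) (2 * l) 0 1 (by omega) (by omega) (by omega) (by omega)
        rw [add_zero] at h6
        refine ⟨fun _ => rfl, fun _ h7 => hEn' ?_⟩
        exact (hFE x).eqv.trans Z0 ((hFE x).eqv.trans (h6.1 h7) (Z1 1 (le_refl 1)))
      · obtain ⟨m, hm⟩ : ∃ m, (l : ℕ) = b + m := ⟨l - b, by omega⟩
        have h6 := T2 (2 * k) (2 * b) (2 * m) (2 * m + 1) (by omega) (by omega) (by omega) (by omega)
        have e1 : 2 * (b : ℕ) + 2 * m = 2 * l := by omega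
        have e2 : 2 * (b : ℕ) + (2 * m + 1) = 2 * l + 1 := by omega
        rw [e1, e2] at h6
        constructor
        · intro h7
          exact absurd (h6.2 ((hFE x).eqv.trans (Z1 _ (by omega)) ((hFE x).eqv.symm (Z1 _ (by omega))))) h7
        · intro h7
          exact absurd (congrArg Fin.val h7) (by omega)
    constructor
    · rintro ⟨-, h7⟩
      exact ⟨rfl, h5.1 h7⟩
    · rintro ⟨-, h7⟩
      exact ⟨h4, h5.2 h7⟩
  · -- `a < k`
    obtain ⟨m, hm⟩ : ∃ m, (k : ℕ) = a + m := ⟨k - a, by omega⟩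
    have h1 := T1 (2 * a) (2 * b) (2 * m) (by omega) (by omega) (by omega)
    have h2 := T1 (2 * a) (2 * b) (2 * m + 1) (by omega) (by omega) (by omega)
    have e1 : 2 * (a : ℕ) + 2 * m = 2 * k := by omega
    have e2 : 2 * (a : ℕ) + (2 * m + 1) = 2 * k + 1 := by omega
    rw [e1] at h1
    rw [e2] at h2
    have h3 := hne (2 * m) (by omega) (by omega)
    have h4 := hne (2 * m + 1) (by omega) (by omega)
    constructor
    · rintro ⟨h5, -⟩
      exact absurd (h1.trans (h3.trans (h4.symm.trans h2.symm))) h5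
    · rintro ⟨h5, -⟩
      exact absurd (congrArg Fin.val h5) (by omega)

end Pool.Agent.TPX
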