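import Pool.Agent.TPX.ORC

/-!
# TPX module ENC: calculus of ends
-/

set_option autoImplicit false
set_option linter.unusedVariables false

namespace Pool.Agent.TPX

open FirstOrder.Language Set
open scoped FirstOrder
open Pool.Agent.MNO

variable {L : FirstOrder.Language.{0, 0}} {U : Type} [L.Structure U]

theorem s1_eq (v : Fin 1 → U) : s1 (v 0) = v := by
  funext i
  rw [Subsingleton.elim i 0]
  rfl

theorem range_s1 (x : U) : range (s1 x) = {x} := by
  ext y
  constructor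
  · rintro ⟨i, rfl⟩
    rfl
  · rintro rfl
    exact ⟨0, rfl⟩

section enc

variable {r : ((Fin 1 → U) → Prop) → Prop} {A : Set U}

/-- a realisation is not in the set of parameters -/
theorem nal_not (hr : GT L r) (hN : Nal r) {B : Set U} {w : U} (hw : Ets L B (s1 w) r) : w ∉ B := by
  intro hB
  have h1 := hw _ (fe_of_dp (dp_eqc (L := L) (0 : Fin 1) hB))
  exact hN w (gt_mono hr h1 (dp_eqc (0 : Fin 1) (mem_univ w)) fun x hx => hx.2 rfl)

theorem nal_or (hr : GT L r) (hN : Nal r) {B : Set U} {w : U} (hw : Ets L B (s1 w) r) :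
    ¬ Or L B r (s1 w) := by
  intro h
  have h1 : Mo L B r 1 (fun _ => s1 w) := by
    intro j hj
    refine ets_mono ?_ hw
    refine union_subset Subset.rfl ?_
    rintro x ⟨i, hi, -⟩
    omega
  have h2 := ets_mono subset_union_left (h 1 _ h1 0 Nat.one_pos)
  exact nal_not hr hN h2 (Or.inr ⟨0, rfl⟩)

theorem en_pc (hBXX : St_BXX) (hC : Cx L U) (hr : GT L r) (hN : Nal r) (hI : Inv L A r)
    {B : Set U} {w : U} (hAB : A ⊆ B) (hB : B.Finite) (hw : Ets L B (s1 w) r) :
    Pc L B w = En L B r := by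
  have hIB : Inv L B r := inv_up hAB hI
  apply Subset.antisymm
  · exact pc_sub (hBXX L U hC (Fin 1) r hr B hB hIB) (nal_or hr hN hw)
  · intro y hy
    by_contra hyw
    refine hy (or_of hC hr hB hIB fun n z z' hz hz' => ?_)
    have h1 := mo_uni0 hC hr hB hIB hz (mo_mono subset_union_left le_rfl hz')
    have h2 : ∀ z : ℕ → Fin 1 → U, Mo L B r n z → ∀ i, fl n z i ∈ Pc L B w := by
      rintro z hz ⟨i, a⟩
      have h3 : Sq L B (s1 w) (z i) := ets_sq hr hw (ets_mono subset_union_left (hz i i.2))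
      have h4 := sq_s1 h3 a
      exact pc_sq hC h4
    exact bf_prd (pc_bf hC w) (w := s1 y) (h2 z hz) (fun j => hyw) h1

theorem en_real (hBXX : St_BXX) (hC : Cx L U) (hr : GT L r) (hN : Nal r) (hI : Inv L A r)
    {B : Set U} (hAB : A ⊆ B) (hB : B.Finite) : ∃ w, Ets L B (s1 w) r ∧ w ∈ En L B r := by
  obtain ⟨w, hw⟩ := gt_real hC hr (B := B) hB.countable
  refine ⟨w 0, ?_, ?_⟩
  · rw [s1_eq]
    exact hw
  · refine nal_or hr hN ?_
    rw [s1_eq]
    exact hw

theorem en_eq (hBXX : St_BXX) (hC : Cx L U) (hr : GT L r) (hN : Nal r) (hI : Inv L A r)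
    {B : Set U} {y : U} (hAB : A ⊆ B) (hB : B.Finite) (hy : y ∈ En L B r) :
    Pc L B y = En L B r := by
  obtain ⟨w, hw, -⟩ := en_real hBXX hC hr hN hI hAB hB
  have h1 := en_pc hBXX hC hr hN hI hAB hB hw
  rw [← h1] at hy ⊢
  exact pc_eq hC hB.countable hy

theorem en_mono (hBXX : St_BXX) (hC : Cx L U) (hr : GT L r) (hN : Nal r) (hI : Inv L A r)
    {B C : Set U} (hAB : A ⊆ B) (hBC : B ⊆ C) (hCf : C.Finite) : En L C r ⊆ En L B r := by
  obtain ⟨w, hw, -⟩ := en_real hBXX hC hr hN hI (hAB.trans hBC) hCf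
  rw [← en_pc hBXX hC hr hN hI (hAB.trans hBC) hCf hw,
    ← en_pc hBXX hC hr hN hI hAB (hCf.subset hBC) (ets_mono hBC hw)]
  exact pc_mono hC hCf hBC w

theorem en_par (hBXX : St_BXX) (hC : Cx L U) (hr : GT L r) (hN : Nal r) (hI : Inv L A r)
    {B : Set U} {b : U} (hAB : A ⊆ B) (hB : B.Finite) (hb : b ∈ B) : b ∉ En L B r := by
  obtain ⟨w, hw, -⟩ := en_real hBXX hC hr hN hI hAB hB
  rw [← en_pc hBXX hC hr hN hI hAB hB hw]
  exact par_notMem hC hB.countable hb (nal_not hr hN hw)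

theorem en_add (hBXX : St_BXX) (hC : Cx L U) (hr : GT L r) (hN : Nal r) (hI : Inv L A r)
    {B : Set U} {c : U} (hAB : A ⊆ B) (hB : B.Finite) (hc : c ∉ En L B r) :
    En L (insert c B) r = En L B r := by
  obtain ⟨w, hw, -⟩ := en_real hBXX hC hr hN hI (hAB.trans (subset_insert c B)) (hB.insert c)
  have h1 := ets_mono (subset_insert c B) hw
  have h2 := en_pc hBXX hC hr hN hI hAB hB h1
  rw [← en_pc hBXX hC hr hN hI (hAB.trans (subset_insert c B)) (hB.insert c) hw, ← h2]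
  rw [← h2] at hc
  exact nnl1 hC hB (nal_not hr hN h1) hc

theorem en_mv (hC : Cx L U) (hr : GT L r) (hA : A.Finite) (hI : Inv L A r) {γ : Type} [Finite γ]
    {c c' : γ → U} {y y' : U} (h : Sq L A (Sum.elim (s1 y) c) (Sum.elim (s1 y') c')) :
    y ∈ En L (A ∪ range c) r ↔ y' ∈ En L (A ∪ range c') r :=
  ⟨fun h1 h2 => h1 (or_mv hC hr hA hI (sq_symm h) h2), fun h1 h2 => h1 (or_mv hC hr hA hI h h2)⟩

end enc

/-- [ENC] calculus of ends -/
theorem thm_ENC (hBXX : St_BXX) : St_ENC := by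
  intro L U _ hC r hr hN A hA hI
  exact ⟨fun B w hAB hB hw => en_pc hBXX hC hr hN hI hAB hB hw,
    fun B C hAB hBC hCf => en_mono hBXX hC hr hN hI hAB hBC hCf,
    fun γ _ c c' y y' h => en_mv hC hr hA hI h,
    fun B c hAB hB hc => en_add hBXX hC hr hN hI hAB hB hc,
    fun B b hAB hB hb => en_par hBXX hC hr hN hI hAB hB hb,
    fun B hAB hB => en_real hBXX hC hr hN hI hAB hB,
    fun B y hAB hB hy => en_eq hBXX hC hr hN hI hAB hB hy⟩

end Pool.Agent.TPX
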