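import Pool.Agent.TPX.StK
import Pool.Agent.TPX.Fre1

/-!
# TPX module GEN: generic copies
-/

set_option autoImplicit false
set_option linter.unusedVariables false

namespace Pool.Agent.TPX

open FirstOrder.Language Set
open scoped FirstOrder
open Pool.Agent.MNO

/-- [GEN] generic copies -/
theorem thm_GEN : St_GEN := by
  intro L U _ hC β _ B C u hB hCc
  obtain ⟨r, hr, hI, hE⟩ := cx_inv hC hB u
  obtain ⟨u', hu'⟩ := gt_real hC hr (B := B ∪ C) (hB.countable.union hCc)
  refine ⟨u', ets_sq hr hE (fun E hE' => hu' E (fe_mono subset_union_left hE')),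
    fun γ _ v v' hv hv' h => li hC hB hr hI h ?_⟩
  refine rl_of_real (B := B ∪ C) subset_union_left ?_ hu'
  rintro (i | i)
  · exact Or.inr (hv i)
  · exact Or.inr (hv' i)

end Pool.Agent.TPX
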