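import Pool.Agent.TPX.StK
import Pool.Agent.TPX.Fre1

/-!
# TPX module NPP: no independence property, with parameters
-/

set_option autoImplicit false
set_option linter.unusedVariables false

namespace Pool.Agent.TPX

open FirstOrder.Language Set
open scoped FirstOrder
open Pool.Agent.MNO

/-- [NPP] no independence property, with parameters -/
theorem thm_NPP : St_NPP := by
  intro L U _ hC α β _ _ A P hA hP
  exact nipx hC hP

end Pool.Agent.TPX
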