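import Pool.Agent.TPX.CHN

/-!
# TPX module CCC: a nested pair over `A` makes all ends over `A c` linear (helper31)
-/

set_option autoImplicit false
set_option linter.unusedVariables false

namespace Pool.Agent.TPX

open FirstOrder.Language Set
open scoped FirstOrder
open Pool.Agent.MNO

/-- [CCC] -/
theorem thm_CCC (hBXX : St_BXX) (hFAC : St_FAC) (hNES : St_NES) (hCHN : St_CHN) : St_CCC := by
  intro L U _ hC r hr hN A hA hI h c hc
  unfold N0 at h
  push Not at h
  obtain ⟨c₀, hc₀, z, hz, hz1, hz2⟩ := h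
  obtain ⟨p, hp, hpN, hIp, hEp, hNp⟩ := hNES L U hC r hr hN A hA hI c₀ z hc₀ hz1 hz2
  have hAc := hA.insert c
  have hsub := subset_insert c A
  have hm : ∀ z : U, En L (insert z (insert c A)) r ⊆ En L (insert z A) r := fun z =>
    en_mono hBXX hC hr hN hI (subset_insert z A) (insert_subset_insert hsub) (hAc.insert z)
  have hm0 : ∀ z : U, En L (insert z A) r ⊆ En L A r := fun z =>
    en_mono hBXX hC hr hN hI Subset.rfl (subset_insert z A) (hA.insert z)
  refine hCHN L U hC r hr hN (insert c A) hAc (inv_up hsub hI) p hp (inv_up hsub hIp)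
    (fun v hv z hz h1 => ?_) fun z₁ z₂ hz₁ hz₂ h1 => ?_
  · exact hNp v (hm0 c hv) z (ets_mono (insert_subset_insert hsub) hz) (hm z h1)
  · have h3 : c ≠ z₁ := by
      rintro rfl
      exact en_par hBXX hC hr hN hI (hsub.trans (subset_insert z₂ _)) (hAc.insert z₂)
        (Or.inr (Or.inl rfl)) h1.1
    have h4 : c ≠ z₂ := by
      rintro rfl
      exact en_par hBXX hC hr hN hI (hsub.trans (subset_insert z₁ _)) (hAc.insert z₁)
        (Or.inr (Or.inl rfl)) h1.2
    rcases hFAC L U hC r hr hN A hA hI z₁ z₂ c (hm0 z₂ (hm z₂ h1.1)) (hm0 z₁ (hm z₁ h1.2)) hc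
      (hm z₁ h1.2) (hm z₂ h1.1) h3 h4 with h5 | h5
    · exact hNp c hc z₁ hz₁ h5
    · exact hNp c hc z₂ hz₂ h5

end Pool.Agent.TPX
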