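import Pool.Agent.TPX.CHN

/-!
# TPX module CMP: no facing pairs in one strong type: the end is linear (helper31)
-/

set_option autoImplicit false
set_option linter.unusedVariables false

namespace Pool.Agent.TPX

open FirstOrder.Language Set
open scoped FirstOrder
open Pool.Agent.MNO

/-- [CMP] -/
theorem thm_CMP (hREA : St_REA) (hNES : St_NES) (hCHN : St_CHN) : St_CMP := by
  intro L U _ hC r hr hN A hA hI o ho h
  obtain ⟨o', hoo, ho'⟩ := hREA L U hC r hr hN A hA hI A (insert o A) o Subset.rfl (subset_insert o A)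
    (hA.insert o) ho
  have hno : o ∉ En L (insert o' A) r := fun h1 => h o o' (sq_refl A _) hoo ⟨h1, ho'⟩
  obtain ⟨p, hp, hpN, hIp, hEp, hNp⟩ := hNES L U hC r hr hN A hA hI o o' ho ho' hno
  refine hCHN L U hC r hr hN A hA hI p hp hIp hNp fun z₁ z₂ hz₁ hz₂ => ?_
  have hEo : Ets L A (s1 o') p := ets_mono (subset_insert o A) hEp
  exact h z₁ z₂ (sq_trans hoo (ets_sq hp hEo hz₁)) (sq_trans hoo (ets_sq hp hEo hz₂))

end Pool.Agent.TPX
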