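import Pool.Agent.TPX.StK
import Pool.Agent.TPX.Fre1
import Pool.Agent.TPX.CDP
import Pool.Agent.TPX.FAM
import Pool.Agent.TPX.GEN
import Pool.Agent.TPX.RLE

/-!
# TPX: TRS (helper97)
-/

set_option autoImplicit false
set_option linter.unusedVariables false

namespace Pool.Agent.TPX

open FirstOrder.Language Set
open scoped FirstOrder
open Pool.Agent.MNO

variable {L : FirstOrder.Language.{0, 0}} {U : Type} [L.Structure U]

/-! ### small lemmas -/

/-- an invariant type is invariant over more parameters -/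
theorem trs_inv {α : Type} {r : ((α → U) → Prop) → Prop} {A B : Set U} (hAB : A ⊆ B)
    (hI : Inv L A r) : Inv L B r := by
  intro n P hP c c' h h1
  obtain ⟨B₀, hB₀, hB₀B, hP₀⟩ := dp_fin hP
  obtain ⟨m, b, hb⟩ := exists_enum hB₀
  rw [← hb] at hP₀
  obtain ⟨Q, hQ, hPQ⟩ := dp_fam0 hP₀
  have hQ' : Dp L A (fun v : α ⊕ (Fin n ⊕ Fin m) → U =>
      Q (fun i => v ((Sum.elim (Sum.elim Sum.inl (fun j => Sum.inr (Sum.inl j)))
        (fun j => Sum.inr (Sum.inr j)) : (α ⊕ Fin n) ⊕ Fin m → α ⊕ (Fin n ⊕ Fin m)) i))) :=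
    dp_mono (empty_subset _) (dp_sub hQ _)
  have e : ∀ (x : α → U) (d : Fin n → U), (fun i => (Sum.elim x (Sum.elim d b) :
      α ⊕ (Fin n ⊕ Fin m) → U) ((Sum.elim (Sum.elim Sum.inl (fun j => Sum.inr (Sum.inl j)))
        (fun j => Sum.inr (Sum.inr j)) : (α ⊕ Fin n) ⊕ Fin m → α ⊕ (Fin n ⊕ Fin m)) i)) =
      Sum.elim (Sum.elim x d) b := by
    intro x d
    funext i
    rcases i with (i | i) | i <;> rfl
  have e2 : ∀ d : Fin n → U, (fun x : α → U => P (Sum.elim x d)) = (fun x : α → U =>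
      Q (fun i => (Sum.elim x (Sum.elim d b) :
      α ⊕ (Fin n ⊕ Fin m) → U) ((Sum.elim (Sum.elim Sum.inl (fun j => Sum.inr (Sum.inl j)))
        (fun j => Sum.inr (Sum.inr j)) : (α ⊕ Fin n) ⊕ Fin m → α ⊕ (Fin n ⊕ Fin m)) i))) := by
    intro d
    funext x
    rw [e x d]
    exact propext (hPQ _)
  rw [e2] at h1 ⊢
  refine inv_any hI hQ' (sq_mono hAB (sq_add h b ?_)) h1
  intro i
  exact hB₀B (by rw [← hb]; exact ⟨i, rfl⟩)

theorem trs_rg_fin {α : Type} [Finite α] (n : ℕ) (z : ℕ → α → U) : (rg n z).Finite := by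
  have h : rg n z = ⋃ i ∈ Finset.range n, range (z i) := by
    ext x
    simp only [rg, mem_ofPred_eq, mem_iUnion, Finset.mem_range, mem_range]
    constructor
    · rintro ⟨i, hi, a, ha⟩
      exact ⟨i, hi, a, ha.symm⟩
    · rintro ⟨i, hi, a, ha⟩
      exact ⟨i, hi, a, ha.symm⟩
  rw [h]
  exact (Finset.range n).finite_toSet.biUnion (fun i _ => finite_range _)

theorem trs_rg_zero {α : Type} (z : ℕ → α → U) : rg 0 z = ∅ := by
  ext x
  simp [rg]

theorem trs_ets_mono {α : Type} {r : ((α → U) → Prop) → Prop} {a : α → U} {B B' : Set U}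
    (hB : B ⊆ B') (ha : Ets L B' a r) : Ets L B a r := fun E hE => ha E (fe_mono hB hE)

theorem trs_or {α γ : Type} [Finite α] [Finite γ] (hORC : St_ORC) (hC : Cx L U)
    {s : ((α → U) → Prop) → Prop} (hs : GT L s) {A : Set U} (hA : A.Finite) (hI : Inv L A s)
    {c c' : γ → U} (h : Sq L A c c') (ho : Or L A s c) : Or L A s c' := by
  have h1 := (hORC L U hC α s hs A hA hI).1 γ (Fin 0) c c' (fun i => i.elim0) (fun i => i.elim0)
    (sq_cov h (fun i => by
      rcases i with i | i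
      · exact ⟨i, rfl, rfl⟩
      · exact i.elim0))
  rw [range_eq_empty, union_empty] at h1
  exact h1 ho

/-- a recursion with growing countable sets -/
theorem trs_rec {X : Type} (D₀ : Set U) (hD₀ : D₀.Countable) (Q : Set U → X → Prop)
    (e : X → Set U) (he : ∀ x, (e x).Countable)
    (h : ∀ D : Set U, D.Countable → D₀ ⊆ D → ∃ x, Q D x) :
    ∃ (D : ℕ → Set U) (x : ℕ → X), (∀ i, D₀ ⊆ D i) ∧ (∀ i, Q (D i) (x i)) ∧
      (∀ i k, i ≤ k → D i ⊆ D k) ∧ (∀ i k, i < k → e (x i) ⊆ D k) := by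
  have h' : ∀ D : {D : Set U // D.Countable ∧ D₀ ⊆ D}, ∃ x, Q D.1 x := fun D => h D.1 D.2.1 D.2.2
  choose f hf using h'
  let G : {D : Set U // D.Countable ∧ D₀ ⊆ D} → {D : Set U // D.Countable ∧ D₀ ⊆ D} :=
    fun D => ⟨D.1 ∪ e (f D), D.2.1.union (he _), D.2.2.trans subset_union_left⟩
  let D : ℕ → {D : Set U // D.Countable ∧ D₀ ⊆ D} := fun n => G^[n] ⟨D₀, hD₀, Subset.rfl⟩
  have hD : ∀ n, (D (n + 1)).1 = (D n).1 ∪ e (f (D n)) := by
    intro n
    have : D (n + 1) = G (D n) := Function.iterate_succ_apply' G n _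
    rw [this]
  have hmono : ∀ i k, i ≤ k → (D i).1 ⊆ (D k).1 := by
    intro i k hik
    induction k, hik using Nat.le_induction with
    | base => exact Subset.rfl
    | succ n _ ih => exact ih.trans (by rw [hD]; exact subset_union_left)
  refine ⟨fun n => (D n).1, fun n => f (D n), fun i => (D i).2.2, fun i => hf (D i), hmono, ?_⟩
  intro i k hik
  exact (subset_union_right (s := (D i).1)).trans ((hD i).symm.subset.trans (hmono _ _ hik))

/-! ### the array -/

theorem trs_core (hMOC : St_MOC) (hMGP : St_MGP) (hORC : St_ORC) (hC : Cx L U)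
    {α γ : Type} [Finite α] [Finite γ] {s : ((α → U) → Prop) → Prop} (hs : GT L s) {A : Set U}
    (hA : A.Finite) (hI : Inv L A s) (a : γ → U) (c : U) (ha : Or L A s a) (hc : Or L A s (s1 c))
    (u₀ : α → U) (hu₀ : Ets L A u₀ s) (hn : ¬ Ets L (A ∪ range (Sum.elim a (s1 c))) u₀ s) :
    False := by
  obtain ⟨m1, m2, m3, m4, m5, m6, m7, m8, m9⟩ := hMOC L U hC α s hs
  -- the family
  have h0 : ∃ E, FE L (A ∪ range (Sum.elim a (s1 c))) E ∧ ¬ s (fun x => E x u₀) := by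
    by_contra hcon
    push Not at hcon
    exact hn (fun E hE => hcon E hE)
  obtain ⟨E, hE, hEs⟩ := h0
  obtain ⟨F, hFd, hFf, hFE⟩ := thm_FAM L U hC α (γ ⊕ Fin 1) A (Sum.elim a (s1 c)) E hE
  have hFtr : ∀ {x x' : α → U} {y : γ ⊕ Fin 1 → U} {X X' : α → U} {Y : γ ⊕ Fin 1 → U},
      Sq L A (Sum.elim (Sum.elim x x') y) (Sum.elim (Sum.elim X X') Y) → (F y x x' ↔ F Y X X') :=
    fun h => sq_dp h hFd
  -- the broken sequence
  obtain ⟨w, hw0, hw1⟩ := m1 (A ∪ range (Sum.elim a (s1 c))) 1 (fun _ => u₀)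
    (hA.countable.union (countable_range _))
  have hw00 : w 0 = u₀ := hw0 0 one_pos
  have hwM : ∀ n, Mo L A s n w := by
    intro n j hj
    rcases Nat.eq_zero_or_pos j with rfl | hj0
    · rw [trs_rg_zero, union_empty, hw00]
      exact hu₀
    · exact trs_ets_mono (union_subset_union_left _ subset_union_left) (hw1 j hj0)
  have hb0 : ¬ F (Sum.elim a (s1 c)) (w 0) (w 1) := by
    intro h
    rw [hFE, hw00] at h
    refine hEs (gt_mono hs (trs_ets_mono subset_union_left (hw1 1 le_rfl) E hE)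
      (dp_mono (subset_univ _) (fe_cls hE u₀)) (fun x hx => hE.eqv.trans hx (hE.eqv.symm h)))
  have hb1 : ∀ l, 1 ≤ l → F (Sum.elim a (s1 c)) (w l) (w (l + 1)) := by
    intro l hl
    rw [hFE]
    exact ets_sq hs (trs_ets_mono subset_union_left (hw1 l hl))
      (trs_ets_mono subset_union_left (hw1 (l + 1) (by omega))) E hE
  -- the Morley sequence
  obtain ⟨u, -, hu1⟩ := m1 A 0 (fun _ => u₀) hA.countable
  have huM : ∀ n, Mo L A s n u := fun n j _ => hu1 j (Nat.zero_le j)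
  have huS : ∀ n j, Mo L A s n (fun t => u (j + t)) := fun n j =>
    m5 A n (j + n) u (fun t => j + t) (fun i i' h _ => by omega) (fun i hi => by omega) (huM _)
  -- the type of the rows
  obtain ⟨ρ, hρ, hρI, hρE⟩ := cx_inv hC hA a
  -- no exact arrays
  let P : (γ ⊕ γ → U) → (α ⊕ α → U) → U → Prop := fun X V y =>
    ¬ F (Sum.elim (fun i => X (Sum.inl i)) (s1 y)) (fun i => V (Sum.inl i)) (fun i => V (Sum.inr i)) ∧
    F (Sum.elim (fun i => X (Sum.inr i)) (s1 y)) (fun i => V (Sum.inl i)) (fun i => V (Sum.inr i))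
  have hPd : Dp L A (fun v : ((γ ⊕ γ) ⊕ (α ⊕ α)) ⊕ Unit → U =>
      P (fun i => v (Sum.inl (Sum.inl i))) (fun i => v (Sum.inl (Sum.inr i))) (v (Sum.inr ()))) := by
    have k1 := dp_sub hFd (Sum.elim (fun w => Sum.inl (Sum.inr w))
      (Sum.elim (fun g => Sum.inl (Sum.inl (Sum.inl g))) (fun _ => Sum.inr ())) :
      (α ⊕ α) ⊕ (γ ⊕ Fin 1) → ((γ ⊕ γ) ⊕ (α ⊕ α)) ⊕ Unit)
    have k2 := dp_sub hFd (Sum.elim (fun w => Sum.inl (Sum.inr w))
      (Sum.elim (fun g => Sum.inl (Sum.inl (Sum.inr g))) (fun _ => Sum.inr ())) :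
      (α ⊕ α) ⊕ (γ ⊕ Fin 1) → ((γ ⊕ γ) ⊕ (α ⊕ α)) ⊕ Unit)
    refine dp_congr (dp_and (dp_not k1) k2) (fun v => ?_)
    have e1 : (fun i => v ((Sum.elim (fun w => Sum.inl (Sum.inr w))
        (Sum.elim (fun g => Sum.inl (Sum.inl (Sum.inl g))) (fun _ => Sum.inr ())) :
        (α ⊕ α) ⊕ (γ ⊕ Fin 1) → ((γ ⊕ γ) ⊕ (α ⊕ α)) ⊕ Unit) (Sum.inr i))) =
        Sum.elim (fun i => v (Sum.inl (Sum.inl (Sum.inl i)))) (s1 (v (Sum.inr ()))) := by
      funext i
      rcases i with i | i <;> rfl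
    have e2 : (fun i => v ((Sum.elim (fun w => Sum.inl (Sum.inr w))
        (Sum.elim (fun g => Sum.inl (Sum.inl (Sum.inr g))) (fun _ => Sum.inr ())) :
        (α ⊕ α) ⊕ (γ ⊕ Fin 1) → ((γ ⊕ γ) ⊕ (α ⊕ α)) ⊕ Unit) (Sum.inr i))) =
        Sum.elim (fun i => v (Sum.inl (Sum.inl (Sum.inr i)))) (s1 (v (Sum.inr ()))) := by
      funext i
      rcases i with i | i <;> rfl
    rw [e1, e2]
    rfl
  obtain ⟨K, hK⟩ := thm_CDP L U hC (γ ⊕ γ) (α ⊕ α) A P hA hPd
  -- one row
  set N := 2 * K + 2 with hN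
  let Bs : ℕ → (γ → U) → Set U := fun j a' => A ∪ range a' ∪ rg N (fun t => u (j + t))
  have hBf : ∀ j a', (Bs j a').Finite := fun j a' =>
    (hA.union (finite_range _)).union (trs_rg_fin _ _)
  let D₀ : Set U := A ∪ {x | ∃ l i, x = u l i}
  have hD₀ : D₀.Countable := by
    refine hA.countable.union ?_
    have : {x | ∃ l i, x = u l i} = ⋃ l : ℕ, range (u l) := by
      ext x
      simp only [mem_ofPred_eq, mem_iUnion, mem_range]
      constructor
      · rintro ⟨l, i, h⟩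
        exact ⟨l, i, h.symm⟩
      · rintro ⟨l, i, h⟩
        exact ⟨l, i, h.symm⟩
    rw [this]
    exact countable_iUnion (fun l => countable_range _)
  have huD : ∀ {l i}, u l i ∈ D₀ := fun {l i} => Or.inr ⟨l, i, rfl⟩
  let Q : Set U → (γ → U) × (ℕ → U) → Prop := fun D p => Ets L D p.1 ρ ∧ ∀ j,
    Sq L A (Sum.elim (Sum.elim (fl N (fun t => u (j + t))) p.1) (s1 (p.2 j)))
      (Sum.elim (Sum.elim (fl N w) a) (s1 c)) ∧
    ∀ (δ : Type) [Finite δ] (v v' : δ → U), (∀ i, v i ∈ D ∪ range p.1) →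
      (∀ i, v' i ∈ D ∪ range p.1) → Sq L (Bs j p.1) v v' → Sq L (Bs j p.1 ∪ {p.2 j}) v v'
  obtain ⟨D, x, hD, hQ, hDm, hDe⟩ := trs_rec D₀ hD₀ Q (fun p => range p.1 ∪ range p.2)
    (fun p => (countable_range _).union (countable_range _)) (by
    intro D hDc hD₀D
    obtain ⟨a', ha'⟩ := gt_real hC hρ hDc
    have hAD : A ⊆ D := subset_union_left.trans hD₀D
    have haa : Sq L A a' a := ets_sq hρ (trs_ets_mono hAD ha') hρE
    have hao : Or L A s a' := trs_or hORC hC hs hA hI (sq_symm haa) ha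
    have hj : ∀ j, ∃ c' : U, Sq L A (Sum.elim (Sum.elim (fl N (fun t => u (j + t))) a') (s1 c'))
        (Sum.elim (Sum.elim (fl N w) a) (s1 c)) ∧
        ∀ (δ : Type) [Finite δ] (v v' : δ → U), (∀ i, v i ∈ D ∪ range a') →
          (∀ i, v' i ∈ D ∪ range a') → Sq L (Bs j a') v v' → Sq L (Bs j a' ∪ {c'}) v v' := by
      intro j
      have k1 := m4 γ A N w (fun t => u (j + t)) a a' hA hI (sq_symm haa) (ha N _ (hwM N))
        (hao N _ (huS N j))
      obtain ⟨c1, hc1⟩ := sq_ext hC hA.countable k1 (s1 c)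
      obtain ⟨c2, hc2, hc3⟩ := thm_GEN L U hC (Fin 1) (Bs j a') (D ∪ range a') c1 (hBf j a')
        (hDc.union (countable_range _))
      have e : c2 = s1 (c2 0) := by
        funext i
        rw [Fin.fin_one_eq_zero i]
        rfl
      have e' : range c2 = {c2 0} := by
        rw [e]
        ext y
        simp [s1, eq_comm]
      refine ⟨c2 0, ?_, ?_⟩
      · rw [← e]
        refine sq_symm (sq_trans hc1 ?_)
        refine sq_swap (sq_mono (B := Bs j a') (subset_union_left.trans subset_union_left)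
          (sq_add hc2 _ ?_))
        rintro (⟨t, i⟩ | i)
        · exact Or.inr ⟨t, t.2, i, rfl⟩
        · exact Or.inl (Or.inr ⟨i, rfl⟩)
      · intro δ _ v v' hv hv' h
        rw [← e']
        exact hc3 δ v v' hv hv' h
    choose c' hc' using hj
    exact ⟨(a', c'), ha', hc'⟩)
  -- facts
  have hAD : ∀ i, A ⊆ D i := fun i => subset_union_left.trans (hD i)
  have huD' : ∀ i l t, u l t ∈ D i := fun i l t => hD i huD
  have hxa : ∀ i k g, i < k → (x i).1 g ∈ D k := fun i k g h => hDe i k h (Or.inl ⟨g, rfl⟩)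
  have hxc : ∀ i k j, i < k → (x i).2 j ∈ D k := fun i k j h => hDe i k h (Or.inr ⟨j, rfl⟩)
  have hoa : ∀ i, Or L A s (x i).1 := fun i =>
    trs_or hORC hC hs hA hI (sq_symm (ets_sq hρ (trs_ets_mono (hAD i) (hQ i).1) hρE)) ha
  have hoc : ∀ i j, Or L A s (s1 ((x i).2 j)) := fun i j =>
    trs_or hORC hC hs hA hI (sq_symm (sq_right ((hQ i).2 j).1)) hc
  -- (a)
  have key : ∀ i j t, t + 1 < N → (F (Sum.elim (x i).1 (s1 ((x i).2 j))) (u (j + t)) (u (j + t + 1)) ↔
      F (Sum.elim a (s1 c)) (w t) (w (t + 1))) := by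
    intro i j t ht
    refine hFtr (sq_cov ((hQ i).2 j).1 ?_)
    rintro ((k | k) | (k | k))
    · exact ⟨Sum.inl (Sum.inl (⟨t, by omega⟩, k)), rfl, rfl⟩
    · exact ⟨Sum.inl (Sum.inl (⟨t + 1, ht⟩, k)), rfl, rfl⟩
    · exact ⟨Sum.inl (Sum.inr k), rfl, rfl⟩
    · exact ⟨Sum.inr k, rfl, rfl⟩
  -- (c)
  have hcc : ∀ i j k l, i < k → F (Sum.elim (x k).1 (s1 ((x i).2 j))) (u l) (u (l + 1)) := by
    intro i j k l hik
    have k1 : Mo L (A ∪ range (s1 ((x i).2 j))) s (l + 2) u := hoc i j _ _ (huM _)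
    have k2 : Sq L (A ∪ range (s1 ((x i).2 j))) (u l) (u (l + 1)) :=
      m7 _ _ _ k1 l (by omega) (l + 1) (by omega)
    have k3 := li hC (hA.union (finite_range (s1 ((x i).2 j)))) hρ
      (trs_inv subset_union_left hρI) k2 (u := (x k).1) (rl_of_ets (B := D k) (by
        rintro y (hy | ⟨t, rfl⟩)
        · exact hAD k hy
        · exact hxc i k j hik) (by
        rintro (t | t)
        · exact huD' k l t
        · exact huD' k (l + 1) t) (hQ k).1)
    refine k3 _ (fe_mono ?_ (hFf _))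
    rintro y (hy | ⟨t | t, rfl⟩)
    · exact Or.inl (Or.inl hy)
    · exact Or.inr ⟨t, rfl⟩
    · exact Or.inl (Or.inr ⟨t, rfl⟩)
  -- (b)
  have hbb : ∀ i j l, l + 1 < j → F (Sum.elim (x i).1 (s1 ((x i).2 j))) (u l) (u (l + 1)) := by
    intro i j l hlj
    have k1 : Mo L (A ∪ range (x i).1) s (j + N) u := hoa i _ _ (huM _)
    have k2 := hMGP L U hC α s hs (A ∪ range (x i).1) (hA.union (finite_range _))
      (trs_inv subset_union_left hI) (j + N) u k1 j (j + N) l (l + 1) (by omega) le_rfl (by omega)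
      (by omega) (Or.inl ⟨by omega, hlj⟩)
    have k3 : Sq L (Bs j (x i).1) (u l) (u (l + 1)) := by
      refine sq_mono ?_ k2
      rintro y (hy | ⟨t, ht, k, rfl⟩)
      · exact Or.inl hy
      · exact Or.inr ⟨j + t, by omega, by omega, k, rfl⟩
    have k4 := ((hQ i).2 j).2 α (u l) (u (l + 1)) (fun t => Or.inl (huD' i l t))
      (fun t => Or.inl (huD' i (l + 1) t)) k3
    refine k4 _ (fe_mono ?_ (hFf _))
    rintro y (hy | ⟨t | t, rfl⟩)
    · exact Or.inl (Or.inl (Or.inl hy))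
    · exact Or.inl (Or.inl (Or.inr ⟨t, rfl⟩))
    · exact Or.inr rfl
  -- (d)
  have hdd : ∀ i j k l, k + 1 < i → (F (Sum.elim (x k).1 (s1 ((x i).2 j))) (u l) (u (l + 1)) ↔
      F (Sum.elim (x (k + 1)).1 (s1 ((x i).2 j))) (u l) (u (l + 1))) := by
    intro i j k l hki
    set W : Set U := A ∪ rg (l + 2) u ∪ rg N (fun t => u (j + t)) with hW
    have hWf : W.Finite := (hA.union (trs_rg_fin _ _)).union (trs_rg_fin _ _)
    have hWD : ∀ i, W ⊆ D i := by
      rintro i y ((hy | ⟨t, ht, q, rfl⟩) | ⟨t, ht, q, rfl⟩)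
      · exact hAD i hy
      · exact huD' i _ _
      · exact huD' i _ _
    have k1 : Sq L W (x k).1 (x (k + 1)).1 :=
      ets_sq hρ (trs_ets_mono (hWD k) (hQ k).1) (trs_ets_mono (hWD (k + 1)) (hQ (k + 1)).1)
    have k2 : Sq L (W ∪ range (x i).1) (x k).1 (x (k + 1)).1 :=
      li hC hWf hρ (trs_inv (subset_union_left.trans subset_union_left) hρI) k1
        (rl_of_ets (B := D i) (hWD i) (by
          rintro (t | t)
          · exact hxa k i t (by omega)
          · exact hxa (k + 1) i t hki) (hQ i).1)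
    have k3 := sq_add k2 (Sum.elim (u l) (u (l + 1))) (by
      rintro (t | t)
      · exact Or.inl (Or.inl (Or.inr ⟨l, by omega, t, rfl⟩))
      · exact Or.inl (Or.inl (Or.inr ⟨l + 1, by omega, t, rfl⟩)))
    have k4 := ((hQ i).2 j).2 (γ ⊕ (α ⊕ α)) _ _ (by
      rintro (t | (t | t))
      · exact Or.inl (hxa k i t (by omega))
      · exact Or.inl (huD' i l t)
      · exact Or.inl (huD' i (l + 1) t)) (by
      rintro (t | (t | t))
      · exact Or.inl (hxa (k + 1) i t hki)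
      · exact Or.inl (huD' i l t)
      · exact Or.inl (huD' i (l + 1) t)) (sq_mono (B := W ∪ range (x i).1) (by
        rintro y ((hy | hy) | hy)
        · exact Or.inl (Or.inl (Or.inl hy))
        · exact Or.inr hy
        · exact Or.inl (Or.inr hy)) k3)
    have k5 := sq_mono (A := A) (by
      intro y hy
      exact Or.inl (Or.inl (Or.inl hy))) (sq_add k4 (s1 ((x i).2 j)) (fun _ => Or.inr rfl))
    refine hFtr (sq_cov k5 ?_)
    rintro ((q | q) | (q | q))
    · exact ⟨Sum.inl (Sum.inr (Sum.inl q)), rfl, rfl⟩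
    · exact ⟨Sum.inl (Sum.inr (Sum.inr q)), rfl, rfl⟩
    · exact ⟨Sum.inl (Sum.inl q), rfl, rfl⟩
    · exact ⟨Sum.inr q, rfl, rfl⟩
  -- the exact array
  refine hK ⟨fun p => Sum.elim (x (2 * p)).1 (x (2 * p + 1)).1,
    fun q => Sum.elim (u (2 * q)) (u (2 * q + 1)), fun p q => (x (2 * p)).2 (2 * q), ?_⟩
  intro p q p' q'
  show (¬ F (Sum.elim (x (2 * p)).1 (s1 ((x (2 * p')).2 (2 * q')))) (u (2 * q)) (u (2 * q + 1)) ∧
    F (Sum.elim (x (2 * p + 1)).1 (s1 ((x (2 * p')).2 (2 * q')))) (u (2 * q)) (u (2 * q + 1))) ↔ _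
  have hp := p.2
  have hq := q.2
  have hp' := p'.2
  have hq' := q'.2
  constructor
  · rintro ⟨h1, h2⟩
    rcases lt_trichotomy (p : ℕ) p' with h | h | h
    · exact absurd ((hdd (2 * p') (2 * q') (2 * p) (2 * q) (by omega)).2 h2) h1
    · have hpp : p = p' := Fin.ext h
      subst hpp
      refine ⟨rfl, ?_⟩
      rcases lt_trichotomy (q : ℕ) q' with h' | h' | h'
      · exact absurd (hbb _ _ _ (by omega)) h1
      · exact Fin.ext h'
      · have h3 := (key (2 * p) (2 * q') (2 * q - 2 * q') (by omega)).2 (hb1 _ (by omega))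
        have e : 2 * (q' : ℕ) + (2 * q - 2 * q') = 2 * q := by omega
        rw [e] at h3
        exact absurd h3 h1
    · exact absurd (hcc _ _ _ _ (by omega)) h1
  · rintro ⟨rfl, rfl⟩
    refine ⟨?_, hcc _ _ _ _ (by omega)⟩
    have h3 := (not_congr (key (2 * p) (2 * q) 0 (by omega))).2 hb0
    rw [add_zero] at h3
    exact h3

theorem thm_TRS (hMOC : St_MOC) (hMGP : St_MGP) (hORC : St_ORC) : St_TRS := by
  intro L U _ hC α γ _ _ s hs A hA hI a c ha hc
  by_contra hcon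
  obtain ⟨o1, o2, o3, o4, o5, o6⟩ := hORC L U hC α s hs A hA hI
  obtain ⟨n, z, u, hz, hu, hnu⟩ := o3 _ _ hcon
  have hA' : (A ∪ rg n z).Finite := hA.union (trs_rg_fin n z)
  refine trs_core hMOC hMGP hORC hC hs hA' (trs_inv subset_union_left hI) a c
    (o4 _ a n z ha hz) (o4 _ (s1 c) n z hc hz) u hu ?_
  have e : A ∪ rg n z ∪ range (Sum.elim a (s1 c)) = A ∪ range (Sum.elim a (s1 c)) ∪ rg n z := by
    ext y
    simp only [mem_union]
    tauto
  rw [e]
  exact hnu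

end Pool.Agent.TPX
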