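import Pool.Agent.TPX.StN
import Pool.Agent.TPX.ENC

/-!
# TPX module FAC (helper68): elements outside the ends of two facing elements are equal to one of them
-/

set_option autoImplicit false
set_option linter.unusedVariables false

namespace Pool.Agent.TPX

open FirstOrder.Language Set
open scoped FirstOrder
open Pool.Agent.MNO

variable {L : FirstOrder.Language.{0, 0}} {U : Type} [L.Structure U]

theorem un_s1 (A : Set U) (z : U) : A ∪ range (s1 z) = insert z A := by
  rw [range_s1, union_singleton]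

/-- realisations of `q` over `acl^eq(C)` and a given finite tuple -/
theorem desc_ex (hC : Cx L U) {A C : Set U} {q : ((Fin 1 → U) → Prop) → Prop} (hq : GT L q)
    (hC' : C.Countable) (hAC : A ⊆ C) {γ : Type} [Finite γ] (c : γ → U) {z₂ : U}
    (h2 : Ets L C (s1 z₂) q) :
    ∃ z', Sq L C (s1 z₂) (s1 z') ∧ Rl L A q c (s1 z') := by
  obtain ⟨w, hw⟩ := gt_real hC hq (B := C ∪ range c) (hC'.union (countable_range _))
  have hw' : Ets L (C ∪ range c) (s1 (w 0)) q := by
    rw [s1_eq]
    exact hw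
  exact ⟨w 0, ets_sq hq h2 (ets_mono subset_union_left hw'),
    rl_of_ets (B := C ∪ range c) (hAC.trans subset_union_left) (fun i => Or.inr ⟨i, rfl⟩) hw'⟩

/-- **descent**: a set which is in the algebra of `A z'` for all `z'` conjugate to the realisation `z₂` of an
`A`-invariant type is in the algebra of `A` -/
theorem bf_desc (hC : Cx L U) {A C R : Set U} (hA : A.Finite) (hCf : C.Finite) (hAC : A ⊆ C)
    {q : ((Fin 1 → U) → Prop) → Prop} (hq : GT L q) (hI : Inv L A q) {z₂ : U}
    (h2 : Ets L C (s1 z₂) q)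
    (h : ∀ z', Sq L C (s1 z₂) (s1 z') → BF L (insert z' A) R) : BF L A R := by
  refine ⟨fun y y' hy hyR => ?_, fun m n u u' w hu hu' hw huu => ?_⟩
  · obtain ⟨z', hz', hR⟩ := desc_ex (A := A) hC hq hCf.countable hAC (Sum.elim (s1 y) (s1 y')) h2
    have h3 := li hC hA hq hI hy hR
    rw [un_s1] at h3
    exact (h z' hz').inv _ _ h3 hyR
  · obtain ⟨z', hz', hR⟩ := desc_ex (A := A) hC hq hCf.countable hAC (Sum.elim u u') h2
    have h3 := li hC hA hq hI huu hR
    rw [un_s1] at h3
    exact sq_mono (subset_insert z' A) ((h z' hz').prd m n u u' w hu hu' hw h3)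

/-- moving an element of an end -/
theorem en_mv1 (hC : Cx L U) {r : ((Fin 1 → U) → Prop) → Prop} {A : Set U} (hr : GT L r)
    (hA : A.Finite) (hI : Inv L A r) {c c' y y' : U}
    (h : Sq L A (Sum.elim (s1 y) (s1 c)) (Sum.elim (s1 y') (s1 c'))) :
    y ∈ En L (insert c A) r ↔ y' ∈ En L (insert c' A) r := by
  have h1 := en_mv hC hr hA hI h
  rw [un_s1, un_s1] at h1
  exact h1

/-- [FAC] -/
theorem thm_FAC (hBXX : St_BXX) (hDIV : St_DIV) : St_FAC := by
  intro L U _ hC r hr hN A hA hI z₁ z₂ c hz₁ hz₂ hc h21 h12 hc1 hc2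
  by_contra hcon
  push Not at hcon
  obtain ⟨hn1, hn2⟩ := hcon
  have hA1 : (insert z₁ A).Finite := hA.insert z₁
  have hI1 : Inv L (insert z₁ A) r := inv_up (subset_insert z₁ A) hI
  have hB1 := hBXX L U hC (Fin 1) r hr (insert z₁ A) hA1 hI1
  have hB0 := hBXX L U hC (Fin 1) r hr A hA hI
  -- separation
  have hsep : ∀ {B : Set U} {x y : U}, B.Finite → BF L B (En L B r) → x ∉ En L B r →
      y ∈ En L B r → y ∉ Pc L B x := by
    intro B x y hB hBF hx hy h
    exact hx ((pc_iff hC hB.countable hBF h).2 hy)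
  have hz2R : z₂ ∉ Pc L (insert z₁ A) c := hsep hA1 hB1 hn1 h21
  -- the piece is in the algebra of all `A z'`
  have hcl : ∀ z', Sq L (insert z₁ A) (s1 z₂) (s1 z') →
      BF L (insert z' A) (Pc L (insert z₁ A) c) := by
    intro z' hz'
    obtain ⟨w, hw⟩ := sq_ext hC hA1.countable hz' (s1 c)
    rw [← s1_eq w] at hw
    set c' := w 0 with hc'
    have hcc : Sq L (insert z₁ A) (s1 c) (s1 c') := sq_right hw
    have hwA : Sq L A (Sum.elim (s1 z₂) (s1 c)) (Sum.elim (s1 z') (s1 c')) :=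
      sq_mono (subset_insert z₁ A) hw
    have e1 : z' ∈ En L (insert z₁ A) r := hB1.inv _ _ hz' h21
    have e2 : z₁ ∈ En L (insert z' A) r := by
      have h3 := sq_mono (subset_insert z₁ A) (sq_add hz' (s1 z₁) (fun _ => mem_insert z₁ A))
      exact (en_mv1 hC hr hA hI (sq_swap h3)).1 h12
    have e3 : c' ∉ En L (insert z₁ A) r := fun h => hn1 (hB1.inv _ _ (sq_symm hcc) h)
    have e4 : c' ∉ En L (insert z' A) r := fun h => hn2 ((en_mv1 hC hr hA hI (sq_swap hwA)).2 h)
    have e5 : c' ∉ A := by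
      have h3 : c' ∈ En L A r := hB0.inv _ _ (sq_mono (subset_insert z₁ A) hcc) hc
      exact fun h => en_par hBXX hC hr hN hI (Subset.refl A) hA h h3
    have e6 : c' ≠ z₁ := by
      have h3 := sq_dp hcc (dp_eqc (L := L) (0 : Fin 1) (mem_insert z₁ A))
      exact fun h => hc1 (h3.2 h)
    have e7 : c' ≠ z' := by
      have h3 := sq_dp hwA (dp_eq (L := L) (Sum.inr (0 : Fin 1)) (Sum.inl (0 : Fin 1)))
      exact fun h => hc2 (h3.2 h)
    have hA2 : (insert z' A).Finite := hA.insert z'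
    have hI2 : Inv L (insert z' A) r := inv_up (subset_insert z' A) hI
    have hB2 := hBXX L U hC (Fin 1) r hr (insert z' A) hA2 hI2
    have h4 : Pc L (insert z₁ A) c' = Pc L (insert z' A) c' :=
      pretree hC hA e5 e6 e7 (hsep hA1 hB1 e3 e1) (hsep hA2 hB2 e4 e2)
    have h5 : Pc L (insert z₁ A) c' = Pc L (insert z₁ A) c :=
      pc_eq hC hA1.countable (pc_sq hC hcc)
    rw [← h5, h4]
    exact pc_bf hC c'
  obtain ⟨q, hq, -, hqI, hqE⟩ := hDIV L U hC r hr hN A hA hI (insert z₁ A) z₂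
    (subset_insert z₁ A) hA1 h21
  have hBF := bf_desc hC hA hA1 (subset_insert z₁ A) hq hqI hqE hcl
  have h6 : Pc L A c ⊆ Pc L (insert z₁ A) c := pc_sub hBF (mem_pc c)
  have h7 : Pc L A c = En L A r := en_eq hBXX hC hr hN hI (Subset.refl A) hA hc
  rw [h7] at h6
  exact hz2R (h6 hz₂)

end Pool.Agent.TPX
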