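import Pool.Agent.TPX.StN
import Pool.Agent.TPX.TRS

/-!
# TPX: NMO (helper97)
-/

set_option autoImplicit false
set_option linter.unusedVariables false

namespace Pool.Agent.TPX

open FirstOrder.Language Set
open scoped FirstOrder
open Pool.Agent.MNO

theorem thm_NMO (hENC : St_ENC) (hCCC : St_CCC) : St_NMO := by
  intro L U _ hC r hr hn A hA hI
  obtain ⟨e1, e2, e3, e4, e5, e6, e7⟩ := hENC L U hC r hr hn A hA hI
  -- (3) for all bases
  have h3 : ∀ B : Set U, A ⊆ B → B.Finite → NF L B r → ¬ N0 L B r := by
    intro B hAB hB hF h0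
    obtain ⟨x, -, hx⟩ := e6 B hAB hB
    obtain ⟨y, -, hy⟩ := e6 (insert x B) (hAB.trans (subset_insert _ _)) (hB.insert x)
    have hy' : y ∈ En L B r := e2 B _ hAB (subset_insert _ _) (hB.insert x) hy
    exact hF x hx y hy' hy (h0 x hx y hy' hy)
  -- one step
  have step : ∀ (B : Set U) (c : U), A ⊆ B → B.Finite →
      (¬ N0 L B r → ¬ N0 L (insert c B) r) ∧ (NF L B r → NF L (insert c B) r) := by
    intro B c hAB hB
    have hAc : A ⊆ insert c B := hAB.trans (subset_insert _ _)
    by_cases hc : c ∈ En L B r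
    · have hcc : ¬ N0 L B r → NF L (insert c B) r := fun h =>
        hCCC L U hC r hr hn B hB (trs_inv hAB hI) h c hc
      exact ⟨fun h => h3 _ hAc (hB.insert c) (hcc h), fun h => hcc (h3 B hAB hB h)⟩
    · have k1 : En L (insert c B) r = En L B r := e4 B c hAB hB hc
      have k2 : ∀ x, En L (insert x (insert c B)) r = En L (insert x B) r := by
        intro x
        rw [insert_comm]
        exact e4 _ c (hAB.trans (subset_insert _ _)) (hB.insert x)
          (fun h => hc (e2 B _ hAB (subset_insert _ _) (hB.insert x) h))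
      refine ⟨fun h h' => h ?_, fun h => ?_⟩
      · intro x hx y hy hxy
        have := h' x (by rwa [k1]) y (by rwa [k1]) (by rwa [k2])
        rwa [k2] at this
      · intro x hx y hy hxy
        rw [k1] at hx hy
        rw [k2] at hxy ⊢
        exact h x hx y hy hxy
  have all : ∀ S : Set U, S.Finite → (¬ N0 L A r → ¬ N0 L (A ∪ S) r) ∧ (NF L A r → NF L (A ∪ S) r) := by
    intro S hS
    induction S, hS using Set.Finite.induction_on with
    | empty => rw [union_empty]; exact ⟨id, id⟩
    | @insert c S _ hS ih =>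
      obtain ⟨k1, k2⟩ := step (A ∪ S) c subset_union_left (hA.union hS)
      rw [union_insert]
      exact ⟨fun h => k1 (ih.1 h), fun h => k2 (ih.2 h)⟩
  intro B hAB hB
  have h := all B hB
  rw [union_eq_self_of_subset_left hAB] at h
  exact ⟨h.1, h.2, h3 A Subset.rfl hA⟩

end Pool.Agent.TPX
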