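import Pool.Agent.TPX.StN
import Pool.Agent.TPX.TRS

/-!
# TPX: TRL (helper97)
-/

set_option autoImplicit false
set_option linter.unusedVariables false

namespace Pool.Agent.TPX

open FirstOrder.Language Set
open scoped FirstOrder
open Pool.Agent.MNO

variable {L : FirstOrder.Language.{0, 0}} {U : Type} [L.Structure U]

theorem trl_pre_fin (x : ℕ → U) (k : ℕ) : (pre x k).Finite := by
  have h : pre x k = x '' {i | i < k} := by
    ext y
    simp only [pre, mem_ofPred_eq, mem_image]
    constructor
    · rintro ⟨i, hi, h⟩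
      exact ⟨i, hi, h.symm⟩
    · rintro ⟨i, hi, h⟩
      exact ⟨i, hi, h.symm⟩
  rw [h]
  exact (finite_lt_nat k).image x

theorem trl_pre_zero (x : ℕ → U) : pre x 0 = ∅ := by
  ext y
  simp [pre]

theorem trl_pre_succ (x : ℕ → U) (k : ℕ) : pre x (k + 1) = insert (x k) (pre x k) := by
  ext y
  simp only [pre, mem_ofPred_eq, mem_insert_iff]
  constructor
  · rintro ⟨i, hi, h⟩
    rcases Nat.lt_succ_iff_lt_or_eq.1 hi with h' | rfl
    · exact Or.inr ⟨i, h', h⟩
    · exact Or.inl h
  · rintro (h | ⟨i, hi, h⟩)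
    · exact ⟨k, by omega, h⟩
    · exact ⟨i, by omega, h⟩

theorem trl_pre_mono (x : ℕ → U) {k l : ℕ} (h : k ≤ l) : pre x k ⊆ pre x l := by
  rintro y ⟨i, hi, h'⟩
  exact ⟨i, by omega, h'⟩

theorem trl_pre_range (x : ℕ → U) (k : ℕ) : range (fun i : Fin k => x i) = pre x k := by
  ext y
  constructor
  · rintro ⟨i, rfl⟩
    exact ⟨i, i.2, rfl⟩
  · rintro ⟨i, hi, rfl⟩
    exact ⟨⟨i, hi⟩, rfl⟩

/-- an independent enumeration -/
theorem trl_enum (hENC : St_ENC) (hC : Cx L U) {r : ((Fin 1 → U) → Prop) → Prop} (hr : GT L r)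
    (hn : Nal r) {A : Set U} (hA : A.Finite) (hI : Inv L A r) {S : Set U} (hS : S.Finite) (x₀ : U) :
    ∃ (m : ℕ) (c : ℕ → U), Ind L A r m c ∧ pre c m ⊆ S ∧
      ∀ D : Set U, D.Finite → En L (A ∪ S ∪ D) r = En L (A ∪ pre c m ∪ D) r := by
  obtain ⟨e1, e2, e3, e4, e5, e6, e7⟩ := hENC L U hC r hr hn A hA hI
  induction S, hS using Set.Finite.induction_on with
  | empty =>
    refine ⟨0, fun _ => x₀, fun k hk => absurd hk (Nat.not_lt_zero k), ?_, fun D _ => ?_⟩
    · rw [trl_pre_zero]
    · rw [trl_pre_zero]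
  | @insert s S _ hS ih =>
    obtain ⟨m, c, hc, hcS, hD⟩ := ih
    have fm := trl_pre_fin c m
    have key : ∀ D : Set U, D.Finite → En L (A ∪ insert s S ∪ D) r =
        En L (insert s (A ∪ pre c m ∪ D)) r := by
      intro D hDf
      have h1 := hD (insert s D) (hDf.insert s)
      have k1 : A ∪ insert s S ∪ D = A ∪ S ∪ insert s D := by
        ext y; simp only [mem_union, mem_insert_iff]; tauto
      have k2 : insert s (A ∪ pre c m ∪ D) = A ∪ pre c m ∪ insert s D := by
        ext y; simp only [mem_union, mem_insert_iff]; tauto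
      rw [k1, k2]
      exact h1
    by_cases hs : s ∈ En L (A ∪ pre c m) r
    · let c' : ℕ → U := fun i => if i < m then c i else s
      have hp : ∀ k ≤ m, pre c' k = pre c k := by
        intro k hk
        ext y
        constructor
        · rintro ⟨i, hi, rfl⟩
          exact ⟨i, hi, if_pos (by omega)⟩
        · rintro ⟨i, hi, rfl⟩
          exact ⟨i, hi, (if_pos (by omega)).symm⟩
      have hm : c' m = s := if_neg (lt_irrefl m)
      have hp' : pre c' (m + 1) = insert s (pre c m) := by
        rw [trl_pre_succ, hm, hp m le_rfl]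
      refine ⟨m + 1, c', ?_, ?_, fun D hDf => ?_⟩
      · intro k hk
        rw [hp k (by omega)]
        rcases Nat.lt_succ_iff_lt_or_eq.1 hk with h | rfl
        · have : c' k = c k := if_pos h
          rw [this]
          exact hc k h
        · rw [hm]
          exact hs
      · rw [hp']
        exact insert_subset_insert hcS
      · rw [key D hDf, hp']
        congr 1
        ext y; simp only [mem_union, mem_insert_iff]; tauto
    · refine ⟨m, c, hc, hcS.trans (subset_insert _ _), fun D hDf => ?_⟩
      rw [key D hDf]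
      exact e4 _ s (subset_union_left.trans subset_union_left) ((hA.union fm).union hDf)
        (fun h => hs (e2 _ _ subset_union_left subset_union_left ((hA.union fm).union hDf) h))

/-- nested pairs may be moved -/
theorem trl_n0 (hENC : St_ENC) (hC : Cx L U) {r : ((Fin 1 → U) → Prop) → Prop} (hr : GT L r)
    (hn : Nal r) {A : Set U} (hA : A.Finite) (hI : Inv L A r) {γ : Type} [Finite γ] {c c' : γ → U}
    (h : Sq L A c c') (h0 : N0 L (A ∪ range c') r) : N0 L (A ∪ range c) r := by
  obtain ⟨e1, e2, e3, e4, e5, e6, e7⟩ := hENC L U hC r hr hn A hA hI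
  intro x hx y hy hxy
  obtain ⟨d, hd⟩ := sq_ext hC hA.countable h (Sum.elim (s1 x) (s1 y))
  have hd' : d = Sum.elim (s1 (d (Sum.inl 0))) (s1 (d (Sum.inr 0))) := by
    funext i
    rcases i with i | i
    · rw [Fin.fin_one_eq_zero i]; rfl
    · rw [Fin.fin_one_eq_zero i]; rfl
  set x' := d (Sum.inl 0)
  set y' := d (Sum.inr 0)
  rw [hd'] at hd
  have k1 : x' ∈ En L (A ∪ range c') r := (e3 γ c c' x x' (sq_cov hd (by
    rintro (i | i)
    · exact ⟨Sum.inr (Sum.inl i), rfl, rfl⟩
    · exact ⟨Sum.inl i, rfl, rfl⟩))).1 hx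
  have k2 : y' ∈ En L (A ∪ range c') r := (e3 γ c c' y y' (sq_cov hd (by
    rintro (i | i)
    · exact ⟨Sum.inr (Sum.inr i), rfl, rfl⟩
    · exact ⟨Sum.inl i, rfl, rfl⟩))).1 hy
  have hins : ∀ (z : U) (b : γ → U), A ∪ range (Sum.elim (s1 z) b) = insert z (A ∪ range b) := by
    intro z b
    ext y
    simp only [mem_union, mem_range, Sum.exists, Sum.elim_inl, Sum.elim_inr, mem_insert_iff]
    constructor
    · rintro (h | ⟨i, hi⟩ | h)
      · exact Or.inr (Or.inl h)
      · exact Or.inl hi.symm
      · exact Or.inr (Or.inr h)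
    · rintro (h | h | h)
      · exact Or.inr (Or.inl ⟨0, h.symm⟩)
      · exact Or.inl h
      · exact Or.inr (Or.inr h)
  have k3 := e3 (Fin 1 ⊕ γ) (Sum.elim (s1 x) c) (Sum.elim (s1 x') c') y y' (sq_cov hd (by
    rintro (i | i | i)
    · exact ⟨Sum.inr (Sum.inr i), rfl, rfl⟩
    · exact ⟨Sum.inr (Sum.inl i), rfl, rfl⟩
    · exact ⟨Sum.inl i, rfl, rfl⟩))
  have k4 := e3 (Fin 1 ⊕ γ) (Sum.elim (s1 y) c) (Sum.elim (s1 y') c') x x' (sq_cov hd (by
    rintro (i | i | i)
    · exact ⟨Sum.inr (Sum.inl i), rfl, rfl⟩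
    · exact ⟨Sum.inr (Sum.inr i), rfl, rfl⟩
    · exact ⟨Sum.inl i, rfl, rfl⟩))
  rw [hins, hins] at k3 k4
  exact k4.2 (h0 x' k1 y' k2 (k3.1 hxy))

/-- part (i) -/
theorem trl_move (hENC : St_ENC) (hREA : St_REA) (hC : Cx L U) {r : ((Fin 1 → U) → Prop) → Prop}
    (hr : GT L r) (hn : Nal r) {A : Set U} (hA : A.Finite) (hI : Inv L A r) {m : ℕ} (c : Fin m → U)
    {N : ℕ} {x : ℕ → U} (hx : Ind L A r N x) : ∀ k ≤ N, ∃ d : Fin m → U, Sq L A c d ∧
      ∀ i < k, x i ∈ En L (A ∪ range d ∪ pre x i) r := by
  obtain ⟨e1, e2, e3, e4, e5, e6, e7⟩ := hENC L U hC r hr hn A hA hI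
  intro k
  induction k with
  | zero => exact fun _ => ⟨c, sq_refl A c, fun i hi => absurd hi (Nat.not_lt_zero i)⟩
  | succ k ih =>
    intro hk
    obtain ⟨d, hcd, hd⟩ := ih (by omega)
    have fB : (A ∪ pre x k).Finite := hA.union (trl_pre_fin x k)
    have fC : (A ∪ pre x k ∪ range d).Finite := fB.union (finite_range d)
    obtain ⟨y', hy', hyC⟩ := hREA L U hC r hr hn A hA hI (A ∪ pre x k) (A ∪ pre x k ∪ range d) (x k)
      subset_union_left subset_union_left fC (hx k (by omega))
    obtain ⟨d', hd'⟩ := sq_ext hC fB.countable (sq_symm hy') d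
    have k1 := (hENC L U hC r hr hn (A ∪ pre x k) fB (trs_inv subset_union_left hI)).2.2.1
      (Fin m) d d' y' (x k) hd'
    have hdd : Sq L (A ∪ pre x k) d d' := sq_right hd'
    refine ⟨d', sq_trans hcd (sq_mono subset_union_left hdd), ?_⟩
    intro i hi
    rcases Nat.lt_succ_iff_lt_or_eq.1 hi with h | rfl
    · have k2 := sq_mono (A := A) subset_union_left (sq_add hdd (fun j : Fin (i + 1) => x j)
        (fun j => Or.inr ⟨j, by omega, rfl⟩))
      have k3 := e3 (Fin m ⊕ Fin i) (Sum.elim d (fun j : Fin i => x j))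
        (Sum.elim d' (fun j : Fin i => x j)) (x i) (x i) (sq_cov k2 (by
        rintro (j | j | j)
        · exact ⟨Sum.inr ⟨i, by omega⟩, rfl, rfl⟩
        · exact ⟨Sum.inl j, rfl, rfl⟩
        · exact ⟨Sum.inr ⟨j, by omega⟩, rfl, rfl⟩))
      have hr' : ∀ d : Fin m → U, A ∪ range (Sum.elim d (fun j : Fin i => x j)) =
          A ∪ range d ∪ pre x i := by
        intro d
        rw [Sum.elim_range, trl_pre_range, union_assoc]
      rw [hr', hr'] at k3
      exact k3.1 (hd i h)
    · have k4 := k1.1 hyC
      rwa [union_assoc, union_comm (pre x i), ← union_assoc] at k4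

theorem thm_TRL (hENC : St_ENC) (hREA : St_REA) (hCCC : St_CCC) (hNMO : St_NMO) (hF1R : St_F1R) :
    St_TRL := by
  intro L U _ hC r hr hn A hA hI C hAC hCf hN0
  obtain ⟨x₀⟩ := hC.ne
  obtain ⟨e1, e2, e3, e4, e5, e6, e7⟩ := hENC L U hC r hr hn A hA hI
  obtain ⟨m, c, hc, hcC, hcD⟩ := trl_enum hENC hC hr hn hA hI hCf x₀
  rw [union_eq_self_of_subset_left hAC] at hcD
  have hN0' : ¬ N0 L (A ∪ pre c m) r := by
    intro h
    apply hN0
    have k0 : En L C r = En L (A ∪ pre c m) r := by
      have := hcD ∅ finite_empty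
      rwa [union_empty, union_empty] at this
    have k1 : ∀ z, En L (insert z C) r = En L (insert z (A ∪ pre c m)) r := by
      intro z
      have := hcD {z} (finite_singleton z)
      rwa [union_singleton, union_singleton] at this
    intro x hx y hy hxy
    rw [k0] at hx hy
    rw [k1] at hxy ⊢
    exact h x hx y hy hxy
  refine ⟨3 * m + 1, fun x hx => ?_⟩
  obtain ⟨d, hd, hxd⟩ := trl_move hENC hREA hC hr hn hA hI (fun i : Fin m => c i) hx (3 * m + 1)
    le_rfl
  -- the sequence `d`, extended
  let b : ℕ → U := fun i => if h : i < m then d ⟨i, h⟩ else c i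
  have hb : (fun i : Fin m => b i) = d := by
    funext i
    exact dif_pos i.2
  have hbr : range d = pre b m := by rw [← trl_pre_range, hb]
  rw [hbr] at hxd
  have hbN : ¬ N0 L (A ∪ pre b m) r := by
    intro h
    rw [← hbr] at h
    have := trl_n0 hENC hC hr hn hA hI hd h
    rw [trl_pre_range] at this
    exact hN0' this
  have hbI : Ind L A r m b := by
    intro k hk
    have k1 := e3 (Fin k) (fun i => c i) (fun i => b i) (c k) (b k) (sq_cov hd (by
      rintro (j | j)
      · exact ⟨⟨k, hk⟩, rfl, by rw [← hb]; rfl⟩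
      · exact ⟨⟨j, by omega⟩, rfl, by rw [← hb]; rfl⟩))
    rw [trl_pre_range, trl_pre_range] at k1
    exact k1.1 (hc k hk)
  have fin : ∀ i k, (A ∪ pre b i ∪ pre x k).Finite := fun i k =>
    (hA.union (trl_pre_fin b i)).union (trl_pre_fin x k)
  have sub : ∀ i k, A ⊆ A ∪ pre b i ∪ pre x k := fun i k =>
    subset_union_left.trans subset_union_left
  -- (ii)
  have main : ∀ t ≤ m, ∃ n ≤ 3 * t, ¬ N0 L (A ∪ pre b (m - t) ∪ pre x n) r := by
    intro t
    induction t with
    | zero =>
      intro _
      refine ⟨0, le_rfl, ?_⟩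
      rw [trl_pre_zero x, union_empty]
      exact hbN
    | succ t ih =>
      intro ht
      obtain ⟨n, hnt, hnn⟩ := ih (by omega)
      by_contra hcon
      push Not at hcon
      set i := m - (t + 1) with hi
      have hmi : m - t = i + 1 := by omega
      have hw : ∀ k ≤ n, b i ∈ En L (A ∪ pre b i ∪ pre x k) r := by
        intro k
        induction k with
        | zero =>
          intro _
          rw [trl_pre_zero x, union_empty]
          exact hbI i (by omega)
        | succ k ihk =>
          intro hk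
          have h1 := ihk (by omega)
          have h2 : x k ∈ En L (insert (b i) (A ∪ pre b i ∪ pre x k)) r := by
            refine e2 _ (A ∪ pre b m ∪ pre x k) ((sub i k).trans (subset_insert _ _)) ?_ (fin m k)
              (hxd k (by omega))
            rintro y (rfl | (hy | hy) | hy)
            · exact Or.inl (Or.inr ⟨i, by omega, rfl⟩)
            · exact Or.inl (Or.inl hy)
            · exact Or.inl (Or.inr (trl_pre_mono b (by omega) hy))
            · exact Or.inr hy
          have h3 := hcon k (by omega) (b i) h1 (x k)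
            (e2 _ _ (sub i k) (subset_insert _ _) ((fin i k).insert _) h2) h2
          rw [trl_pre_succ, union_insert]
          exact h3
      have hB := fin i n
      have hIB : Inv L (A ∪ pre b i ∪ pre x n) r := trs_inv (sub i n) hI
      have q : ∀ k, k < 3 * m + 1 → n ≤ k → x k ∈ En L (insert (b i) (A ∪ pre b i ∪ pre x n) ∪
          {v | ∃ l, n ≤ l ∧ l < k ∧ v = x l}) r := by
        intro k hk hnk
        refine e2 _ (A ∪ pre b m ∪ pre x k) (((sub i n).trans (subset_insert _ _)).trans
          subset_union_left) ?_ (fin m k) (hxd k hk)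
        rintro y ((rfl | (hy | hy) | hy) | ⟨l, hl, hl', rfl⟩)
        · exact Or.inl (Or.inr ⟨i, by omega, rfl⟩)
        · exact Or.inl (Or.inl hy)
        · exact Or.inl (Or.inr (trl_pre_mono b (by omega) hy))
        · exact Or.inr (trl_pre_mono x hnk hy)
        · exact Or.inr ⟨l, hl', rfl⟩
      have q0 : x n ∈ En L (insert (b i) (A ∪ pre b i ∪ pre x n)) r := by
        have := q n (by omega) le_rfl
        have e : {v | ∃ l, n ≤ l ∧ l < n ∧ v = x l} = (∅ : Set U) := by
          ext y
          simp only [mem_ofPred_eq, mem_empty_iff_false, iff_false]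
          rintro ⟨l, h1, h2, -⟩
          omega
        rwa [e, union_empty] at this
      have q1 : x (n + 1) ∈ En L (insert (x n) (insert (b i) (A ∪ pre b i ∪ pre x n))) r := by
        have := q (n + 1) (by omega) (by omega)
        have e : {v | ∃ l, n ≤ l ∧ l < n + 1 ∧ v = x l} = ({x n} : Set U) := by
          ext y
          simp only [mem_ofPred_eq, mem_singleton_iff]
          constructor
          · rintro ⟨l, h1, h2, h⟩
            obtain rfl : l = n := by omega
            exact h
          · intro h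
            exact ⟨n, le_rfl, by omega, h⟩
        rwa [e, union_singleton] at this
      have q2 : x (n + 2) ∈ En L (insert (x (n + 1)) (insert (x n) (insert (b i)
          (A ∪ pre b i ∪ pre x n)))) r := by
        have := q (n + 2) (by omega) (by omega)
        have e : {v | ∃ l, n ≤ l ∧ l < n + 2 ∧ v = x l} = ({x n, x (n + 1)} : Set U) := by
          ext y
          simp only [mem_ofPred_eq, mem_insert_iff, mem_singleton_iff]
          constructor
          · rintro ⟨l, h1, h2, h⟩
            have : l = n ∨ l = n + 1 := by omega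
            rcases this with rfl | rfl
            · exact Or.inl h
            · exact Or.inr h
          · rintro (h | h)
            · exact ⟨n, le_rfl, by omega, h⟩
            · exact ⟨n + 1, by omega, by omega, h⟩
        have e' : insert (b i) (A ∪ pre b i ∪ pre x n) ∪ ({x n, x (n + 1)} : Set U) =
            insert (x (n + 1)) (insert (x n) (insert (b i) (A ∪ pre b i ∪ pre x n))) := by
          ext y
          simp only [mem_union, mem_insert_iff, mem_singleton_iff]
          tauto
        rwa [e, e'] at this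
      have hne : ¬ N0 L (insert (b i) (A ∪ pre b i ∪ pre x n)) r := by
        rw [hmi, trl_pre_succ, union_insert, insert_union] at hnn
        exact hnn
      have s1' : insert (x n) (A ∪ pre b i ∪ pre x n) = A ∪ pre b i ∪ pre x (n + 1) := by
        rw [trl_pre_succ, union_insert]
      have s2' : insert (x (n + 1)) (insert (x n) (A ∪ pre b i ∪ pre x n)) =
          A ∪ pre b i ∪ pre x (n + 2) := by
        rw [s1', trl_pre_succ x (n + 1), union_insert]
      rcases hF1R L U hC r hr hn (A ∪ pre b i ∪ pre x n) hB hIB (b i) (x n) (x (n + 1)) (x (n + 2))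
        (hw n le_rfl) q0 q1 q2 hne with h | h | h | h
      · exact h (hcon n (by omega))
      · rw [s1'] at h
        exact h (hcon (n + 1) (by omega))
      · rw [s2'] at h
        exact h (hcon (n + 2) (by omega))
      · have f3 : (insert (x (n + 2)) (insert (x n) (A ∪ pre b i ∪ pre x n))).Finite :=
          (hB.insert _).insert _
        refine (hNMO L U hC r hr hn _ f3 (trs_inv (((sub i n).trans (subset_insert _ _)).trans
          (subset_insert _ _)) hI) (A ∪ pre b i ∪ pre x (n + 3)) ?_ (fin i (n + 3))).1 h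
          (hcon (n + 3) (by omega))
        rintro y (rfl | rfl | (hy | hy) | hy)
        · exact Or.inr ⟨n + 2, by omega, rfl⟩
        · exact Or.inr ⟨n, by omega, rfl⟩
        · exact Or.inl (Or.inl hy)
        · exact Or.inl (Or.inr hy)
        · exact Or.inr (trl_pre_mono x (by omega) hy)
  -- (iii)
  obtain ⟨n, hnm, hnn⟩ := main m le_rfl
  rw [Nat.sub_self, trl_pre_zero b, union_empty] at hnn
  have fn : (A ∪ pre x n).Finite := hA.union (trl_pre_fin x n)
  have hF := hCCC L U hC r hr hn (A ∪ pre x n) fn (trs_inv subset_union_left hI) hnn (x n)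
    (hx n (by omega))
  refine (hNMO L U hC r hr hn (insert (x n) (A ∪ pre x n)) (fn.insert _)
    (trs_inv (subset_union_left.trans (subset_insert _ _)) hI) (A ∪ pre x (3 * m + 1)) ?_
    (hA.union (trl_pre_fin x _))).2.1 hF
  rintro y (rfl | hy | hy)
  · exact Or.inr ⟨n, by omega, rfl⟩
  · exact Or.inl hy
  · exact Or.inr (trl_pre_mono x (by omega) hy)

end Pool.Agent.TPX
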