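import Pool.Agent.TPX.Asm1
import Pool.Agent.MNO.ALL

/-!
# TPX, assembly, part 2: from the models on `ℕ` to the context in `V`, and the main theorem
-/

set_option autoImplicit false
set_option linter.unusedVariables false

namespace Pool.Agent.TPX

open FirstOrder.Language Set
open scoped FirstOrder
open Pool.Agent.MNO
open Pool.Agent.WOM (tp Mon IsEl IsoM CtU Fx Orb Isd CtT PerfT ThS)
open Pool.Agent.PMC (NPf Md Sm)

/-- elementary embeddings -/
theorem emb_ele {L : FirstOrder.Language.{0, 0}} {M V : Type} [L.Structure M] [L.Structure V]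
    (j : M ↪ₑ[L] V) : Emb L j := by
  refine ⟨j.injective, (Pool.Agent.MST.thm_ELX L V).2.2.2.1 M j, fun α _ φ v => ?_⟩
  exact (j.map_formula φ v).symm

theorem emb_mk {L : FirstOrder.Language.{0, 0}} {M V : Type} [L.Structure M] [L.Structure V] {i : M → V}
    (h : ∀ (n : ℕ) (φ : L.Formula (Fin n)) (v : Fin n → M), φ.Realize v ↔ φ.Realize (fun j => i (v j))) :
    Emb L i :=
  emb_ele (⟨i, fun n φ x => (h n φ x).symm⟩ : M ↪ₑ[L] V)

/-- the hypothesis for one model -/
def NipO (L : FirstOrder.Language.{0, 0}) (M : Type) [L.Structure M] : Prop :=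
  ∀ (P : Set M) (m n : ℕ) (φ : L.Formula ((Fin m ⊕ Fin n) ⊕ Unit)), ∃ k : ℕ,
    ¬ Shat (fun (x : Fin m → M) (y : Fin n → M) =>
      ∃ z ∈ P, φ.Realize (Sum.elim (Sum.elim x y) fun _ => z)) k

/-- some finite set has the property that in all elementary extensions (on `ℕ`) all finite sets which contain it are
extension bases -/
def EBP (L : FirstOrder.Language.{0, 0}) (M : Type) [L.Structure M] : Prop :=
  ∃ A₀ : Set M, A₀.Finite ∧ ∀ (S' : L.Structure ℕ) (k : M → ℕ), @Emb L ℕ M S' _ k →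
    ∀ B : Set ℕ, B.Finite → k '' A₀ ⊆ B → @EBA L ℕ S' B

/-- no exact arrays -/
theorem cod_of (L : FirstOrder.Language.{0, 0}) (hL : Countable L.Symbols) (T : L.Theory)
    (hT : ∀ S : L.Structure ℕ, @FirstOrder.Language.Theory.Model L ℕ S T → @NipO L ℕ S)
    (U : Type) [L.Structure U] (hUT : U ⊨ T) (hinf : Infinite U) :
    ∀ (m n : ℕ) (P : (Fin m → U) → (Fin n → U) → U → Prop),
      Dp L (∅ : Set U) (fun v : (Fin m ⊕ Fin n) ⊕ Unit → U =>
        P (fun i => v (Sum.inl (Sum.inl i))) (fun i => v (Sum.inl (Sum.inr i))) (v (Sum.inr ()))) →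
      ∃ k, ¬ Exa P k := by
  classical
  intro m n P hP
  by_contra hcon
  push Not at hcon
  obtain ⟨ψ, hψ⟩ := dp_form hP
  let φ : L.Formula ((Fin m ⊕ Fin n) ⊕ Unit) :=
    ψ.relabel (Sum.elim (fun a => absurd a.2 (notMem_empty _)) (fun i => i))
  have hφ : ∀ (x : Fin m → U) (y : Fin n → U) (z : U), P x y z ↔
      φ.Realize (Sum.elim (Sum.elim x y) fun _ => z) := by
    intro x y z
    have h1 := hψ (Sum.elim (Sum.elim x y) fun _ => z)
    refine h1.trans ?_
    show _ ↔ (ψ.relabel _).Realize _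
    rw [FirstOrder.Language.Formula.realize_relabel]
    apply iff_of_eq
    congr 1
    funext i
    rcases i with i | i
    · exact absurd i.2 (notMem_empty _)
    · rfl
  obtain ⟨S, hmod, x, y, z, hxyz⟩ := thm_INA L hL U hinf m n φ (fun k => by
    obtain ⟨x, y, z, h⟩ := hcon k
    exact ⟨x, y, z, fun i j a b => (hφ _ _ _).symm.trans (h i j a b)⟩)
  have hmodT : @FirstOrder.Language.Theory.Model L ℕ S T := by
    refine @FirstOrder.Language.Theory.Model.mk L ℕ S _ fun χ hχ => ?_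
    refine @FirstOrder.Language.Theory.realize_sentence_of_mem L ℕ S _ hmod χ ?_
    have h2 : U ⊨ χ := FirstOrder.Language.Theory.realize_sentence_of_mem T hχ
    exact h2
  obtain ⟨g, hg⟩ := exists_surjective_nat (Finset ℕ)
  obtain ⟨k, hk⟩ := hT S hmodT {w | ∃ a b, w = z a b ∧ a ∈ g b} m n φ
  have hcode : ∀ s : Set (Fin k), ∃ b : ℕ, ∀ i : Fin k, (i : ℕ) ∈ g b ↔ i ∈ s := by
    intro s
    have hfin : ((fun i : Fin k => (i : ℕ)) '' s).Finite := s.toFinite.image _
    obtain ⟨b, hb⟩ := hg hfin.toFinset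
    refine ⟨b, fun i => ?_⟩
    rw [hb, Set.Finite.mem_toFinset]
    constructor
    · rintro ⟨i', h1, h2⟩
      rwa [Fin.val_injective h2] at h1
    · intro h1
      exact ⟨i, h1, rfl⟩
  choose b hb using hcode
  refine hk ⟨fun i => x i, fun s => y (b s), fun i s => ?_⟩
  rw [← hb s i]
  constructor
  · rintro ⟨w, ⟨a, b', rfl, hab⟩, hw⟩
    obtain ⟨h1, h2⟩ := (hxyz _ _ _ _).1 hw
    rw [h1, h2]
    exact hab
  · intro h1
    exact ⟨_, ⟨i, b s, rfl, h1⟩, (hxyz _ _ _ _).2 ⟨rfl, rfl⟩⟩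

/-- no independence property -/
theorem nip_of (L : FirstOrder.Language.{0, 0}) (hL : Countable L.Symbols) (T : L.Theory)
    (hT : ∀ S : L.Structure ℕ, @FirstOrder.Language.Theory.Model L ℕ S T → @NipO L ℕ S)
    (U : Type) [L.Structure U] (hUT : U ⊨ T) (hinf : Infinite U) :
    ∀ (m n : ℕ) (P : (Fin m ⊕ Fin n → U) → Prop), Dp L (∅ : Set U) P →
      ∃ k, ¬ Sh (fun (x : Fin m → U) (y : Fin n → U) => P (Sum.elim x y)) k := by
  classical
  intro m n P hP
  by_contra hcon
  push Not at hcon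
  obtain ⟨ψ, hψ⟩ := dp_form hP
  let φ : L.Formula ((Fin m ⊕ Fin n) ⊕ Unit) :=
    ψ.relabel (Sum.elim (fun a => absurd a.2 (notMem_empty _)) (fun i => Sum.inl i))
  have hφ : ∀ (x : Fin m → U) (y : Fin n → U) (z : U), P (Sum.elim x y) ↔
      φ.Realize (Sum.elim (Sum.elim x y) fun _ => z) := by
    intro x y z
    have h1 := hψ (Sum.elim x y)
    refine h1.trans ?_
    show _ ↔ (ψ.relabel _).Realize _
    rw [FirstOrder.Language.Formula.realize_relabel]
    apply iff_of_eq
    congr 1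
    funext i
    rcases i with i | i
    · exact absurd i.2 (notMem_empty _)
    · rfl
  choose x y hxy using hcon
  obtain ⟨S, i, hi, hX, hel, hmod, hreal⟩ := Pool.Agent.MST.thm_CMS Pool.Agent.MST.thm_ELX L hL U hinf
    ((⋃ k, ⋃ a, range (x k a)) ∪ ⋃ k, ⋃ s, range (y k s)) (by
      refine Countable.union ?_ ?_
      · exact countable_iUnion fun k => countable_iUnion fun a => countable_range _
      · refine countable_iUnion fun k => ?_
        have : Finite (Set (Fin k)) := inferInstance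
        exact countable_iUnion fun s => countable_range _)
  have hx : ∀ k a t, ∃ u : ℕ, i u = x k a t := fun k a t =>
    hX (Or.inl (mem_iUnion.2 ⟨k, mem_iUnion.2 ⟨a, t, rfl⟩⟩))
  have hy : ∀ k s t, ∃ u : ℕ, i u = y k s t := fun k s t =>
    hX (Or.inr (mem_iUnion.2 ⟨k, mem_iUnion.2 ⟨s, t, rfl⟩⟩))
  choose x' hx' using hx
  choose y' hy' using hy
  have hmodT : @FirstOrder.Language.Theory.Model L ℕ S T := by
    refine @FirstOrder.Language.Theory.Model.mk L ℕ S _ fun χ hχ => ?_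
    refine @FirstOrder.Language.Theory.realize_sentence_of_mem L ℕ S _ hmod χ ?_
    have h2 : U ⊨ χ := FirstOrder.Language.Theory.realize_sentence_of_mem T hχ
    exact h2
  obtain ⟨k, hk⟩ := hT S hmodT univ m n φ
  refine hk ⟨x' k, y' k, fun a s => ?_⟩
  have key : ∀ z : ℕ, @FirstOrder.Language.Formula.Realize L ℕ S _ φ
      (Sum.elim (Sum.elim (x' k a) (y' k s)) fun _ => z) ↔ a ∈ s := by
    intro z
    have h1 := (hφ (x k a) (y k s) (i z)).symm.trans (hxy k a s)
    refine Iff.trans ?_ h1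
    rw [hreal]
    apply iff_of_eq
    congr 1
    funext t
    rcases t with (t | t) | t
    · exact hx' k a t
    · exact hy' k s t
    · rfl
  constructor
  · rintro ⟨z, -, hz⟩
    exact (key z).1 hz
  · intro h
    exact ⟨0, mem_univ _, (key 0).2 h⟩

section named

variable {L : FirstOrder.Language.{0, 0}} {U V : Type} [L.Structure U] [L.Structure V] {i : U → V}

/-- the embedding with the finite set `A` named -/
theorem emb_named (hi : Emb L i) {A : Set U} (hA : A.Finite) :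
    @Emb (L[[A]]) V U (cst L (fun a : A => i a)) (cst L (fun a : A => (a : U))) i := by
  refine @Emb.mk (L[[A]]) V U (cst L (fun a : A => i a)) (cst L (fun a : A => (a : U))) i hi.inj ?_ ?_
  · intro s hs hne
    have h1 : Dp L (range (fun a : A => i a) ∪ range i) (fun v : Fin 1 → V => v 0 ∈ s) :=
      cst_down (fun a : A => i a) hs
    have h2 : range (fun a : A => i a) ∪ range i = range i := by
      refine union_eq_self_of_subset_left ?_
      rintro _ ⟨a, rfl⟩
      exact ⟨a, rfl⟩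
    rw [h2] at h1
    exact hi.el s h1 hne
  · intro α _ φ v
    have : Finite A := hA
    rw [cst_fml, cst_fml, hi.fm (A ⊕ α) (cvf φ)]
    apply iff_of_eq
    congr 1
    funext k
    rcases k with k | k <;> rfl

/-- the context in `V` with the finite set `A ⊆ U` named -/
theorem cx_named (hL : Countable L.Symbols) (hi : Emb L i) (hM : Mon L U) (hV : Pool.Agent.MST.SatW L V)
    (hnip : ∀ (m n : ℕ) (P : (Fin m ⊕ Fin n → V) → Prop), Dp L (∅ : Set V) P →
      ∃ k, ¬ Sh (fun (x : Fin m → V) (y : Fin n → V) => P (Sum.elim x y)) k)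
    (hcod : ∀ (m n : ℕ) (P : (Fin m → V) → (Fin n → V) → V → Prop),
      Dp L (∅ : Set V) (fun v : (Fin m ⊕ Fin n) ⊕ Unit → V =>
        P (fun i => v (Sum.inl (Sum.inl i))) (fun i => v (Sum.inl (Sum.inr i))) (v (Sum.inr ()))) →
      ∃ k, ¬ Exa P k)
    {A : Set U} (hA : A.Finite) (hEB : ∀ B : Set V, B.Finite → i '' A ⊆ B → EBA L B) :
    @Cx (L[[A]]) V (cst L (fun a : A => i a)) := by
  have hAf : Finite A := hA
  have hne : Nonempty U := by
    have := hM.inf
    infer_instance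
  refine @Cx.mk (L[[A]]) V (cst L (fun a : A => i a)) (cst_ctb inferInstance hL) (hne.map i)
    (cst_sat _ inferInstance hV) ?_ ?_ (cst_nip _ hnip) (cst_cod _ hcod)
  · intro B hB n a
    refine cst_eba (fun a : A => i a) (hEB _ ((finite_range _).union hB) ?_) n a
    rintro _ ⟨x, hx, rfl⟩
    exact Or.inl ⟨⟨x, hx⟩, rfl⟩
  · intro n
    have hc : Countable U := hM.ctb
    refine ⟨range (fun (w : Fin n → U) (k : Fin n) => i (w k)), countable_range _, fun x => ?_⟩
    obtain ⟨w, hw⟩ := rlz hi hM hA x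
    refine ⟨_, ⟨w, rfl⟩, (cst_tq _).2 (tq_mono ?_ hw)⟩
    rintro _ (⟨a, rfl⟩ | h)
    · exact ⟨a, a.2, rfl⟩
    · exact absurd h (notMem_empty _)

/-- the interface in `U` with `A` named -/
theorem hyp_named (hStr : ∀ (L : FirstOrder.Language.{0, 0}) (V : Type) [L.Structure V], Cx L V → HypV L V)
    (hL : Countable L.Symbols) (hi : Emb L i) (hM : Mon L U) (hV : Pool.Agent.MST.SatW L V)
    (hnip : ∀ (m n : ℕ) (P : (Fin m ⊕ Fin n → V) → Prop), Dp L (∅ : Set V) P →
      ∃ k, ¬ Sh (fun (x : Fin m → V) (y : Fin n → V) => P (Sum.elim x y)) k)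
    (hcod : ∀ (m n : ℕ) (P : (Fin m → V) → (Fin n → V) → V → Prop),
      Dp L (∅ : Set V) (fun v : (Fin m ⊕ Fin n) ⊕ Unit → V =>
        P (fun i => v (Sum.inl (Sum.inl i))) (fun i => v (Sum.inl (Sum.inr i))) (v (Sum.inr ()))) →
      ∃ k, ¬ Exa P k)
    {A : Set U} (hA : A.Finite) (hEB : ∀ B : Set V, B.Finite → i '' A ⊆ B → EBA L B) :
    Pool.Agent.TPC.Hyp (L[[A]]) U := by
  have hC := cx_named hL hi hM hV hnip hcod hA hEB
  have hM' : Mon (L[[A]]) U := PRM.mon hM hA
  exact @hyp_of (L[[A]]) U V _ (cst L (fun a : A => i a)) i hC (emb_named hi hA) hM'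
    (@hStr (L[[A]]) V (cst L (fun a : A => i a)) hC)

/-- a finite set of parameters in each elementary submodel -/
theorem ex_par (hL : Countable L.Symbols) (hi : Emb L i) (hM : Mon L U) (T : L.Theory) (hUT : U ⊨ T)
    (hT : ∀ S : L.Structure ℕ, @FirstOrder.Language.Theory.Model L ℕ S T → @EBP L ℕ S)
    {M : Set U} (hMel : IsEl L M) :
    ∃ A : Set U, A.Finite ∧ A ⊆ M ∧ ∀ B : Set V, B.Finite → i '' A ⊆ B → EBA L B := by
  have hcU : Countable U := hM.ctb
  have hinf : Infinite U := hM.inf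
  have hVi : Infinite V := Infinite.of_injective i hi.inj
  have hMi : M.Infinite := (Pool.Agent.MST.thm_ELX L U).2.2.1 hinf M hMel
  have hc : Countable M := inferInstance
  have hinfM : Infinite M := hMi.to_subtype
  obtain ⟨e⟩ : Nonempty (ℕ ≃ M) := nonempty_equiv_of_countable
  let u : ℕ → U := fun n => ((e n : M) : U)
  have hr : range u = M := by
    ext x
    constructor
    · rintro ⟨n, rfl⟩
      exact (e n).2
    · intro hx
      exact ⟨e.symm ⟨x, hx⟩, by simp [u]⟩
  have hui : Function.Injective u := Subtype.val_injective.comp e.injective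
  have huel : IsEl L (range u) := by
    rw [hr]
    exact hMel
  obtain ⟨S, hS⟩ := Pool.Agent.WOM.thm_PULL (Pool.Agent.WOM.thm_DEF1 Pool.Agent.WOM.thm_DEFF) L U u hui huel
  have key : ∀ (n : ℕ) (φ : L.Formula (Fin n)) (v : Fin n → ℕ),
      @FirstOrder.Language.Formula.Realize L ℕ S _ φ v ↔ φ.Realize (fun j => u (v j)) := by
    intro n φ v
    have h : φ ∈ @tp L ℕ S n v ↔ φ ∈ tp (L := L) (u ∘ v) := by rw [hS n v]
    exact h
  have hu : @Emb L U ℕ _ S u := @emb_mk L ℕ U S _ u key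
  have hmod : @FirstOrder.Language.Theory.Model L ℕ S T := by
    refine @FirstOrder.Language.Theory.Model.mk L ℕ S _ fun χ hχ => ?_
    have h7 : U ⊨ χ := FirstOrder.Language.Theory.realize_sentence_of_mem T hχ
    have h8 : ∀ v : Empty → ℕ, @FirstOrder.Language.Formula.Realize L ℕ S Empty χ v := by
      intro v
      refine (@Emb.fm L U ℕ _ S u hu Empty _ χ v).2 ?_
      have h9 : ∀ w : Empty → U, FirstOrder.Language.Formula.Realize χ w := by
        intro w
        rw [Subsingleton.elim w (@default (Empty → U) Unique.instInhabited)]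
        exact h7
      exact h9 _
    exact h8 _
  obtain ⟨A₀, hA₀, hA₀'⟩ := hT S hmod
  refine ⟨u '' A₀, hA₀.image u, ?_, fun B hB hAB => ?_⟩
  · rintro _ ⟨n, -, rfl⟩
    exact (e n).2
  · refine eba_of hL hVi hB (X₀ := i '' M) ((Set.to_countable M).image i) fun S' i' hi' hBi hMi' => ?_
    have h1 : ∀ n, ∃ k, i' k = i (u n) := by
      intro n
      obtain ⟨k, hk⟩ := hMi' (mem_image_of_mem i (show u n ∈ M from (e n).2))
      exact ⟨k, hk⟩
    choose k hk using h1
    have hkE : @Emb L ℕ ℕ S' S k := by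
      refine @emb_mk L ℕ ℕ S S' k fun n φ v => ?_
      rw [key n φ v, hi.fm (Fin n) φ, @Emb.fm L V ℕ _ S' i' hi' (Fin n) _ φ (fun j => k (v j))]
      apply iff_of_eq
      congr 1
      funext j
      exact (hk (v j)).symm
    refine hA₀' S' k hkE (i' ⁻¹' B) (hB.preimage (@Emb.inj L V ℕ _ S' i' hi').injOn) ?_
    rintro _ ⟨n, hn, rfl⟩
    show i' (k n) ∈ B
    rw [hk]
    exact hAB ⟨u n, ⟨n, hn, rfl⟩, rfl⟩

/-- the count in `U` -/
theorem ct_of (hStr : ∀ (L : FirstOrder.Language.{0, 0}) (V : Type) [L.Structure V], Cx L V → HypV L V)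
    (hCnt : ∀ (L : FirstOrder.Language.{0, 0}) (U : Type) [L.Structure U], Countable L.Symbols → Mon L U →
      Pool.Agent.TPC.Hyp L U → NPf L U → CtU L U)
    (hL : Countable L.Symbols) (hi : Emb L i) (hM : Mon L U) (hV : Pool.Agent.MST.SatW L V)
    (hN : NPf L U) (T : L.Theory) (hUT : U ⊨ T) (hVT : V ⊨ T)
    (hT : ∀ S : L.Structure ℕ, @FirstOrder.Language.Theory.Model L ℕ S T → @NipO L ℕ S ∧ @EBP L ℕ S) :
    CtU L U := by
  classical
  have hcU : Countable U := hM.ctb
  have hinf : Infinite U := hM.inf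
  have hVi : Infinite V := Infinite.of_injective i hi.inj
  have hnip := nip_of L hL T (fun S hS => (hT S hS).1) V hVT hVi
  have hcod := cod_of L hL T (fun S hS => (hT S hS).1) V hVT hVi
  have h1 : ∀ A : Set U, ∃ g : ℕ → Set U, (A.Finite ∧ ∀ B : Set V, B.Finite → i '' A ⊆ B → EBA L B) →
      ∀ M : Set U, IsEl (L[[A]]) M → ∃ k, IsoM (L[[A]]) M (g k) := by
    intro A
    by_cases h : A.Finite ∧ ∀ B : Set V, B.Finite → i '' A ⊆ B → EBA L B
    · have : Finite A := h.1
      obtain ⟨g, hg⟩ := hCnt (L[[A]]) U (cst_ctb inferInstance hL) (PRM.mon hM h.1)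
        (hyp_named hStr hL hi hM hV hnip hcod h.1 h.2) (PRM.npf hN h.1)
      exact ⟨g, fun _ => hg⟩
    · exact ⟨fun _ => ∅, fun h' => absurd h' h⟩
  choose g hg using h1
  have : Countable (Finset U) := inferInstance
  obtain ⟨e, he⟩ := exists_surjective_nat (Finset U × ℕ)
  refine ⟨fun k => g (e k).1 (e k).2, fun M hMel => ?_⟩
  obtain ⟨A, hA, hAM, hAB⟩ := ex_par hL hi hM T hUT (fun S hS => (hT S hS).2) hMel
  obtain ⟨k, hk⟩ := hg A ⟨hA, hAB⟩ M (PRM.el hMel hAM)
  obtain ⟨q, hq⟩ := he (hA.toFinset, k)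
  refine ⟨q, ?_⟩
  show IsoM L M (g (e q).1 (e q).2)
  rw [hq]
  show IsoM L M (g (hA.toFinset : Set U) k)
  rw [hA.coe_toFinset]
  exact PRM.isoM hk

end named

/-- THE THEOREM: Vaught's conjecture for monadically NIP theories whose finite sets (over finitely many parameters) are
extension bases -/
def St_T6P : Prop :=
  ∀ (L : FirstOrder.Language.{0, 0}), Countable L.Symbols → ∀ T : L.Theory,
    (∀ S : L.Structure ℕ, @FirstOrder.Language.Theory.Model L ℕ S T → @NipO L ℕ S ∧ @EBP L ℕ S) →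
    CtT L T ∨ PerfT L T

theorem T6P_of (hStr : ∀ (L : FirstOrder.Language.{0, 0}) (V : Type) [L.Structure V], Cx L V → HypV L V)
    (hCnt : ∀ (L : FirstOrder.Language.{0, 0}) (U : Type) [L.Structure U], Countable L.Symbols → Mon L U →
      Pool.Agent.TPC.Hyp L U → NPf L U → CtU L U) (hNPU : Pool.Agent.PMC.St_NPU) : St_T6P := by
  have hDEF1 := Pool.Agent.WOM.thm_DEF1 Pool.Agent.WOM.thm_DEFF
  have hREAL := Pool.Agent.WOM.thm_REAL Pool.Agent.WOM.thm_MEAS
  intro L hL T hT
  refine (Pool.Agent.WOM.thm_INC Pool.Agent.WOM.thm_MEAS hREAL) L hL T fun S hS => ?_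
  by_cases hp : PerfT L (ThS L S)
  · exact Or.inr hp
  · have hsm : Pool.Agent.WOM.Small L (ThS L S) := by
      by_contra h
      exact hp ((Pool.Agent.WOM.thm_NSM Pool.Agent.WOM.thm_MEAS hREAL) L hL _ h)
    obtain ⟨W, _, _, hW, hsW⟩ := (Pool.Agent.WOM.thm_ULT hDEF1) L hL S
    obtain ⟨U, _, hc, hi, hU, hsU⟩ := (Pool.Agent.WOM.thm_SUBM hDEF1) L hL S hsm W hW hsW
    have hM : Mon L U := (Pool.Agent.WOM.thm_HOMG hDEF1) L U hc hi hsU
    have hN := (thm_NPG hNPU) L hL U hM S hU hp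
    obtain ⟨V, _, hV, ⟨j⟩⟩ := Pool.Agent.MST.thm_SAW L hL U inferInstance
    have hUT : U ⊨ T := Pool.Agent.WOM.TOP_mono L T S hS U hU
    have hVT : V ⊨ T := (j.theory_model_iff T).1 hUT
    exact Or.inl ((Pool.Agent.WOM.thm_TRC (Pool.Agent.WOM.thm_EMB hDEF1)) L U hM
      (ct_of hStr hCnt hL (emb_ele j) hM hV hN T hUT hVT hT) S hU)

end Pool.Agent.TPX
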