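import Pool.Agent.TPX.Brg2

/-!
# TPX, bridge, part 3: `HypV L V` gives `TPC.Hyp L U`
-/

set_option autoImplicit false
set_option linter.unusedVariables false

namespace Pool.Agent.TPX

open FirstOrder.Language Set
open scoped FirstOrder
open Pool.Agent.MNO
open Pool.Agent.WOM (tp Mon IsEl IsoM CtU Fx Orb Isd)

section

variable {L : FirstOrder.Language.{0, 0}} {U V : Type} [L.Structure U] [L.Structure V] {i : U → V}

theorem tq_fx1 (hi : Emb L i) {B : Set U} (hB : B.Finite) {g : U ≃[L] U} (hg : Fx L B g) (x : U) :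
    Tq L (i '' B) (s1 (i x)) (s1 (i (g x))) := (tq_emb hi hB (s1 x) (s1 (g x))).2 (tq_fx hg (s1 x))

theorem tq_fx2 (hi : Emb L i) {B : Set U} (hB : B.Finite) {g : U ≃[L] U} (hg : Fx L B g) (x y : U) :
    Tq L (i '' B) ![i x, i y] ![i (g x), i (g y)] := by
  have h1 := (tq_emb hi hB (![x, y] : Fin 2 → U) _).2 (tq_fx hg (![x, y] : Fin 2 → U))
  refine tq_congr h1 ?_ ?_ <;>
  · funext k
    fin_cases k <;> rfl

theorem fxi {E : Set V} {B : Set U} (hi : Emb L i) (hB : B.Finite)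
    (hE : ∀ x y : V, Tq L (i '' B) (s1 x) (s1 y) → x ∈ E → y ∈ E) (g : U ≃[L] U) (hg : Fx L B g) (x : U) :
    i (g x) ∈ E ↔ i x ∈ E :=
  ⟨fun h => hE _ _ (tq_symm (tq_fx1 hi hB hg x)) h, fun h => hE _ _ (tq_fx1 hi hB hg x) h⟩

/-- linear pieces restrict to `U` -/
theorem lin_of (hC : Cx L V) (hi : Emb L i) (hM : Mon L U) {B : Set U} {E : Set V} {lt : V → V → Prop}
    (hL : LinV L (i '' B) E lt) : Pool.Agent.TPC.Lin L B (i ⁻¹' E) (fun x y => lt (i x) (i y)) := by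
  classical
  have hB : B.Finite := Set.Finite.of_finite_image hL.fin hi.inj.injOn
  refine ⟨hB, ?_, (bq_iff hM hB).2 (bf_pre hi hB hL.bf), fun g hg x => fxi hi hB hL.tqE g hg x, ?_,
    fun x hx => hL.irr _ hx, fun x hx y hy z hz => hL.tra _ hx _ hy _ hz,
    fun x hx y hy z hz => hL.neg _ hx _ hy _ hz, ?_, ?_, ?_⟩
  · obtain ⟨x, hx⟩ := hL.ne
    obtain ⟨y, hy⟩ := mv hi hM hB finite_empty x
    exact ⟨y, hL.tqE _ _ (mv1 hy) hx⟩
  · intro g hg x hx y hy
    exact ⟨fun h => hL.tql _ _ _ _ (tq_symm (tq_fx2 hi hB hg x y)) ((fxi hi hB hL.tqE g hg x).2 hx)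
      ((fxi hi hB hL.tqE g hg y).2 hy) h, fun h => hL.tql _ _ _ _ (tq_fx2 hi hB hg x y) hx hy h⟩
  · intro S W hS hW hSE hWE hSW g g' hg hg' hlt
    obtain ⟨m, u, hu⟩ := exists_enum hS
    obtain ⟨n, w, hw⟩ := exists_enum hW
    have huS : ∀ k, u k ∈ S := fun k => by
      rw [← hu]
      exact ⟨k, rfl⟩
    have hwW : ∀ k, w k ∈ W := fun k => by
      rw [← hw]
      exact ⟨k, rfl⟩
    have h1 := hL.ort m n (fun k => i (u k)) (fun k => i (g (u k))) (fun k => i (w k)) (fun k => i (g' (w k)))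
      (fun k => hSE (huS k)) (fun k => hWE (hwW k)) ((sq_emb hi hB u _).2 (nx_sq hg u))
      ((sq_emb hi hB w _).2 (nx_sq hg' w)) (fun a b => hSW _ (huS a) _ (hwW b))
      (fun a b => hlt _ ⟨_, huS a, rfl⟩ _ ⟨_, hwW b, rfl⟩)
    rw [← elim_comp (i := i) u w, ← elim_comp (i := i) (fun k => g (u k)) (fun k => g' (w k))] at h1
    obtain ⟨h, hh, hh'⟩ := nx_of_sq hM hB ((sq_emb hi hB _ _).1 h1)
    refine ⟨h, hh, fun x hx => ?_, fun x hx => ?_⟩
    · rw [← hu] at hx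
      obtain ⟨k, rfl⟩ := hx
      exact hh' (Sum.inl k)
    · rw [← hw] at hx
      obtain ⟨k, rfl⟩ := hx
      exact hh' (Sum.inr k)
  · intro D W hD hW hDE hWE hDW z hz
    obtain ⟨z', h1, h2, h3⟩ := hL.gap (i '' D) (i '' W) (hD.image i) (hW.image i)
      (image_subset_iff.2 hDE) (image_subset_iff.2 hWE) (by
        rintro _ ⟨d, hd, rfl⟩ _ ⟨w, hw, rfl⟩
        exact hDW d hd w hw) (i z) hz
    have hz' : z' ∈ E := hL.tqE _ _ (tq_of_sq h1) hz
    obtain ⟨y, hy⟩ := mv hi hM hB ((hD.union hW).insert z) z'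
    have h4 : Sq L (i '' B) (s1 (i z)) (s1 (i y)) := by
      refine sq_tq0 (x := s1 (i z)) (y := s1 z') ?_ h1
      refine tq_congr (tq_sub (mv2 hy (mem_insert z _)) (Sum.elim (fun _ => 0) (fun _ => 1) :
        Fin 1 ⊕ Fin 1 → Fin 2)) ?_ ?_ <;>
      · funext k
        rcases k with k | k <;> rfl
    obtain ⟨g, hg, hgz⟩ := nx_pt hM hB ((sq_pt hi hB).1 h4)
    refine ⟨g, hg, ?_, ?_⟩
    · intro d hd v hv
      rw [mem_singleton_iff] at hv
      subst hv
      rw [hgz]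
      exact hL.tql _ _ _ _ (mv2 hy (mem_insert_of_mem z (Or.inl hd))) (hDE hd) hz' (h2 _ ⟨d, hd, rfl⟩)
    · intro v hv w hw
      rw [mem_singleton_iff] at hv
      subst hv
      rw [hgz]
      exact hL.tql _ _ _ _ (mv2' hy (mem_insert_of_mem z (Or.inr hw))) hz' (hWE hw) (h3 _ ⟨w, hw, rfl⟩)
  · intro C hCf hBC x hx hpos P hP hxP
    by_contra hcon
    push Not at hcon
    -- the counterexamples
    have h1 : ∀ F : {F : U → U → Prop // FE1 L B F}, ∃ y ∈ Orb L B x, F.1 x y ∧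
        (∀ b ∈ C, b ∈ i ⁻¹' E → (lt (i b) (i x) → lt (i b) (i y)) ∧ (lt (i x) (i b) → lt (i y) (i b))) ∧
        y ∉ P := by
      intro F
      obtain ⟨y, hy, h2, h3, h4⟩ := hcon F.1 F.2
      exact ⟨y, hy, h2, h3, h4⟩
    choose y hyO hyF hyp hyP using h1
    -- the ultrafilter
    let Φ : Set (Set {F : U → U → Prop // FE1 L B F}) := range fun F₀ : {F : U → U → Prop // FE1 L B F} =>
        {F : {F : U → U → Prop // FE1 L B F} | ∀ a b, F.1 a b → F₀.1 a b}
    have hne : (Filter.generate Φ).NeBot := by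
      rw [Filter.generate_neBot_iff]
      intro t ht htf
      -- a common refinement
      have h2 : ∀ T : Set {F : U → U → Prop // FE1 L B F}, ∃ F₀ : {F : U → U → Prop // FE1 L B F}, T ∈ t →
          T = {F | ∀ a b, F.1 a b → F₀.1 a b} := by
        intro T
        by_cases hT : T ∈ t
        · obtain ⟨F₀, hF₀⟩ := ht hT
          exact ⟨F₀, fun _ => hF₀.symm⟩
        · exact ⟨⟨fun _ _ => True, fe_top B⟩, fun h => absurd h hT⟩
      choose f hf using h2
      obtain ⟨E', hE', hE''⟩ := fe_inf (A := B)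
        (G := (fun T => fun a b : Fin 1 → U => (f T).1 (a 0) (b 0)) '' t) (htf.image _) (by
          rintro _ ⟨T, hT, rfl⟩
          exact (f T).2)
      have hE1 : FE1 L B (fun a b => E' (s1 a) (s1 b)) := by
        have e : (fun a b : Fin 1 → U => E' (s1 (a 0)) (s1 (b 0))) = E' := by
          funext a b
          rw [s1_eta, s1_eta]
        unfold FE1
        rw [e]
        exact hE'
      refine ⟨⟨_, hE1⟩, fun T hT => ?_⟩
      rw [hf T hT]
      intro a b hab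
      exact hE'' _ ⟨T, hT, rfl⟩ _ _ hab
    let 𝒰 : Ultrafilter {F : U → U → Prop // FE1 L B F} := Ultrafilter.of (Filter.generate Φ)
    have h𝒰 : ∀ F₀ : {F : U → U → Prop // FE1 L B F}, {F : {F : U → U → Prop // FE1 L B F} |
        ∀ a b, F.1 a b → F₀.1 a b} ∈ 𝒰 :=
      fun F₀ => Ultrafilter.of_le _ (Filter.mem_generate_of_mem ⟨F₀, rfl⟩)
    obtain ⟨u, hu⟩ := lim_ex hC 𝒰 (fun F => i (y F)) (hCf.image i).countable
    -- (1) the strong type over `B`
    have h2 : Sq L (i '' B) (s1 (i x)) (s1 u) := by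
      intro E' hE'
      have h3 := fe_pull hi (hB.image i) (image_subset_range i B) hE'
      rw [pre_img hi] at h3
      have h4 : FE1 L B (fun a b => E' (s1 (i a)) (s1 (i b))) := by
        have e : (fun a b : Fin 1 → U => E' (s1 (i (a 0))) (s1 (i (b 0)))) =
            fun a b : Fin 1 → U => E' (fun k => i (a k)) (fun k => i (b k)) := by
          funext a b
          have e1 : ∀ a : Fin 1 → U, s1 (i (a 0)) = fun k => i (a k) := fun a =>
            s1_eta (fun k => i (a k))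
          rw [e1, e1]
        unfold FE1
        rw [e]
        exact h3
      obtain ⟨F, hF, hF'⟩ := Ultrafilter.nonempty_of_mem (Filter.inter_mem (h𝒰 ⟨_, h4⟩)
        (hu E' (fe_mono (image_mono hBC) hE')))
      exact hE'.eqv.trans (hF x (y F) (hyF F)) hF'
    have hxE : i x ∈ E := hx
    have huE : u ∈ E := hL.tqE _ _ (tq_of_sq h2) hxE
    have hyx : ∀ F, Tq L (i '' B) (s1 (i x)) (s1 (i (y F))) := by
      intro F
      obtain ⟨g, hg, hgx⟩ := hyO F
      rw [← hgx]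
      exact tq_fx1 hi hB hg x
    have hyE : ∀ F, i (y F) ∈ E := fun F => hL.tqE _ _ (hyx F) hxE
    -- (2) the position
    have h5 : Tq L (i '' C) (s1 (i x)) (s1 u) := by
      refine lin_lim hL (hCf.image i) hxE h2 ?_
      rintro _ ⟨c, hc, rfl⟩ hcE
      rcases hpos c hc hcE with h6 | h6
      · refine Or.inl ⟨h6, hL.cup _ hcE _ huE fun F' hF' => ?_⟩
        obtain ⟨F, hF⟩ := Ultrafilter.nonempty_of_mem (hu _ (fe_pair (C := i '' C) (c := i c) ⟨c, hc, rfl⟩
          (fe_mono (image_mono hBC) hF')))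
        exact ⟨i (y F), hyE F, tq_trans (tq_symm (tq_of_sq h2)) (hyx F), ((hyp F) c hc hcE).1 h6, hF⟩
      · refine Or.inr ⟨h6, hL.cdn _ hcE _ huE fun F' hF' => ?_⟩
        obtain ⟨F, hF⟩ := Ultrafilter.nonempty_of_mem (hu _ (fe_pair (C := i '' C) (c := i c) ⟨c, hc, rfl⟩
          (fe_mono (image_mono hBC) hF')))
        exact ⟨i (y F), hyE F, tq_trans (tq_symm (tq_of_sq h2)) (hyx F), ((hyp F) c hc hcE).2 h6, hF⟩
    -- (3) the definable set
    have hP' : Dp L C (fun v : Fin 1 → U => v 0 ∈ P) := hP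
    obtain ⟨Q, hQ, hQP⟩ := dp_push hi hCf hP'
    have h6 : ∀ z : U, Q (s1 (i z)) ↔ z ∈ P := fun z => hQP (s1 z)
    have h7 : Q (s1 u) := (tq_iff h5 hQ).1 ((h6 x).2 hxP)
    obtain ⟨F, hF⟩ := Ultrafilter.nonempty_of_mem (hu _ (fe_of_dp hQ))
    exact hyP F ((h6 (y F)).1 (hF.2 h7))

/-- free unions of clusters restrict to `U` -/
theorem fre_of (hi : Emb L i) (hM : Mon L U) {B : Set U} {E : Set V} {cl : V → V → Prop}
    (hL : FreV L (i '' B) E cl) : Pool.Agent.TPC.Fre L B (i ⁻¹' E) (fun x y => cl (i x) (i y)) := by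
  have hB : B.Finite := Set.Finite.of_finite_image hL.fin hi.inj.injOn
  refine ⟨hB, (bq_iff hM hB).2 (bf_pre hi hB hL.bf), fun g hg x => fxi hi hB hL.tqE g hg x, ?_,
    fun x hx => hL.rfl _ hx, fun x hx y hy => hL.sym _ hx _ hy,
    fun x hx y hy z hz => hL.tra _ hx _ hy _ hz, ?_, ?_⟩
  · intro g hg x hx y hy
    exact ⟨fun h => hL.tqc _ _ _ _ (tq_symm (tq_fx2 hi hB hg x y)) ((fxi hi hB hL.tqE g hg x).2 hx)
      ((fxi hi hB hL.tqE g hg y).2 hy) h, fun h => hL.tqc _ _ _ _ (tq_fx2 hi hB hg x y) hx hy h⟩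
  · intro S W hS hW hSE hWE hSW g g' hg hg' hlt
    obtain ⟨m, u, hu⟩ := exists_enum hS
    obtain ⟨n, w, hw⟩ := exists_enum hW
    have huS : ∀ k, u k ∈ S := fun k => by
      rw [← hu]
      exact ⟨k, rfl⟩
    have hwW : ∀ k, w k ∈ W := fun k => by
      rw [← hw]
      exact ⟨k, rfl⟩
    have h1 := hL.ort m n (fun k => i (u k)) (fun k => i (g (u k))) (fun k => i (w k)) (fun k => i (g' (w k)))
      (fun k => hSE (huS k)) (fun k => hWE (hwW k)) ((sq_emb hi hB u _).2 (nx_sq hg u))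
      ((sq_emb hi hB w _).2 (nx_sq hg' w)) (fun a b => hSW _ (huS a) _ (hwW b))
      (fun a b => hlt _ (huS a) _ (hwW b))
    rw [← elim_comp (i := i) u w, ← elim_comp (i := i) (fun k => g (u k)) (fun k => g' (w k))] at h1
    obtain ⟨h, hh, hh'⟩ := nx_of_sq hM hB ((sq_emb hi hB _ _).1 h1)
    refine ⟨h, hh, fun x hx => ?_, fun x hx => ?_⟩
    · rw [← hu] at hx
      obtain ⟨k, rfl⟩ := hx
      exact hh' (Sum.inl k)
    · rw [← hw] at hx
      obtain ⟨k, rfl⟩ := hx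
      exact hh' (Sum.inr k)
  · intro z hz D hD hDE
    obtain ⟨z', h1, h2⟩ := hL.inf (i z) hz (i '' D) (hD.image i) (image_subset_iff.2 hDE)
    have hz' : z' ∈ E := hL.tqE _ _ (tq_of_sq h1) hz
    obtain ⟨y, hy⟩ := mv hi hM hB (hD.insert z) z'
    have h4 : Sq L (i '' B) (s1 (i z)) (s1 (i y)) := by
      refine sq_tq0 (x := s1 (i z)) (y := s1 z') ?_ h1
      refine tq_congr (tq_sub (mv2 hy (mem_insert z _)) (Sum.elim (fun _ => 0) (fun _ => 1) :
        Fin 1 ⊕ Fin 1 → Fin 2)) ?_ ?_ <;>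
      · funext k
        rcases k with k | k <;> rfl
    obtain ⟨g, hg, hgz⟩ := nx_pt hM hB ((sq_pt hi hB).1 h4)
    refine ⟨g, hg, fun d hd h5 => h2 _ ⟨d, hd, rfl⟩ ?_⟩
    rw [hgz] at h5
    have hyE : i y ∈ E := hL.tqE _ _ (mv1 hy) hz'
    exact hL.tqc _ _ _ _ (tq_symm (mv2 hy (mem_insert_of_mem z hd))) (hDE hd) hyE h5

end

end Pool.Agent.TPX
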