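import Pool.Agent.TPX.FRB
import Pool.Agent.TPX.TQE
import Pool.Agent.TPX.DefB

/-!
# TPX, the free case, part 3: the union of the free pieces satisfies `FreV`
-/

set_option autoImplicit false
set_option linter.unusedVariables false

namespace Pool.Agent.TPX

open FirstOrder.Language Set
open scoped FirstOrder
open Pool.Agent.MNO

variable {L : FirstOrder.Language.{0, 0}} {U : Type} [L.Structure U]

variable (L) in
/-- the union of the free pieces over `A` -/
def FE0 (A : Set U) : Set U := {y | ∃ r, Fr0 L A r ∧ y ∈ En L A r}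

variable (L) in
/-- `y`, `z` are in the same cluster -/
def Cl0 (A : Set U) (y z : U) : Prop := z ∈ Pc L A y ∧ ¬ Xn L A (insert y A) z

section frv

variable {r : ((Fin 1 → U) → Prop) → Prop} {A : Set U}

theorem fr_pc (hC : Cx L U) (h : Fr0 L A r) {y : U} (hy : y ∈ En L A r) : Pc L A y = En L A r :=
  e_eq hC h.gt h.nal h.inv Subset.rfl h.fin hy

/-- the end is the set of the elements with an invariant extension -/
theorem fr_xn (hC : Cx L U) (h : Fr0 L A r) {y : U} (hy : y ∈ En L A r) {B : Set U} (hAB : A ⊆ B)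
    (hB : B.Finite) : Xn L A B y ↔ y ∈ En L B r := by
  constructor
  · rintro ⟨p, hp, hN, hI, hE⟩
    rw [← fr_une hC h hp hN hI hy (ets_mono hAB hE) hAB hB]
    exact e_mem hp hN hE
  · intro h1
    exact e_div hC h.gt h.nal h.fin h.inv hAB hB h1

theorem fr_cl0 (hC : Cx L U) (h : Fr0 L A r) {y z : U} (hy : y ∈ En L A r) (hz : z ∈ En L A r) :
    Cl0 L A y z ↔ z ∉ En L (insert y A) r := by
  unfold Cl0
  rw [fr_xn hC h hz (subset_insert y A) (h.fin.insert y), fr_pc hC h hy]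
  exact ⟨fun h1 => h1.2, fun h1 => ⟨hz, h1⟩⟩

/-- (e) orthogonality in one piece -/
theorem fr_e (hC : Cx L U) (h : Fr0 L A r) {α β : Type} [Finite α] [Finite β] {u u' : α → U}
    {w w' : β → U} (hu : ∀ i, u i ∈ En L A r) (hw : ∀ j, w j ∈ En L A r)
    (hsu : Sq L A u u') (hsw : Sq L A w w') (h1 : ∀ i j, w j ∈ En L (insert (u i) A) r)
    (h2 : ∀ i j, w' j ∈ En L (insert (u' i) A) r) : Sq L A (Sum.elim u w) (Sum.elim u' w') := by
  have hbf := e_bf (B := A) hC h.gt h.inv Subset.rfl h.fin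
  have hu' : ∀ i, u' i ∈ En L A r := fun i => (bf_inv hbf hsu i).1 (hu i)
  have hw' : ∀ j, w' j ∈ En L A r := fun j => (bf_inv hbf hsw j).1 (hw j)
  obtain ⟨p, hp, hIp, hEp⟩ := cx_inv hC h.fin u
  have hCf : (A ∪ range w ∪ range w').Finite := (h.fin.union (finite_range _)).union (finite_range _)
  have hAC : A ⊆ A ∪ range w ∪ range w' := subset_union_left.trans subset_union_left
  obtain ⟨v, hv⟩ := gt_real hC hp (B := A ∪ range w ∪ range w') hCf.countable
  have hvE : Ets L (A ∪ range w ∪ range w') v p := hv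
  have hsv : Sq L A u v := ets_sq hp hEp (ets_mono hAC hvE)
  have hvA : ∀ i, v i ∈ En L A r := fun i => (bf_inv hbf hsv i).1 (hu i)
  have hvC : ∀ i, v i ∈ En L (A ∪ range w ∪ range w') r := by
    intro i
    have h3 : Ets L (A ∪ range w ∪ range w') (s1 (v i)) (mg L p (fun _ : Fin 1 => i)) :=
      ets_mg hvE (fun _ : Fin 1 => i)
    have hN : Nal (mg L p (fun _ : Fin 1 => i)) :=
      (nal_iff hC h.fin.countable (gt_mg hp _) (inv_mg hIp _) (ets_mono hAC h3)).2
        (fr_na hC h (hvA i))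
    rw [← fr_une hC h (gt_mg hp _) hN (inv_mg hIp _) (hvA i) (ets_mono hAC h3) hAC hCf]
    exact e_mem (gt_mg hp _) hN h3
  have hvw : ∀ i j, v i ∈ En L (insert (w j) A) r := by
    intro i j
    refine fr_mono hC h (subset_insert _ A) ?_ hCf (hvC i)
    rintro x (rfl | hx)
    · exact Or.inl (Or.inr ⟨j, rfl⟩)
    · exact hAC hx
  have hvw' : ∀ i j, v i ∈ En L (insert (w' j) A) r := by
    intro i j
    refine fr_mono hC h (subset_insert _ A) ?_ hCf (hvC i)
    rintro x (rfl | hx)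
    · exact Or.inr ⟨j, rfl⟩
    · exact hAC hx
  -- step 1
  have k1 : Sq L (A ∪ range w) u v := by
    refine fr_d' hC h (finite_range w) hu hvA ?_ ?_ hsv
    · rintro i _ ⟨j, rfl⟩
      exact fr_sym hC h (hu i) (h1 i j)
    · rintro i _ ⟨j, rfl⟩
      exact hvw i j
  -- step 2
  have k2 : Sq L (A ∪ range v) w w' := by
    refine fr_d' hC h (finite_range v) hw hw' ?_ ?_ hsw
    · rintro j _ ⟨i, rfl⟩
      exact fr_sym hC h (hw j) (hvw i j)
    · rintro j _ ⟨i, rfl⟩
      exact fr_sym hC h (hw' j) (hvw' i j)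
  -- step 3
  have k3 : Sq L (A ∪ range w') v u' := by
    refine fr_d' hC h (finite_range w') hvA hu' ?_ ?_ (sq_trans (sq_symm hsv) hsu)
    · rintro i _ ⟨j, rfl⟩
      exact hvw' i j
    · rintro i _ ⟨j, rfl⟩
      exact fr_sym hC h (hu' i) (h2 i j)
  have j1 := sq_mono subset_union_left (sq_add k1 w (fun j => Or.inr ⟨j, rfl⟩))
  have j2 := sq_mono subset_union_left (sq_add k2 v (fun j => Or.inr ⟨j, rfl⟩))
  have j3 := sq_mono subset_union_left (sq_add k3 w' (fun j => Or.inr ⟨j, rfl⟩))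
  exact sq_trans j1 (sq_trans (sq_swap j2) j3)

/-- transfer of a free piece -/
theorem fe0_tq (hC : Cx L U) {x y : U} (hT : Tq L A (s1 x) (s1 y)) (hx : x ∈ FE0 L A) :
    y ∈ FE0 L A := by
  obtain ⟨r, h, hxr⟩ := hx
  obtain ⟨p, hp, hI, hE⟩ := cx_inv hC h.fin (s1 y)
  -- `p` is not realised
  have hN : Nal p := by
    refine (nal_iff hC h.fin.countable hp hI hE).2 ?_
    obtain ⟨x₂, hne, hs⟩ := fr_na hC h hxr
    obtain ⟨w, hw⟩ := tq_ext hC h.fin.countable hT (s1 x₂)
    rw [← s1_eq w] at hw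
    refine ⟨w 0, ?_, sq_tq0 hw hs⟩
    intro h2
    exact hne ((tq_eq hw (Sum.inr 0) (Sum.inl 0)).2 h2)
  refine ⟨p, ⟨h.fin, hp, hN, hI, ?_⟩, e_mem hp hN hE⟩
  intro B hAB hB u hu v hv hvu
  by_contra hcon
  -- a realisation over everything
  have hBuf : (insert u B).Finite := hB.insert u
  have hBvf : (insert v B).Finite := hB.insert v
  obtain ⟨k, b, hb⟩ := exists_enum hB
  have hAB' : A ∪ range b = B := by
    rw [hb]
    exact union_eq_self_of_subset_left hAB
  have hfull : (A ∪ range (Sum.elim ![u, v] b)).Finite := h.fin.union (finite_range _)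
  have hAfull : A ⊆ A ∪ range (Sum.elim ![u, v] b) := subset_union_left
  obtain ⟨w, hw, -⟩ := e_real hC hp hN hI hAfull hfull
  have huf : u ∈ A ∪ range (Sum.elim ![u, v] b) := Or.inr ⟨Sum.inl 0, rfl⟩
  have hvf : v ∈ A ∪ range (Sum.elim ![u, v] b) := Or.inr ⟨Sum.inl 1, rfl⟩
  have hBsub : B ⊆ A ∪ range (Sum.elim ![u, v] b) := by
    rw [← hAB']
    refine union_subset_union_right _ ?_
    rintro _ ⟨i, rfl⟩
    exact ⟨Sum.inr i, rfl⟩
  have e1 := e_pc hC hp hN hI hAB hB (ets_mono hBsub hw)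
  have e2 := e_pc hC hp hN hI (hAB.trans (subset_insert u B)) hBuf
    (ets_mono (insert_subset huf hBsub) hw)
  have e3 := e_pc hC hp hN hI (hAB.trans (subset_insert v B)) hBvf
    (ets_mono (insert_subset hvf hBsub) hw)
  have e4 := e_pc hC hp hN hI Subset.rfl h.fin (ets_mono hAfull hw)
  have hyw : y ∈ Pc L A w := by
    rw [e4]
    exact e_mem hp hN hE
  rw [← e1] at hu hv
  rw [← e2] at hvu
  rw [← e3] at hcon
  -- move everything
  obtain ⟨t, ht⟩ := tq_ext hC h.fin.countable (tq_symm hT) (Sum.elim ![w, u, v] b)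
  have hw₁ : Xn L A (A ∪ range (Sum.elim ![t (Sum.inl 1), t (Sum.inl 2)] (fun i => t (Sum.inr i))))
      (t (Sum.inl 0)) := by
    refine xn_tq hC h.fin.countable (a := w) (c := Sum.elim ![u, v] b) ?_ ⟨p, hp, hN, hI, hw⟩
    have h1 := tq_sub ht (Sum.elim (fun _ => Sum.inr (Sum.inl 0)) (Sum.elim
      ![Sum.inr (Sum.inl 1), Sum.inr (Sum.inl 2)] (fun i => Sum.inr (Sum.inr i))) :
        Fin 1 ⊕ (Fin 2 ⊕ Fin k) → Fin 1 ⊕ (Fin 3 ⊕ Fin k))
    refine tq_congr h1 ?_ ?_
    · funext i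
      rcases i with i | i | i
      · rfl
      · fin_cases i <;> rfl
      · rfl
    · funext i
      rcases i with i | i | i
      · rfl
      · fin_cases i <;> rfl
      · rfl
  obtain ⟨q, hq, hqN, hqI, hqE⟩ := hw₁
  generalize hw1 : t (Sum.inl 0) = w₁ at hqE
  generalize hu1 : t (Sum.inl 1) = u₁ at hqE
  generalize hv1 : t (Sum.inl 2) = v₁ at hqE
  generalize hb1 : (fun i => t (Sum.inr i)) = b₁ at hqE
  have ht' : t = Sum.elim ![w₁, u₁, v₁] b₁ := by
    funext i
    rcases i with i | i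
    · fin_cases i
      · exact hw1
      · exact hu1
      · exact hv1
    · exact congrFun hb1 i
  rw [ht'] at ht
  clear hw1 hu1 hv1 hb1 ht'
  -- pieces
  have move : ∀ (a a' c c' : U) (f : Fin 1 ⊕ (Fin 3 ⊕ Fin k)) (g : Fin 1 ⊕ (Fin 3 ⊕ Fin k))
      (s : Fin 1 ⊕ (Fin 3 ⊕ Fin k)), Sum.elim (s1 y) (Sum.elim ![w, u, v] b) f = a →
      Sum.elim (s1 x) (Sum.elim ![w₁, u₁, v₁] b₁) f = a' →
      Sum.elim (s1 y) (Sum.elim ![w, u, v] b) g = c →
      Sum.elim (s1 x) (Sum.elim ![w₁, u₁, v₁] b₁) g = c' →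
      (c ∈ Pc L (A ∪ range b) a ↔ c' ∈ Pc L (A ∪ range b₁) a') := by
    intro a a' c c' f g s hf hf' hg hg'
    have h1 := tq_sub ht (Sum.elim ![f, g] (fun i => Sum.inr (Sum.inr i)) :
      Fin 2 ⊕ Fin k → Fin 1 ⊕ (Fin 3 ⊕ Fin k))
    have h2 : Tq L A (Sum.elim ![a, c] b) (Sum.elim ![a', c'] b₁) := by
      refine tq_congr h1 ?_ ?_
      · funext i
        rcases i with i | i
        · fin_cases i
          · exact hf.symm
          · exact hg.symm
        · rfl
      · funext i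
        rcases i with i | i
        · fin_cases i
          · exact hf'.symm
          · exact hg'.symm
        · rfl
    exact ⟨fun h3 => pc_tq hC h.fin.countable h2 h3,
      fun h3 => pc_tq hC h.fin.countable (tq_symm h2) h3⟩
  have move1 : ∀ (a a' c c' d d' : U) (f g s : Fin 1 ⊕ (Fin 3 ⊕ Fin k)),
      Sum.elim (s1 y) (Sum.elim ![w, u, v] b) f = a →
      Sum.elim (s1 x) (Sum.elim ![w₁, u₁, v₁] b₁) f = a' →
      Sum.elim (s1 y) (Sum.elim ![w, u, v] b) g = c →
      Sum.elim (s1 x) (Sum.elim ![w₁, u₁, v₁] b₁) g = c' →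
      Sum.elim (s1 y) (Sum.elim ![w, u, v] b) s = d →
      Sum.elim (s1 x) (Sum.elim ![w₁, u₁, v₁] b₁) s = d' →
      (c ∈ Pc L (insert d (A ∪ range b)) a ↔ c' ∈ Pc L (insert d' (A ∪ range b₁)) a') := by
    intro a a' c c' d d' f g s hf hf' hg hg' hs hs'
    have h1 := tq_sub ht (Sum.elim ![f, g] (Sum.elim (fun _ => s) (fun i => Sum.inr (Sum.inr i))) :
      Fin 2 ⊕ (Fin 1 ⊕ Fin k) → Fin 1 ⊕ (Fin 3 ⊕ Fin k))
    have h2 : Tq L A (Sum.elim ![a, c] (Sum.elim (s1 d) b)) (Sum.elim ![a', c'] (Sum.elim (s1 d') b₁)) := by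
      refine tq_congr h1 ?_ ?_
      · funext i
        rcases i with i | i | i
        · fin_cases i
          · exact hf.symm
          · exact hg.symm
        · exact hs.symm
        · rfl
      · funext i
        rcases i with i | i | i
        · fin_cases i
          · exact hf'.symm
          · exact hg'.symm
        · exact hs'.symm
        · rfl
    have e : ∀ (d : U) (b : Fin k → U), A ∪ range (Sum.elim (s1 d) b) = insert d (A ∪ range b) := by
      intro d b
      rw [Set.Sum.elim_range, range_s1, union_left_comm, singleton_union]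
    rw [← e, ← e]
    exact ⟨fun h3 => pc_tq hC h.fin.countable h2 h3,
      fun h3 => pc_tq hC h.fin.countable (tq_symm h2) h3⟩
  rw [← hAB'] at hu hv hvu hcon
  have m1 := (move w w₁ u u₁ (Sum.inr (Sum.inl 0)) (Sum.inr (Sum.inl 1)) (Sum.inl 0) rfl rfl rfl rfl).1 hu
  have m2 := (move w w₁ v v₁ (Sum.inr (Sum.inl 0)) (Sum.inr (Sum.inl 2)) (Sum.inl 0) rfl rfl rfl rfl).1 hv
  have m3 := (move1 w w₁ v v₁ u u₁ (Sum.inr (Sum.inl 0)) (Sum.inr (Sum.inl 2)) (Sum.inr (Sum.inl 1))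
    rfl rfl rfl rfl rfl rfl).1 hvu
  have m4 := (move1 w w₁ u u₁ v v₁ (Sum.inr (Sum.inl 0)) (Sum.inr (Sum.inl 1)) (Sum.inr (Sum.inl 2))
    rfl rfl rfl rfl rfl rfl).not.1 hcon
  have m5 : x ∈ Pc L A w₁ := by
    refine pc_tq0 hC h.fin.countable (x := w) (y := y) ?_ hyw
    have h1 := tq_sub ht (![Sum.inr (Sum.inl 0), Sum.inl 0] : Fin 2 → Fin 1 ⊕ (Fin 3 ⊕ Fin k))
    refine tq_congr h1 ?_ ?_
    · funext i
      fin_cases i <;> rfl
    · funext i
      fin_cases i <;> rfl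
  -- the type `q` and the set of parameters
  have hB₁f : (A ∪ range b₁).Finite := h.fin.union (finite_range _)
  have hfull₁ : (A ∪ range (Sum.elim ![u₁, v₁] b₁)).Finite := h.fin.union (finite_range _)
  have huf₁ : u₁ ∈ A ∪ range (Sum.elim ![u₁, v₁] b₁) := Or.inr ⟨Sum.inl 0, rfl⟩
  have hvf₁ : v₁ ∈ A ∪ range (Sum.elim ![u₁, v₁] b₁) := Or.inr ⟨Sum.inl 1, rfl⟩
  have hBsub₁ : A ∪ range b₁ ⊆ A ∪ range (Sum.elim ![u₁, v₁] b₁) := by
    refine union_subset_union_right _ ?_
    rintro _ ⟨i, rfl⟩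
    exact ⟨Sum.inr i, rfl⟩
  have hqA : Ets L A (s1 w₁) q := ets_mono subset_union_left hqE
  have hw₁r : w₁ ∈ En L A r := by
    rw [← fr_pc hC h hxr]
    exact pc_symm hC h.fin.countable m5
  have une : ∀ C : Set U, A ⊆ C → C ⊆ A ∪ range (Sum.elim ![u₁, v₁] b₁) → Pc L C w₁ = En L C r := by
    intro C hAC hCs
    have hCf := hfull₁.subset hCs
    rw [e_pc hC hq hqN hqI hAC hCf (ets_mono hCs hqE), fr_une hC h hq hqN hqI hw₁r hqA hAC hCf]
  rw [une _ subset_union_left hBsub₁] at m1 m2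
  rw [une _ (subset_union_left.trans (subset_insert _ _)) (insert_subset huf₁ hBsub₁)] at m3
  rw [une _ (subset_union_left.trans (subset_insert _ _)) (insert_subset hvf₁ hBsub₁)] at m4
  exact m4 (h.n0 _ subset_union_left hB₁f u₁ m1 v₁ m2 m3)

/-- **FRV**: the union of the free pieces -/
theorem fre_v (hC : Cx L U) (hA : A.Finite) : FreV L A (FE0 L A) (Cl0 L A) := by
  refine ⟨hA, ?_, fun x y hT hx => fe0_tq hC hT hx, ?_, ?_, ?_, ?_, ?_, ?_⟩
  · have e : FE0 L A = ⋃₀ {Q | ∃ r, Fr0 L A r ∧ Q = En L A r} := by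
      ext y
      constructor
      · rintro ⟨r, h, hy⟩
        exact ⟨_, ⟨r, h, rfl⟩, hy⟩
      · rintro ⟨_, ⟨r, h, rfl⟩, hy⟩
        exact ⟨r, h, hy⟩
    rw [e]
    refine bf_sUnion hC hA.countable ?_
    rintro _ ⟨r, h, rfl⟩
    exact e_bf hC h.gt h.inv Subset.rfl h.fin
  · intro x y x' y' hT hx hy hcl
    refine ⟨pc_tq0 hC hA.countable hT hcl.1, fun h1 => hcl.2 ?_⟩
    have h2 : A ∪ range (s1 x) = insert x A := by rw [range_s1, union_singleton]
    have h3 : A ∪ range (s1 x') = insert x' A := by rw [range_s1, union_singleton]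
    rw [← h3] at h1
    rw [← h2]
    refine xn_tq hC hA.countable ?_ h1
    have h4 := tq_sub (tq_symm hT) (Sum.elim (fun _ => 1) (fun _ => 0) : Fin 1 ⊕ Fin 1 → Fin 2)
    refine tq_congr h4 ?_ ?_
    · funext i
      rcases i with i | i <;> rfl
    · funext i
      rcases i with i | i <;> rfl
  · intro x hx
    refine ⟨mem_pc x, ?_⟩
    rintro ⟨p, hp, hN, hI, hE⟩
    exact nal_not hp hN hE (mem_insert x A)
  · rintro x ⟨r, h, hx⟩ y hy hcl
    have hyr : y ∈ En L A r := by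
      rw [← fr_pc hC h hx]
      exact hcl.1
    rw [fr_cl0 hC h hx hyr] at hcl
    rw [fr_cl0 hC h hyr hx]
    exact fun h1 => hcl (fr_sym hC h hyr h1)
  · rintro x ⟨r, h, hx⟩ y hy z hz hcl hcl'
    have hyr : y ∈ En L A r := by
      rw [← fr_pc hC h hx]
      exact hcl.1
    have hzr : z ∈ En L A r := by
      rw [← fr_pc hC h hyr]
      exact hcl'.1
    rw [fr_cl0 hC h hx hyr] at hcl
    rw [fr_cl0 hC h hyr hzr] at hcl'
    rw [fr_cl0 hC h hx hzr, fr_cl hC h hx hyr hcl]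
    exact hcl'
  · intro m n u u' w w' hu hw hsu hsw h1 h2
    refine prod hC hA.countable (fun j₀ => ?_)
    have hj₀ : Sum.elim u w j₀ ∈ FE0 L A := by
      rcases j₀ with i | j
      · exact hu i
      · exact hw j
    obtain ⟨r, h, hr⟩ := hj₀
    have hP := fr_pc hC h hr
    have hbf := e_bf (B := A) hC h.gt h.inv Subset.rfl h.fin
    have key := fr_e hC h (u := fun i : {i : Fin m // u i ∈ En L A r} => u i)
      (u' := fun i : {i : Fin m // u i ∈ En L A r} => u' i)
      (w := fun j : {j : Fin n // w j ∈ En L A r} => w j)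
      (w' := fun j : {j : Fin n // w j ∈ En L A r} => w' j)
      (fun i => i.2) (fun j => j.2) (sq_sub hsu _) (sq_sub hsw _)
      (fun i j => by
        by_contra h3
        exact h1 i j ((fr_cl0 hC h i.2 j.2).2 h3))
      (fun i j => by
        by_contra h3
        exact h2 i j ((fr_cl0 hC h ((bf_inv hbf hsu i).1 i.2) ((bf_inv hbf hsw j).1 j.2)).2 h3))
    refine sq_cov key ?_
    rintro ⟨i | j, hij⟩
    · have h3 : u i ∈ En L A r := by
        rw [← hP]
        exact hij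
      exact ⟨Sum.inl ⟨i, h3⟩, rfl, rfl⟩
    · have h3 : w j ∈ En L A r := by
        rw [← hP]
        exact hij
      exact ⟨Sum.inr ⟨j, h3⟩, rfl, rfl⟩
  · rintro z ⟨r, h, hz⟩ D hD hDE
    have hADf : (A ∪ D).Finite := hA.union hD
    obtain ⟨z', hs, hz'⟩ := e_rea (C := A ∪ D) hC h.gt h.nal h.inv Subset.rfl subset_union_left hADf hz
    refine ⟨z', hs, fun d hd hcl => ?_⟩
    have hz'A : z' ∈ En L A r := fr_mono hC h Subset.rfl subset_union_left hADf hz'
    have hdA : d ∈ En L A r := by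
      rw [← fr_pc hC h hz'A]
      exact pc_symm hC hA.countable hcl.1
    rw [fr_cl0 hC h hdA hz'A] at hcl
    exact hcl (fr_mono hC h (subset_insert d A) (insert_subset (Or.inr hd) subset_union_left) hADf hz')

/-- a piece without nested pairs over any finite set is part of a free union of clusters -/
theorem thm_FRV (hC : Cx L U) (h : Fr0 L A r) {x : U} (hx : x ∈ En L A r) :
    ∃ E cl, FreV L A E cl ∧ Pc L A x ⊆ E := by
  refine ⟨FE0 L A, Cl0 L A, fre_v hC h.fin, ?_⟩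
  rw [fr_pc hC h hx]
  exact fun y hy => ⟨r, h, hy⟩

end frv

end Pool.Agent.TPX
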