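import Pool.Agent.TPX.Fr1

/-!
# TPX, frame, part 2: invariant types, Morley sequences, bounded relations (BND), LI
-/

set_option autoImplicit false
set_option linter.unusedVariables false

namespace Pool.Agent.TPX

open FirstOrder.Language Set
open scoped FirstOrder
open Pool.Agent.MNO

variable {L : FirstOrder.Language.{0, 0}} {U : Type} [L.Structure U]

/-! ### auxiliary -/

/-- finitely many representatives, transported along a relation -/
theorem fin_rep {X Y : Type} {s : Set Y} (hs : s.Finite) {Q : X → Y → Prop}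
    (h : ∀ x, ∃ y ∈ s, Q x y) :
    ∃ t : Set X, t.Finite ∧ ∀ x, ∃ x' ∈ t, ∃ y ∈ s, Q x y ∧ Q x' y := by
  choose r hr hQ using h
  obtain ⟨t, -, ht⟩ := exists_subset_bijOn (univ : Set X) r
  have h1 : (r '' (univ : Set X)).Finite := hs.subset (by
    rintro _ ⟨x, -, rfl⟩
    exact hr x)
  refine ⟨t, Set.Finite.of_finite_image (by rw [ht.image_eq]; exact h1) ht.injOn, fun x => ?_⟩
  have h2 : r x ∈ r '' t := by
    rw [ht.image_eq]
    exact ⟨x, mem_univ x, rfl⟩
  obtain ⟨x', hx', e⟩ := h2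
  refine ⟨x', hx', r x, hr x, hQ x, ?_⟩
  rw [← e]
  exact hQ x'

/-- parameters in a finite equivalence relation -/
theorem fe_add {α β : Type} {A : Set U} {E : (α ⊕ β → U) → (α ⊕ β → U) → Prop} (hE : FE L A E)
    {c : β → U} (hc : ∀ i, c i ∈ A) :
    FE L A (fun x y : α → U => E (Sum.elim x c) (Sum.elim y c)) := by
  refine ⟨?_, ?_, ?_⟩
  · have h1 := dp_par (dp_sub hE.dfn (Sum.elim
      (Sum.elim (fun i => Sum.inl (Sum.inl i)) (fun j => Sum.inr j))
      (Sum.elim (fun i => Sum.inl (Sum.inr i)) (fun j => Sum.inr j)) :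
        (α ⊕ β) ⊕ (α ⊕ β) → (α ⊕ α) ⊕ β)) c hc
    refine dp_congr h1 (fun v => iff_of_eq ?_)
    congr 1
    · funext i
      rcases i with i | i <;> rfl
    · funext i
      rcases i with i | i <;> rfl
  · exact ⟨fun x => hE.eqv.refl _, fun hxy => hE.eqv.symm hxy,
      fun hxy hyz => hE.eqv.trans hxy hyz⟩
  · obtain ⟨s, hs, hs'⟩ := hE.fin
    obtain ⟨r, hr, hr'⟩ := fin_rep (X := α → U) hs
      (Q := fun x p => E (Sum.elim x c) p) (fun x => hs' _)
    refine ⟨r, hr, fun x => ?_⟩
    obtain ⟨x', hx', p, -, h1, h2⟩ := hr' x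
    exact ⟨x', hx', hE.eqv.trans h1 (hE.eqv.symm h2)⟩

/-- the number of classes -/
theorem fe_num {α : Type} {A : Set U} {E : (α → U) → (α → U) → Prop} (hE : FE L A E) :
    ∃ k : ℕ, ∀ z : Fin (k + 1) → (α → U), ∃ i j, i < j ∧ E (z i) (z j) := by
  obtain ⟨s, hs, hs'⟩ := hE.fin
  classical
  refine ⟨hs.toFinset.card, fun z => ?_⟩
  choose f hf hf' using hs'
  obtain ⟨i, -, j, -, hij, he⟩ := Finset.exists_ne_map_eq_of_card_lt_of_maps_to
    (s := (Finset.univ : Finset (Fin (hs.toFinset.card + 1)))) (t := hs.toFinset)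
    (f := fun i => f (z i)) (by simp) (fun i _ => by simpa using hf (z i))
  have h1 : E (z i) (z j) := by
    have h2 := hf' (z i)
    have h3 := hf' (z j)
    have h4 : f (z i) = f (z j) := he
    rw [h4] at h2
    exact hE.eqv.trans h2 (hE.eqv.symm h3)
  rcases lt_or_gt_of_ne hij with h | h
  · exact ⟨i, j, h, h1⟩
  · exact ⟨j, i, h, hE.eqv.symm h1⟩

theorem sw {α β : Type} (x : α → U) (c : β → U) :
    (fun i => Sum.elim x c (Sum.swap i)) = Sum.elim c x := by
  funext i
  rcases i with i | i <;> rfl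

/-- swapping the two parts of a pair -/
theorem sq_swap {α β : Type} {A : Set U} {x x' : α → U} {y y' : β → U}
    (h : Sq L A (Sum.elim x y) (Sum.elim x' y')) : Sq L A (Sum.elim y x) (Sum.elim y' x') := by
  have h1 := sq_sub h (Sum.swap : β ⊕ α → α ⊕ β)
  have e : ∀ (x : α → U) (y : β → U), (fun i => Sum.elim x y (Sum.swap i)) = Sum.elim y x := by
    intro x y
    funext i
    rcases i with i | i <;> rfl
  rw [e, e] at h1
  exact h1

theorem sq_left {α β : Type} {A : Set U} {x x' : α → U} {y y' : β → U}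
    (h : Sq L A (Sum.elim x y) (Sum.elim x' y')) : Sq L A x x' := sq_sub h Sum.inl

theorem sq_right {α β : Type} {A : Set U} {x x' : α → U} {y y' : β → U}
    (h : Sq L A (Sum.elim x y) (Sum.elim x' y')) : Sq L A y y' := sq_sub h Sum.inr

/-! ### invariant types -/

section inv

variable {α β : Type} {r : ((α → U) → Prop) → Prop} {A : Set U}

theorem inv_any [Finite β] (hI : Inv L A r) {P : (α ⊕ β → U) → Prop} (hP : Dp L A P)
    {c c' : β → U} (h : Sq L A c c') (h1 : r (fun x => P (Sum.elim x c))) :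
    r (fun x => P (Sum.elim x c')) := by
  obtain ⟨n, ⟨e⟩⟩ := Finite.exists_equiv_fin β
  have h2 := hI n (fun v => P (Sum.elim (fun i => v (Sum.inl i)) (fun j => v (Sum.inr (e j))))) (by
      have h3 := dp_sub hP (Sum.map id e : α ⊕ β → α ⊕ Fin n)
      refine dp_congr h3 fun v => iff_of_eq ?_
      congr 1
      funext i
      rcases i with i | i <;> rfl)
    (fun i => c (e.symm i)) (fun i => c' (e.symm i)) (sq_sub h _)
  have e1 : ∀ (c : β → U), (fun x : α → U => P (Sum.elim (fun i => Sum.elim x (fun i => c (e.symm i)) (Sum.inl i))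
      (fun j => Sum.elim x (fun i => c (e.symm i)) (Sum.inr (e j))))) = fun x => P (Sum.elim x c) := by
    intro c
    funext x
    congr 1
    funext i
    rcases i with i | i
    · rfl
    · show c (e.symm (e i)) = c i
      rw [e.symm_apply_apply]
  have h4 : r (fun x : α → U => P (Sum.elim (fun i => Sum.elim x (fun i => c (e.symm i)) (Sum.inl i))
      (fun j => Sum.elim x (fun i => c (e.symm i)) (Sum.inr (e j))))) →
    r (fun x : α → U => P (Sum.elim (fun i => Sum.elim x (fun i => c' (e.symm i)) (Sum.inl i))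
      (fun j => Sum.elim x (fun i => c' (e.symm i)) (Sum.inr (e j))))) := h2
  rw [e1 c, e1 c'] at h4
  exact h4 h1

/-- invariance for classes of finite equivalence relations -/
theorem inv_fe [Finite α] [Finite β] (hC : Cx L U) (hr : GT L r) (hI : Inv L A r) (hA : A.Countable)
    {E : (α ⊕ β → U) → (α ⊕ β → U) → Prop} (hE : FE L A E) {c c' : β → U} (h : Sq L A c c')
    {d : α ⊕ β → U} (h1 : r (fun x => E (Sum.elim x c) d)) : r (fun x => E (Sum.elim x c') d) := by
  obtain ⟨d', hd'⟩ := sq_ext hC hA h d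
  have h2 : r (fun x => E (Sum.elim x c') d') := by
    have h3 := inv_any (β := β ⊕ (α ⊕ β)) hI (P := fun v => E (Sum.elim (fun i => v (Sum.inl i))
        (fun j => v (Sum.inr (Sum.inl j)))) (fun i => v (Sum.inr (Sum.inr i)))) (by
      have h4 := dp_sub hE.dfn (Sum.elim (Sum.elim (fun i => Sum.inl i)
        (fun j => Sum.inr (Sum.inl j))) (fun i => Sum.inr (Sum.inr i)) :
        (α ⊕ β) ⊕ (α ⊕ β) → α ⊕ (β ⊕ (α ⊕ β)))
      refine dp_congr h4 fun v => iff_of_eq ?_
      congr 1
      funext i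
      rcases i with i | i <;> rfl) hd' h1
    exact h3
  have h5 : E d d' := sq_right hd' E hE
  refine gt_mono hr h2 ?_ fun x hx => hE.eqv.trans hx (hE.eqv.symm h5)
  have h6 : Dp L (univ : Set U) (fun v : α ⊕ β → U => E v d) :=
    dp_mono (subset_univ _) (fe_cls hE d)
  exact dp_par h6 c' (fun i => mem_univ _)

/-- realisations of the restriction of an invariant type -/
theorem rl_sq [Finite α] [Finite β] (hC : Cx L U) (hr : GT L r) (hI : Inv L A r) (hA : A.Countable)
    {c c' : β → U} (h : Sq L A c c') {u u' : α → U} (hu : Rl L A r c u) (hu' : Rl L A r c' u') :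
    Sq L A (Sum.elim u c) (Sum.elim u' c') := by
  intro E hE
  have h1 := inv_fe hC hr hI hA hE h (hu E hE)
  obtain ⟨x, hx, hx'⟩ := hr.ne _ (hr.and _ _ h1 (hu' E hE))
  exact hE.eqv.trans (hE.eqv.symm hx) hx'

theorem rl_of_real {u : α → U} {c : β → U} {B : Set U} (hAB : A ⊆ B) (hc : ∀ i, c i ∈ B)
    (hu : ∀ E, FE L B E → r (fun x => E x u)) : Rl L A r c u := by
  intro E hE
  exact hu _ (fe_add (fe_mono hAB hE) hc)

theorem rl_dp (hr : GT L r) {u : α → U} {c : β → U} (hu : Rl L A r c u)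
    {P : (α ⊕ β → U) → Prop} (hP : Dp L A P) : r (fun x => P (Sum.elim x c)) ↔ P (Sum.elim u c) := by
  have h1 := hu _ (fe_of_dp hP)
  constructor
  · intro h
    obtain ⟨x, hx, hx'⟩ := hr.ne _ (hr.and _ _ h h1)
    exact hx'.1 hx
  · intro h
    exact gt_mono hr h1 (dp_par (dp_mono (subset_univ _) hP) c (fun i => mem_univ _))
      fun x hx => hx.2 h

/-- realisations over a smaller tuple -/
theorem rl_sub {γ : Type} (hr : GT L r) {u : α → U} {c : β → U} (hu : Rl L A r c u) (f : γ → β) :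
    Rl L A r (fun i => c (f i)) u := by
  intro E hE
  have h1 := hu _ (fe_sub hE (Sum.map id f : α ⊕ γ → α ⊕ β))
  have e : ∀ x : α → U, (fun i => Sum.elim x c (Sum.map id f i)) = Sum.elim x (fun i => c (f i)) := by
    intro x
    funext i
    rcases i with i | i <;> rfl
  simp only [e] at h1
  exact h1

/-- the strong type of a realisation -/
theorem rl_ets [Finite α] (hr : GT L r) {a u : α → U} {c : β → U} (ha : Ets L A a r)
    (hu : Rl L A r c u) : Sq L A a u := by
  intro E hE
  have h1 := hu _ (fe_sub hE (Sum.inl : α → α ⊕ β))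
  obtain ⟨x, hx, hx'⟩ := hr.ne _ (hr.and _ _ (ha E hE) h1)
  exact hE.eqv.trans (hE.eqv.symm hx) hx'

/-- a Morley sequence -/
theorem morley [Finite α] (hC : Cx L U) (hr : GT L r) (hA : A.Countable) :
    ∃ z : ℕ → (α → U), ∀ j, ∀ E, FE L (A ∪ ⋃ i ∈ {i | i < j}, range (z i)) E →
      r (fun x => E x (z j)) := by
  have h1 : ∀ B : {B : Set U // B.Countable}, ∃ u, ∀ E, FE L B.1 E → r (fun x => E x u) :=
    fun B => gt_real hC hr B.2
  choose p hp using h1
  let st : ℕ → {B : Set U // B.Countable} := fun n => Nat.rec ⟨A, hA⟩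
    (fun _ B => ⟨B.1 ∪ range (p B), B.2.union (countable_range _)⟩) n
  have hst : ∀ n, (st (n + 1)).1 = (st n).1 ∪ range (p (st n)) := fun n => rfl
  have hmono : ∀ i j, i ≤ j → (st i).1 ⊆ (st j).1 := by
    intro i j hij
    induction hij with
    | refl => exact Subset.refl _
    | step _ ih => exact ih.trans (by rw [hst]; exact subset_union_left)
  refine ⟨fun n => p (st n), fun j E hE => hp (st j) E (fe_mono ?_ hE)⟩
  refine union_subset ?_ ?_
  · exact hmono 0 j (Nat.zero_le j)
  · refine iUnion₂_subset fun i hi => ?_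
    have h2 : range (p (st i)) ⊆ (st (i + 1)).1 := by
      rw [hst]
      exact subset_union_right
    exact h2.trans (hmono _ _ hi)

/-- terms of a Morley sequence -/
theorem morley_rl {z : ℕ → (α → U)} (hz : ∀ j, ∀ E, FE L (A ∪ ⋃ i ∈ {i | i < j}, range (z i)) E →
      r (fun x => E x (z j))) {i j : ℕ} (h : i < j) : Rl L A r (z i) (z j) :=
  rl_of_real subset_union_left (fun k => Or.inr (mem_biUnion (show i ∈ {i | i < j} from h)
    (mem_range_self k))) (hz j)

end inv

/-- invariant extensions of strong types of tuples with any finite index type -/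
theorem cx_inv (hC : Cx L U) {α : Type} [Finite α] {A : Set U} (hA : A.Finite) (a : α → U) :
    ∃ r, GT L r ∧ Inv L A r ∧ Ets L A a r := by
  obtain ⟨n, ⟨e⟩⟩ := Finite.exists_equiv_fin α
  obtain ⟨r, hr, hI, hE⟩ := hC.inv A hA n (fun i => a (e.symm i))
  refine ⟨fun P => r (fun y => P (fun i => y (e i))), ⟨?_, ?_, ?_, ?_⟩, ?_, ?_⟩
  · intro P hP
    have h1 := dp_sub (hr.dfn _ hP) e.symm
    refine dp_congr h1 fun v => iff_of_eq ?_
    congr 1
    funext i
    show v i = v (e.symm (e i))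
    rw [e.symm_apply_apply]
  · intro P hP
    obtain ⟨x, hx⟩ := hr.ne _ hP
    exact ⟨_, hx⟩
  · intro P Q hP hQ
    exact hr.and _ _ hP hQ
  · intro P hP
    exact hr.max _ (dp_sub hP e)
  · intro m P hP c c' h h1
    have h2 := hI m (fun v => P (Sum.elim (fun i => v (Sum.inl (e i))) (fun j => v (Sum.inr j)))) (by
      have h3 := dp_sub hP (Sum.map e id : α ⊕ Fin m → Fin n ⊕ Fin m)
      refine dp_congr h3 fun v => iff_of_eq ?_
      congr 1
      funext i
      rcases i with i | i <;> rfl) c c' h h1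
    exact h2
  · intro E hE'
    have h1 := hE _ (fe_sub hE' e)
    have e1 : (fun i => a (e.symm (e i))) = a := by
      funext i
      rw [e.symm_apply_apply]
    have h2 : r (fun y => E (fun i => y (e i)) (fun i => a (e.symm (e i)))) := h1
    rw [e1] at h2
    exact h2

/-- **BND**: an invariant equivalence relation with finitely many classes on a strong type is trivial -/
theorem bnd (hC : Cx L U) {α : Type} [Finite α] {A : Set U} (hA : A.Finite) (a : α → U)
    (R : (α → U) → (α → U) → Prop)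
    (hs : ∀ x y, Sq L A a x → Sq L A a y → R x y → R y x)
    (ht : ∀ x y z, Sq L A a x → Sq L A a y → Sq L A a z → R x y → R y z → R x z)
    (hi : ∀ x y x' y', Sq L A a x → Sq L A a y → Sq L A (Sum.elim x y) (Sum.elim x' y') →
      R x y → R x' y') (k : ℕ)
    (hk : ∀ z : Fin (k + 1) → (α → U), (∀ i, Sq L A a (z i)) → ∃ i j, i < j ∧ R (z i) (z j)) :
    ∀ x y, Sq L A a x → Sq L A a y → R x y := by
  obtain ⟨r, hr, hI, hE⟩ := cx_inv hC hA a
  obtain ⟨z, hz⟩ := morley (A := A) hC hr hA.countable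
  have hzs : ∀ i, Sq L A a (z i) := fun i E hE' => by
    have h1 := hz i E (fe_mono subset_union_left hE')
    obtain ⟨x, hx, hx'⟩ := hr.ne _ (hr.and _ _ (hE E hE') h1)
    exact hE'.eqv.trans (hE'.eqv.symm hx) hx'
  obtain ⟨i, j, hij, hR⟩ := hk (fun i => z i) (fun i => hzs i)
  intro x y hx hy
  obtain ⟨w, hw⟩ := gt_real hC hr (B := A ∪ range x ∪ range y)
    ((hA.countable.union (countable_range _)).union (countable_range _))
  have hwx : Rl L A r x w := rl_of_real (B := A ∪ range x ∪ range y)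
    (subset_union_left.trans subset_union_left) (fun i => Or.inl (Or.inr ⟨i, rfl⟩)) hw
  have hwy : Rl L A r y w := rl_of_real (B := A ∪ range x ∪ range y)
    (subset_union_left.trans subset_union_left) (fun i => Or.inr ⟨i, rfl⟩) hw
  have hws : Sq L A a w := rl_ets hr hE hwx
  have key : ∀ v, Sq L A a v → Rl L A r v w → R v w := by
    intro v hv hvw
    have h1 := rl_sq hC hr hI hA.countable (sq_trans (sq_symm (hzs i)) hv)
      (morley_rl hz (show (i : ℕ) < j from hij)) hvw
    exact hi _ _ _ _ (hzs i) (hzs j) (sq_swap h1) hR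
  exact ht x w y hx hws hy (key x hx hwx) (hs y w hy hws (key y hy hwy))

/-- **LI**: `c`, `c'` have the same strong type over `A` and `u`, if `u` realises an invariant type over them -/
theorem li (hC : Cx L U) {α β : Type} [Finite α] [Finite β] {A : Set U} (hA : A.Finite)
    {r : ((α → U) → Prop) → Prop} (hr : GT L r) (hI : Inv L A r) {c c' : β → U} (h : Sq L A c c')
    {u : α → U} (hu : Rl L A r (Sum.elim c c') u) : Sq L (A ∪ range u) c c' := by
  intro E hE
  obtain ⟨Q, hQ, hQE⟩ := dp_fam hE.dfn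
  obtain ⟨k, hk⟩ := fe_num hE
  obtain ⟨i₀, j₀, hij₀, -⟩ := hk (fun _ => c)
  -- `G x`: the relation of `x` is an equivalence relation with at most `k` classes
  let G : (α → U) → Prop := fun x =>
    (∀ y : β → U, Q (Sum.elim (Sum.elim y y) x)) ∧
    (∀ w : β ⊕ β → U, Q (Sum.elim (Sum.elim (fun i => w (Sum.inl i)) (fun i => w (Sum.inr i))) x) →
      Q (Sum.elim (Sum.elim (fun i => w (Sum.inr i)) (fun i => w (Sum.inl i))) x)) ∧
    (∀ w : β ⊕ (β ⊕ β) → U, Q (Sum.elim (Sum.elim (fun i => w (Sum.inl i)) (fun i => w (Sum.inr (Sum.inl i)))) x) →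
      Q (Sum.elim (Sum.elim (fun i => w (Sum.inr (Sum.inl i))) (fun i => w (Sum.inr (Sum.inr i)))) x) →
      Q (Sum.elim (Sum.elim (fun i => w (Sum.inl i)) (fun i => w (Sum.inr (Sum.inr i)))) x)) ∧
    (∀ w : Fin (k + 1) × β → U, ∃ p : Fin (k + 1) × Fin (k + 1), p.1 < p.2 ∧
      Q (Sum.elim (Sum.elim (fun i => w (p.1, i)) (fun i => w (p.2, i))) x))
  have hG : Dp L A G := by
    have hsub : ∀ {γ : Type} (f g : β → α ⊕ γ), Dp L A (fun v : α ⊕ γ → U =>
        Q (Sum.elim (Sum.elim (fun i => v (f i)) (fun i => v (g i))) (fun i => v (Sum.inl i)))) := by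
      intro γ f g
      have h1 := dp_sub hQ (Sum.elim (Sum.elim f g) Sum.inl)
      refine dp_congr h1 fun v => iff_of_eq ?_
      congr 1
      funext i
      rcases i with (i | i) | i <;> rfl
    refine dp_and ?_ (dp_and ?_ (dp_and ?_ ?_))
    · exact dp_all (hsub (fun i => Sum.inr i) (fun i => Sum.inr i))
    · exact dp_all (dp_imp (hsub (fun i => Sum.inr (Sum.inl i)) (fun i => Sum.inr (Sum.inr i)))
        (hsub (fun i => Sum.inr (Sum.inr i)) (fun i => Sum.inr (Sum.inl i))))
    · exact dp_all (dp_imp (hsub (fun i => Sum.inr (Sum.inl i)) (fun i => Sum.inr (Sum.inr (Sum.inl i))))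
        (dp_imp (hsub (fun i => Sum.inr (Sum.inr (Sum.inl i))) (fun i => Sum.inr (Sum.inr (Sum.inr i))))
          (hsub (fun i => Sum.inr (Sum.inl i)) (fun i => Sum.inr (Sum.inr (Sum.inr i))))))
    · exact dp_all (dp_ex_fin fun p : Fin (k + 1) × Fin (k + 1) => dp_and (dp_const _)
        (hsub (fun i => Sum.inr (p.1, i)) (fun i => Sum.inr (p.2, i))))
  let Q' : ((β ⊕ β) ⊕ α → U) → Prop := fun v => G (fun i => v (Sum.inr i)) → Q v
  have hQ' : Dp L A Q' := dp_imp (dp_sub hG Sum.inr) hQ
  have hd : ∀ c₁ c₂ : β → U, Dp L (univ : Set U) (fun x : α → U => Q' (Sum.elim (Sum.elim c₁ c₂) x)) := by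
    intro c₁ c₂
    have h1 := dp_par (dp_sub (dp_mono (subset_univ _) hQ') (Sum.swap : (β ⊕ β) ⊕ α → α ⊕ (β ⊕ β)))
      (Sum.elim c₁ c₂) (fun i => mem_univ _)
    exact dp_congr h1 fun v => iff_of_eq (congrArg Q' (sw v (Sum.elim c₁ c₂)).symm)
  have hR := bnd hC hA c (fun c₁ c₂ => r (fun x => Q' (Sum.elim (Sum.elim c₁ c₂) x)))
    (fun x y _ _ h1 => gt_mono hr h1 (hd y x) fun v hv hG' =>
      hG'.2.1 (Sum.elim x y) (hv hG'))
    (fun x y z _ _ _ h1 h2 => gt_mono hr (hr.and _ _ h1 h2) (hd x z) fun v hv hG' =>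
      hG'.2.2.1 (Sum.elim x (Sum.elim y z)) (hv.1 hG') (hv.2 hG'))
    (fun x y x' y' _ _ h1 h2 => by
      have h3 := inv_any hI (P := fun v : α ⊕ (β ⊕ β) → U => Q' (fun i => v (Sum.swap i)))
        (dp_sub hQ' Sum.swap) h1 (by
          have e : (fun v : α → U => Q' (fun i => Sum.elim v (Sum.elim x y) (Sum.swap i))) =
              fun v : α → U => Q' (Sum.elim (Sum.elim x y) v) :=
            funext fun v => congrArg Q' (sw v (Sum.elim x y))
          rw [e]
          exact h2)
      have e : (fun v : α → U => Q' (fun i => Sum.elim v (Sum.elim x' y') (Sum.swap i))) =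
          fun v : α → U => Q' (Sum.elim (Sum.elim x' y') v) :=
        funext fun v => congrArg Q' (sw v (Sum.elim x' y'))
      rw [e] at h3
      exact h3) k
    (fun z hz => by
      obtain ⟨p, hp, hp'⟩ := gt_ex hr (s := {p : Fin (k + 1) × Fin (k + 1) | p.1 < p.2})
        (Set.toFinite _) (P := fun p x => Q' (Sum.elim (Sum.elim (z p.1) (z p.2)) x))
        (fun p _ => hd _ _) (gt_mono hr (gt_true hr)
          (dp_bex (Set.toFinite _) fun p _ => hd _ _) (fun x _ => by
          by_cases hx : G x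
          · obtain ⟨p, hp, hp'⟩ := hx.2.2.2 (fun q => z q.1 q.2)
            exact ⟨p, hp, fun _ => hp'⟩
          · exact ⟨(i₀, j₀), hij₀, fun h' => absurd h' hx⟩))
      exact ⟨p.1, p.2, hp, hp'⟩)
  have h1 := hR c c' (sq_refl A c) h
  have h2 := (rl_dp hr hu (P := fun v : α ⊕ (β ⊕ β) → U => Q' (fun i => v (Sum.swap i)))
    (dp_sub hQ' Sum.swap)).1 (by
      have e : (fun v : α → U => Q' (fun i => Sum.elim v (Sum.elim c c') (Sum.swap i))) =
          fun v : α → U => Q' (Sum.elim (Sum.elim c c') v) :=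
        funext fun v => congrArg Q' (sw v (Sum.elim c c'))
      rw [e]
      exact h1)
  have e : (fun i => Sum.elim u (Sum.elim c c') (Sum.swap i)) = Sum.elim (Sum.elim c c') u := by
    funext i
    rcases i with i | i <;> rfl
  have h3 : Q' (fun i => Sum.elim u (Sum.elim c c') (Sum.swap i)) := h2
  rw [e] at h3
  have hGu : G u := by
    refine ⟨fun y => ?_, fun w hw => ?_, fun w hw hw' => ?_, fun w => ?_⟩
    · exact (hQE (Sum.elim y y)).1 (hE.eqv.refl y)
    · exact (hQE (Sum.elim (fun i => w (Sum.inr i)) (fun i => w (Sum.inl i)))).1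
        (hE.eqv.symm ((hQE (Sum.elim (fun i => w (Sum.inl i)) (fun i => w (Sum.inr i)))).2 hw))
    · exact (hQE (Sum.elim (fun i => w (Sum.inl i)) (fun i => w (Sum.inr (Sum.inr i))))).1
        (hE.eqv.trans
          ((hQE (Sum.elim (fun i => w (Sum.inl i)) (fun i => w (Sum.inr (Sum.inl i))))).2 hw)
          ((hQE (Sum.elim (fun i => w (Sum.inr (Sum.inl i))) (fun i => w (Sum.inr (Sum.inr i))))).2 hw'))
    · obtain ⟨i, j, hij, h4⟩ := hk (fun i b => w (i, b))
      exact ⟨(i, j), hij, (hQE (Sum.elim (fun b => w (i, b)) (fun b => w (j, b)))).1 h4⟩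
  exact (hQE (Sum.elim c c')).2 (h3 hGu)

end Pool.Agent.TPX
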