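import Pool.Agent.TPX.StF
import Pool.Agent.TPX.Fre1

/-!
# TPX module LOH (helper58): calculus of linear pieces
-/

set_option autoImplicit false
set_option linter.unusedVariables false

namespace Pool.Agent.TPX

open FirstOrder.Language Set
open scoped FirstOrder
open Pool.Agent.MNO

section

variable {L : FirstOrder.Language.{0, 0}} {U : Type} [L.Structure U]
variable {A P : Set U} {lt : U → U → Prop}

theorem lo0_bf (hC : Cx L U) (h : LO0 L A P lt) : BF L A P := by
  obtain ⟨x, hx⟩ := h.ne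
  rw [← h.pc x hx]
  exact pc_bf hC x

theorem lo_bf (hC : Cx L U) (h : LO L A P lt) : BF L A P := lo0_bf hC h.lo0

/-- the reversed order -/
theorem lo_rev (h : LO L A P lt) : LO L A P (fun x y => lt y x) := by
  refine ⟨⟨h.lo0.fin, h.lo0.ne, h.lo0.pc, ?_, h.lo0.irr, ?_, ?_, ?_, ?_⟩, ?_⟩
  · intro x y x' y' hs hx hy hxy
    refine h.lo0.inv y x y' x' (sq_cov hs ?_) hy hx hxy
    intro i
    fin_cases i
    · exact ⟨1, rfl, rfl⟩
    · exact ⟨0, rfl, rfl⟩
  · intro x hx y hy z hz h1 h2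
    exact h.lo0.tra z hz y hy x hx h2 h1
  · intro x hx y hy z hz h1
    exact (h.lo0.neg z hz y hy x hx h1).symm
  · intro D W hD hW hDP hWP hDW z hz
    obtain ⟨z', h1, h2, h3⟩ := h.lo0.gap W D hW hD hWP hDP (fun w hw d hd => hDW d hd w hw) z hz
    exact ⟨z', h1, h3, h2⟩
  · intro m u u' W hW hWP hu hs hlt
    have h1 := h.ort m u u' W ∅ hW finite_empty hWP (empty_subset P) hu hs hlt
      (fun w hw => absurd hw (notMem_empty w))
    rw [union_empty] at h1
    exact h1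
  · intro m u u' D W hD hW hDP hWP hu hs h1 h2
    have h3 := h.ort m u u' W D hW hD hWP hDP hu hs h2 h1
    rw [union_assoc, union_comm W D, ← union_assoc] at h3
    exact h3

/-- the part above a point is in the algebra -/
theorem lo_upbf (hC : Cx L U) (h : LO L A P lt) {y : U} (hy : y ∈ P) :
    BF L (insert y A) {v | v ∈ P ∧ lt y v} := by
  have hbf := lo_bf hC h
  refine ⟨fun x x' hs hx => ⟨hbf.inv x x' (sq_mono (subset_insert y A) hs) hx.1, ?_⟩, ?_⟩
  · have h1 := sq_add hs (s1 y) (fun _ => mem_insert y A)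
    refine h.lo0.inv y x y x' (sq_cov (sq_mono (subset_insert y A) h1) ?_) hy hx.1 hx.2
    intro i
    fin_cases i
    · exact ⟨Sum.inr 0, rfl, rfl⟩
    · exact ⟨Sum.inl 0, rfl, rfl⟩
  · intro m n u u' w hu hu' hw hs
    have hDf : ({y} ∪ (range w ∩ P)).Finite := (finite_singleton y).union ((finite_range w).inter_of_left P)
    have hDP : {y} ∪ (range w ∩ P) ⊆ P := by
      rintro x (rfl | hx)
      · exact hy
      · exact hx.2
    have hlow : ∀ d ∈ ({y} ∪ (range w ∩ P) : Set U), ∀ v, v ∈ P ∧ lt y v → lt d v := by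
      rintro d (rfl | ⟨⟨j, rfl⟩, hdP⟩) v ⟨hvP, hyv⟩
      · exact hyv
      · rcases h.lo0.neg y hy (w j) hdP v hvP hyv with h1 | h1
        · exact absurd ⟨hdP, h1⟩ (hw j)
        · exact h1
    have h1 := h.ort m u u' ({y} ∪ (range w ∩ P)) ∅ hDf finite_empty hDP (empty_subset P)
      (fun i => (hu i).1) (sq_mono (subset_insert y A) hs)
      (fun d hd i => ⟨hlow d hd _ (hu i), hlow d hd _ (hu' i)⟩) (fun w hw => absurd hw (notMem_empty w))
    rw [union_empty] at h1
    have h2 := of hC (h.lo0.fin.union hDf) subset_union_left hbf (fun i => (hu i).1) h1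
      (β := {j // w j ∉ P}) (w := fun j => w j) (fun j => j.2)
    have h3 := sq_add h2 w (by
      intro j
      by_cases hj : w j ∈ P
      · exact Or.inl (Or.inr (Or.inr ⟨⟨j, rfl⟩, hj⟩))
      · exact Or.inr ⟨⟨j, hj⟩, rfl⟩)
    refine sq_mono (insert_subset ?_ ?_) h3
    · exact Or.inl (Or.inr (Or.inl rfl))
    · exact subset_union_left.trans subset_union_left

/-- the part above a point is a linear piece -/
theorem lo_up (hC : Cx L U) (h : LO L A P lt) {y : U} (hy : y ∈ P) :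
    LO L (insert y A) {v | v ∈ P ∧ lt y v} lt := by
  have hbf := lo_bf hC h
  have hup := lo_upbf hC h hy
  have hsub : {v | v ∈ P ∧ lt y v} ⊆ P := fun v hv => hv.1
  -- conjugate points above `y` are conjugate over `y`
  have hsq : ∀ v v' : U, v ∈ P → lt y v → lt y v' → Sq L A (s1 v) (s1 v') →
      Sq L (insert y A) (s1 v) (s1 v') := by
    intro v v' hv h1 h2 hs
    have h3 := h.ort 1 (s1 v) (s1 v') {y} ∅ (finite_singleton y) finite_empty
      (singleton_subset_iff.2 hy) (empty_subset P) (fun _ => hv) hs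
      (fun d hd _ => by
        rw [mem_singleton_iff] at hd
        rw [hd]
        exact ⟨h1, h2⟩)
      (fun w hw => absurd hw (notMem_empty w))
    rw [union_empty, union_singleton] at h3
    exact h3
  have hort : ∀ (m : ℕ) (u u' : Fin m → U) (D W : Set U), D.Finite → W.Finite →
      D ⊆ {v | v ∈ P ∧ lt y v} → W ⊆ {v | v ∈ P ∧ lt y v} → (∀ i, u i ∈ {v | v ∈ P ∧ lt y v}) →
      Sq L (insert y A) u u' → (∀ d ∈ D, ∀ i, lt d (u i) ∧ lt d (u' i)) →
      (∀ w ∈ W, ∀ i, lt (u i) w ∧ lt (u' i) w) → Sq L (insert y A ∪ D ∪ W) u u' := by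
    intro m u u' D W hD hW hDP hWP hu hs h1 h2
    have hu' : ∀ i, u' i ∈ {v | v ∈ P ∧ lt y v} := fun i => (bf_inv hup hs i).1 (hu i)
    have h3 := h.ort m u u' ({y} ∪ D) W ((finite_singleton y).union hD) hW
      (union_subset (singleton_subset_iff.2 hy) (hDP.trans hsub)) (hWP.trans hsub)
      (fun i => (hu i).1) (sq_mono (subset_insert y A) hs) (by
        rintro d (hd | hd) i
        · rw [mem_singleton_iff] at hd
          rw [hd]
          exact ⟨(hu i).2, (hu' i).2⟩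
        · exact h1 d hd i) h2
    refine sq_mono ?_ h3
    refine union_subset_union_left W ?_
    rw [← union_assoc, union_singleton]
  refine ⟨⟨h.lo0.fin.insert y, ?_, ?_, ?_, fun x hx => h.lo0.irr x hx.1, ?_, ?_, ?_, ?_⟩, hort⟩
  · obtain ⟨z', h1, h2, -⟩ := h.lo0.gap {y} ∅ (finite_singleton y) finite_empty
      (singleton_subset_iff.2 hy) (empty_subset P) (fun d _ w hw => absurd hw (notMem_empty w)) y hy
    exact ⟨z', hbf.inv _ _ h1 hy, h2 y rfl⟩
  · intro v hv
    refine Subset.antisymm (pc_sub hup hv) ?_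
    intro v' hv' Q hQ hvQ
    by_contra hv'Q
    obtain ⟨v₁, h1, h2, -⟩ := h.lo0.gap {y, v'} ∅ (by simp) finite_empty
      (by rintro x (rfl | rfl); exacts [hy, hv'.1]) (empty_subset P)
      (fun d _ w hw => absurd hw (notMem_empty w)) v hv.1
    obtain ⟨v₂, h3, h4, h5⟩ := h.lo0.gap {y} {v'} (finite_singleton y) (finite_singleton v')
      (singleton_subset_iff.2 hy) (singleton_subset_iff.2 hv'.1) (by
        rintro d hd w hw
        rw [mem_singleton_iff] at hd hw
        rw [hd, hw]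
        exact hv'.2) v hv.1
    have h6 := hsq v v₁ hv.1 hv.2 (h2 y (Or.inl rfl)) h1
    have h7 := hsq v v₂ hv.1 hv.2 (h4 y rfl) h3
    have hR := bf_inter hC hup hQ
    have hvR : v ∈ {v | v ∈ P ∧ lt y v} ∩ Q := ⟨hv, hvQ⟩
    have h8 := hR.inv _ _ h6 hvR
    have h9 := hR.inv _ _ h7 hvR
    have h10 := bf_prd hR (u := s1 v₁) (u' := s1 v₂) (w := s1 v') (fun _ => h8)
      (fun _ hc => hv'Q hc.2) (sq_trans (sq_symm h6) h7)
    have h11 : lt v' v₂ := by
      refine h.lo0.inv v' v₁ v' v₂ (sq_cov (sq_mono (subset_insert y A) h10) ?_) hv'.1 h8.1.1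
        (h2 v' (Or.inr rfl))
      intro i
      fin_cases i
      · exact ⟨Sum.inr 0, rfl, rfl⟩
      · exact ⟨Sum.inl 0, rfl, rfl⟩
    exact h.lo0.irr v' hv'.1 (h.lo0.tra v' hv'.1 v₂ h9.1.1 v' hv'.1 h11 (h5 v' rfl))
  · intro x z x' z' hs hx hz hxz
    exact h.lo0.inv x z x' z' (sq_mono (subset_insert y A) hs) hx.1 hz.1 hxz
  · intro x hx z hz w hw
    exact h.lo0.tra x hx.1 z hz.1 w hw.1
  · intro x hx z hz w hw
    exact h.lo0.neg x hx.1 z hz.1 w hw.1
  · intro D W hD hW hDP hWP hDW z hz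
    obtain ⟨z', h1, h2, h3⟩ := h.lo0.gap ({y} ∪ D) W ((finite_singleton y).union hD) hW
      (union_subset (singleton_subset_iff.2 hy) (hDP.trans hsub)) (hWP.trans hsub) (by
        rintro d (hd | hd) w hw
        · rw [mem_singleton_iff] at hd
          rw [hd]
          exact (hWP hw).2
        · exact hDW d hd w hw) z hz.1
    exact ⟨z', hsq z z' hz.1 hz.2 (h2 y (Or.inl rfl)) h1, fun d hd => h2 d (Or.inr hd), h3⟩
  · intro m u u' W hW hWP hu hs hlt
    have h1 := hort m u u' ∅ W finite_empty hW (empty_subset _) hWP hu hs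
      (fun d hd => absurd hd (notMem_empty d)) hlt
    rw [union_empty] at h1
    exact h1

theorem lo_dn (hC : Cx L U) (h : LO L A P lt) {y : U} (hy : y ∈ P) :
    LO L (insert y A) {v | v ∈ P ∧ lt v y} lt := lo_rev (lo_up hC (lo_rev h) hy)

theorem lo_cl (hC : Cx L U) (h : LO L A P lt) {y : U} (hy : y ∈ P) :
    BF L (insert y A) {v | v ∈ P ∧ ¬ lt y v ∧ ¬ lt v y} := by
  have hcnt : (insert y A).Countable := (h.lo0.fin.insert y).countable
  have h1 := bf_diff hC hcnt (bf_diff hC hcnt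
    (bf_mono hC (h.lo0.fin.insert y) (subset_insert y A) (lo_bf hC h)) (lo_bf hC (lo_up hC h hy)))
    (lo_bf hC (lo_dn hC h hy))
  have e : (P \ {v | v ∈ P ∧ lt y v}) \ {v | v ∈ P ∧ lt v y} = {v | v ∈ P ∧ ¬ lt y v ∧ ¬ lt v y} := by
    ext v
    constructor
    · rintro ⟨⟨h2, h3⟩, h4⟩
      exact ⟨h2, fun h5 => h3 ⟨h2, h5⟩, fun h5 => h4 ⟨h2, h5⟩⟩
    · rintro ⟨h2, h3, h4⟩
      exact ⟨⟨h2, fun h5 => h3 h5.2⟩, fun h5 => h4 h5.2⟩
  rw [e] at h1
  exact h1

theorem lo_ort (hC : Cx L U) (h : LO L A P lt) {m n : ℕ} {u u' : Fin m → U} {w w' : Fin n → U}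
    (hu : ∀ i, u i ∈ P) (hw : ∀ j, w j ∈ P) (huu : Sq L A u u') (hww : Sq L A w w')
    (h1 : ∀ i j, lt (u i) (w j)) (h2 : ∀ i j, lt (u' i) (w' j)) :
    Sq L A (Sum.elim u w) (Sum.elim u' w') := by
  have hbf := lo_bf hC h
  obtain ⟨u'', hu''⟩ := sq_ext hC h.lo0.fin.countable hww u
  have h3 : Sq L A u u'' := sq_right hu''
  have hw' : ∀ j, w' j ∈ P := fun j => (bf_inv hbf hww j).1 (hw j)
  have hu''P : ∀ i, u'' i ∈ P := fun i => (bf_inv hbf h3 i).1 (hu i)
  have h4 := h.lo0.orl m u'' u' (range w') (finite_range w') (by rintro x ⟨j, rfl⟩; exact hw' j)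
    hu''P (sq_trans (sq_symm h3) huu) (by
      rintro x ⟨j, rfl⟩ i
      refine ⟨?_, h2 i j⟩
      refine h.lo0.inv (u i) (w j) (u'' i) (w' j) (sq_cov hu'' ?_) (hu i) (hw j) (h1 i j)
      intro k
      fin_cases k
      · exact ⟨Sum.inr i, rfl, rfl⟩
      · exact ⟨Sum.inl j, rfl, rfl⟩)
  have h5 := sq_mono subset_union_left (sq_add h4 w' (fun j => Or.inr ⟨j, rfl⟩))
  exact sq_trans (sq_swap hu'') h5

end

/-- [LOH] calculus of linear pieces -/
theorem thm_LOH : St_LOH := fun L U _ hC A P lt h =>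
  ⟨lo_rev h, fun y hy => lo_up hC h hy, fun y hy => lo_dn hC h hy, fun y hy => lo_cl hC h hy,
    fun m n u u' w w' hu hw huu hww h1 h2 => lo_ort hC h hu hw huu hww h1 h2⟩

end Pool.Agent.TPX
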