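import Pool.Agent.TPX.MOC

/-!
# TPX module ORC: calculus of orthogonality
-/

set_option autoImplicit false
set_option linter.unusedVariables false

namespace Pool.Agent.TPX

open FirstOrder.Language Set
open scoped FirstOrder
open Pool.Agent.MNO

variable {L : FirstOrder.Language.{0, 0}} {U : Type} [L.Structure U]

section orc

variable {α : Type} {r : ((α → U) → Prop) → Prop} {A : Set U}

theorem fl_surj (hn : Nonempty U) (n : ℕ) (w : Fin n × α → U) : ∃ z : ℕ → α → U, fl n z = w := by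
  classical
  refine ⟨fun i a => if h : i < n then w (⟨i, h⟩, a) else Classical.arbitrary U, ?_⟩
  funext v
  obtain ⟨i, a⟩ := v
  show (if h : (i : ℕ) < n then w (⟨i, h⟩, a) else Classical.arbitrary U) = w (i, a)
  rw [dif_pos i.2]

theorem or_sub {γ δ : Type} {c : γ → U} (f : δ → γ) (h : Or L A r c) : Or L A r (fun i => c (f i)) := by
  intro n z hz
  refine mo_mono (union_subset_union_right _ ?_) le_rfl (h n z hz)
  rintro _ ⟨i, rfl⟩
  exact ⟨f i, rfl⟩

theorem or_cov {γ δ : Type} {c : γ → U} {d : δ → U} (h : Or L A r c) (hd : ∀ i, ∃ j, c j = d i) :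
    Or L A r d := by
  intro n z hz
  refine mo_mono (union_subset_union_right _ ?_) le_rfl (h n z hz)
  rintro _ ⟨i, rfl⟩
  exact hd i

theorem or_mv [Finite α] (hC : Cx L U) (hr : GT L r) (hA : A.Finite) (hI : Inv L A r)
    {γ δ : Type} [Finite γ] [Finite δ] {c c' : γ → U} {d d' : δ → U}
    (h : Sq L A (Sum.elim c d) (Sum.elim c' d')) (ho : Or L (A ∪ range d) r c) :
    Or L (A ∪ range d') r c' := by
  intro n z' hz'
  obtain ⟨w, hw⟩ := sq_ext hC hA.countable (sq_symm h) (fl n z')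
  obtain ⟨z, rfl⟩ := fl_surj hC.ne n w
  have h1 : Mo L (A ∪ range d) r n z := by
    refine mo_mv hC hr hA hI (sq_cov hw ?_) hz'
    rintro (v | i)
    · exact ⟨Sum.inr v, rfl, rfl⟩
    · exact ⟨Sum.inl (Sum.inr i), rfl, rfl⟩
  have h2 := ho n z h1
  have e : ∀ (c : γ → U) (d : δ → U), A ∪ range (Sum.elim d c) = A ∪ range d ∪ range c := by
    intro c d
    rw [Set.Sum.elim_range, union_assoc]
  rw [← e] at h2 ⊢
  refine mo_mv hC hr hA hI (sq_cov (sq_symm hw) ?_) h2
  rintro (v | i | i)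
  · exact ⟨Sum.inr v, rfl, rfl⟩
  · exact ⟨Sum.inl (Sum.inr i), rfl, rfl⟩
  · exact ⟨Sum.inl (Sum.inl i), rfl, rfl⟩

/-- the same without `d` -/
theorem or_mv0 [Finite α] (hC : Cx L U) (hr : GT L r) (hA : A.Finite) (hI : Inv L A r)
    {γ : Type} [Finite γ] {c c' : γ → U} (h : Sq L A c c') (ho : Or L A r c) : Or L A r c' := by
  have e : A ∪ range (s0 : Fin 0 → U) = A := by
    rw [range_eq_empty, union_empty]
  have h1 := or_mv hC hr hA hI (c := c) (c' := c') (d := (s0 : Fin 0 → U)) (d' := s0)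
    (sq_cov h (by
      rintro (i | i)
      · exact ⟨i, rfl, rfl⟩
      · exact i.elim0)) (by rw [e]; exact ho)
  rw [e] at h1
  exact h1

theorem or_of [Finite α] (hC : Cx L U) (hr : GT L r) (hA : A.Finite) (hI : Inv L A r)
    {γ : Type} [Finite γ] {c : γ → U} (h : ∀ (n : ℕ) (z z' : ℕ → α → U), Mo L A r n z →
      Mo L (A ∪ range c) r n z' → Sq L A (Sum.elim (fl n z) c) (Sum.elim (fl n z') c)) :
    Or L A r c := by
  intro n z hz
  obtain ⟨z', hz'⟩ := mo_ex0 hC hr (C := A ∪ range c) (hA.countable.union (countable_range _))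
  exact mo_mv hC hr hA hI (sq_symm (h n z z' hz (hz' n))) (hz' n)

theorem or_not {γ : Type} {c : γ → U} (h : ¬ Or L A r c) :
    ∃ (n : ℕ) (z : ℕ → α → U) (u : α → U), Mo L A r n z ∧ Ets L (A ∪ rg n z) u r ∧
      ¬ Ets L (A ∪ range c ∪ rg n z) u r := by
  unfold Or at h
  push Not at h
  obtain ⟨n, z, hz, hn⟩ := h
  unfold Mo at hn
  push Not at hn
  obtain ⟨j, hj, hn⟩ := hn
  exact ⟨j, z, z j, mo_mono Subset.rfl hj.le hz, hz j hj, hn⟩

/-- concatenation -/
theorem seq_app (n : ℕ) (z y : ℕ → α → U) :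
    ∃ w : ℕ → α → U, (∀ i < n, w i = z i) ∧ ∀ j, w (n + j) = y j := by
  refine ⟨fun i => if i < n then z i else y (i - n), fun i hi => if_pos hi, fun j => ?_⟩
  show (if n + j < n then z (n + j) else y (n + j - n)) = y j
  rw [if_neg (by omega)]
  congr 1
  omega

theorem or_mo [Finite α] {γ : Type} {c : γ → U} {n : ℕ} {z : ℕ → α → U} (h : Or L A r c)
    (hz : Mo L A r n z) : Or L (A ∪ rg n z) r c := by
  intro m y hy
  obtain ⟨w, e1, e2⟩ := seq_app n z y
  have h1 : Mo L A r (n + m) w := by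
    refine mo_app (mo_congr (fun i hi => (e1 i hi).symm) hz) fun j hj => ?_
    rw [e2]
    refine ets_mono ?_ (hy j hj)
    refine union_subset (subset_union_left.trans subset_union_left) ?_
    rintro x ⟨i, hi, a, rfl⟩
    by_cases hin : i < n
    · exact Or.inl (Or.inr ⟨i, hin, a, by rw [e1 i hin]⟩)
    · refine Or.inr ⟨i - n, by omega, a, ?_⟩
      rw [← e2]
      congr 1
      omega
  have h2 := h _ _ h1
  intro j hj
  have h3 := h2 (n + j) (by omega)
  rw [e2] at h3
  refine ets_mono ?_ h3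
  refine union_subset (union_subset (union_subset (subset_union_left.trans subset_union_left) ?_) ?_) ?_
  · rintro x ⟨i, hi, a, rfl⟩
    exact Or.inr ⟨i, by omega, a, by rw [e1 i hi]⟩
  · rintro x ⟨i, rfl⟩
    exact Or.inl (Or.inr ⟨i, rfl⟩)
  · rintro x ⟨i, hi, a, rfl⟩
    exact Or.inr ⟨n + i, by omega, a, by rw [e2]⟩

theorem or_sym [Finite α] (hC : Cx L U) (hr : GT L r) (hA : A.Finite) (hI : Inv L A r)
    {β : Type} [Finite β] {s : ((β → U) → Prop) → Prop} (hs : GT L s) (hIs : Inv L A s)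
    (h : ∀ (n : ℕ) (z : ℕ → β → U), Mo L A s n z → Or L A r (fl n z))
    {n : ℕ} {w : ℕ → α → U} (hw : Mo L A r n w) : Or L A s (fl n w) := by
  refine or_of hC hs hA hIs fun m z z' hz hz' => ?_
  have h1 := h m z hz
  have h2 := h m z' (mo_mono subset_union_left le_rfl hz')
  have h3 := mo_uni0 hC hs hA hIs hz (mo_mono subset_union_left le_rfl hz')
  exact sq_swap (mo_uni hC hr hA hI h3 (h1 n w hw) (h2 n w hw))

end orc

/-- [ORC] calculus of orthogonality -/
theorem thm_ORC : St_ORC := by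
  intro L U _ hC α _ r hr A hA hI
  exact ⟨fun γ δ _ _ c c' d d' h ho => or_mv hC hr hA hI h ho,
    fun γ _ c h => or_of hC hr hA hI h,
    fun γ _ c h => or_not h,
    fun γ _ c n z h hz => or_mo h hz,
    fun β _ s hs hIs h n w hw => or_sym hC hr hA hI hs hIs h hw,
    fun γ δ _ _ c f h => or_sub f h⟩

end Pool.Agent.TPX
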